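import Pool.Agent.Work.MP_052a41_nc.Defs

/-! Block A1 of MP_052a41_an: elementary properties of `phi`. -/

set_option autoImplicit false

open scoped ENNReal

namespace Pool.NC

variable {Ω : Type}

private theorem A1_ms_le_one {p : Ω → ℝ≥0∞} (hp : Prb p) (S : Set Ω) : ms p S ≤ 1 := by
  unfold ms
  calc ∑' x, S.indicator p x ≤ ∑' x, p x :=
        ENNReal.tsum_le_tsum (fun x => Set.indicator_le_self S p x)
    _ = 1 := hp

private theorem A1_lev (r : Ω → Ω → ℝ≥0∞) (p : Ω → ℝ≥0∞) (hp : Prb p) (a : ℝ≥0∞) (x : Ω) :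
    ms (r x) (lev r p a x) ≤ a := by
  unfold ms
  calc ∑' t, (lev r p a x).indicator (r x) t ≤ ∑' t, a * p t := by
        refine ENNReal.tsum_le_tsum (fun t => ?_)
        by_cases h : t ∈ lev r p a x
        · rw [Set.indicator_of_mem h]
          exact le_of_lt h
        · rw [Set.indicator_of_notMem h]
          exact zero_le
    _ = a * ∑' t, p t := ENNReal.tsum_mul_left
    _ = a := by rw [show ∑' t, p t = 1 from hp, mul_one]

private theorem A1_avg {p : Ω → ℝ≥0∞} (hp : Prb p) (g : Ω → ℝ≥0∞) (c : ℝ≥0∞)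
    (h : ∀ x, g x ≤ c) : ∑' x, p x * g x ≤ c := by
  calc ∑' x, p x * g x ≤ ∑' x, p x * c :=
        ENNReal.tsum_le_tsum (fun x => mul_le_mul_right (h x) _)
    _ = (∑' x, p x) * c := ENNReal.tsum_mul_right
    _ = c := by rw [show ∑' t, p t = 1 from hp, one_mul]

theorem A1 : St_A1 := by
  intro Ω r p hr hp
  refine ⟨fun a => A1_avg hp _ _ (fun x => A1_lev r p hp a x),
    fun a => A1_avg hp _ _ (fun x => A1_ms_le_one (hr x) _), ?_⟩
  intro a b hab
  unfold phi ms
  refine ENNReal.tsum_le_tsum (fun x => mul_le_mul_right ?_ _)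
  refine ENNReal.tsum_le_tsum (fun t => ?_)
  refine Set.indicator_le_indicator_of_subset ?_ (fun _ => zero_le) t
  intro t ht
  exact lt_of_lt_of_le ht (mul_le_mul_left hab _)

end Pool.NC
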