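import Pool.Agent.Work.MP_052a41_nc.Defs

/-!
# Near-contractive projections on `C(K)` (MP_052a41_an), block A11: self-improvement of a
concentrated row
-/

set_option autoImplicit false

open scoped ENNReal

namespace Pool.NC

namespace A11_

variable {Ω : Type}

theorem ev_mono {p f g : Ω → ℝ≥0∞} (h : ∀ x, f x ≤ g x) : ev p f ≤ ev p g :=
  ENNReal.tsum_le_tsum fun x => by gcongr; exact h x

theorem ev_add (p f g : Ω → ℝ≥0∞) : ev p (fun x => f x + g x) = ev p f + ev p g := by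
  unfold ev
  rw [← ENNReal.tsum_add]
  exact tsum_congr fun x => mul_add _ _ _

theorem ev_const {p : Ω → ℝ≥0∞} (hp : Prb p) (c : ℝ≥0∞) : ev p (fun _ => c) = c := by
  unfold ev
  rw [ENNReal.tsum_mul_right, hp, one_mul]

theorem ev_const_mul (p f : Ω → ℝ≥0∞) (c : ℝ≥0∞) : ev p (fun x => c * f x) = c * ev p f := by
  unfold ev
  rw [← ENNReal.tsum_mul_left]
  exact tsum_congr fun x => mul_left_comm _ _ _

theorem ev_le {p f : Ω → ℝ≥0∞} (hp : Prb p) (c : ℝ≥0∞) (h : ∀ x, f x ≤ c) : ev p f ≤ c :=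
  (ev_mono h).trans (ev_const hp c).le

theorem ms_eq (p : Ω → ℝ≥0∞) (S : Set Ω) : ms p S = ev p (S.indicator 1) := by
  classical
  unfold ms ev
  refine tsum_congr fun x => ?_
  by_cases hx : x ∈ S
  · simp [hx]
  · simp [hx]

theorem ind_le (S : Set Ω) (x : Ω) : (S.indicator 1 : Ω → ℝ≥0∞) x ≤ 1 := by
  classical
  by_cases hx : x ∈ S
  · simp [hx]
  · simp [hx]

theorem ms_le_one {p : Ω → ℝ≥0∞} (hp : Prb p) (S : Set Ω) : ms p S ≤ 1 := by
  rw [ms_eq]
  exact ev_le hp 1 (ind_le S)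

theorem ms_compl {p : Ω → ℝ≥0∞} (hp : Prb p) (S : Set Ω) : ms p S + ms p Sᶜ = 1 := by
  classical
  unfold ms
  rw [← ENNReal.tsum_add, ← hp]
  refine tsum_congr fun x => ?_
  by_cases hx : x ∈ S
  · simp [hx]
  · simp [hx]

theorem ms_mono (p : Ω → ℝ≥0∞) {S T : Set Ω} (h : S ⊆ T) : ms p S ≤ ms p T := by
  rw [ms_eq, ms_eq]
  refine ev_mono fun x => ?_
  exact Set.indicator_le_indicator_of_subset h (fun _ => zero_le) x

theorem ms_union_le (p : Ω → ℝ≥0∞) (S T : Set Ω) : ms p (S ∪ T) ≤ ms p S + ms p T := by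
  classical
  rw [ms_eq, ms_eq, ms_eq, ← ev_add]
  refine ev_mono fun x => ?_
  by_cases h1 : x ∈ S <;> by_cases h2 : x ∈ T <;> simp [h1, h2]

/-- Markov's inequality -/
theorem markov (p f : Ω → ℝ≥0∞) (S : Set Ω) (c : ℝ≥0∞) (h : ∀ x ∈ S, c ≤ f x) :
    ms p S * c ≤ ev p f := by
  classical
  rw [ms_eq, mul_comm, ← ev_const_mul]
  refine ev_mono fun x => ?_
  by_cases hx : x ∈ S
  · simpa [hx] using h x hx
  · simp [hx]

/-- the one-sided distance -/
noncomputable def dd (p q : Ω → ℝ≥0∞) : ℝ≥0∞ := ∑' t, (p t - q t)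

theorem tv_eq (p q : Ω → ℝ≥0∞) : tv p q = dd p q + dd q p := by
  unfold tv dd
  rw [← ENNReal.tsum_add]

theorem tv_comm (p q : Ω → ℝ≥0∞) : tv p q = tv q p := by
  rw [tv_eq, tv_eq, add_comm]

theorem dd_le_tv (p q : Ω → ℝ≥0∞) : dd p q ≤ tv p q := by
  rw [tv_eq]
  exact le_self_add

theorem dd_le_tv' (p q : Ω → ℝ≥0∞) : dd q p ≤ tv p q := by
  rw [tv_eq]
  exact le_add_self

theorem dd_le_one {p : Ω → ℝ≥0∞} (hp : Prb p) (q : Ω → ℝ≥0∞) : dd p q ≤ 1 := by
  rw [← hp]
  exact ENNReal.tsum_le_tsum fun x => tsub_le_self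

theorem tv_le_two {p q : Ω → ℝ≥0∞} (hp : Prb p) (hq : Prb q) : tv p q ≤ 2 := by
  rw [tv_eq, ← one_add_one_eq_two]
  exact add_le_add (dd_le_one hp q) (dd_le_one hq p)

theorem dual1 (p q f : Ω → ℝ≥0∞) (hf : ∀ x, f x ≤ 1) : ev p f ≤ ev q f + dd p q := by
  unfold ev dd
  rw [← ENNReal.tsum_add]
  refine ENNReal.tsum_le_tsum fun x => ?_
  calc p x * f x ≤ (q x + (p x - q x)) * f x := by gcongr; exact le_add_tsub
    _ = q x * f x + (p x - q x) * f x := add_mul _ _ _
    _ ≤ q x * f x + (p x - q x) * 1 := by gcongr; exact hf x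
    _ = q x * f x + (p x - q x) := by rw [mul_one]

theorem dual2 (p q : Ω → ℝ≥0∞) (hq : Prb q) (δ : ℝ≥0∞)
    (h : ∀ f : Ω → ℝ≥0∞, (∀ x, f x ≤ 1) → ev p f ≤ ev q f + δ) : dd p q ≤ δ := by
  classical
  have h1 : dd p q + ms q {t | q t < p t} = ms p {t | q t < p t} := by
    unfold dd ms
    rw [← ENNReal.tsum_add]
    refine tsum_congr fun x => ?_
    by_cases hx : q x < p x
    · simp [hx, tsub_add_cancel_of_le hx.le]
    · simp [hx, tsub_eq_zero_of_le (not_lt.1 hx)]
  have h2 := h _ (ind_le {t | q t < p t})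
  rw [← ms_eq, ← ms_eq, ← h1, add_comm] at h2
  have h3 : ms q {t | q t < p t} ≠ ∞ := ne_top_of_le_ne_top ENNReal.one_ne_top (ms_le_one hq _)
  exact (ENNReal.add_le_add_iff_left h3).1 h2

theorem ap_le_one {r : Ω → Ω → ℝ≥0∞} (hr : ∀ x, Prb (r x)) {f : Ω → ℝ≥0∞} (hf : ∀ x, f x ≤ 1)
    (x : Ω) : ap r f x ≤ 1 := ev_le (hr x) 1 hf

/-- distance of a nearly invariant measure to a fixed measure: average of the distances of the rows -/
theorem tv_le_avg {r : Ω → Ω → ℝ≥0∞} {e : ℝ≥0∞} {p c : Ω → ℝ≥0∞} (hp : Prb p)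
    (hc : Prb c) (hn : NI r e p) : tv p c ≤ ev p (fun w => tv (r w) c) + 2 * e := by
  have h1 : dd p c ≤ ev p (fun w => dd (r w) c) + e := by
    refine dual2 _ _ hc _ fun f hf => ?_
    calc ev p f ≤ ev p (ap r f) + e := (hn f hf).2
      _ ≤ ev p (fun w => ev c f + dd (r w) c) + e := by
          gcongr
          exact ev_mono fun w => dual1 _ _ _ hf
      _ = ev c f + (ev p (fun w => dd (r w) c) + e) := by
          rw [ev_add, ev_const hp, add_assoc]
  have h2 : dd c p ≤ ev p (fun w => dd c (r w)) + e := by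
    refine dual2 _ _ hp _ fun f hf => ?_
    calc ev c f = ev p (fun _ => ev c f) := (ev_const hp _).symm
      _ ≤ ev p (fun w => ap r f w + dd c (r w)) := ev_mono fun w => dual1 _ _ _ hf
      _ = ev p (ap r f) + ev p (fun w => dd c (r w)) := ev_add _ _ _
      _ ≤ (ev p f + e) + ev p (fun w => dd c (r w)) := by
          gcongr
          exact (hn f hf).1
      _ = ev p f + (ev p (fun w => dd c (r w)) + e) := by ring
  calc tv p c = dd p c + dd c p := tv_eq _ _
    _ ≤ (ev p (fun w => dd (r w) c) + e) + (ev p (fun w => dd c (r w)) + e) := add_le_add h1 h2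
    _ = ev p (fun w => tv (r w) c) + 2 * e := by
        have h3 : ev p (fun w => tv (r w) c)
            = ev p (fun w => dd (r w) c) + ev p (fun w => dd c (r w)) := by
          rw [← ev_add]
          exact tsum_congr fun w => by simp only [tv_eq]
        rw [h3]
        ring

theorem prb_ne_top {p : Ω → ℝ≥0∞} (hp : Prb p) (x : Ω) : p x ≠ ∞ := by
  refine ne_top_of_le_ne_top ENNReal.one_ne_top ?_
  rw [← hp]
  exact ENNReal.le_tsum x

theorem key_pt (p q F a m : ℝ≥0∞) (hp : p ≠ ∞) (hq : q ≠ ∞) (h1 : F ≤ a + m) (h2 : a ≤ F + m) :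
    p * F + q * a ≤ q * F + p * a + ((p - q) + (q - p)) * m := by
  rcases le_total q p with h | h
  · obtain ⟨e, rfl⟩ := exists_add_of_le h
    rw [tsub_eq_zero_of_le h, add_zero, ENNReal.add_sub_cancel_left hq]
    calc (q + e) * F + q * a = q * F + q * a + e * F := by ring
      _ ≤ q * F + q * a + e * (a + m) := by gcongr
      _ = q * F + (q + e) * a + e * m := by ring
  · obtain ⟨e, rfl⟩ := exists_add_of_le h
    rw [tsub_eq_zero_of_le h, zero_add, ENNReal.add_sub_cancel_left hp]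
    calc p * F + (p + e) * a = p * F + p * a + e * a := by ring
      _ ≤ p * F + p * a + e * (F + m) := by gcongr
      _ = (p + e) * F + p * a + e * m := by ring

/-- oscillation of `ap r f` under two measures which live on `T`, where all rows are close
to `c` -/
theorem osc {r : Ω → Ω → ℝ≥0∞} (hr : ∀ x, Prb (r x)) {p q c : Ω → ℝ≥0∞} (hp : Prb p)
    (hq : Prb q) (hc : Prb c) (T : Set Ω) (m : ℝ≥0∞) (hT : ∀ w ∈ T, tv (r w) c ≤ m)
    (f : Ω → ℝ≥0∞) (hf : ∀ x, f x ≤ 1) :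
    ev p (ap r f) ≤ ev q (ap r f) + (tv p q * m + (ms p Tᶜ + ms q Tᶜ)) := by
  classical
  have ha1 : ev c f ≤ 1 := ev_le hc 1 hf
  have ha : ev c f ≠ ∞ := ne_top_of_le_ne_top ENNReal.one_ne_top ha1
  set a := ev c f with hadef
  have hpt : ∀ w, p w * ap r f w + q w * a ≤ q w * ap r f w + p w * a
      + (((p w - q w) + (q w - p w)) * m + (Tᶜ.indicator p w + Tᶜ.indicator q w)) := by
    intro w
    by_cases hw : w ∈ T
    · refine (key_pt (p w) (q w) (ap r f w) a m (prb_ne_top hp w) (prb_ne_top hq w) ?_ ?_).trans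
        ?_
      · exact (dual1 (r w) c f hf).trans (add_le_add le_rfl ((dd_le_tv _ _).trans (hT w hw)))
      · exact (dual1 c (r w) f hf).trans (add_le_add le_rfl ((dd_le_tv' _ _).trans (hT w hw)))
      · gcongr
        exact le_self_add
    · refine (key_pt (p w) (q w) (ap r f w) a 1 (prb_ne_top hp w) (prb_ne_top hq w) ?_ ?_).trans
        ?_
      · exact (ap_le_one hr hf w).trans le_add_self
      · exact ha1.trans le_add_self
      · have hw' : w ∈ Tᶜ := hw
        rw [Set.indicator_of_mem hw', Set.indicator_of_mem hw', mul_one]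
        refine add_le_add le_rfl ?_
        exact (add_le_add tsub_le_self tsub_le_self).trans le_add_self
  have hsum : ev p (ap r f) + a ≤ ev q (ap r f) + a + (tv p q * m + (ms p Tᶜ + ms q Tᶜ)) := by
    have h1 := ENNReal.tsum_le_tsum hpt
    rw [ENNReal.tsum_add, ENNReal.tsum_add, ENNReal.tsum_add, ENNReal.tsum_add, ENNReal.tsum_add,
      ENNReal.tsum_mul_right, ENNReal.tsum_mul_right, ENNReal.tsum_mul_right, hp, hq,
      one_mul] at h1
    exact h1
  have h2 : ev p (ap r f) + a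
      ≤ (ev q (ap r f) + (tv p q * m + (ms p Tᶜ + ms q Tᶜ))) + a := by
    refine hsum.trans (le_of_eq ?_)
    ring
  exact (ENNReal.add_le_add_iff_right ha).1 h2

/-- two nearly invariant measures on `T` are close to each other -/
theorem contr {r : Ω → Ω → ℝ≥0∞} (hr : ∀ x, Prb (r x)) {p q c : Ω → ℝ≥0∞} (hp : Prb p)
    (hq : Prb q) (hc : Prb c) {e l : ℝ≥0∞} (hnp : NI r e p) (hnq : NI r e q) (T : Set Ω)
    (hT : ∀ w ∈ T, tv (r w) c ≤ 4⁻¹) (hpT : ms p Tᶜ ≤ l) (hqT : ms q Tᶜ ≤ l) :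
    tv p q ≤ 8 * e + 8 * l := by
  have h1 : dd p q ≤ tv p q * 4⁻¹ + 2 * l + 2 * e := by
    refine dual2 _ _ hq _ fun f hf => ?_
    calc ev p f ≤ ev p (ap r f) + e := (hnp f hf).2
      _ ≤ (ev q (ap r f) + (tv p q * 4⁻¹ + (ms p Tᶜ + ms q Tᶜ))) + e := by
          gcongr
          exact osc hr hp hq hc T _ hT f hf
      _ ≤ ((ev q f + e) + (tv p q * 4⁻¹ + (l + l))) + e := by
          gcongr
          exact (hnq f hf).1
      _ = ev q f + (tv p q * 4⁻¹ + 2 * l + 2 * e) := by ring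
  have h2 : dd q p ≤ tv p q * 4⁻¹ + 2 * l + 2 * e := by
    refine dual2 _ _ hp _ fun f hf => ?_
    calc ev q f ≤ ev q (ap r f) + e := (hnq f hf).2
      _ ≤ (ev p (ap r f) + (tv q p * 4⁻¹ + (ms q Tᶜ + ms p Tᶜ))) + e := by
          gcongr
          exact osc hr hq hp hc T _ hT f hf
      _ ≤ ((ev p f + e) + (tv p q * 4⁻¹ + (l + l))) + e := by
          rw [tv_comm q p]
          gcongr
          exact (hnp f hf).1
      _ = ev p f + (tv p q * 4⁻¹ + 2 * l + 2 * e) := by ring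
  have h3 : tv p q ≠ ∞ := ne_top_of_le_ne_top (by norm_num) (tv_le_two hp hq)
  have h4 : tv p q * 4⁻¹ + tv p q * 4⁻¹ = tv p q * 2⁻¹ := by
    rw [← mul_add]
    congr 1
    refine (ENNReal.toReal_eq_toReal_iff' (by norm_num) (by norm_num)).1 ?_
    rw [ENNReal.toReal_add (by norm_num) (by norm_num), ENNReal.toReal_inv, ENNReal.toReal_inv]
    norm_num
  have h5 : tv p q * 2⁻¹ + tv p q * 2⁻¹ = tv p q := by
    rw [← mul_add, ENNReal.inv_two_add_inv_two, mul_one]
  have h6 : tv p q ≤ tv p q * 2⁻¹ + (4 * l + 4 * e) := by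
    calc tv p q = dd p q + dd q p := tv_eq _ _
      _ ≤ (tv p q * 4⁻¹ + 2 * l + 2 * e) + (tv p q * 4⁻¹ + 2 * l + 2 * e) := add_le_add h1 h2
      _ = (tv p q * 4⁻¹ + tv p q * 4⁻¹) + (4 * l + 4 * e) := by ring
      _ = tv p q * 2⁻¹ + (4 * l + 4 * e) := by rw [h4]
  have h7 : tv p q * 2⁻¹ ≤ 4 * l + 4 * e := by
    have h8 : tv p q * 2⁻¹ + tv p q * 2⁻¹ ≤ tv p q * 2⁻¹ + (4 * l + 4 * e) := by rwa [h5]
    refine (ENNReal.add_le_add_iff_left ?_).1 h8
    exact ENNReal.mul_ne_top h3 (by norm_num)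
  calc tv p q = tv p q * 2⁻¹ + tv p q * 2⁻¹ := h5.symm
    _ ≤ (4 * l + 4 * e) + (4 * l + 4 * e) := add_le_add h7 h7
    _ = 8 * e + 8 * l := by ring

/-- the nearly subharmonic function `h` rarely decreases -/
theorem drop {r : Ω → Ω → ℝ≥0∞} (hr : ∀ x, Prb (r x)) {c : Ω → ℝ≥0∞} (hc : Prb c)
    {e : ℝ≥0∞} (hn : NI r e c) (h : Ω → ℝ≥0∞) (hh : ∀ x, ap r h x ≤ h x + e)
    (β β' : ℝ≥0∞) (hβ : β ≤ β') (hβ' : β' ≤ 1) :
    ∑' z, c z * ({z | β' ≤ h z}.indicator (fun z => ms (r z) {w | h w < β}) z) * (β' - β)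
      ≤ 2 * e := by
  classical
  let g : Ω → ℝ≥0∞ := fun z => min (h z) β'
  have hg1 : ∀ x, g x ≤ 1 := fun x => (min_le_right _ _).trans hβ'
  have hpt : ∀ z, ap r g z
      + ({z | β' ≤ h z}.indicator (fun z => ms (r z) {w | h w < β}) z) * (β' - β) ≤ g z + e := by
    intro z
    by_cases hz : β' ≤ h z
    · have hz' : z ∈ {z | β' ≤ h z} := hz
      rw [Set.indicator_of_mem hz']
      have h1 : g z = β' := min_eq_right hz
      rw [h1]
      refine le_trans ?_ le_self_add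
      have h2 : ap r g z + ms (r z) {w | h w < β} * (β' - β)
          = ev (r z) (fun w => g w + {w | h w < β}.indicator 1 w * (β' - β)) := by
        rw [ev_add, ms_eq, mul_comm, ← ev_const_mul]
        congr 1
        refine tsum_congr fun w => ?_
        change r z w * ((β' - β) * _) = r z w * (_ * (β' - β))
        ring
      rw [h2]
      refine ev_le (hr z) _ fun w => ?_
      by_cases hw : h w < β
      · have hw' : w ∈ {w | h w < β} := hw
        rw [Set.indicator_of_mem hw', Pi.one_apply, one_mul]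
        calc g w + (β' - β) ≤ β + (β' - β) := by
              gcongr
              exact (min_le_left _ _).trans hw.le
          _ = β' := add_tsub_cancel_of_le hβ
      · have hw' : w ∉ {w | h w < β} := hw
        rw [Set.indicator_of_notMem hw', zero_mul, add_zero]
        exact min_le_right _ _
    · have hz' : z ∉ {z | β' ≤ h z} := hz
      rw [Set.indicator_of_notMem hz', zero_mul, add_zero]
      have h1 : g z = h z := min_eq_left (not_le.1 hz).le
      rw [h1]
      exact (ev_mono fun w => min_le_left _ _).trans (hh z)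
  have hsum := ev_mono (p := c) hpt
  rw [ev_add, ev_add, ev_const hc] at hsum
  have h1 := (hn g hg1).2
  have h2 : ev c (fun x => ({z | β' ≤ h z}.indicator (fun z => ms (r z) {w | h w < β}) x)
      * (β' - β)) = ∑' z, c z * ({z | β' ≤ h z}.indicator (fun z => ms (r z) {w | h w < β}) z)
        * (β' - β) := tsum_congr fun z => by ring
  rw [h2] at hsum
  have h3 : ev c (ap r g) ≠ ∞ :=
    ne_top_of_le_ne_top ENNReal.one_ne_top (ev_le hc 1 fun x => ap_le_one hr hg1 x)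
  have h4 : ev c (ap r g)
      + ∑' z, c z * ({z | β' ≤ h z}.indicator (fun z => ms (r z) {w | h w < β}) z) * (β' - β)
      ≤ ev c (ap r g) + 2 * e := by
    calc _ ≤ ev c g + e := hsum
      _ ≤ (ev c (ap r g) + e) + e := by gcongr
      _ = ev c (ap r g) + 2 * e := by ring
  exact (ENNReal.add_le_add_iff_left h3).1 h4

theorem cancel_mul {a : ℝ≥0∞} {b c : ℝ} (hb : 0 < b) (hc : 0 ≤ c)
    (h : a * ENNReal.ofReal b ≤ ENNReal.ofReal (c * b)) : a ≤ ENNReal.ofReal c := by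
  have hb' : ENNReal.ofReal b ≠ 0 := (ENNReal.ofReal_pos.2 hb).ne'
  rw [ENNReal.ofReal_mul hc] at h
  have h1 := ENNReal.div_le_div_right h (ENNReal.ofReal b)
  rwa [ENNReal.mul_div_cancel_right hb' ENNReal.ofReal_ne_top,
    ENNReal.mul_div_cancel_right hb' ENNReal.ofReal_ne_top] at h1

theorem sub_const {x : ℝ≥0∞} {a b : ℝ} (hb : 0 ≤ b)
    (h : ENNReal.ofReal (a + b) ≤ x + ENNReal.ofReal b) : ENNReal.ofReal a ≤ x := by
  rcases le_total 0 a with ha | ha
  · rw [ENNReal.ofReal_add ha hb] at h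
    exact (ENNReal.add_le_add_iff_right ENNReal.ofReal_ne_top).1 h
  · rw [ENNReal.ofReal_of_nonpos ha]
    exact zero_le

theorem two_mul_ofReal {a : ℝ} : 2 * ENNReal.ofReal a = ENNReal.ofReal (2 * a) := by
  rw [ENNReal.ofReal_mul (by norm_num)]
  norm_num

theorem eight_mul_ofReal {a : ℝ} : 8 * ENNReal.ofReal a = ENNReal.ofReal (8 * a) := by
  rw [ENNReal.ofReal_mul (by norm_num)]
  norm_num

theorem one_eq : (1 : ℝ≥0∞) = ENNReal.ofReal 1 := by simp

end A11_

open A11_ in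
theorem A11 : St_A11 := by
  classical
  intro τ hτ
  obtain ⟨s, hs0, hs1, hs2⟩ : ∃ s : ℝ, 0 < s ∧ s ≤ 1 / 4 ∧ 20 * s ≤ τ := by
    refine ⟨min (τ / 20) (1 / 4), lt_min (by linarith) (by norm_num), min_le_right _ _, ?_⟩
    have := min_le_left (τ / 20) (1 / 4)
    linarith
  refine ⟨s ^ 4 / 200, by positivity, ?_⟩
  intro Ω r x hid hspr
  have hr := hid.prb
  have hs2' : s ^ 2 ≤ 1 / 16 := by nlinarith
  have hs4 : s ^ 4 / 200 ≤ s ^ 2 := by
    have h0 : s ^ 4 = s ^ 2 * s ^ 2 := by ring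
    rw [h0]
    nlinarith [pow_pos hs0 2]
  have hs2s : s ^ 2 ≤ s := by nlinarith
  obtain ⟨e, he⟩ : ∃ e, e = ENNReal.ofReal (s ^ 4 / 200) := ⟨_, rfl⟩
  rw [← he] at hid
  have hni := hid.ni
  obtain ⟨c, hc⟩ : ∃ c, c = r x := ⟨_, rfl⟩
  have hcp : Prb c := hc ▸ hr x
  have hcn : NI r e c := hc ▸ hni x
  have hspr' : ev c (fun z => tv (r z) c) ≤ ENNReal.ofReal (1 / 10000) := by
    have : ev c (fun z => tv (r z) c) = spr r x := by rw [hc]; rfl
    rw [this]
    exact hspr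
  -- the set of the rows close to `c`
  obtain ⟨T0, hT0⟩ : ∃ T0 : Set Ω, T0 = {z | tv (r z) c ≤ ENNReal.ofReal (1 / 20)} := ⟨_, rfl⟩
  have h1 : ms c T0ᶜ ≤ ENNReal.ofReal (1 / 500) := by
    refine cancel_mul (b := 1 / 20) (by norm_num) (by norm_num) ?_
    refine (markov c (fun z => tv (r z) c) T0ᶜ _ fun z hz => ?_).trans (hspr'.trans ?_)
    · rw [hT0] at hz
      exact le_of_lt (not_le.1 (show ¬ (tv (r z) c ≤ ENNReal.ofReal (1 / 20)) from hz))
    · exact ENNReal.ofReal_le_ofReal (by norm_num)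
  obtain ⟨h, hh⟩ : ∃ h : Ω → ℝ≥0∞, h = fun z => ms (r z) T0 := ⟨_, rfl⟩
  have h2 : ∀ z ∈ T0, ENNReal.ofReal (94 / 100) ≤ h z := by
    intro z hz
    have hz' : tv (r z) c ≤ ENNReal.ofReal (1 / 20) := by
      rw [hT0] at hz
      exact hz
    have h3 : ms c T0 ≤ ms (r z) T0 + ENNReal.ofReal (1 / 20) := by
      rw [ms_eq, ms_eq]
      exact (dual1 c (r z) _ (ind_le T0)).trans (add_le_add le_rfl ((dd_le_tv' _ _).trans hz'))
    rw [hh]
    refine sub_const (b := 1 / 20 + 1 / 500) (by norm_num) ?_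
    calc ENNReal.ofReal (94 / 100 + (1 / 20 + 1 / 500)) ≤ ENNReal.ofReal 1 :=
          ENNReal.ofReal_le_ofReal (by norm_num)
      _ = ms c T0 + ms c T0ᶜ := by rw [ms_compl hcp, ENNReal.ofReal_one]
      _ ≤ (ms (r z) T0 + ENNReal.ofReal (1 / 20)) + ENNReal.ofReal (1 / 500) :=
          add_le_add h3 h1
      _ = ms (r z) T0 + ENNReal.ofReal (1 / 20 + 1 / 500) := by
          rw [ENNReal.ofReal_add (by norm_num) (by norm_num), add_assoc]
  obtain ⟨T, hT⟩ : ∃ T : Set Ω, T = {z | ENNReal.ofReal (93 / 100) ≤ h z} := ⟨_, rfl⟩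
  have h3 : ∀ z ∈ T, tv (r z) c ≤ 4⁻¹ := by
    intro z hz
    have hz' : ENNReal.ofReal (93 / 100) ≤ ms (r z) T0 := by
      rw [hT, hh] at hz
      exact hz
    have h4 : ms (r z) T0ᶜ ≤ ENNReal.ofReal (7 / 100) := by
      have h5 : ms (r z) T0ᶜ + ENNReal.ofReal (93 / 100)
          ≤ ENNReal.ofReal (7 / 100) + ENNReal.ofReal (93 / 100) := by
        calc ms (r z) T0ᶜ + ENNReal.ofReal (93 / 100) ≤ ms (r z) T0ᶜ + ms (r z) T0 := by gcongr
          _ = 1 := by rw [add_comm, ms_compl (hr z)]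
          _ = ENNReal.ofReal (7 / 100) + ENNReal.ofReal (93 / 100) := by
              rw [← ENNReal.ofReal_add (by norm_num) (by norm_num)]
              norm_num
      exact (ENNReal.add_le_add_iff_right ENNReal.ofReal_ne_top).1 h5
    have h5 : ev (r z) (fun w => tv (r w) c)
        ≤ ENNReal.ofReal (1 / 20) + 2 * ms (r z) T0ᶜ := by
      rw [ms_eq, ← ev_const_mul]
      nth_rewrite 1 [← ev_const (hr z) (ENNReal.ofReal (1 / 20))]
      rw [← ev_add]
      refine ev_mono fun w => ?_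
      by_cases hw : w ∈ T0
      · have hw' : tv (r w) c ≤ ENNReal.ofReal (1 / 20) := by
          rw [hT0] at hw
          exact hw
        exact hw'.trans le_self_add
      · have hw' : w ∈ T0ᶜ := hw
        rw [Set.indicator_of_mem hw', Pi.one_apply, mul_one]
        exact (tv_le_two (hr w) hcp).trans le_add_self
    calc tv (r z) c ≤ ev (r z) (fun w => tv (r w) c) + 2 * e := tv_le_avg (hr z) hcp (hni z)
      _ ≤ (ENNReal.ofReal (1 / 20) + 2 * ENNReal.ofReal (7 / 100)) + 2 * e := by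
          gcongr
          exact h5.trans (by gcongr)
      _ = ENNReal.ofReal (1 / 20 + 2 * (7 / 100) + 2 * (s ^ 4 / 200)) := by
          rw [he, two_mul_ofReal, two_mul_ofReal, ← ENNReal.ofReal_add (by norm_num)
            (by norm_num), ← ENNReal.ofReal_add (by norm_num) (by positivity)]
      _ ≤ ENNReal.ofReal (1 / 4) := by
          refine ENNReal.ofReal_le_ofReal ?_
          have : s ^ 4 ≤ 1 := pow_le_one₀ hs0.le (by linarith)
          linarith
      _ = 4⁻¹ := by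
          rw [one_div, ENNReal.ofReal_inv_of_pos (by norm_num)]
          norm_num
  -- the function `h` rarely decreases
  have hsub : ∀ z, ap r h z ≤ h z + e := by
    intro z
    have h4 : ap r h z = ev (r z) (ap r (T0.indicator 1)) := by
      rw [hh]
      unfold ap
      congr 1
      funext w
      rw [ms_eq]
    have h5 : h z = ev (r z) (T0.indicator 1) := by rw [hh]; exact ms_eq _ _
    rw [h4, h5]
    exact (hni z _ (ind_le T0)).1
  have hTc : {w | h w < ENNReal.ofReal (93 / 100)} = Tᶜ := by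
    ext w
    rw [hT]
    simp
  have h4 : ev c ({z | ENNReal.ofReal (94 / 100) ≤ h z}.indicator (fun z => ms (r z) Tᶜ))
      ≤ ENNReal.ofReal (s ^ 4) := by
    have h5 := drop hr hcp hcn h hsub (ENNReal.ofReal (93 / 100)) (ENNReal.ofReal (94 / 100))
      (ENNReal.ofReal_le_ofReal (by norm_num))
      (by rw [← ENNReal.ofReal_one]; exact ENNReal.ofReal_le_ofReal (by norm_num))
    rw [ENNReal.tsum_mul_right, hTc, ← ENNReal.ofReal_sub _ (by norm_num), he,
      two_mul_ofReal] at h5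
    refine cancel_mul (b := 1 / 100) (by norm_num) (by positivity) ?_
    have h6 : (94 / 100 - 93 / 100 : ℝ) = 1 / 100 := by norm_num
    rw [h6] at h5
    refine h5.trans (ENNReal.ofReal_le_ofReal ?_)
    linarith
  -- the good set
  obtain ⟨Z, hZ⟩ : ∃ Z : Set Ω, Z = {z | z ∈ T0 ∧ ms (r z) Tᶜ ≤ ENNReal.ofReal (s ^ 2)} :=
    ⟨_, rfl⟩
  have h5 : ms c (T0 \ Z) ≤ ENNReal.ofReal (s ^ 2) := by
    refine cancel_mul (b := s ^ 2) (by positivity) (by positivity) ?_
    have h6 : s ^ 2 * s ^ 2 = s ^ 4 := by ring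
    rw [h6]
    refine (markov c _ (T0 \ Z) _ fun z hz => ?_).trans h4
    have hz1 : z ∈ {z | ENNReal.ofReal (94 / 100) ≤ h z} := h2 z hz.1
    rw [Set.indicator_of_mem hz1]
    by_contra hcon
    refine hz.2 ?_
    rw [hZ]
    exact ⟨hz.1, (not_le.1 hcon).le⟩
  have h6 : (1 / 2 : ℝ≥0∞) ≤ ms c Z := by
    have h7 : (1 / 2 : ℝ≥0∞) = ENNReal.ofReal (1 / 2) := by
      rw [ENNReal.ofReal_div_of_pos (by norm_num)]
      norm_num
    rw [h7]
    refine sub_const (b := 1 / 500 + s ^ 2) (by positivity) ?_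
    have h8 : Zᶜ ⊆ T0ᶜ ∪ (T0 \ Z) := by
      intro z hz
      by_cases hz0 : z ∈ T0
      · exact Or.inr ⟨hz0, hz⟩
      · exact Or.inl hz0
    calc ENNReal.ofReal (1 / 2 + (1 / 500 + s ^ 2)) ≤ ENNReal.ofReal 1 :=
          ENNReal.ofReal_le_ofReal (by linarith)
      _ = ms c Z + ms c Zᶜ := by rw [ms_compl hcp, ENNReal.ofReal_one]
      _ ≤ ms c Z + (ms c T0ᶜ + ms c (T0 \ Z)) := by
          gcongr
          exact (ms_mono c h8).trans (ms_union_le c _ _)
      _ ≤ ms c Z + (ENNReal.ofReal (1 / 500) + ENNReal.ofReal (s ^ 2)) := by gcongr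
      _ = ms c Z + ENNReal.ofReal (1 / 500 + s ^ 2) := by
          rw [ENNReal.ofReal_add (by norm_num) (by positivity)]
  rw [← hc]
  refine h6.trans (ms_mono c fun z hz => ?_)
  have hz0 : z ∈ T0 ∧ ms (r z) Tᶜ ≤ ENNReal.ofReal (s ^ 2) := by
    rw [hZ] at hz
    exact hz
  obtain ⟨-, hz1⟩ := hz0
  -- rows chosen by `r z` are close to `r z`
  have h7 : ev (r z) (fun y => ms (r y) Tᶜ) ≤ ENNReal.ofReal (2 * s * s) := by
    have h8 := (hni z _ (ind_le Tᶜ)).1
    have h9 : ev (r z) (ap r (Tᶜ.indicator 1)) = ev (r z) (fun y => ms (r y) Tᶜ) := by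
      unfold ap
      congr 1
      funext w
      rw [ms_eq]
    rw [h9, ← ms_eq] at h8
    refine h8.trans ?_
    calc ms (r z) Tᶜ + e ≤ ENNReal.ofReal (s ^ 2) + ENNReal.ofReal (s ^ 4 / 200) := by
          rw [he]
          gcongr
      _ = ENNReal.ofReal (s ^ 2 + s ^ 4 / 200) := by
          rw [ENNReal.ofReal_add (by positivity) (by positivity)]
      _ ≤ ENNReal.ofReal (2 * s * s) := by
          refine ENNReal.ofReal_le_ofReal ?_
          nlinarith
  obtain ⟨Y, hY⟩ : ∃ Y : Set Ω, Y = {y | ms (r y) Tᶜ ≤ ENNReal.ofReal s} := ⟨_, rfl⟩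
  have h8 : ms (r z) Yᶜ ≤ ENNReal.ofReal (2 * s) := by
    refine cancel_mul (b := s) hs0 (by positivity) ?_
    refine (markov (r z) _ Yᶜ _ fun y hy => ?_).trans h7
    rw [hY] at hy
    exact le_of_lt (not_le.1 (show ¬ (ms (r y) Tᶜ ≤ ENNReal.ofReal s) from hy))
  have h9 : spr r z ≤ (8 * e + 8 * ENNReal.ofReal s) + 2 * ms (r z) Yᶜ := by
    rw [ms_eq, ← ev_const_mul]
    nth_rewrite 1 [← ev_const (hr z) (8 * e + 8 * ENNReal.ofReal s)]
    rw [← ev_add]
    have h10 : spr r z = ev (r z) (fun y => tv (r y) (r z)) := rfl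
    rw [h10]
    refine ev_mono fun y => ?_
    by_cases hy : y ∈ Y
    · have hy' : ms (r y) Tᶜ ≤ ENNReal.ofReal s := by
        rw [hY] at hy
        exact hy
      refine (contr hr (hr y) (hr z) hcp (hni y) (hni z) T h3 hy'
        (hz1.trans (ENNReal.ofReal_le_ofReal hs2s))).trans le_self_add
    · have hy' : y ∈ Yᶜ := hy
      rw [Set.indicator_of_mem hy', Pi.one_apply, mul_one]
      exact (tv_le_two (hr y) (hr z)).trans le_add_self
  change spr r z ≤ ENNReal.ofReal τ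
  calc spr r z ≤ (8 * e + 8 * ENNReal.ofReal s) + 2 * ms (r z) Yᶜ := h9
    _ ≤ (8 * e + 8 * ENNReal.ofReal s) + 2 * ENNReal.ofReal (2 * s) := by gcongr
    _ = ENNReal.ofReal (8 * (s ^ 4 / 200) + 8 * s + 2 * (2 * s)) := by
        rw [he, eight_mul_ofReal, eight_mul_ofReal, two_mul_ofReal,
          ← ENNReal.ofReal_add (by positivity) (by positivity),
          ← ENNReal.ofReal_add (by positivity) (by positivity)]
    _ ≤ ENNReal.ofReal τ := by
        refine ENNReal.ofReal_le_ofReal ?_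
        have : s ^ 4 / 200 ≤ s := hs4.trans hs2s
        linarith

end Pool.NC
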