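import Pool.Agent.Work.MP_052a41_nc.Defs

/-! A12: restriction of the kernel to a set with small leak (helper15). -/

set_option autoImplicit false

open scoped ENNReal

namespace Pool.NC

theorem A12_ms_add {Ω : Type} (p : Ω → ℝ≥0∞) (X : Set Ω) : ms p X + ms p Xᶜ = ∑' x, p x := by
  unfold ms
  rw [← ENNReal.tsum_add]
  refine tsum_congr fun x => ?_
  exact Set.indicator_self_add_compl_apply X p x

theorem A12_tv_tri {Ω : Type} (p q s : Ω → ℝ≥0∞) : tv p q ≤ tv p s + tv s q := by
  unfold tv
  rw [← ENNReal.tsum_add]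
  refine ENNReal.tsum_le_tsum fun t => ?_
  have h1 : p t - q t ≤ (p t - s t) + (s t - q t) := tsub_le_tsub_add_tsub
  have h2 : q t - p t ≤ (q t - s t) + (s t - p t) := tsub_le_tsub_add_tsub
  calc (p t - q t) + (q t - p t) ≤ ((p t - s t) + (s t - q t)) + ((q t - s t) + (s t - p t)) :=
        add_le_add h1 h2
    _ = (p t - s t) + (s t - p t) + ((s t - q t) + (q t - s t)) := by ring

theorem A12_tv_symm {Ω : Type} (p q : Ω → ℝ≥0∞) : tv p q = tv q p := by
  unfold tv
  exact tsum_congr fun t => add_comm _ _

theorem A12_tv_le {Ω : Type} (p q : Ω → ℝ≥0∞) (hp : Prb p) (hq : Prb q) : tv p q ≤ 2 := by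
  unfold tv
  calc ∑' t, ((p t - q t) + (q t - p t)) ≤ ∑' t, (p t + q t) :=
        ENNReal.tsum_le_tsum fun t => add_le_add tsub_le_self tsub_le_self
    _ = 2 := by
        rw [ENNReal.tsum_add, hp, hq]
        norm_num

section

variable {Ω : Type} {r : Ω → Ω → ℝ≥0∞} {X : Set Ω}

/-- the normalised row, extended by zero -/
noncomputable def A12_e (r : Ω → Ω → ℝ≥0∞) (X : Set Ω) (y t : Ω) : ℝ≥0∞ :=
  X.indicator (fun t => r y t / ms (r y) X) t

theorem A12_e_sum (y : Ω) (h0 : ms (r y) X ≠ 0) (h1 : ms (r y) X ≠ ∞) :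
    ∑' t, A12_e r X y t = 1 := by
  have h : ∀ t, A12_e r X y t = X.indicator (r y) t * (ms (r y) X)⁻¹ := by
    intro t
    unfold A12_e
    by_cases ht : t ∈ X
    · rw [Set.indicator_of_mem ht, Set.indicator_of_mem ht, div_eq_mul_inv]
    · rw [Set.indicator_of_notMem ht, Set.indicator_of_notMem ht, zero_mul]
  rw [tsum_congr h, ENNReal.tsum_mul_right]
  exact ENNReal.mul_inv_cancel h0 h1

/-- the row and its normalisation -/
theorem A12_tv_e (θ : ℝ≥0∞) (y : Ω) (hp : Prb (r y)) (h0 : ms (r y) X ≠ 0)
    (hθ : ms (r y) Xᶜ ≤ θ) : tv (r y) (A12_e r X y) ≤ 2 * θ := by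
  have hle1 : ms (r y) X ≤ 1 := by
    rw [← (show ∑' x, r y x = 1 from hp), ← A12_ms_add (r y) X]
    exact le_self_add
  have h1 : ms (r y) X ≠ ∞ := ne_top_of_le_ne_top ENNReal.one_ne_top hle1
  have hA : ∀ t, X.indicator (r y) t ≤ A12_e r X y t := by
    intro t
    unfold A12_e
    by_cases ht : t ∈ X
    · rw [Set.indicator_of_mem ht, Set.indicator_of_mem ht]
      rw [ENNReal.le_div_iff_mul_le (Or.inl h0) (Or.inl h1)]
      calc r y t * ms (r y) X ≤ r y t * 1 := by gcongr
        _ = r y t := mul_one _
    · rw [Set.indicator_of_notMem ht, Set.indicator_of_notMem ht]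
  have hB : ∑' t, (A12_e r X y t - X.indicator (r y) t) ≤ θ := by
    have h2 : (∑' t, (A12_e r X y t - X.indicator (r y) t)) + ms (r y) X = 1 := by
      unfold ms
      rw [← ENNReal.tsum_add, ← A12_e_sum y h0 h1]
      exact tsum_congr fun t => tsub_add_cancel_of_le (hA t)
    have h3 : (1 : ℝ≥0∞) ≤ θ + ms (r y) X := by
      rw [← (show ∑' x, r y x = 1 from hp), ← A12_ms_add (r y) X, add_comm]
      gcongr
    rw [← h2] at h3
    exact (ENNReal.add_le_add_iff_right h1).1 h3
  unfold tv
  calc ∑' t, ((r y t - A12_e r X y t) + (A12_e r X y t - r y t))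
      ≤ ∑' t, (Xᶜ.indicator (r y) t + (A12_e r X y t - X.indicator (r y) t)) := by
        refine ENNReal.tsum_le_tsum fun t => add_le_add ?_ ?_
        · by_cases ht : t ∈ X
          · have := hA t
            rw [Set.indicator_of_mem ht] at this
            rw [tsub_eq_zero_of_le this]
            exact zero_le
          · rw [Set.indicator_of_mem (show t ∈ Xᶜ from ht)]
            exact tsub_le_self
        · refine tsub_le_tsub_left ?_ _
          by_cases ht : t ∈ X
          · rw [Set.indicator_of_mem ht]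
          · rw [Set.indicator_of_notMem ht]
            exact zero_le
    _ = ms (r y) Xᶜ + ∑' t, (A12_e r X y t - X.indicator (r y) t) := by
        rw [ENNReal.tsum_add]
        rfl
    _ ≤ θ + θ := add_le_add hθ hB
    _ = 2 * θ := (two_mul θ).symm

end

theorem A12 : St_A12 := by
  intro Ω r ε ϑ X hε hϑ hϑ4 hI hX
  set θ : ℝ≥0∞ := ENNReal.ofReal ϑ with hθ
  set κ : ℝ≥0∞ := ENNReal.ofReal (1 / (1 - ϑ)) with hκ
  have h34 : 3 / 4 ≤ 1 - ϑ := by linarith
  have hpos : 0 < 1 - ϑ := by linarith
  have hm1 : ∀ x, ms (r x) X ≤ 1 := by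
    intro x
    rw [← (show ∑' y, r x y = 1 from hI.prb x), ← A12_ms_add (r x) X]
    exact le_self_add
  have hmt : ∀ x, ms (r x) X ≠ ∞ := fun x => ne_top_of_le_ne_top ENNReal.one_ne_top (hm1 x)
  have hml : ∀ x ∈ X, ENNReal.ofReal (1 - ϑ) ≤ ms (r x) X := by
    intro x hx
    have h1 : (1 : ℝ≥0∞) ≤ ms (r x) X + θ := by
      rw [← (show ∑' y, r x y = 1 from hI.prb x), ← A12_ms_add (r x) X]
      exact add_le_add le_rfl (hX x hx)
    have h2 : ENNReal.ofReal (1 - ϑ) + θ = 1 := by
      rw [hθ, ← ENNReal.ofReal_add hpos.le hϑ]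
      simp
    rw [← h2] at h1
    exact (ENNReal.add_le_add_iff_right ENNReal.ofReal_ne_top).1 h1
  have hm0 : ∀ x ∈ X, ms (r x) X ≠ 0 := by
    intro x hx h
    have := hml x hx
    rw [h] at this
    have h3 : ENNReal.ofReal (1 - ϑ) = 0 := le_antisymm this zero_le
    rw [ENNReal.ofReal_eq_zero] at h3
    linarith
  have hinv : ∀ x ∈ X, (ms (r x) X)⁻¹ ≤ κ := by
    intro x hx
    rw [hκ, one_div, ENNReal.ofReal_inv_of_pos hpos]
    exact ENNReal.inv_le_inv.2 (hml x hx)
  have hinv1 : ∀ x, 1 ≤ (ms (r x) X)⁻¹ := by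
    intro x
    rw [ENNReal.one_le_inv]
    exact hm1 x
  set r' : X → X → ℝ≥0∞ := fun x y => r x y / ms (r x) X with hr'
  -- the extension of a function by zero
  set ex : (X → ℝ≥0∞) → Ω → ℝ≥0∞ := fun f y => by
    classical exact if h : y ∈ X then f ⟨y, h⟩ else 0 with hex
  have exX : ∀ (f : X → ℝ≥0∞) (y : X), ex f y = f y := by
    intro f y
    simp only [hex]
    rw [dif_pos y.2]
  have exn : ∀ (f : X → ℝ≥0∞) (y : Ω), y ∉ X → ex f y = 0 := by
    intro f y hy
    simp only [hex]
    rw [dif_neg hy]
  have hev : ∀ (f : X → ℝ≥0∞) (x : X), ev (r' x) f = ev (r x) (ex f) * (ms (r x) X)⁻¹ := by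
    intro f x
    unfold ev
    rw [← ENNReal.tsum_mul_right]
    have h1 : ∀ y : X, r' x y * f y = (fun y : Ω => r x y * ex f y * (ms (r x) X)⁻¹) y := by
      intro y
      simp only [hr']
      rw [exX, div_eq_mul_inv]
      ring
    rw [tsum_congr h1, tsum_subtype X (fun y : Ω => r x y * ex f y * (ms (r x) X)⁻¹)]
    refine tsum_congr fun y => ?_
    by_cases hy : y ∈ X
    · rw [Set.indicator_of_mem hy]
    · rw [Set.indicator_of_notMem hy, exn f y hy, mul_zero, zero_mul]
  have hprb : ∀ x : X, Prb (r' x) := by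
    intro x
    unfold Prb
    have h1 : ∀ y : X, r' x y = (fun y : Ω => r x y / ms (r x) X) y := fun y => rfl
    rw [tsum_congr h1, tsum_subtype X (fun y : Ω => r x y / ms (r x) X)]
    exact A12_e_sum (X := X) x.1 (hm0 x x.2) (hmt x)
  have hap : ∀ (f : X → ℝ≥0∞) (y : X), ap r' f y = ap r (ex f) y * (ms (r y) X)⁻¹ := fun f y =>
    hev f y
  refine ⟨⟨hprb, ?_⟩, ?_⟩
  · intro x f hf
    have hF : ∀ y, ex f y ≤ 1 := by
      intro y
      by_cases hy : y ∈ X
      · have := exX f ⟨y, hy⟩
        simp only at this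
        rw [this]
        exact hf _
      · rw [exn f y hy]
        exact zero_le
    have hni := hI.ni x (ex f) hF
    have ha1 : ev (r x) (ex f) ≤ 1 := by
      rw [← (show ∑' y, r x y = 1 from hI.prb x)]
      unfold ev
      refine ENNReal.tsum_le_tsum fun y => ?_
      calc r x y * ex f y ≤ r x y * 1 := by gcongr; exact hF y
        _ = r x y := mul_one _
    have hab : ev (r x) (ex f) ≤ ev (r' x) f := by
      rw [hev]
      calc ev (r x) (ex f) = ev (r x) (ex f) * 1 := (mul_one _).symm
        _ ≤ _ := by gcongr; exact hinv1 x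
    constructor
    · -- upper bound
      have h1 : ev (r' x) (ap r' f) ≤ κ * κ * (ev (r x) (ap r (ex f))) := by
        have h2 : ∀ y : X, r' x y * ap r' f y ≤
            (fun y : Ω => κ * κ * (r x y * ap r (ex f) y)) y := by
          intro y
          rw [hap]
          simp only [hr']
          rw [div_eq_mul_inv]
          calc r x y * (ms (r x) X)⁻¹ * (ap r (ex f) y * (ms (r y) X)⁻¹)
              ≤ r x y * κ * (ap r (ex f) y * κ) := by
                gcongr
                · exact hinv x x.2
                · exact hinv y y.2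
            _ = κ * κ * (r x y * ap r (ex f) y) := by ring
        unfold ev
        rw [← ENNReal.tsum_mul_left]
        refine (ENNReal.tsum_le_tsum h2).trans ?_
        rw [tsum_subtype X (fun y : Ω => κ * κ * (r x y * ap r (ex f) y))]
        refine ENNReal.tsum_le_tsum fun y => ?_
        exact Set.indicator_le_self _ _ _
      have h2 : ev (r' x) (ap r' f) ≤ κ * κ * (ev (r x) (ex f) + ENNReal.ofReal ε) := by
        refine h1.trans ?_
        gcongr
        exact hni.1
      refine h2.trans ?_
      have h3 : κ * κ * (ev (r x) (ex f) + ENNReal.ofReal ε) ≤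
          ev (r x) (ex f) + ENNReal.ofReal (3 * ε + 6 * ϑ) := by
        have hat : ev (r x) (ex f) ≠ ∞ := ne_top_of_le_ne_top ENNReal.one_ne_top ha1
        set a : ℝ := (ev (r x) (ex f)).toReal with haR
        have haE : ev (r x) (ex f) = ENNReal.ofReal a := (ENNReal.ofReal_toReal hat).symm
        have ha0 : 0 ≤ a := ENNReal.toReal_nonneg
        have ha1' : a ≤ 1 := by
          rw [haE] at ha1
          exact ENNReal.ofReal_le_one.1 ha1
        rw [haE, hκ, ← ENNReal.ofReal_add ha0 hε, ← ENNReal.ofReal_mul (by positivity),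
          ← ENNReal.ofReal_mul (by positivity), ← ENNReal.ofReal_add ha0 (by positivity)]
        refine ENNReal.ofReal_le_ofReal ?_
        have hk : 1 / (1 - ϑ) * (1 / (1 - ϑ)) ≤ 1 + 4 * ϑ := by
          rw [div_mul_div_comm, one_mul, div_le_iff₀ (by positivity)]
          nlinarith [mul_nonneg hϑ hϑ, mul_nonneg (mul_nonneg hϑ hϑ) hϑ,
            mul_nonneg hϑ (by linarith : (0 : ℝ) ≤ 1 / 4 - ϑ)]
        have hae : 0 ≤ a + ε := by positivity
        calc 1 / (1 - ϑ) * (1 / (1 - ϑ)) * (a + ε) ≤ (1 + 4 * ϑ) * (a + ε) :=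
              mul_le_mul_of_nonneg_right hk hae
          _ ≤ a + (3 * ε + 6 * ϑ) := by nlinarith
      refine h3.trans ?_
      gcongr
    · -- lower bound
      have h1 : ev (r x) (ap r (ex f)) ≤ ms (r x) X * ev (r' x) (ap r' f) + θ := by
        have h2 : ev (r x) (ap r (ex f)) = (∑' y, X.indicator (fun y => r x y * ap r (ex f) y) y)
            + ∑' y, Xᶜ.indicator (fun y => r x y * ap r (ex f) y) y := by
          unfold ev
          rw [← ENNReal.tsum_add]
          exact tsum_congr fun y => (Set.indicator_self_add_compl_apply X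
            (fun y => r x y * ap r (ex f) y) y).symm
        rw [h2]
        refine add_le_add ?_ ?_
        · rw [← tsum_subtype X (fun y => r x y * ap r (ex f) y)]
          unfold ev
          rw [← ENNReal.tsum_mul_left]
          refine ENNReal.tsum_le_tsum fun y => ?_
          rw [hap]
          simp only [hr']
          rw [div_eq_mul_inv]
          calc r x y * ap r (ex f) y = r x y * 1 * (ap r (ex f) y * 1) := by ring
            _ = r x y * (ms (r x) X * (ms (r x) X)⁻¹) * (ap r (ex f) y * 1) := by
                rw [ENNReal.mul_inv_cancel (hm0 x x.2) (hmt x)]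
            _ ≤ r x y * (ms (r x) X * (ms (r x) X)⁻¹) * (ap r (ex f) y * (ms (r y) X)⁻¹) := by
                gcongr
                exact hinv1 y
            _ = ms (r x) X * (r x y * (ms (r x) X)⁻¹ * (ap r (ex f) y * (ms (r y) X)⁻¹)) := by
                ring
        · refine le_trans ?_ (hX x x.2)
          unfold ms
          refine ENNReal.tsum_le_tsum fun y => ?_
          refine Set.indicator_le_indicator ?_
          have h4 : ap r (ex f) y ≤ 1 := by
            rw [← (show ∑' t, r y t = 1 from hI.prb y)]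
            unfold ap ev
            refine ENNReal.tsum_le_tsum fun t => ?_
            calc r y t * ex f t ≤ r y t * 1 := by gcongr; exact hF t
              _ = r y t := mul_one _
          calc r x y * ap r (ex f) y ≤ r x y * 1 := by gcongr
            _ = r x y := mul_one _
      have h2 := hni.2.trans (add_le_add h1 (le_refl (ENNReal.ofReal ε)))
      rw [hev]
      calc ev (r x) (ex f) * (ms (r x) X)⁻¹
          ≤ (ms (r x) X * ev (r' x) (ap r' f) + θ + ENNReal.ofReal ε) * (ms (r x) X)⁻¹ := by
            gcongr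
        _ = ms (r x) X * (ms (r x) X)⁻¹ * ev (r' x) (ap r' f) +
            (θ + ENNReal.ofReal ε) * (ms (r x) X)⁻¹ := by ring
        _ ≤ 1 * ev (r' x) (ap r' f) + (θ + ENNReal.ofReal ε) * κ := by
            rw [ENNReal.mul_inv_cancel (hm0 x x.2) (hmt x)]
            gcongr
            exact hinv x x.2
        _ ≤ ev (r' x) (ap r' f) + ENNReal.ofReal (3 * ε + 6 * ϑ) := by
            rw [one_mul]
            gcongr
            rw [hθ, hκ, ← ENNReal.ofReal_add hϑ hε, ← ENNReal.ofReal_mul (by positivity)]
            refine ENNReal.ofReal_le_ofReal ?_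
            have hk : 1 / (1 - ϑ) ≤ 3 := by
              rw [div_le_iff₀ hpos]
              linarith
            calc (ϑ + ε) * (1 / (1 - ϑ)) ≤ (ϑ + ε) * 3 := by gcongr
              _ ≤ 3 * ε + 6 * ϑ := by linarith
  · intro x
    have he : ∀ (y t : X), A12_e r X y t = r' y t := by
      intro y t
      unfold A12_e
      rw [Set.indicator_of_mem t.2]
    have htv : ∀ y : X, tv (r y) (r x) ≤ 4 * θ + tv (r' y) (r' x) := by
      intro y
      have h1 := A12_tv_tri (r y) (r x) (A12_e r X y)
      have h2 := A12_tv_tri (A12_e r X y) (r x) (A12_e r X x)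
      have h3 := A12_tv_e (X := X) θ y.1 (hI.prb y) (hm0 y y.2) (hX y y.2)
      have h4 := A12_tv_e (X := X) θ x.1 (hI.prb x) (hm0 x x.2) (hX x x.2)
      rw [A12_tv_symm] at h4
      have h5 : tv (A12_e r X y) (A12_e r X x) = tv (r' y) (r' x) := by
        unfold tv
        have h6 : ∀ t : X, (r' y t - r' x t) + (r' x t - r' y t) = (fun t : Ω =>
            (A12_e r X y t - A12_e r X x t) + (A12_e r X x t - A12_e r X y t)) t := by
          intro t
          simp only [he]
        rw [tsum_congr h6, tsum_subtype X (fun t : Ω =>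
          (A12_e r X y t - A12_e r X x t) + (A12_e r X x t - A12_e r X y t))]
        refine tsum_congr fun t => ?_
        by_cases ht : t ∈ X
        · rw [Set.indicator_of_mem ht]
        · rw [Set.indicator_of_notMem ht]
          unfold A12_e
          rw [Set.indicator_of_notMem ht, Set.indicator_of_notMem ht]
          simp
      calc tv (r y) (r x) ≤ tv (r y) (A12_e r X y) + tv (A12_e r X y) (r x) := h1
        _ ≤ 2 * θ + (tv (A12_e r X y) (A12_e r X x) + 2 * θ) := by
            refine add_le_add h3 (h2.trans ?_)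
            gcongr
        _ = 4 * θ + tv (r' y) (r' x) := by
            rw [h5]
            ring
    have hsplit : spr r x = (∑' y, X.indicator (fun y => r x y * tv (r y) (r x)) y) +
        ∑' y, Xᶜ.indicator (fun y => r x y * tv (r y) (r x)) y := by
      unfold spr
      rw [← ENNReal.tsum_add]
      exact tsum_congr fun y => (Set.indicator_self_add_compl_apply X
        (fun y => r x y * tv (r y) (r x)) y).symm
    rw [hsplit]
    have hA : ∑' y, X.indicator (fun y => r x y * tv (r y) (r x)) y ≤ spr r' x + 4 * θ := by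
      rw [← tsum_subtype X (fun y => r x y * tv (r y) (r x))]
      calc ∑' y : X, r x y * tv (r y) (r x)
          ≤ ∑' y : X, r' x y * (4 * θ + tv (r' y) (r' x)) := by
            refine ENNReal.tsum_le_tsum fun y => ?_
            refine mul_le_mul' ?_ (htv y)
            simp only [hr']
            rw [div_eq_mul_inv]
            calc r x y = r x y * 1 := (mul_one _).symm
              _ ≤ r x y * (ms (r x) X)⁻¹ := by gcongr; exact hinv1 x
        _ = (∑' y : X, r' x y * (4 * θ)) + ∑' y : X, r' x y * tv (r' y) (r' x) := by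
            rw [← ENNReal.tsum_add]
            exact tsum_congr fun y => mul_add _ _ _
        _ = 4 * θ + spr r' x := by
            rw [ENNReal.tsum_mul_right, show ∑' y : X, r' x y = 1 from hprb x, one_mul]
            rfl
        _ = spr r' x + 4 * θ := add_comm _ _
    have hB : ∑' y, Xᶜ.indicator (fun y => r x y * tv (r y) (r x)) y ≤ 2 * θ := by
      calc ∑' y, Xᶜ.indicator (fun y => r x y * tv (r y) (r x)) y
          ≤ ∑' y, 2 * Xᶜ.indicator (r x) y := by
            refine ENNReal.tsum_le_tsum fun y => ?_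
            by_cases hy : y ∈ Xᶜ
            · rw [Set.indicator_of_mem hy, Set.indicator_of_mem hy, mul_comm]
              gcongr
              exact A12_tv_le _ _ (hI.prb y) (hI.prb x)
            · rw [Set.indicator_of_notMem hy, Set.indicator_of_notMem hy, mul_zero]
        _ = 2 * ms (r x) Xᶜ := by
            rw [ENNReal.tsum_mul_left]
            rfl
        _ ≤ 2 * θ := by gcongr; exact hX x x.2
    calc _ ≤ (spr r' x + 4 * θ) + 2 * θ := add_le_add hA hB
      _ = spr r' x + ENNReal.ofReal (6 * ϑ) := by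
          rw [ENNReal.ofReal_mul (by norm_num), ← hθ]
          rw [show ENNReal.ofReal 6 = 6 by norm_num]
          ring

end Pool.NC
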