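import Mathlib

/-! Near-contractive projections on `C(K)`: definitions for the kernel part (MP_052a41_an). -/

set_option autoImplicit false

open scoped ENNReal

namespace Pool.NC

variable {Ω : Type}

/-- mass of the set `S` under the weight `p` -/
noncomputable def ms (p : Ω → ℝ≥0∞) (S : Set Ω) : ℝ≥0∞ := ∑' x, S.indicator p x

/-- integral of `f` against the weight `p` -/
noncomputable def ev (p f : Ω → ℝ≥0∞) : ℝ≥0∞ := ∑' x, p x * f x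

/-- the kernel `r` applied to the function `f` -/
noncomputable def ap (r : Ω → Ω → ℝ≥0∞) (f : Ω → ℝ≥0∞) (x : Ω) : ℝ≥0∞ := ev (r x) f

/-- `p` is a probability -/
def Prb (p : Ω → ℝ≥0∞) : Prop := ∑' x, p x = 1

/-- `p` is `δ`-nearly invariant under `r` -/
def NI (r : Ω → Ω → ℝ≥0∞) (δ : ℝ≥0∞) (p : Ω → ℝ≥0∞) : Prop :=
  ∀ f : Ω → ℝ≥0∞, (∀ x, f x ≤ 1) →
    ev p (ap r f) ≤ ev p f + δ ∧ ev p f ≤ ev p (ap r f) + δ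

/-- `r` is an `ε`-nearly idempotent Markov kernel -/
structure Idem (r : Ω → Ω → ℝ≥0∞) (ε : ℝ≥0∞) : Prop where
  prb : ∀ x, Prb (r x)
  ni : ∀ x, NI r ε (r x)

/-- `‖p - q‖₁` -/
noncomputable def tv (p q : Ω → ℝ≥0∞) : ℝ≥0∞ := ∑' t, ((p t - q t) + (q t - p t))

/-- average distance of the rows `r y`, `y` chosen by `r x`, to the row `r x` -/
noncomputable def spr (r : Ω → Ω → ℝ≥0∞) (x : Ω) : ℝ≥0∞ := ∑' y, r x y * tv (r y) (r x)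

/-- level set of the density of the row `r x` with respect to `p` -/
def lev (r : Ω → Ω → ℝ≥0∞) (p : Ω → ℝ≥0∞) (a : ℝ≥0∞) (x : Ω) : Set Ω := {t | r x t < a * p t}

/-- quantile function of the density: the probability that `r x y < a * p y`, where `x` is chosen
by `p` and `y` by `r x` -/
noncomputable def phi (r : Ω → Ω → ℝ≥0∞) (p : Ω → ℝ≥0∞) (a : ℝ≥0∞) : ℝ≥0∞ :=
  ∑' x, p x * ms (r x) (lev r p a x)

/-- `p` conditioned on `S` -/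
noncomputable def cond (p : Ω → ℝ≥0∞) (S : Set Ω) (t : Ω) : ℝ≥0∞ := S.indicator p t / ms p S

/-- mass that leaves `S` in one step, starting from `p` restricted to `S` -/
noncomputable def outm (r : Ω → Ω → ℝ≥0∞) (p : Ω → ℝ≥0∞) (S : Set Ω) : ℝ≥0∞ :=
  ∑' y, S.indicator p y * ms (r y) Sᶜ

/-- mass that enters `S` in one step, starting from `p` restricted to the complement of `S` -/
noncomputable def inm (r : Ω → Ω → ℝ≥0∞) (p : Ω → ℝ≥0∞) (S : Set Ω) : ℝ≥0∞ :=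
  ∑' y, Sᶜ.indicator p y * ms (r y) S

/-! ### Statements of the blocks, kernel part -/

/-- A1: lower tail and monotonicity of `phi`. -/
def St_A1 : Prop := ∀ (Ω : Type) (r : Ω → Ω → ℝ≥0∞) (p : Ω → ℝ≥0∞), (∀ x, Prb (r x)) → Prb p →
  (∀ a, phi r p a ≤ a) ∧ (∀ a, phi r p a ≤ 1) ∧ (∀ a b, a ≤ b → phi r p a ≤ phi r p b)

/-- A2: data processing. -/
def St_A2 : Prop := ∀ (Ω : Type) (r : Ω → Ω → ℝ≥0∞) (p : Ω → ℝ≥0∞) (δ a A : ℝ≥0∞),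
  (∀ x, Prb (r x)) → Prb p → NI r δ p → A ≠ 0 → A ≠ ∞ → a ≠ ∞ →
  ∑' x, p x * ∑' y, (lev r p a x).indicator (r x) y * ms (r y) (lev r p (A * a) x)ᶜ
    ≤ 2 / A + 3 * δ

/-- A3: leaks of the level sets. -/
def St_A3 : Prop := ∀ (Ω : Type) (r : Ω → Ω → ℝ≥0∞) (p : Ω → ℝ≥0∞) (δ ε a A : ℝ≥0∞),
  Idem r ε → Prb p → NI r δ p → 1 ≤ A → A ≠ ∞ → a ≠ ∞ →
  (∑' x, p x * outm r (r x) (lev r p a x)) + phi r p a
    ≤ 2 / A + 3 * δ + 2 * ε + phi r p (A * a)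

/-- A3': what enters is at most what leaves, up to `ε`. -/
def St_A3' : Prop := ∀ (Ω : Type) (r : Ω → Ω → ℝ≥0∞) (p : Ω → ℝ≥0∞) (δ : ℝ≥0∞) (S : Set Ω),
  (∀ x, Prb (r x)) → Prb p → NI r δ p → inm r p S ≤ outm r p S + δ

/-- A4: conditioning on a set with small leaks gives a nearly invariant measure. -/
def St_A4 : Prop := ∀ (Ω : Type) (r : Ω → Ω → ℝ≥0∞) (p : Ω → ℝ≥0∞) (δ : ℝ≥0∞) (S : Set Ω),
  (∀ x, Prb (r x)) → Prb p → NI r δ p → ms p S ≠ 0 →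
  Prb (cond p S) ∧ NI r ((δ + outm r p S + inm r p S) / ms p S) (cond p S)

/-- A5: product inequality. -/
def St_A5 : Prop := ∀ (Ω : Type) (r : Ω → Ω → ℝ≥0∞) (p : Ω → ℝ≥0∞) (δ ε a A : ℝ≥0∞),
  Idem r ε → Prb p → NI r δ p → 1 ≤ A → A ≠ ∞ → a ≠ ∞ →
  phi r p (a / A) ≤
    (∑' x, p x * (ms (r x) (lev r p a x) * phi r (cond (r x) (lev r p a x)) a))
    + (∑' x, p x * inm r (r x) (lev r p a x)) + 2 / A + ε + δ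

/-- A6: jump of `phi` at a threshold without mass. -/
def St_A6 : Prop := ∀ (Ω : Type) (r : Ω → Ω → ℝ≥0∞) (p : Ω → ℝ≥0∞)
    (κ σ δ' A w ε : ℝ) (a : ℝ≥0∞),
  0 < κ → 0 < σ → σ ≤ 1 → 0 < δ' → δ' ≤ 1 → 1 ≤ A → 0 ≤ w → 0 ≤ ε → a ≠ ∞ →
  Idem r (ENNReal.ofReal ε) → Prb p → NI r (ENNReal.ofReal ε) p →
  phi r p (ENNReal.ofReal A * a) ≤ phi r p (a / ENNReal.ofReal A) + ENNReal.ofReal w →
  ENNReal.ofReal κ ≤ phi r p (a / ENNReal.ofReal A) →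
  8 / A + 4 * w + 20 * ε < σ * κ * δ' →
  ∃ q, Prb q ∧ NI r (ENNReal.ofReal δ') q ∧ ENNReal.ofReal (1 - σ) < phi r q a

/-- A7: from `κ` to `1 - σ`. -/
def St_A7 : Prop := ∀ κ σ δ' : ℝ, 0 < κ → κ ≤ 1 → 0 < σ → σ ≤ 1 → 0 < δ' → δ' ≤ 1 →
  ∃ Λ : ℝ, 1 ≤ Λ ∧ ∃ ε₀ : ℝ, 0 < ε₀ ∧
  ∀ (Ω : Type) (r : Ω → Ω → ℝ≥0∞) (p : Ω → ℝ≥0∞) (a : ℝ≥0∞),
  Idem r (ENNReal.ofReal ε₀) → Prb p → NI r (ENNReal.ofReal ε₀) p → a ≠ ∞ → a ≠ 0 →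
  ENNReal.ofReal κ ≤ phi r p a →
  ∃ q, Prb q ∧ NI r (ENNReal.ofReal δ') q ∧
    ENNReal.ofReal (1 - σ) < phi r q (ENNReal.ofReal Λ * a)

/-- A8a: the thresholds are finite, and there is a row with an (almost) minimal threshold. -/
def St_A8a : Prop := ∀ (Ω : Type) (r : Ω → Ω → ℝ≥0∞) (κ ε : ℝ), Nonempty Ω →
  0 < κ → 0 < ε → κ + ε < 1 → Idem r (ENNReal.ofReal ε) →
  ∃ a : ℝ≥0∞, a ≠ 0 ∧ a ≠ ∞ ∧ (∃ x, ENNReal.ofReal κ ≤ phi r (r x) a) ∧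
    ∀ x, phi r (r x) (a / 2) < ENNReal.ofReal κ

/-- A8b: from a nearly invariant measure with `phi` near one at a multiple of the minimal
threshold to a row with bounded density. -/
def St_A8b : Prop := ∀ (Ω : Type) (r : Ω → Ω → ℝ≥0∞) (q : Ω → ℝ≥0∞) (a : ℝ≥0∞)
    (s ε Λ : ℝ), 0 < s → s ≤ 1 / 20 → 0 ≤ ε → ε ≤ s → 1 ≤ Λ → a ≠ 0 → a ≠ ∞ →
  Idem r (ENNReal.ofReal ε) → Prb q → NI r (ENNReal.ofReal s) q →
  ENNReal.ofReal (1 - s) ≤ phi r q (ENNReal.ofReal Λ * a) →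
  (∀ x, phi r (r x) (a / 2) ≤ ENNReal.ofReal s) →
  ∃ x, ENNReal.ofReal (1 - 10 * s) ≤ phi r (r x) (ENNReal.ofReal (2 * Λ / s))

/-- A9: bounded density and near invariance give concentrated rows. -/
def St_A9 : Prop := ∀ s Λ : ℝ, 0 < s → s ≤ 1 → 1 ≤ Λ → ∃ ε₀ : ℝ, 0 < ε₀ ∧
  ∀ (Ω : Type) (r : Ω → Ω → ℝ≥0∞) (p : Ω → ℝ≥0∞),
  Idem r (ENNReal.ofReal ε₀) → Prb p → NI r (ENNReal.ofReal ε₀) p →
  ENNReal.ofReal (1 - s) ≤ phi r p (ENNReal.ofReal Λ) →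
  ∑' x, p x * spr r x ≤ ENNReal.ofReal (20 * s)

/-- A10 (Theorem E): concentrated rows exist. -/
def St_A10 : Prop := ∀ τ : ℝ, 0 < τ → ∃ ε₀ : ℝ, 0 < ε₀ ∧
  ∀ (Ω : Type) (r : Ω → Ω → ℝ≥0∞), Nonempty Ω → Idem r (ENNReal.ofReal ε₀) →
  ∃ x, spr r x ≤ ENNReal.ofReal τ

/-- A11: self-improvement of a concentrated row. -/
def St_A11 : Prop := ∀ τ : ℝ, 0 < τ → ∃ ε₀ : ℝ, 0 < ε₀ ∧
  ∀ (Ω : Type) (r : Ω → Ω → ℝ≥0∞) (x : Ω), Idem r (ENNReal.ofReal ε₀) →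
  spr r x ≤ ENNReal.ofReal (1 / 10000) →
  1 / 2 ≤ ms (r x) {z | spr r z ≤ ENNReal.ofReal τ}

/-- A12: restriction of the kernel to a set with small leak. -/
def St_A12 : Prop := ∀ (Ω : Type) (r : Ω → Ω → ℝ≥0∞) (ε ϑ : ℝ) (X : Set Ω),
  0 ≤ ε → 0 ≤ ϑ → ϑ ≤ 1 / 4 → Idem r (ENNReal.ofReal ε) →
  (∀ x ∈ X, ms (r x) Xᶜ ≤ ENNReal.ofReal ϑ) →
  Idem (fun (x y : X) => r x y / ms (r x) X) (ENNReal.ofReal (3 * ε + 6 * ϑ)) ∧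
  ∀ x : X, spr r x ≤ spr (fun (x y : X) => r x y / ms (r x) X) x + ENNReal.ofReal (6 * ϑ)

/-- A13 (Theorem F): every row lives on concentrated states. -/
def St_A13 : Prop := ∀ τ : ℝ, 0 < τ → ∃ ε₀ : ℝ, 0 < ε₀ ∧
  ∀ (Ω : Type) (r : Ω → Ω → ℝ≥0∞), Idem r (ENNReal.ofReal ε₀) →
  ∀ x, ms (r x) {z | spr r z ≤ ENNReal.ofReal τ}ᶜ ≤ ENNReal.ofReal τ

/-- sign with values `±1` -/
noncomputable def sg (x : ℝ) : ℝ := if 0 ≤ x then 1 else -1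

/-- A14 (Theorem G): signed version. -/
def St_A14 : Prop := ∀ τ : ℝ, 0 < τ → ∃ η : ℝ, 0 < η ∧ ∀ R : ℕ → ℕ → ℝ,
  (∀ i, Summable fun k => |R i k|) → (∀ i, ∑' k, |R i k| ≤ 1 + η) →
  (∀ i, ∑' k, |(∑' j, R i j * R j k) - R i k| ≤ η) →
  ∃ J : Set ℕ, (∀ i, ∑' j, Jᶜ.indicator (fun j => |R i j|) j ≤ τ) ∧
    ∀ i ∈ J, 1 - τ ≤ ∑' k, |R i k| ∧
      ∑' j, |R i j| * ∑' k, |sg (R i j) * R j k - R i k| ≤ τ

end Pool.NC
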