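import Mathlib
import Pool.Agent.Work.MP_052a41_nc.Defs

/-! Block A10: concentrated rows exist. -/

set_option autoImplicit false

open scoped ENNReal

namespace Pool.NC

variable {Ω : Type}

theorem NI.mono {r : Ω → Ω → ℝ≥0∞} {δ δ' : ℝ≥0∞} {p : Ω → ℝ≥0∞} (h : NI r δ p) (hd : δ ≤ δ') :
    NI r δ' p := fun f hf => ⟨(h f hf).1.trans (by gcongr), (h f hf).2.trans (by gcongr)⟩

theorem Idem.mono {r : Ω → Ω → ℝ≥0∞} {ε ε' : ℝ≥0∞} (h : Idem r ε) (he : ε ≤ ε') : Idem r ε' :=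
  ⟨h.prb, fun x => (h.ni x).mono he⟩

/-- a weighted average is at least the infimum -/
theorem exists_le_of_avg {p f : Ω → ℝ≥0∞} (hp : Prb p) {c : ℝ≥0∞} (h : ∑' x, p x * f x < c) :
    ∃ x, f x ≤ c := by
  by_contra hcon
  push Not at hcon
  have h1 : c ≤ ∑' x, p x * f x := by
    calc c = (∑' x, p x) * c := by rw [hp, one_mul]
      _ = ∑' x, p x * c := by rw [ENNReal.tsum_mul_right]
      _ ≤ ∑' x, p x * f x := ENNReal.tsum_le_tsum fun x => mul_le_mul_right (hcon x).le _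
  exact absurd h (not_lt.2 h1)

theorem A10 (h7 : St_A7) (h8a : St_A8a) (h8b : St_A8b) (h9 : St_A9) : St_A10 := by
  intro τ hτ
  set s : ℝ := min (τ / 300) (1 / 300) with hs
  have hs0 : 0 < s := by rw [hs]; positivity
  have hs1 : s ≤ 1 / 300 := min_le_right _ _
  have hsτ : s ≤ τ / 300 := min_le_left _ _
  obtain ⟨Λ, hΛ, ε7, hε7, H7⟩ := h7 s s s hs0 (by linarith) hs0 (by linarith) hs0 (by linarith)
  have hΛ9 : 1 ≤ 2 * Λ / s := by
    rw [le_div_iff₀ hs0]; nlinarith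
  obtain ⟨ε9, hε9, H9⟩ := h9 (10 * s) (2 * Λ / s) (by linarith) (by linarith) hΛ9
  set ε₀ : ℝ := min ε7 (min ε9 s) with hε₀
  have hε₀0 : 0 < ε₀ := by rw [hε₀]; positivity
  refine ⟨ε₀, hε₀0, ?_⟩
  intro Ω r hne hr
  have hr7 : Idem r (ENNReal.ofReal ε7) := hr.mono (ENNReal.ofReal_le_ofReal (min_le_left _ _))
  have hr9 : Idem r (ENNReal.ofReal ε9) :=
    hr.mono (ENNReal.ofReal_le_ofReal ((min_le_right _ _).trans (min_le_left _ _)))
  have hε₀s : ε₀ ≤ s := (min_le_right _ _).trans (min_le_right _ _)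
  obtain ⟨a, ha0, ha1, ⟨x0, hx0⟩, hall⟩ := h8a Ω r s ε₀ hne hs0 hε₀0 (by linarith) hr
  obtain ⟨q, hq, hqn, hqphi⟩ := H7 Ω r (r x0) a hr7 (hr7.prb x0) (hr7.ni x0) ha1 ha0 hx0
  obtain ⟨x, hx⟩ := h8b Ω r q a s ε₀ Λ hs0 (by linarith) hε₀0.le hε₀s hΛ ha0 ha1 hr hq hqn
    hqphi.le (fun x => (hall x).le)
  have h := H9 Ω r (r x) hr9 (hr9.prb x) (hr9.ni x) hx
  apply exists_le_of_avg (hr.prb x)
  refine h.trans_lt ?_
  rw [ENNReal.ofReal_lt_ofReal_iff hτ]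
  linarith

end Pool.NC
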