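import Mathlib
import Pool.Agent.Work.MP_052a41_nc.Defs

/-! Common lemmas on `ms`, `ev`, `tv` (MP_052a41_nc). -/

set_option autoImplicit false

open scoped ENNReal

namespace Pool.NC

variable {Ω : Type}

theorem ms_eq_ev (p : Ω → ℝ≥0∞) (S : Set Ω) : ms p S = ev p (S.indicator 1) := by
  unfold ms ev
  congr 1
  ext x
  by_cases h : x ∈ S <;> simp [h]

theorem ms_mono (p : Ω → ℝ≥0∞) {S T : Set Ω} (h : S ⊆ T) : ms p S ≤ ms p T :=
  ENNReal.tsum_le_tsum fun x => Set.indicator_le_indicator_of_subset h (fun _ => zero_le) x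

theorem ms_univ (p : Ω → ℝ≥0∞) : ms p Set.univ = ∑' x, p x := by simp [ms]

theorem ms_le_one {p : Ω → ℝ≥0∞} (hp : Prb p) (S : Set Ω) : ms p S ≤ 1 := by
  calc ms p S ≤ ms p Set.univ := ms_mono p (Set.subset_univ _)
    _ = 1 := by rw [ms_univ]; exact hp

theorem ms_add_compl (p : Ω → ℝ≥0∞) (S : Set Ω) : ms p S + ms p Sᶜ = ∑' x, p x := by
  unfold ms
  rw [← ENNReal.tsum_add]
  congr 1
  ext x
  by_cases h : x ∈ S <;> simp [h]

theorem ms_union_le (p : Ω → ℝ≥0∞) (S T : Set Ω) : ms p (S ∪ T) ≤ ms p S + ms p T := by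
  unfold ms
  rw [← ENNReal.tsum_add]
  refine ENNReal.tsum_le_tsum fun x => ?_
  by_cases h : x ∈ S <;> by_cases h' : x ∈ T <;> simp [h, h']

theorem ev_mono (p : Ω → ℝ≥0∞) {f g : Ω → ℝ≥0∞} (h : ∀ x, f x ≤ g x) : ev p f ≤ ev p g :=
  ENNReal.tsum_le_tsum fun x => mul_le_mul_right (h x) _

theorem ev_le {p f : Ω → ℝ≥0∞} {c : ℝ≥0∞} (hp : Prb p) (h : ∀ x, f x ≤ c) : ev p f ≤ c := by
  calc ev p f ≤ ∑' x, p x * c := ENNReal.tsum_le_tsum fun x => mul_le_mul_right (h x) _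
    _ = c := by rw [ENNReal.tsum_mul_right, hp, one_mul]

theorem ev_add (p f g : Ω → ℝ≥0∞) : ev p (fun x => f x + g x) = ev p f + ev p g := by
  unfold ev
  rw [← ENNReal.tsum_add]
  congr 1; ext x; rw [mul_add]

theorem ap_le_one {r : Ω → Ω → ℝ≥0∞} (hr : ∀ x, Prb (r x)) {f : Ω → ℝ≥0∞} (hf : ∀ x, f x ≤ 1)
    (x : Ω) : ap r f x ≤ 1 := ev_le (hr x) hf

theorem le_one_of_prb {p : Ω → ℝ≥0∞} (hp : Prb p) (x : Ω) : p x ≤ 1 := by
  rw [← (show ∑' x, p x = 1 from hp)]; exact ENNReal.le_tsum x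

theorem ne_top_of_prb {p : Ω → ℝ≥0∞} (hp : Prb p) (x : Ω) : p x ≠ ∞ :=
  ((le_one_of_prb hp x).trans_lt ENNReal.one_lt_top).ne

/-- Markov inequality -/
theorem ms_gt_le {p f : Ω → ℝ≥0∞} {c : ℝ≥0∞} (hc0 : c ≠ 0) (hc : c ≠ ∞) :
    ms p {x | c < f x} ≤ (∑' x, p x * f x) / c := by
  rw [ENNReal.le_div_iff_mul_le (Or.inl hc0) (Or.inl hc)]
  unfold ms
  rw [← ENNReal.tsum_mul_right]
  refine ENNReal.tsum_le_tsum fun x => ?_
  by_cases h : c < f x
  · simp only [Set.mem_ofPred_eq, h, Set.indicator_of_mem]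
    exact mul_le_mul_right h.le _
  · simp [h]

theorem tv_comm (p q : Ω → ℝ≥0∞) : tv p q = tv q p := by
  unfold tv; congr 1; ext t; rw [add_comm]

theorem tv_self (p : Ω → ℝ≥0∞) : tv p p = 0 := by simp [tv]

theorem tv_le_two {p q : Ω → ℝ≥0∞} (hp : Prb p) (hq : Prb q) : tv p q ≤ 2 := by
  calc tv p q ≤ ∑' t, (p t + q t) :=
        ENNReal.tsum_le_tsum fun t => add_le_add tsub_le_self tsub_le_self
    _ = 2 := by rw [ENNReal.tsum_add, hp, hq]; norm_num

theorem tv_triangle (p q s : Ω → ℝ≥0∞) : tv p s ≤ tv p q + tv q s := by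
  unfold tv
  rw [← ENNReal.tsum_add]
  refine ENNReal.tsum_le_tsum fun t => ?_
  have h1 : p t - s t ≤ (p t - q t) + (q t - s t) := tsub_le_tsub_add_tsub
  have h2 : s t - p t ≤ (s t - q t) + (q t - p t) := tsub_le_tsub_add_tsub
  calc (p t - s t) + (s t - p t) ≤ ((p t - q t) + (q t - s t)) + ((s t - q t) + (q t - p t)) :=
        add_le_add h1 h2
    _ = _ := by ring

theorem ms_le_add_tv (p q : Ω → ℝ≥0∞) (S : Set Ω) : ms p S ≤ ms q S + tv p q := by
  unfold ms tv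
  rw [← ENNReal.tsum_add]
  refine ENNReal.tsum_le_tsum fun t => ?_
  by_cases h : t ∈ S
  · simp only [h, Set.indicator_of_mem]
    calc p t ≤ q t + (p t - q t) := le_add_tsub
      _ ≤ q t + ((p t - q t) + (q t - p t)) := by gcongr; exact le_self_add
  · simp [h]

theorem ev_le_add_tv (p q : Ω → ℝ≥0∞) {f : Ω → ℝ≥0∞} (hf : ∀ x, f x ≤ 1) :
    ev p f ≤ ev q f + tv p q := by
  unfold ev tv
  rw [← ENNReal.tsum_add]
  refine ENNReal.tsum_le_tsum fun t => ?_
  calc p t * f t ≤ (q t + (p t - q t)) * f t := by gcongr; exact le_add_tsub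
    _ = q t * f t + (p t - q t) * f t := by ring
    _ ≤ q t * f t + (p t - q t) * 1 := by gcongr; exact hf t
    _ ≤ q t * f t + ((p t - q t) + (q t - p t)) := by rw [mul_one]; gcongr; exact le_self_add

/-- the positive part of the difference is controlled by near equality on functions -/
theorem sub_sum_le {p q : Ω → ℝ≥0∞} {δ : ℝ≥0∞} (hq : ∑' x, q x ≠ ∞)
    (h : ∀ f : Ω → ℝ≥0∞, (∀ x, f x ≤ 1) → ev p f ≤ ev q f + δ) :
    ∑' t, (p t - q t) ≤ δ := by
  classical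
  set S : Set Ω := {t | q t ≤ p t} with hS
  have h1 := h (S.indicator 1) (fun x => by by_cases hx : x ∈ S <;> simp [hx])
  rw [← ms_eq_ev, ← ms_eq_ev] at h1
  have h2 : ms q S + ∑' t, (p t - q t) = ms p S := by
    unfold ms
    rw [← ENNReal.tsum_add]
    congr 1
    ext t
    by_cases ht : t ∈ S
    · simp only [ht, Set.indicator_of_mem]
      exact add_tsub_cancel_of_le ht
    · have : p t ≤ q t := by
        simp only [hS, Set.mem_ofPred_eq, not_le] at ht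
        exact ht.le
      simp [ht, tsub_eq_zero_of_le this]
  rw [← h2] at h1
  have h3 : ms q S ≠ ∞ := ne_top_of_le_ne_top hq (by rw [← ms_univ]; exact ms_mono q (Set.subset_univ _))
  exact (ENNReal.add_le_add_iff_left h3).1 h1

end Pool.NC
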