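import Mathlib
import Pool.Agent.Work.MP_052a41_nc.Defs
import Pool.Agent.Work.MP_052a41_nc.Tv
import Pool.Agent.Work.MP_052a41_nc.A10

/-! Block A13: every row lives on concentrated states. -/

set_option autoImplicit false

open scoped ENNReal

namespace Pool.NC

variable {Ω : Type}

theorem A13_core (r : Ω → Ω → ℝ≥0∞) (t : ℝ) (ht : 0 < t) (hr : ∀ x, Prb (r x)) (x : Ω)
    (hx : spr r x ≤ ENNReal.ofReal (t ^ 2)) :
    ms (r x) {z | tv (r z) (r x) ≤ ENNReal.ofReal t}ᶜ ≤ ENNReal.ofReal t := by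
  have h0 : ENNReal.ofReal t ≠ 0 := by simpa using ht
  have h1 : ({z | tv (r z) (r x) ≤ ENNReal.ofReal t}ᶜ : Set Ω) =
      {z | ENNReal.ofReal t < tv (r z) (r x)} := by
    ext z; simp
  rw [h1]
  refine (ms_gt_le h0 ENNReal.ofReal_ne_top).trans ?_
  rw [ENNReal.div_le_iff h0 ENNReal.ofReal_ne_top]
  refine hx.trans ?_
  rw [← ENNReal.ofReal_mul ht.le, sq]

theorem A13 (h10 : St_A10) (h11 : St_A11) (h12 : St_A12) (h3 : St_A3') : St_A13 := by
  intro τ hτ
  obtain ⟨εE, hεE, HE⟩ := h10 (1 / 20000) (by norm_num)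
  set θ : ℝ := min (εE / 100) (min (1 / 1000000) τ) with hθ
  have hθ0 : 0 < θ := by rw [hθ]; positivity
  have hθE : θ ≤ εE / 100 := min_le_left _ _
  have hθ1 : θ ≤ 1 / 1000000 := (min_le_right _ _).trans (min_le_left _ _)
  have hθτ : θ ≤ τ := (min_le_right _ _).trans (min_le_right _ _)
  set t : ℝ := min (θ ^ 2 / 4) (τ / 6) with ht
  have ht0 : 0 < t := by rw [ht]; positivity
  have htθ : t ≤ θ ^ 2 / 4 := min_le_left _ _
  have htτ : t ≤ τ / 6 := min_le_right _ _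
  obtain ⟨ε11, hε11, H11⟩ := h11 (t ^ 2) (by positivity)
  set ε₀ : ℝ := min ε11 (θ ^ 2 / 2) with hε₀
  have hε₀0 : 0 < ε₀ := by rw [hε₀]; positivity
  have hε₀θ : ε₀ ≤ θ ^ 2 / 2 := min_le_right _ _
  refine ⟨ε₀, hε₀0, ?_⟩
  intro Ω r hr
  have hr11 : Idem r (ENNReal.ofReal ε11) := hr.mono (ENNReal.ofReal_le_ofReal (min_le_left _ _))
  set T : ℝ≥0∞ := ENNReal.ofReal t with hT
  set Θ : ℝ≥0∞ := ENNReal.ofReal θ with hΘ
  set E : ℝ≥0∞ := ENNReal.ofReal ε₀ with hE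
  have hT0 : T ≠ 0 := by rw [hT]; simpa using ht0
  have hΘ0 : Θ ≠ 0 := by rw [hΘ]; simpa using hθ0
  have hΘt : Θ ≠ ∞ := ENNReal.ofReal_ne_top
  have h2TE : 2 * T + E ≤ Θ * Θ := by
    rw [hT, hE, hΘ, ← ENNReal.ofReal_mul hθ0.le,
      show (2 : ℝ≥0∞) = ENNReal.ofReal 2 by simp, ← ENNReal.ofReal_mul (by norm_num),
      ← ENNReal.ofReal_add (by positivity) hε₀0.le]
    apply ENNReal.ofReal_le_ofReal
    nlinarith
  set C : Ω → Set Ω := fun x => {z | tv (r z) (r x) ≤ T} with hC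
  set F : Set Ω := {z | ∃ x, spr r x ≤ ENNReal.ofReal (t ^ 2) ∧ z ∈ C x} with hF
  have hCa : ∀ x, spr r x ≤ ENNReal.ofReal (t ^ 2) → ms (r x) (C x)ᶜ ≤ T :=
    fun x hx => A13_core r t ht0 hr.prb x hx
  have hFC : ∀ x, spr r x ≤ ENNReal.ofReal (t ^ 2) → C x ⊆ F := fun x hx z hz => ⟨x, hx, hz⟩
  have hzC : ∀ x, spr r x ≤ ENNReal.ofReal (t ^ 2) → ∀ z ∈ C x, ms (r z) (C x)ᶜ ≤ 2 * T := by
    intro x hx z hz
    calc ms (r z) (C x)ᶜ ≤ ms (r x) (C x)ᶜ + tv (r z) (r x) := ms_le_add_tv _ _ _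
      _ ≤ T + T := add_le_add (hCa x hx) hz
      _ = 2 * T := by ring
  -- (b)
  have hb : ∀ z ∈ F, ms (r z) Fᶜ ≤ 2 * T := by
    rintro z ⟨x, hx, hz⟩
    exact (ms_mono _ (Set.compl_subset_compl.2 (hFC x hx))).trans (hzC x hx z hz)
  -- (c)
  have hc : ∀ z ∈ F, spr r z ≤ 6 * T := by
    rintro z ⟨x, hx, hz⟩
    have hz' := hzC x hx z hz
    have h1 : ∀ w, r z w * tv (r w) (r z) ≤ r z w * (2 * T) + (C x)ᶜ.indicator (r z) w * 2 := by
      intro w
      by_cases hw : w ∈ C x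
      · have h2 : tv (r w) (r z) ≤ 2 * T := by
          calc tv (r w) (r z) ≤ tv (r w) (r x) + tv (r x) (r z) := tv_triangle _ _ _
            _ ≤ T + T := add_le_add hw (by rw [tv_comm]; exact hz)
            _ = 2 * T := by ring
        exact (mul_le_mul_right h2 _).trans le_self_add
      · have h2 : tv (r w) (r z) ≤ 2 := tv_le_two (hr.prb w) (hr.prb z)
        have h3 : (C x)ᶜ.indicator (r z) w = r z w := by simp [hw]
        rw [h3]
        exact (mul_le_mul_right h2 _).trans le_add_self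
    calc spr r z ≤ ∑' w, (r z w * (2 * T) + (C x)ᶜ.indicator (r z) w * 2) :=
          ENNReal.tsum_le_tsum h1
      _ = 2 * T + ms (r z) (C x)ᶜ * 2 := by
          rw [ENNReal.tsum_add, ENNReal.tsum_mul_right, ENNReal.tsum_mul_right, hr.prb z, one_mul]
          rfl
      _ ≤ 2 * T + 2 * T * 2 := by gcongr
      _ = 6 * T := by ring
  -- (d)
  have hd : ∀ z, inm r (r z) F ≤ Θ * Θ := by
    intro z
    have h1 : outm r (r z) F ≤ 2 * T := by
      calc outm r (r z) F ≤ ∑' y, r z y * (2 * T) := by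
            refine ENNReal.tsum_le_tsum fun y => ?_
            by_cases hy : y ∈ F
            · simp only [hy, Set.indicator_of_mem]
              exact mul_le_mul_right (hb y hy) _
            · simp [hy]
        _ = 2 * T := by rw [ENNReal.tsum_mul_right, hr.prb z, one_mul]
    calc inm r (r z) F ≤ outm r (r z) F + E := h3 Ω r (r z) E F hr.prb (hr.prb z) (hr.ni z)
      _ ≤ 2 * T + E := by gcongr
      _ ≤ Θ * Θ := h2TE
  -- masses outside `F` of points which see `F` with mass more than `Θ`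
  have he : ∀ z, ∀ B : Set Ω, (∀ y ∈ B, y ∉ F ∧ Θ < ms (r y) F) → ms (r z) B ≤ Θ := by
    intro z B hB
    have h1 : Θ * ms (r z) B ≤ Θ * Θ := by
      refine le_trans ?_ (hd z)
      unfold ms inm
      rw [← ENNReal.tsum_mul_left]
      refine ENNReal.tsum_le_tsum fun y => ?_
      by_cases hy : y ∈ B
      · have h2 := hB y hy
        have h3 : Fᶜ.indicator (r z) y = r z y := by simp [h2.1]
        simp only [hy, Set.indicator_of_mem]
        rw [h3, mul_comm]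
        exact mul_le_mul_right h2.2.le _
      · simp [hy]
    exact (ENNReal.mul_le_mul_iff_right hΘ0 hΘt).1 h1
  -- (e)
  set X : Set Ω := {z | ms (r z) F ≤ Θ} with hX
  have heX : ∀ z ∈ X, ms (r z) Xᶜ ≤ ENNReal.ofReal (2 * θ) := by
    intro z hz
    have h1 : (Xᶜ : Set Ω) ⊆ F ∪ (Xᶜ ∩ Fᶜ) := by
      intro y hy
      by_cases hyF : y ∈ F
      · exact Or.inl hyF
      · exact Or.inr ⟨hy, hyF⟩
    calc ms (r z) Xᶜ ≤ ms (r z) (F ∪ (Xᶜ ∩ Fᶜ)) := ms_mono _ h1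
      _ ≤ ms (r z) F + ms (r z) (Xᶜ ∩ Fᶜ) := ms_union_le _ _ _
      _ ≤ Θ + Θ := by
          refine add_le_add hz (he z _ ?_)
          rintro y ⟨hy, hyF⟩
          refine ⟨hyF, ?_⟩
          simpa [hX] using hy
      _ = ENNReal.ofReal (2 * θ) := by
          rw [hΘ, ← ENNReal.ofReal_add hθ0.le hθ0.le]; congr 1; ring
  -- (f)
  have hf : ∀ z, Θ < ms (r z) F := by
    intro z
    by_contra hcon
    have hzX : z ∈ X := not_lt.1 hcon
    obtain ⟨hI, hS⟩ := h12 Ω r ε₀ (2 * θ) X hε₀0.le (by linarith) (by linarith) hr heX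
    have hI' : Idem (fun (x y : X) => r x y / ms (r x) X) (ENNReal.ofReal εE) := by
      refine hI.mono (ENNReal.ofReal_le_ofReal ?_)
      have : θ ^ 2 ≤ θ := by nlinarith
      linarith
    obtain ⟨x', hx'⟩ := HE X _ ⟨⟨z, hzX⟩⟩ hI'
    have h1 : spr r (x' : Ω) ≤ ENNReal.ofReal (1 / 10000) := by
      refine (hS x').trans ?_
      calc _ ≤ ENNReal.ofReal (1 / 20000) + ENNReal.ofReal (6 * (2 * θ)) := by gcongr
        _ = ENNReal.ofReal (1 / 20000 + 6 * (2 * θ)) := by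
            rw [← ENNReal.ofReal_add (by norm_num) (by positivity)]
        _ ≤ ENNReal.ofReal (1 / 10000) := by
            apply ENNReal.ofReal_le_ofReal
            linarith
    have h2 := H11 Ω r x' hr11 h1
    have h3 : ms (r x') {z | spr r z ≤ ENNReal.ofReal (t ^ 2)} ≤ ms (r x') F := by
      apply ms_mono
      intro y hy
      refine ⟨y, hy, ?_⟩
      show tv (r y) (r y) ≤ T
      rw [tv_self]; exact zero_le
    have h4 : (1 / 2 : ℝ≥0∞) ≤ Θ := h2.trans (h3.trans x'.2)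
    have h5 : Θ < 1 / 2 := by
      rw [hΘ, show (1 / 2 : ℝ≥0∞) = ENNReal.ofReal (1 / 2) by
        rw [ENNReal.ofReal_div_of_pos (by norm_num)]; simp]
      rw [ENNReal.ofReal_lt_ofReal_iff (by norm_num)]
      linarith
    exact absurd h4 (not_le.2 h5)
  -- conclusion
  intro x
  have h1 : ({z | spr r z ≤ ENNReal.ofReal τ}ᶜ : Set Ω) ⊆ Fᶜ := by
    apply Set.compl_subset_compl.2
    intro z hz
    refine (hc z hz).trans ?_
    rw [hT, show (6 : ℝ≥0∞) = ENNReal.ofReal 6 by simp, ← ENNReal.ofReal_mul (by norm_num)]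
    apply ENNReal.ofReal_le_ofReal
    linarith
  calc ms (r x) {z | spr r z ≤ ENNReal.ofReal τ}ᶜ ≤ ms (r x) Fᶜ := ms_mono _ h1
    _ ≤ Θ := he x _ fun y hy => ⟨hy, hf y⟩
    _ ≤ ENNReal.ofReal τ := ENNReal.ofReal_le_ofReal hθτ

end Pool.NC
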