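import Mathlib
import Pool.Agent.Work.MP_052a41_nc.Defs

/-! Block A14: signed version. -/

set_option autoImplicit false

open scoped ENNReal

namespace Pool.NC

namespace A14_

/-- an almost idempotent substochastic matrix -/
structure QK (q : ℕ → ℕ → ℝ≥0∞) (g : ℝ) : Prop where
  pos : 0 < g
  le : g ≤ 1 / 40
  mass : ∀ i, ∑' k, q i k ≤ 1 + ENNReal.ofReal (g ^ 2)
  sub : ∀ i, ∀ f : ℕ → ℝ≥0∞, (∀ k, f k ≤ 1) →
    ∑' k, q i k * f k ≤ (∑' j, q i j * ∑' k, q j k * f k) + ENNReal.ofReal (g ^ 2)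

variable {q : ℕ → ℕ → ℝ≥0∞} {g : ℝ}

lemma QK.sq_le (h : QK q g) : g ^ 2 ≤ g / 40 := by nlinarith [h.pos, h.le]

lemma QK.mass2 (h : QK q g) (i : ℕ) : ∑' k, q i k ≤ 2 := by
  refine le_trans (h.mass i) ?_
  have h1 : ENNReal.ofReal (g ^ 2) ≤ 1 := by
    rw [ENNReal.ofReal_le_one]
    have := h.sq_le
    have := h.le
    linarith
  calc (1 : ℝ≥0∞) + ENNReal.ofReal (g ^ 2) ≤ 1 + 1 := by gcongr
    _ = 2 := one_add_one_eq_two

lemma QK.Q_le (h : QK q g) (i : ℕ) {f : ℕ → ℝ≥0∞} (hf : ∀ k, f k ≤ 1) :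
    ∑' k, q i k * f k ≤ 2 := by
  refine le_trans (ENNReal.tsum_le_tsum fun k => ?_) (h.mass2 i)
  exact mul_le_of_le_one_right' (hf k)

lemma QK.Q_ne (h : QK q g) (i : ℕ) {f : ℕ → ℝ≥0∞} (hf : ∀ k, f k ≤ 1) :
    ∑' k, q i k * f k ≠ ∞ := ne_top_of_le_ne_top (by norm_num) (h.Q_le i hf)

lemma QK.S_le (h : QK q g) (i : ℕ) {f : ℕ → ℝ≥0∞} (hf : ∀ k, f k ≤ 1) :
    ∑' j, q i j * ∑' k, q j k * f k ≤ 4 := by
  calc ∑' j, q i j * ∑' k, q j k * f k ≤ ∑' j, q i j * 2 :=
        ENNReal.tsum_le_tsum fun j => by gcongr; exact h.Q_le j hf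
    _ = (∑' j, q i j) * 2 := ENNReal.tsum_mul_right
    _ ≤ 2 * 2 := by gcongr; exact h.mass2 i
    _ = 4 := by norm_num

lemma QK.upper (h : QK q g) (i : ℕ) {f : ℕ → ℝ≥0∞} (hf : ∀ k, f k ≤ 1) :
    ∑' j, q i j * ∑' k, q j k * f k ≤ (∑' k, q i k * f k) + ENNReal.ofReal (3 * g ^ 2) := by
  set f' : ℕ → ℝ≥0∞ := fun k => 1 - f k with hf'
  have hf1 : ∀ k, f' k ≤ 1 := fun k => tsub_le_self
  have hsum : ∀ j, (∑' k, q j k * f k) + ∑' k, q j k * f' k = ∑' k, q j k := by
    intro j
    rw [← ENNReal.tsum_add]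
    congr 1
    funext k
    rw [← mul_add, hf', add_tsub_cancel_of_le (hf k), mul_one]
  have hS : (∑' j, q i j * ∑' k, q j k * f k) + ∑' j, q i j * ∑' k, q j k * f' k
      = ∑' j, q i j * ∑' k, q j k := by
    rw [← ENNReal.tsum_add]
    congr 1
    funext j
    rw [← mul_add, hsum]
  have hM : ∑' j, q i j * ∑' k, q j k ≤ (∑' k, q i k) * (1 + ENNReal.ofReal (g ^ 2)) := by
    rw [← ENNReal.tsum_mul_right]
    exact ENNReal.tsum_le_tsum fun j => by gcongr; exact h.mass j
  have h1 := h.sub i f' hf1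
  have hfin := h.Q_ne i hf1
  have h3 : ENNReal.ofReal (3 * g ^ 2) = 2 * ENNReal.ofReal (g ^ 2) + ENNReal.ofReal (g ^ 2) := by
    rw [show (3 : ℝ) * g ^ 2 = 2 * g ^ 2 + g ^ 2 by ring,
      ENNReal.ofReal_add (by positivity) (by positivity), ENNReal.ofReal_mul (by norm_num)]
    simp
  rw [← ENNReal.add_le_add_iff_right hfin]
  calc (∑' j, q i j * ∑' k, q j k * f k) + ∑' k, q i k * f' k
      ≤ (∑' j, q i j * ∑' k, q j k * f k)
        + ((∑' j, q i j * ∑' k, q j k * f' k) + ENNReal.ofReal (g ^ 2)) := by gcongr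
    _ = (∑' j, q i j * ∑' k, q j k) + ENNReal.ofReal (g ^ 2) := by rw [← add_assoc, hS]
    _ ≤ (∑' k, q i k) * (1 + ENNReal.ofReal (g ^ 2)) + ENNReal.ofReal (g ^ 2) := by gcongr
    _ = (∑' k, q i k) + (∑' k, q i k) * ENNReal.ofReal (g ^ 2) + ENNReal.ofReal (g ^ 2) := by
        rw [mul_add, mul_one]
    _ ≤ (∑' k, q i k) + 2 * ENNReal.ofReal (g ^ 2) + ENNReal.ofReal (g ^ 2) := by
        gcongr; exact h.mass2 i
    _ = (∑' k, q i k * f k) + ENNReal.ofReal (3 * g ^ 2) + ∑' k, q i k * f' k := by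
        rw [← hsum i, h3]; ring

/-- the indices with almost full mass -/
def Om (q : ℕ → ℕ → ℝ≥0∞) (g : ℝ) : Set ℕ := {j | ENNReal.ofReal (1 - g) ≤ ∑' k, q j k}

lemma QK.out (h : QK q g) (i : ℕ) :
    ∑' k, (Om q g)ᶜ.indicator (q i) k ≤ ENNReal.ofReal (3 * g) := by
  classical
  have hg := h.pos
  have hg1 := h.le
  have h1 := h.sub i (fun _ => 1) fun _ => le_rfl
  simp only [mul_one] at h1
  set B := ∑' k, (Om q g)ᶜ.indicator (q i) k with hB
  have hterm : ∀ j, q i j * (∑' k, q j k) + (Om q g)ᶜ.indicator (q i) j * ENNReal.ofReal g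
      ≤ q i j * (1 + ENNReal.ofReal (g ^ 2)) := by
    intro j
    by_cases hj : j ∈ Om q g
    · rw [Set.indicator_of_notMem (by simpa using hj), zero_mul, add_zero]
      gcongr
      exact h.mass j
    · rw [Set.indicator_of_mem (by simpa using hj), ← mul_add]
      refine mul_le_mul' le_rfl ?_
      have h2 : ∑' k, q j k ≤ ENNReal.ofReal (1 - g) := (not_le.1 hj).le
      calc (∑' k, q j k) + ENNReal.ofReal g ≤ ENNReal.ofReal (1 - g) + ENNReal.ofReal g := by
            gcongr
        _ = 1 := by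
            rw [← ENNReal.ofReal_add (by linarith) hg.le]; simp
        _ ≤ 1 + ENNReal.ofReal (g ^ 2) := le_self_add
  have hsum := ENNReal.tsum_le_tsum hterm
  rw [ENNReal.tsum_add, ENNReal.tsum_mul_right, ENNReal.tsum_mul_right, ← hB] at hsum
  have hfin : ∑' k, q i k ≠ ∞ := ne_top_of_le_ne_top (by norm_num) (h.mass2 i)
  have h3 : B * ENNReal.ofReal g ≤ ENNReal.ofReal (3 * g ^ 2) := by
    rw [← ENNReal.add_le_add_iff_right hfin]
    have e3 : ENNReal.ofReal (3 * g ^ 2) = 2 * ENNReal.ofReal (g ^ 2) + ENNReal.ofReal (g ^ 2) := by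
      rw [show (3 : ℝ) * g ^ 2 = 2 * g ^ 2 + g ^ 2 by ring,
        ENNReal.ofReal_add (by positivity) (by positivity), ENNReal.ofReal_mul (by norm_num)]
      simp
    calc B * ENNReal.ofReal g + ∑' k, q i k
        ≤ B * ENNReal.ofReal g + ((∑' j, q i j * ∑' k, q j k) + ENNReal.ofReal (g ^ 2)) := by
          gcongr
      _ = ((∑' j, q i j * ∑' k, q j k) + B * ENNReal.ofReal g) + ENNReal.ofReal (g ^ 2) := by ring
      _ ≤ (∑' k, q i k) * (1 + ENNReal.ofReal (g ^ 2)) + ENNReal.ofReal (g ^ 2) := by gcongr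
      _ = (∑' k, q i k) + (∑' k, q i k) * ENNReal.ofReal (g ^ 2) + ENNReal.ofReal (g ^ 2) := by
          rw [mul_add, mul_one]
      _ ≤ (∑' k, q i k) + 2 * ENNReal.ofReal (g ^ 2) + ENNReal.ofReal (g ^ 2) := by
          gcongr; exact h.mass2 i
      _ = ENNReal.ofReal (3 * g ^ 2) + ∑' k, q i k := by rw [e3]; ring
  have h4 : ENNReal.ofReal (3 * g ^ 2) = ENNReal.ofReal (3 * g) * ENNReal.ofReal g := by
    rw [← ENNReal.ofReal_mul (by positivity)]
    congr 1; ring
  rw [h4] at h3
  exact (ENNReal.mul_le_mul_iff_left (by simpa using hg) ENNReal.ofReal_ne_top).1 h3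

/-- the mass on `Om` -/
noncomputable def uu (q : ℕ → ℕ → ℝ≥0∞) (g : ℝ) (i : ℕ) : ℝ≥0∞ := ∑' y : Om q g, q i y

/-- the kernel on `Om` -/
noncomputable def rr (q : ℕ → ℕ → ℝ≥0∞) (g : ℝ) (x y : Om q g) : ℝ≥0∞ := q x y / uu q g x

lemma split_sum (q : ℕ → ℕ → ℝ≥0∞) (g : ℝ) (f : ℕ → ℝ≥0∞) :
    ∑' k, f k = (∑' y : Om q g, f y) + ∑' k, (Om q g)ᶜ.indicator f k := by
  rw [tsum_subtype, ← ENNReal.tsum_add]
  congr 1
  funext k
  by_cases hk : k ∈ Om q g
  · simp [hk]
  · simp [hk]

lemma QK.uu_le (h : QK q g) (i : ℕ) : uu q g i ≤ 1 + ENNReal.ofReal (g ^ 2) := by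
  refine le_trans ?_ (h.mass i)
  rw [split_sum q g (q i)]
  exact le_self_add

lemma QK.uu_le2 (h : QK q g) (i : ℕ) : uu q g i ≤ 2 := by
  refine le_trans ?_ (h.mass2 i)
  rw [split_sum q g (q i)]
  exact le_self_add

lemma QK.uu_ne (h : QK q g) (i : ℕ) : uu q g i ≠ ∞ := ne_top_of_le_ne_top (by norm_num) (h.uu_le2 i)

lemma QK.uu_ge (h : QK q g) (x : Om q g) : ENNReal.ofReal (1 - 4 * g) ≤ uu q g x := by
  have h1 : ENNReal.ofReal (1 - g) ≤ ∑' k, q x k := x.2
  rw [split_sum q g (q x)] at h1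
  have h2 := h.out x
  have h3 : ENNReal.ofReal (1 - 4 * g) + ENNReal.ofReal (3 * g)
      ≤ uu q g x + ENNReal.ofReal (3 * g) := by
    rw [← ENNReal.ofReal_add (by linarith [h.le]) (by linarith [h.pos]),
      show 1 - 4 * g + 3 * g = 1 - g by ring]
    refine le_trans h1 ?_
    gcongr
    exact le_rfl
  exact (ENNReal.add_le_add_iff_right ENNReal.ofReal_ne_top).1 h3

lemma QK.uu_pos (h : QK q g) (x : Om q g) : uu q g x ≠ 0 := by
  have h1 : (0 : ℝ≥0∞) < ENNReal.ofReal (1 - 4 * g) := by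
    rw [ENNReal.ofReal_pos]; linarith [h.le]
  exact (lt_of_lt_of_le h1 (h.uu_ge x)).ne'

lemma QK.uu_mul (h : QK q g) (x y : Om q g) : uu q g x * rr q g x y = q x y := by
  unfold rr
  rw [ENNReal.mul_div_cancel (h.uu_pos x) (h.uu_ne x)]

lemma QK.prb (h : QK q g) (x : Om q g) : Prb (rr q g x) := by
  unfold Prb rr
  simp only [ENNReal.div_eq_inv_mul]
  rw [ENNReal.tsum_mul_left]
  exact ENNReal.inv_mul_cancel (h.uu_pos x) (h.uu_ne x)

/-- extension by zero -/
noncomputable def ext (q : ℕ → ℕ → ℝ≥0∞) (g : ℝ) (f : Om q g → ℝ≥0∞) (k : ℕ) : ℝ≥0∞ :=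
  open scoped Classical in if h : k ∈ Om q g then f ⟨k, h⟩ else 0

lemma ext_apply (f : Om q g → ℝ≥0∞) (y : Om q g) : ext q g f y = f y := by
  unfold ext; rw [dif_pos y.2]

lemma ext_le {f : Om q g → ℝ≥0∞} (hf : ∀ y, f y ≤ 1) (k : ℕ) : ext q g f k ≤ 1 := by
  unfold ext; split_ifs
  · exact hf _
  · exact zero_le_one

lemma Q_ext (f : Om q g → ℝ≥0∞) (i : ℕ) :
    ∑' k, q i k * ext q g f k = ∑' y : Om q g, q i y * f y := by
  classical
  rw [split_sum q g]
  have h1 : ∑' k, (Om q g)ᶜ.indicator (fun k => q i k * ext q g f k) k = 0 := by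
    rw [ENNReal.tsum_eq_zero]
    intro k
    by_cases hk : k ∈ Om q g
    · rw [Set.indicator_of_notMem (by simpa using hk)]
    · rw [Set.indicator_of_mem (by simpa using hk)]
      unfold ext
      rw [dif_neg hk, mul_zero]
  rw [h1, add_zero]
  congr 1
  funext y
  rw [ext_apply]

lemma QK.uu_mul_ap (h : QK q g) (f : Om q g → ℝ≥0∞) (x : Om q g) :
    uu q g x * ap (rr q g) f x = ∑' k, q x k * ext q g f k := by
  rw [Q_ext]
  unfold ap ev
  rw [← ENNReal.tsum_mul_left]
  congr 1
  funext y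
  rw [← mul_assoc, h.uu_mul]

/-- the kernel is almost idempotent -/
lemma QK.idem (h : QK q g) {ε : ℝ} (hε : 8 * g ≤ ε) : Idem (rr q g) (ENNReal.ofReal ε) := by
  refine ⟨h.prb, ?_⟩
  intro x f hf
  have hg := h.pos
  have hg1 := h.le
  have hf' := ext_le (q := q) (g := g) hf
  set F := ∑' k, q (x : ℕ) k * ext q g f k with hF
  set S := ∑' j, q (x : ℕ) j * ∑' k, q j k * ext q g f k with hS
  set S1 := ∑' y : Om q g, q (x : ℕ) y * ∑' k, q y k * ext q g f k with hS1
  set e := ev (rr q g x) f with he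
  set E2 := ev (rr q g x) (ap (rr q g) f) with hE2
  have a1 : uu q g x * e = F := h.uu_mul_ap f x
  have hap : ∀ y, ap (rr q g) f y ≤ 1 := by
    intro y
    have : ∑' z, rr q g y z = 1 := h.prb y
    rw [← this]
    exact ENNReal.tsum_le_tsum fun z => mul_le_of_le_one_right' (hf z)
  have a2 : e ≤ 1 := hap x
  have a3 : E2 ≤ 1 := by
    have : ∑' z, rr q g x z = 1 := h.prb x
    rw [← this]
    exact ENNReal.tsum_le_tsum fun z => mul_le_of_le_one_right' (hap z)
  have a4 : uu q g x * E2 * ENNReal.ofReal (1 - 4 * g) ≤ S1 := by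
    rw [hE2, hS1]
    unfold ev
    rw [← ENNReal.tsum_mul_left, ← ENNReal.tsum_mul_right]
    refine ENNReal.tsum_le_tsum fun y => ?_
    rw [← mul_assoc, h.uu_mul, mul_assoc, ← h.uu_mul_ap f y]
    refine mul_le_mul' le_rfl ?_
    rw [mul_comm]
    exact mul_le_mul' (h.uu_ge y) le_rfl
  have a5 : S1 ≤ uu q g x * E2 * (1 + ENNReal.ofReal (g ^ 2)) := by
    rw [hE2, hS1]
    unfold ev
    rw [← ENNReal.tsum_mul_left, ← ENNReal.tsum_mul_right]
    refine ENNReal.tsum_le_tsum fun y => ?_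
    rw [← mul_assoc, h.uu_mul, mul_assoc, ← h.uu_mul_ap f y]
    refine mul_le_mul' le_rfl ?_
    rw [mul_comm]
    exact mul_le_mul' le_rfl (h.uu_le y)
  have a6 : S1 ≤ S := by
    rw [hS, split_sum q g]
    exact le_self_add
  have a7 : S ≤ S1 + 2 * ENNReal.ofReal (3 * g) := by
    rw [hS, split_sum q g]
    gcongr
    calc ∑' k, (Om q g)ᶜ.indicator (fun j => q (x : ℕ) j * ∑' k, q j k * ext q g f k) k
        ≤ ∑' k, 2 * (Om q g)ᶜ.indicator (q x) k := by
          refine ENNReal.tsum_le_tsum fun k => ?_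
          by_cases hk : k ∈ (Om q g)ᶜ
          · rw [Set.indicator_of_mem hk, Set.indicator_of_mem hk, mul_comm]
            gcongr
            exact h.Q_le k hf'
          · rw [Set.indicator_of_notMem hk, Set.indicator_of_notMem hk, mul_zero]
      _ = 2 * ∑' k, (Om q g)ᶜ.indicator (q x) k := ENNReal.tsum_mul_left
      _ ≤ 2 * ENNReal.ofReal (3 * g) := by gcongr; exact h.out x
  have a8 : S ≤ F + ENNReal.ofReal (3 * g ^ 2) := h.upper x hf'
  have a9 : F ≤ S + ENNReal.ofReal (g ^ 2) := h.sub x _ hf'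
  -- pass to real numbers
  have fF : F ≠ ∞ := h.Q_ne x hf'
  have fS : S ≠ ∞ := ne_top_of_le_ne_top (by norm_num) (h.S_le x hf')
  have fS1 : S1 ≠ ∞ := ne_top_of_le_ne_top fS a6
  have fe : e ≠ ∞ := ne_top_of_le_ne_top (by norm_num) a2
  have fE : E2 ≠ ∞ := ne_top_of_le_ne_top (by norm_num) a3
  have fu := h.uu_ne x
  have u1 := h.uu_ge x
  obtain ⟨F', hF', rfl'⟩ : ∃ F' : ℝ, 0 ≤ F' ∧ F = ENNReal.ofReal F' :=
    ⟨F.toReal, ENNReal.toReal_nonneg, (ENNReal.ofReal_toReal fF).symm⟩
  obtain ⟨S', hS', rS'⟩ : ∃ F' : ℝ, 0 ≤ F' ∧ S = ENNReal.ofReal F' :=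
    ⟨S.toReal, ENNReal.toReal_nonneg, (ENNReal.ofReal_toReal fS).symm⟩
  obtain ⟨S1', hS1', rS1'⟩ : ∃ F' : ℝ, 0 ≤ F' ∧ S1 = ENNReal.ofReal F' :=
    ⟨S1.toReal, ENNReal.toReal_nonneg, (ENNReal.ofReal_toReal fS1).symm⟩
  obtain ⟨e', he', re'⟩ : ∃ F' : ℝ, 0 ≤ F' ∧ e = ENNReal.ofReal F' :=
    ⟨e.toReal, ENNReal.toReal_nonneg, (ENNReal.ofReal_toReal fe).symm⟩
  obtain ⟨E', hE', rE'⟩ : ∃ F' : ℝ, 0 ≤ F' ∧ E2 = ENNReal.ofReal F' :=
    ⟨E2.toReal, ENNReal.toReal_nonneg, (ENNReal.ofReal_toReal fE).symm⟩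
  obtain ⟨u', hu', ru'⟩ : ∃ F' : ℝ, 0 ≤ F' ∧ uu q g x = ENNReal.ofReal F' :=
    ⟨(uu q g x).toReal, ENNReal.toReal_nonneg, (ENNReal.ofReal_toReal fu).symm⟩
  rw [ru'] at u1
  have u1' : 1 - 4 * g ≤ u' := (ENNReal.ofReal_le_ofReal_iff hu').1 u1
  rw [ru', re', rfl', ← ENNReal.ofReal_mul hu'] at a1
  have b1 : u' * e' = F' := by
    have := congrArg ENNReal.toReal a1
    rwa [ENNReal.toReal_ofReal (by positivity), ENNReal.toReal_ofReal hF'] at this
  rw [re', ENNReal.ofReal_le_one] at a2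
  rw [rE', ENNReal.ofReal_le_one] at a3
  have hg4 : 0 ≤ 1 - 4 * g := by linarith
  rw [ru', rE', rS1', ← ENNReal.ofReal_mul hu', ← ENNReal.ofReal_mul (by positivity),
    ENNReal.ofReal_le_ofReal_iff hS1'] at a4
  rw [ru', rE', rS1', ← ENNReal.ofReal_mul hu',
    show (1 : ℝ≥0∞) + ENNReal.ofReal (g ^ 2) = ENNReal.ofReal (1 + g ^ 2) by
      rw [ENNReal.ofReal_add (by norm_num) (by positivity), ENNReal.ofReal_one],
    ← ENNReal.ofReal_mul (by positivity), ENNReal.ofReal_le_ofReal_iff (by positivity)] at a5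
  rw [rS1', rS', ENNReal.ofReal_le_ofReal_iff hS'] at a6
  rw [rS1', rS', show (2 : ℝ≥0∞) * ENNReal.ofReal (3 * g) = ENNReal.ofReal (6 * g) by
      rw [show (6 : ℝ) * g = 2 * (3 * g) by ring, ENNReal.ofReal_mul (by norm_num)]; simp,
    ← ENNReal.ofReal_add hS1' (by positivity), ENNReal.ofReal_le_ofReal_iff (by positivity)] at a7
  rw [rfl', rS', ← ENNReal.ofReal_add hF' (by positivity),
    ENNReal.ofReal_le_ofReal_iff (by positivity)] at a8
  rw [rfl', rS', ← ENNReal.ofReal_add hS' (by positivity),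
    ENNReal.ofReal_le_ofReal_iff (by positivity)] at a9
  have hgg := h.sq_le
  have hε0 : 0 ≤ ε := by linarith
  have hu9 : 9 / 10 ≤ u' := by linarith
  have hu0 : 0 < u' := by linarith
  rw [rE', re', ← ENNReal.ofReal_add he' hε0, ← ENNReal.ofReal_add hE' hε0,
    ENNReal.ofReal_le_ofReal_iff (by positivity), ENNReal.ofReal_le_ofReal_iff (by positivity)]
  constructor
  · -- `E' ≤ e' + ε`
    have c1 : u' * (E' * (1 - 4 * g)) ≤ u' * (e' + g) := by nlinarith
    have c2 : E' * (1 - 4 * g) ≤ e' + g := le_of_mul_le_mul_left c1 hu0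
    nlinarith
  · have c1 : u' * e' ≤ u' * (E' * (1 + g ^ 2) + 7 * g) := by nlinarith
    have c2 : e' ≤ E' * (1 + g ^ 2) + 7 * g := le_of_mul_le_mul_left c1 hu0
    nlinarith

lemma le_tsub_tsub (a b : ℝ≥0∞) : a ≤ (a - b) + b := le_tsub_add

/-- total variation on all indices and on `Om` -/
lemma QK.tv_le (h : QK q g) (x y : Om q g) :
    tv (q y) (q x) ≤ 2 * tv (rr q g y) (rr q g x) + ENNReal.ofReal (16 * g) := by
  have hg := h.pos
  have hg1 := h.le
  unfold tv
  rw [split_sum q g]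
  have e16 : ENNReal.ofReal (16 * g) = ENNReal.ofReal (10 * g) + (ENNReal.ofReal (3 * g)
      + ENNReal.ofReal (3 * g)) := by
    rw [← ENNReal.ofReal_add (by positivity) (by positivity),
      ← ENNReal.ofReal_add (by positivity) (by positivity)]
    congr 1; ring
  rw [e16, ← add_assoc]
  refine add_le_add ?_ ?_
  · -- inside
    have hdiff : ∀ x y : Om q g, uu q g y - uu q g x ≤ ENNReal.ofReal (5 * g) := by
      intro x y
      rw [tsub_le_iff_right]
      refine le_trans (h.uu_le y) ?_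
      refine le_trans ?_ (add_le_add le_rfl (h.uu_ge x))
      rw [← ENNReal.ofReal_one, ← ENNReal.ofReal_add (by norm_num) (by positivity),
        ← ENNReal.ofReal_add (by positivity) (by linarith)]
      apply ENNReal.ofReal_le_ofReal
      have := h.sq_le
      linarith
    have hterm : ∀ x y z : Om q g, q (y : ℕ) z - q (x : ℕ) z
        ≤ uu q g y * (rr q g y z - rr q g x z) + (uu q g y - uu q g x) * rr q g x z := by
      intro x y z
      rw [tsub_le_iff_right, ← h.uu_mul y z, ← h.uu_mul x z]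
      calc uu q g y * rr q g y z ≤ uu q g y * ((rr q g y z - rr q g x z) + rr q g x z) :=
            mul_le_mul' le_rfl le_tsub_add
        _ = uu q g y * (rr q g y z - rr q g x z) + uu q g y * rr q g x z := mul_add _ _ _
        _ ≤ uu q g y * (rr q g y z - rr q g x z)
            + ((uu q g y - uu q g x) + uu q g x) * rr q g x z :=
            add_le_add le_rfl (mul_le_mul' le_tsub_add le_rfl)
        _ = _ := by rw [add_mul, add_assoc]
    have hterm' : ∀ z : Om q g, q (x : ℕ) z - q (y : ℕ) z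
        ≤ uu q g y * (rr q g x z - rr q g y z) + (uu q g x - uu q g y) * rr q g x z := by
      intro z
      rw [tsub_le_iff_right, ← h.uu_mul y z, ← h.uu_mul x z]
      calc uu q g x * rr q g x z ≤ ((uu q g x - uu q g y) + uu q g y) * rr q g x z :=
            mul_le_mul' le_tsub_add le_rfl
        _ = (uu q g x - uu q g y) * rr q g x z + uu q g y * rr q g x z := add_mul _ _ _
        _ ≤ (uu q g x - uu q g y) * rr q g x z
            + uu q g y * ((rr q g x z - rr q g y z) + rr q g y z) :=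
            add_le_add le_rfl (mul_le_mul' le_rfl le_tsub_add)
        _ = _ := by rw [mul_add]; ring
    have hrx : ∑' z, rr q g x z = 1 := h.prb x
    calc ∑' z : Om q g, ((q (y : ℕ) z - q (x : ℕ) z) + (q (x : ℕ) z - q (y : ℕ) z))
        ≤ ∑' z : Om q g, ((uu q g y * ((rr q g y z - rr q g x z) + (rr q g x z - rr q g y z)))
          + ((uu q g y - uu q g x) + (uu q g x - uu q g y)) * rr q g x z) := by
          refine ENNReal.tsum_le_tsum fun z => ?_
          refine le_trans (add_le_add (hterm x y z) (hterm' z)) (le_of_eq ?_)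
          ring
      _ = uu q g y * (∑' z : Om q g, ((rr q g y z - rr q g x z) + (rr q g x z - rr q g y z)))
          + ((uu q g y - uu q g x) + (uu q g x - uu q g y)) * 1 := by
          rw [ENNReal.tsum_add, ENNReal.tsum_mul_left, ENNReal.tsum_mul_left, hrx]
      _ ≤ 2 * (∑' z : Om q g, ((rr q g y z - rr q g x z) + (rr q g x z - rr q g y z)))
          + ENNReal.ofReal (10 * g) := by
          refine add_le_add (mul_le_mul' (h.uu_le2 y) le_rfl) ?_
          rw [mul_one, show (10 : ℝ) * g = 5 * g + 5 * g by ring,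
            ENNReal.ofReal_add (by positivity) (by positivity)]
          exact add_le_add (hdiff x y) (hdiff y x)
  · -- outside
    calc ∑' k, (Om q g)ᶜ.indicator (fun k => (q (y : ℕ) k - q (x : ℕ) k)
          + (q (x : ℕ) k - q (y : ℕ) k)) k
        ≤ ∑' k, ((Om q g)ᶜ.indicator (q y) k + (Om q g)ᶜ.indicator (q x) k) := by
          refine ENNReal.tsum_le_tsum fun k => ?_
          by_cases hk : k ∈ (Om q g)ᶜ
          · rw [Set.indicator_of_mem hk, Set.indicator_of_mem hk, Set.indicator_of_mem hk]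
            exact add_le_add tsub_le_self tsub_le_self
          · rw [Set.indicator_of_notMem hk]
            exact zero_le
      _ = (∑' k, (Om q g)ᶜ.indicator (q y) k) + ∑' k, (Om q g)ᶜ.indicator (q x) k :=
          ENNReal.tsum_add
      _ ≤ _ := add_le_add (h.out y) (h.out x)

/-- the set of concentrated indices -/
def JJ (q : ℕ → ℕ → ℝ≥0∞) (g τ : ℝ) : Set ℕ :=
  {j | ∃ hj : j ∈ Om q g, spr (rr q g) ⟨j, hj⟩ ≤ ENNReal.ofReal τ}

lemma QK.J_out₀ (h : QK q g) {τ : ℝ} (hτ : 0 ≤ τ)
    (hA : ∀ x, ms (rr q g x) {z | spr (rr q g) z ≤ ENNReal.ofReal τ}ᶜ ≤ ENNReal.ofReal τ)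
    (x : Om q g) :
    ∑' k, (JJ q g τ)ᶜ.indicator (q x) k ≤ ENNReal.ofReal (3 * g + 2 * τ) := by
  have hg := h.pos
  rw [split_sum q g, add_comm (3 * g), ENNReal.ofReal_add (by positivity) (by positivity)]
  refine add_le_add ?_ ?_
  · have h1 : ∀ y : Om q g, (JJ q g τ)ᶜ.indicator (q x) y
        = uu q g x * ({z | spr (rr q g) z ≤ ENNReal.ofReal τ}ᶜ : Set (Om q g)).indicator
          (rr q g x) y := by
      intro y
      by_cases hy : y ∈ ({z | spr (rr q g) z ≤ ENNReal.ofReal τ}ᶜ : Set (Om q g))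
      · rw [Set.indicator_of_mem hy, h.uu_mul, Set.indicator_of_mem]
        rintro ⟨hj, hj'⟩
        exact hy hj'
      · rw [Set.indicator_of_notMem hy, mul_zero, Set.indicator_of_notMem]
        intro h2
        apply hy
        intro h3
        exact h2 ⟨y.2, h3⟩
    simp only [h1]
    rw [ENNReal.tsum_mul_left, ENNReal.ofReal_mul (by norm_num)]
    refine mul_le_mul' ?_ (hA x)
    simpa using h.uu_le2 x
  · refine le_trans (ENNReal.tsum_le_tsum fun k => ?_) (h.out x)
    by_cases hk : k ∈ (Om q g)ᶜ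
    · rw [Set.indicator_of_mem hk, Set.indicator_of_mem hk]
      exact Set.indicator_le_self _ _ _
    · rw [Set.indicator_of_notMem hk]
      exact zero_le

lemma QK.J_out (h : QK q g) {τ : ℝ} (hτ : 0 ≤ τ)
    (hA : ∀ x, ms (rr q g x) {z | spr (rr q g) z ≤ ENNReal.ofReal τ}ᶜ ≤ ENNReal.ofReal τ)
    (i : ℕ) :
    ∑' k, (JJ q g τ)ᶜ.indicator (q i) k ≤ ENNReal.ofReal (13 * g + 4 * τ) := by
  have hg := h.pos
  set f : ℕ → ℝ≥0∞ := (JJ q g τ)ᶜ.indicator (fun _ => 1) with hf
  have hf1 : ∀ k, f k ≤ 1 := fun k => Set.indicator_le_self' (fun _ _ => zero_le) k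
  have hQ : ∀ i, ∑' k, q i k * f k = ∑' k, (JJ q g τ)ᶜ.indicator (q i) k := by
    intro i
    congr 1
    funext k
    by_cases hk : k ∈ (JJ q g τ)ᶜ
    · rw [hf, Set.indicator_of_mem hk, Set.indicator_of_mem hk, mul_one]
    · rw [hf, Set.indicator_of_notMem hk, Set.indicator_of_notMem hk, mul_zero]
  rw [← hQ]
  refine le_trans (h.sub i f hf1) ?_
  rw [split_sum q g]
  have h1 : ∑' y : Om q g, q i y * ∑' k, q y k * f k ≤ 2 * ENNReal.ofReal (3 * g + 2 * τ) := by
    calc ∑' y : Om q g, q i y * ∑' k, q y k * f k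
        ≤ ∑' y : Om q g, q i y * ENNReal.ofReal (3 * g + 2 * τ) := by
          refine ENNReal.tsum_le_tsum fun y => mul_le_mul' le_rfl ?_
          rw [hQ]
          exact h.J_out₀ hτ hA y
      _ = uu q g i * ENNReal.ofReal (3 * g + 2 * τ) := ENNReal.tsum_mul_right
      _ ≤ _ := mul_le_mul' (h.uu_le2 i) le_rfl
  have h2 : ∑' k, (Om q g)ᶜ.indicator (fun j => q i j * ∑' k, q j k * f k) k
      ≤ 2 * ENNReal.ofReal (3 * g) := by
    calc ∑' k, (Om q g)ᶜ.indicator (fun j => q i j * ∑' k, q j k * f k) k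
        ≤ ∑' k, 2 * (Om q g)ᶜ.indicator (q i) k := by
          refine ENNReal.tsum_le_tsum fun k => ?_
          by_cases hk : k ∈ (Om q g)ᶜ
          · rw [Set.indicator_of_mem hk, Set.indicator_of_mem hk, mul_comm]
            exact mul_le_mul' (h.Q_le k hf1) le_rfl
          · rw [Set.indicator_of_notMem hk, Set.indicator_of_notMem hk, mul_zero]
      _ = 2 * ∑' k, (Om q g)ᶜ.indicator (q i) k := ENNReal.tsum_mul_left
      _ ≤ 2 * ENNReal.ofReal (3 * g) := mul_le_mul' le_rfl (h.out i)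
  refine le_trans (add_le_add (add_le_add h1 h2) le_rfl) ?_
  have e2 : (2 : ℝ≥0∞) = ENNReal.ofReal 2 := by simp
  rw [e2, ← ENNReal.ofReal_mul (by norm_num), ← ENNReal.ofReal_mul (by norm_num),
    ← ENNReal.ofReal_add (by positivity) (by positivity),
    ← ENNReal.ofReal_add (by positivity) (by positivity)]
  apply ENNReal.ofReal_le_ofReal
  have := h.sq_le
  linarith

lemma QK.J_tv (h : QK q g) {τ : ℝ} (hτ : 0 ≤ τ) {i : ℕ} (hi : i ∈ JJ q g τ) :
    ∑' j, q i j * tv (q j) (q i) ≤ ENNReal.ofReal (44 * g + 4 * τ) := by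
  have hg := h.pos
  obtain ⟨hi1, hi2⟩ := hi
  set x : Om q g := ⟨i, hi1⟩ with hx
  rw [split_sum q g]
  have h1 : ∑' y : Om q g, q i y * tv (q y) (q i)
      ≤ 2 * (2 * ENNReal.ofReal τ + ENNReal.ofReal (16 * g)) := by
    calc ∑' y : Om q g, q i y * tv (q y) (q i)
        ≤ ∑' y : Om q g, uu q g x * (2 * (rr q g x y * tv (rr q g y) (rr q g x))
          + ENNReal.ofReal (16 * g) * rr q g x y) := by
          refine ENNReal.tsum_le_tsum fun y => ?_
          calc q i y * tv (q y) (q i)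
              ≤ q i y * (2 * tv (rr q g y) (rr q g x) + ENNReal.ofReal (16 * g)) :=
                mul_le_mul' le_rfl (h.tv_le x y)
            _ = (uu q g x * rr q g x y)
                * (2 * tv (rr q g y) (rr q g x) + ENNReal.ofReal (16 * g)) := by
                rw [h.uu_mul]
            _ = _ := by ring
      _ = uu q g x * (2 * spr (rr q g) x + ENNReal.ofReal (16 * g) * 1) := by
          rw [ENNReal.tsum_mul_left, ENNReal.tsum_add, ENNReal.tsum_mul_left,
            ENNReal.tsum_mul_left]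
          congr 3
          exact h.prb x
      _ ≤ _ := by
          rw [mul_one]
          exact mul_le_mul' (h.uu_le2 i) (add_le_add (mul_le_mul' le_rfl hi2) le_rfl)
  have h2 : ∑' k, (Om q g)ᶜ.indicator (fun j => q i j * tv (q j) (q i)) k
      ≤ 4 * ENNReal.ofReal (3 * g) := by
    calc ∑' k, (Om q g)ᶜ.indicator (fun j => q i j * tv (q j) (q i)) k
        ≤ ∑' k, 4 * (Om q g)ᶜ.indicator (q i) k := by
          refine ENNReal.tsum_le_tsum fun k => ?_
          by_cases hk : k ∈ (Om q g)ᶜ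
          · rw [Set.indicator_of_mem hk, Set.indicator_of_mem hk, mul_comm]
            refine mul_le_mul' ?_ le_rfl
            unfold tv
            rw [ENNReal.tsum_add]
            calc (∑' t, (q k t - q i t)) + ∑' t, (q i t - q k t)
                ≤ (∑' t, q k t) + ∑' t, q i t :=
                  add_le_add (ENNReal.tsum_le_tsum fun t => tsub_le_self)
                    (ENNReal.tsum_le_tsum fun t => tsub_le_self)
              _ ≤ 2 + 2 := add_le_add (h.mass2 k) (h.mass2 i)
              _ = 4 := by norm_num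
          · rw [Set.indicator_of_notMem hk, Set.indicator_of_notMem hk, mul_zero]
      _ = 4 * ∑' k, (Om q g)ᶜ.indicator (q i) k := ENNReal.tsum_mul_left
      _ ≤ 4 * ENNReal.ofReal (3 * g) := mul_le_mul' le_rfl (h.out i)
  refine le_trans (add_le_add h1 h2) ?_
  have e2 : (2 : ℝ≥0∞) = ENNReal.ofReal 2 := by simp
  have e4 : (4 : ℝ≥0∞) = ENNReal.ofReal 4 := by simp
  rw [e2, e4, ← ENNReal.ofReal_mul (by norm_num), ← ENNReal.ofReal_mul (by norm_num),
    ← ENNReal.ofReal_add (by positivity) (by positivity), ← ENNReal.ofReal_mul (by norm_num),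
    ← ENNReal.ofReal_add (by positivity) (by positivity)]
  apply ENNReal.ofReal_le_ofReal
  linarith

/-! ### signs -/

lemma abs_sg (x : ℝ) : |sg x| = 1 := by
  unfold sg; split_ifs <;> simp

lemma sg_mul_self (x : ℝ) : sg x * sg x = 1 := by
  unfold sg; split_ifs <;> norm_num

lemma sg_mul_abs (x : ℝ) : sg x * |x| = x := by
  unfold sg
  split_ifs with h
  · rw [one_mul, abs_of_nonneg h]
  · rw [abs_of_neg (not_le.1 h)]; ring

lemma sg_mul (x : ℝ) : sg x * x = |x| := by
  have h := sg_mul_abs x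
  have h2 := sg_mul_self x
  calc sg x * x = sg x * (sg x * |x|) := by rw [h]
    _ = (sg x * sg x) * |x| := by ring
    _ = |x| := by rw [h2, one_mul]

/-- the identity for one term -/
lemma term_eq (a b s : ℝ) (hs : s * s = 1) (hs1 : |s| = 1) :
    |a| * |sg a * b - s * (|b|)| = |a| * |b| - s * (a * b) := by
  have h1 : |sg a * b - s * (|b|)| = |b| - s * sg a * b := by
    have h2 : |sg a * b - s * (|b|)| = |s * (sg a * b - s * |b|)| := by rw [abs_mul, hs1, one_mul]
    rw [h2]
    have h3 : s * (sg a * b - s * |b|) = s * sg a * b - |b| := by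
      have : s * (s * |b|) = |b| := by rw [← mul_assoc, hs, one_mul]
      rw [mul_sub, this]; ring
    rw [h3, abs_sub_comm, abs_of_nonneg]
    have h4 : |s * sg a * b| = |b| := by rw [abs_mul, abs_mul, hs1, abs_sg]; ring
    linarith [le_abs_self (s * sg a * b)]
  rw [h1]
  have h5 := sg_mul_abs a
  calc |a| * (|b| - s * sg a * b) = |a| * |b| - s * ((sg a * |a|) * b) := by ring
    _ = _ := by rw [h5]

lemma ofReal_abs_sub_le (a b : ℝ) (ha : 0 ≤ a) (hb : 0 ≤ b) :
    ENNReal.ofReal |a - b| ≤ (ENNReal.ofReal a - ENNReal.ofReal b)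
      + (ENNReal.ofReal b - ENNReal.ofReal a) := by
  rcases le_total a b with h | h
  · rw [abs_sub_comm, abs_of_nonneg (by linarith), ENNReal.ofReal_sub _ ha]
    exact le_add_self
  · rw [abs_of_nonneg (by linarith), ENNReal.ofReal_sub _ hb]
    exact le_self_add

/-- passage from `ENNReal` sums to real sums -/
lemma real_tsum {ι : Type} {f : ι → ℝ} (hf : ∀ i, 0 ≤ f i) {c : ℝ} (hc : 0 ≤ c)
    (h : ∑' i, ENNReal.ofReal (f i) ≤ ENNReal.ofReal c) : Summable f ∧ ∑' i, f i ≤ c := by
  have h1 : ∑' i, ENNReal.ofReal (f i) ≠ ∞ := ne_top_of_le_ne_top ENNReal.ofReal_ne_top h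
  have h2 : Summable f := by
    have := ENNReal.summable_toReal h1
    simpa only [ENNReal.toReal_ofReal (hf _)] using this
  refine ⟨h2, ?_⟩
  rw [← ENNReal.ofReal_tsum_of_nonneg hf h2] at h
  exact (ENNReal.ofReal_le_ofReal_iff hc).1 h

end A14_

open A14_ in
theorem A14 (h13 : St_A13) : St_A14 := by
  classical
  intro τ hτ
  set τ' : ℝ := τ / 8 with hτ'
  have hτ'0 : 0 < τ' := by positivity
  obtain ⟨ε₀, hε₀, H⟩ := h13 τ' hτ'0
  set g : ℝ := min (1 / 40) (min (τ / 100) (ε₀ / 8)) with hg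
  have hg0 : 0 < g := lt_min (by norm_num) (lt_min (by positivity) (by positivity))
  have hg1 : g ≤ 1 / 40 := min_le_left _ _
  have hg2 : g ≤ τ / 100 := le_trans (min_le_right _ _) (min_le_left _ _)
  have hg3 : g ≤ ε₀ / 8 := le_trans (min_le_right _ _) (min_le_right _ _)
  have hgg : g ^ 2 ≤ g / 40 := by nlinarith
  refine ⟨g ^ 2, by positivity, ?_⟩
  intro R hs hm he
  set q : ℕ → ℕ → ℝ≥0∞ := fun i k => ENNReal.ofReal |R i k| with hq
  -- masses
  have hmass : ∀ i, ∑' k, q i k ≤ 1 + ENNReal.ofReal (g ^ 2) := by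
    intro i
    rw [hq]
    simp only
    rw [← ENNReal.ofReal_tsum_of_nonneg (fun k => abs_nonneg _) (hs i), ← ENNReal.ofReal_one,
      ← ENNReal.ofReal_add (by norm_num) (by positivity)]
    exact ENNReal.ofReal_le_ofReal (hm i)
  -- summability
  have hbd : ∀ j k, |R j k| ≤ 1 + g ^ 2 := fun j k =>
    le_trans ((hs j).le_tsum k fun _ _ => abs_nonneg _) (hm j)
  have hsum1 : ∀ i k, Summable fun j => |R i j| * |R j k| := fun i k =>
    Summable.of_nonneg_of_le (fun j => by positivity)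
      (fun j => mul_le_mul_of_nonneg_left (hbd j k) (abs_nonneg _)) ((hs i).mul_right _)
  have hsum2 : ∀ i k, Summable fun j => R i j * R j k := fun i k => by
    apply Summable.of_norm
    simpa only [Real.norm_eq_abs, abs_mul] using hsum1 i k
  set c : ℕ → ℕ → ℝ := fun i k => ∑' j, R i j * R j k with hc
  have hqq : ∀ i k, ∑' j, q i j * q j k = ENNReal.ofReal (∑' j, |R i j| * |R j k|) := by
    intro i k
    rw [ENNReal.ofReal_tsum_of_nonneg (fun j => by positivity) (hsum1 i k)]
    congr 1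
    funext j
    rw [hq, ENNReal.ofReal_mul (abs_nonneg _)]
  have hcle : ∀ i k, |c i k| ≤ ∑' j, |R i j| * |R j k| := by
    intro i k
    have h1 := norm_tsum_le_tsum_norm (f := fun j => R i j * R j k) (by
      simpa only [Real.norm_eq_abs, abs_mul] using hsum1 i k)
    simpa only [Real.norm_eq_abs, abs_mul] using h1
  -- the error
  have hmass2 : ∀ i, ∑' k, q i k ≤ 2 := by
    intro i
    refine le_trans (hmass i) ?_
    have h1 : ENNReal.ofReal (g ^ 2) ≤ 1 := by
      rw [ENNReal.ofReal_le_one]; linarith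
    calc (1 : ℝ≥0∞) + ENNReal.ofReal (g ^ 2) ≤ 1 + 1 := add_le_add le_rfl h1
      _ = 2 := one_add_one_eq_two
  have hswap : ∀ i, ∑' k, ∑' j, q i j * q j k = ∑' j, q i j * ∑' k, q j k := by
    intro i
    rw [ENNReal.tsum_comm]
    congr 1
    funext j
    exact ENNReal.tsum_mul_left
  have hSM : ∀ i, ∑' j, q i j * ∑' k, q j k ≤ 4 := by
    intro i
    calc ∑' j, q i j * ∑' k, q j k ≤ ∑' j, q i j * 2 :=
          ENNReal.tsum_le_tsum fun j => mul_le_mul' le_rfl (hmass2 j)
      _ = (∑' j, q i j) * 2 := ENNReal.tsum_mul_right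
      _ ≤ 2 * 2 := mul_le_mul' (hmass2 i) le_rfl
      _ = 4 := by norm_num
  have herr : ∀ i, ∑' k, ENNReal.ofReal |c i k - R i k| ≤ ENNReal.ofReal (g ^ 2) := by
    intro i
    have h1 : ∑' k, ENNReal.ofReal |c i k - R i k| ≤ 4 + 2 := by
      calc ∑' k, ENNReal.ofReal |c i k - R i k|
          ≤ ∑' k, ((∑' j, q i j * q j k) + q i k) := by
            refine ENNReal.tsum_le_tsum fun k => ?_
            rw [hqq, hq, ← ENNReal.ofReal_add (tsum_nonneg fun j => by positivity) (abs_nonneg _)]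
            apply ENNReal.ofReal_le_ofReal
            have := abs_sub (c i k) (R i k)
            linarith [hcle i k]
        _ = (∑' j, q i j * ∑' k, q j k) + ∑' k, q i k := by rw [ENNReal.tsum_add, hswap]
        _ ≤ 4 + 2 := add_le_add (hSM i) (hmass2 i)
    have h2 : Summable fun k => |c i k - R i k| :=
      (real_tsum (fun k => abs_nonneg _) (by norm_num : (0 : ℝ) ≤ 6)
        (le_trans h1 (by norm_num))).1
    rw [← ENNReal.ofReal_tsum_of_nonneg (fun k => abs_nonneg _) h2]
    exact ENNReal.ofReal_le_ofReal (he i)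
  have hsub0 : ∀ i k, q i k ≤ (∑' j, q i j * q j k) + ENNReal.ofReal |c i k - R i k| := by
    intro i k
    rw [hqq, hq, ← ENNReal.ofReal_add (tsum_nonneg fun j => by positivity) (abs_nonneg _)]
    apply ENNReal.ofReal_le_ofReal
    have h1 := abs_add_le (c i k) (R i k - c i k)
    rw [show c i k + (R i k - c i k) = R i k by ring, abs_sub_comm (R i k)] at h1
    linarith [hcle i k]
  have hQK : QK q g := by
    refine ⟨hg0, hg1, hmass, ?_⟩
    intro i f hf
    calc ∑' k, q i k * f k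
        ≤ ∑' k, (((∑' j, q i j * q j k) * f k) + ENNReal.ofReal |c i k - R i k|) := by
          refine ENNReal.tsum_le_tsum fun k => ?_
          calc q i k * f k ≤ ((∑' j, q i j * q j k) + ENNReal.ofReal |c i k - R i k|) * f k :=
                mul_le_mul' (hsub0 i k) le_rfl
            _ = (∑' j, q i j * q j k) * f k + ENNReal.ofReal |c i k - R i k| * f k := add_mul _ _ _
            _ ≤ _ := add_le_add le_rfl (mul_le_of_le_one_right' (hf k))
      _ = (∑' k, (∑' j, q i j * q j k) * f k) + ∑' k, ENNReal.ofReal |c i k - R i k| :=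
          ENNReal.tsum_add
      _ ≤ (∑' j, q i j * ∑' k, q j k * f k) + ENNReal.ofReal (g ^ 2) := by
          refine add_le_add (le_of_eq ?_) (herr i)
          simp_rw [← ENNReal.tsum_mul_right, ← ENNReal.tsum_mul_left]
          rw [ENNReal.tsum_comm]
          congr 1
          funext j
          congr 1
          funext k
          ring
  have hI : Idem (rr q g) (ENNReal.ofReal ε₀) := hQK.idem (by linarith)
  have hA := H _ (rr q g) hI
  refine ⟨JJ q g τ', ?_, ?_⟩
  · intro i
    have h1 := hQK.J_out hτ'0.le hA i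
    have h2 : ∑' k, ENNReal.ofReal ((JJ q g τ')ᶜ.indicator (fun j => |R i j|) k)
        ≤ ENNReal.ofReal τ := by
      refine le_trans (le_of_eq ?_) (le_trans h1 (ENNReal.ofReal_le_ofReal (by linarith)))
      congr 1
      funext k
      by_cases hk : k ∈ (JJ q g τ')ᶜ
      · rw [Set.indicator_of_mem hk, Set.indicator_of_mem hk]
      · rw [Set.indicator_of_notMem hk, Set.indicator_of_notMem hk, ENNReal.ofReal_zero]
    exact (real_tsum (fun k => Set.indicator_nonneg (fun _ _ => abs_nonneg _) k) hτ.le h2).2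
  · intro i hi
    constructor
    · have h1 : ENNReal.ofReal (1 - g) ≤ ∑' k, q i k := hi.1
      rw [hq] at h1
      simp only at h1
      rw [← ENNReal.ofReal_tsum_of_nonneg (fun k => abs_nonneg _) (hs i),
        ENNReal.ofReal_le_ofReal_iff (tsum_nonneg fun k => abs_nonneg _)] at h1
      linarith
    · -- the sign estimate
      set F : ℕ → ℕ → ℝ := fun j k => |R i j| * |R j k| - sg (R i k) * (R i j * R j k) with hF
      have hFeq : ∀ j k, |R i j| * |sg (R i j) * R j k - sg (R i k) * (|R j k|)| = F j k :=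
        fun j k => term_eq _ _ _ (sg_mul_self _) (abs_sg _)
      have hF0 : ∀ j k, 0 ≤ F j k := fun j k => by rw [← hFeq]; positivity
      have hFk : ∀ k, (∑' j, ENNReal.ofReal (F j k)) + q i k
          ≤ (∑' j, q i j * q j k) + ENNReal.ofReal |c i k - R i k| := by
        intro k
        have s1 : Summable fun j => F j k := (hsum1 i k).sub ((hsum2 i k).mul_left _)
        rw [← ENNReal.ofReal_tsum_of_nonneg (fun j => hF0 j k) s1, hqq, hq,
          ← ENNReal.ofReal_add (tsum_nonneg fun j => hF0 j k) (abs_nonneg _),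
          ← ENNReal.ofReal_add (tsum_nonneg fun j => by positivity) (abs_nonneg _)]
        apply ENNReal.ofReal_le_ofReal
        have s2 : ∑' j, F j k = (∑' j, |R i j| * |R j k|) - sg (R i k) * c i k := by
          rw [hF, hc]
          simp only
          rw [(hsum1 i k).tsum_sub ((hsum2 i k).mul_left _), tsum_mul_left]
        rw [s2]
        have s3 : |R i k| = sg (R i k) * R i k := (sg_mul _).symm
        have s4 : sg (R i k) * (R i k - c i k) ≤ |c i k - R i k| := by
          refine le_trans (le_abs_self _) ?_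
          rw [abs_mul, abs_sg, one_mul, abs_sub_comm]
        rw [s3]
        linarith
      have hFsum : ∑' k, ∑' j, ENNReal.ofReal (F j k) ≤ ENNReal.ofReal (4 * g ^ 2) := by
        have hfin : ∑' k, q i k ≠ ∞ := ne_top_of_le_ne_top (by norm_num) (hmass2 i)
        rw [← ENNReal.add_le_add_iff_right hfin]
        have h1 := ENNReal.tsum_le_tsum hFk
        rw [ENNReal.tsum_add, ENNReal.tsum_add, hswap] at h1
        refine le_trans h1 ?_
        have h2 := hQK.upper i (f := fun _ => 1) fun _ => le_rfl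
        simp only [mul_one] at h2
        calc (∑' j, q i j * ∑' k, q j k) + ∑' k, ENNReal.ofReal |c i k - R i k|
            ≤ ((∑' k, q i k) + ENNReal.ofReal (3 * g ^ 2)) + ENNReal.ofReal (g ^ 2) :=
              add_le_add h2 (herr i)
          _ = ENNReal.ofReal (4 * g ^ 2) + ∑' k, q i k := by
              rw [add_assoc, ← ENNReal.ofReal_add (by positivity) (by positivity), add_comm]
              congr 2; ring
      -- summability of the inner sums
      have hin : ∀ j, Summable fun k => |sg (R i j) * R j k - R i k| := fun j => by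
        refine Summable.of_nonneg_of_le (fun k => abs_nonneg _) (fun k => ?_) ((hs j).add (hs i))
        have := abs_sub (sg (R i j) * R j k) (R i k)
        rw [abs_mul, abs_sg, one_mul] at this
        exact this
      have hD : ∀ j, ENNReal.ofReal (|R i j| * ∑' k, |sg (R i j) * R j k - R i k|)
          ≤ (∑' k, ENNReal.ofReal (F j k)) + q i j * tv (q j) (q i) := by
        intro j
        rw [ENNReal.ofReal_mul (abs_nonneg _),
          ENNReal.ofReal_tsum_of_nonneg (fun k => abs_nonneg _) (hin j)]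
        have h1 : ∀ k, ENNReal.ofReal |sg (R i j) * R j k - R i k|
            ≤ ENNReal.ofReal |sg (R i j) * R j k - sg (R i k) * (|R j k|)|
              + ((q j k - q i k) + (q i k - q j k)) := by
          intro k
          have h2 : |sg (R i j) * R j k - R i k|
              ≤ |sg (R i j) * R j k - sg (R i k) * (|R j k|)| + |(|R j k|) - (|R i k|)| := by
            have h3 := abs_add_le (sg (R i j) * R j k - sg (R i k) * |R j k|)
              (sg (R i k) * |R j k| - R i k)
            rw [show sg (R i j) * R j k - sg (R i k) * |R j k| + (sg (R i k) * |R j k| - R i k)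
              = sg (R i j) * R j k - R i k by ring] at h3
            have h4 : sg (R i k) * |R j k| - R i k = sg (R i k) * (|R j k| - |R i k|) := by
              rw [mul_sub, sg_mul_abs]
            rw [h4, abs_mul (sg (R i k)), abs_sg, one_mul] at h3
            exact h3
          refine le_trans (ENNReal.ofReal_le_ofReal h2) ?_
          rw [ENNReal.ofReal_add (abs_nonneg _) (abs_nonneg _)]
          exact add_le_add le_rfl (ofReal_abs_sub_le _ _ (abs_nonneg _) (abs_nonneg _))
        calc ENNReal.ofReal |R i j| * ∑' k, ENNReal.ofReal |sg (R i j) * R j k - R i k|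
            ≤ ENNReal.ofReal |R i j| * ∑' k, (ENNReal.ofReal
                |sg (R i j) * R j k - sg (R i k) * (|R j k|)|
                + ((q j k - q i k) + (q i k - q j k))) :=
              mul_le_mul' le_rfl (ENNReal.tsum_le_tsum h1)
          _ = (∑' k, ENNReal.ofReal (F j k)) + q i j * tv (q j) (q i) := by
              rw [ENNReal.tsum_add, mul_add]
              congr 1
              rw [← ENNReal.tsum_mul_left]
              congr 1
              funext k
              rw [← ENNReal.ofReal_mul (abs_nonneg _), hFeq]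
      have hfinal : ∑' j, ENNReal.ofReal (|R i j| * ∑' k, |sg (R i j) * R j k - R i k|)
          ≤ ENNReal.ofReal τ := by
        calc ∑' j, ENNReal.ofReal (|R i j| * ∑' k, |sg (R i j) * R j k - R i k|)
            ≤ ∑' j, ((∑' k, ENNReal.ofReal (F j k)) + q i j * tv (q j) (q i)) :=
              ENNReal.tsum_le_tsum hD
          _ = (∑' j, ∑' k, ENNReal.ofReal (F j k)) + ∑' j, q i j * tv (q j) (q i) :=
              ENNReal.tsum_add
          _ ≤ ENNReal.ofReal (4 * g ^ 2) + ENNReal.ofReal (44 * g + 4 * τ') := by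
              refine add_le_add ?_ (hQK.J_tv hτ'0.le hi)
              rw [ENNReal.tsum_comm]
              exact hFsum
          _ ≤ ENNReal.ofReal τ := by
              rw [← ENNReal.ofReal_add (by positivity) (by positivity)]
              apply ENNReal.ofReal_le_ofReal
              linarith
      exact (real_tsum (fun j => mul_nonneg (abs_nonneg _) (tsum_nonneg fun k => abs_nonneg _))
        hτ.le hfinal).2

end Pool.NC
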