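import Pool.Agent.Work.MP_052a41_nc.Defs

/-! Block A2 (helper63): data processing. -/

set_option autoImplicit false

open scoped ENNReal

namespace Pool.NC

namespace A2

variable {Ω : Type}

theorem ms_eq (p : Ω → ℝ≥0∞) (S : Set Ω) : ms p S = ev p (S.indicator 1) := by
  unfold ms ev
  refine tsum_congr fun x => ?_
  by_cases h : x ∈ S
  · rw [Set.indicator_of_mem h, Set.indicator_of_mem h]; simp
  · rw [Set.indicator_of_notMem h, Set.indicator_of_notMem h]; simp

theorem ind_le (S : Set Ω) (x : Ω) : S.indicator (1 : Ω → ℝ≥0∞) x ≤ 1 := by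
  by_cases h : x ∈ S
  · rw [Set.indicator_of_mem h]; simp
  · rw [Set.indicator_of_notMem h]; simp

theorem ev_le_one {p f : Ω → ℝ≥0∞} (hp : Prb p) (hf : ∀ x, f x ≤ 1) : ev p f ≤ 1 := by
  unfold ev
  calc ∑' x, p x * f x ≤ ∑' x, p x := ENNReal.tsum_le_tsum fun x => by
        calc p x * f x ≤ p x * 1 := mul_le_mul_right (hf x) _
          _ = p x := mul_one _
    _ = 1 := hp

theorem ms_le_one {p : Ω → ℝ≥0∞} (hp : Prb p) (S : Set Ω) : ms p S ≤ 1 := by
  rw [ms_eq]; exact ev_le_one hp (ind_le S)

theorem ev_mono {p f g : Ω → ℝ≥0∞} (h : ∀ x, f x ≤ g x) : ev p f ≤ ev p g :=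
  ENNReal.tsum_le_tsum fun x => mul_le_mul_right (h x) _

theorem ev_swap (p : Ω → ℝ≥0∞) (r : Ω → Ω → ℝ≥0∞) (f : Ω → ℝ≥0∞) :
    ev p (ap r f) = ∑' z, (∑' x, p x * r x z) * f z := by
  unfold ap ev
  simp_rw [← ENNReal.tsum_mul_left, ← ENNReal.tsum_mul_right]
  rw [ENNReal.tsum_comm]
  refine tsum_congr fun z => tsum_congr fun x => ?_
  rw [mul_assoc]

end A2

open A2 in
theorem A2 : St_A2 := by
  classical
  intro Ω r p δ a A hr hp hni hA0 hA1 ha
  obtain ⟨E, hE⟩ : ∃ E : Set Ω, E = {z | 2 * p z < ∑' x, p x * r x z} := ⟨_, rfl⟩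
  obtain ⟨f, hf⟩ : ∃ f : Ω → ℝ≥0∞, f = E.indicator 1 := ⟨_, rfl⟩
  have hf1 : ∀ x, f x ≤ 1 := fun x => by rw [hf]; exact ind_le E x
  have hRf1 : ∀ x, ap r f x ≤ 1 := fun x => ev_le_one (hr x) hf1
  -- the mass of `E`
  have h1 := (hni f hf1).1
  have h2 : 2 * ev p f ≤ ev p (ap r f) := by
    rw [ev_swap]
    unfold ev
    rw [← ENNReal.tsum_mul_left]
    refine ENNReal.tsum_le_tsum fun z => ?_
    rw [← mul_assoc]
    by_cases hz : z ∈ E
    · have h3 : 2 * p z < ∑' x, p x * r x z := by rw [hE] at hz; exact hz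
      exact mul_le_mul_left h3.le _
    · rw [hf, Set.indicator_of_notMem hz]; simp
  have h3 : ev p f ≤ δ := by
    have h4 : ev p f ≤ 1 := ev_le_one hp hf1
    have h5 : ev p f ≠ ∞ := ne_top_of_le_ne_top ENNReal.one_ne_top h4
    have h6 : ev p f + ev p f ≤ ev p f + δ := by
      rw [← two_mul]; exact h2.trans h1
    exact (ENNReal.add_le_add_iff_left h5).1 h6
  have h4 : ev p (ap r (ap r f)) ≤ 3 * δ := by
    calc ev p (ap r (ap r f)) ≤ ev p (ap r f) + δ := (hni (ap r f) hRf1).1
      _ ≤ (ev p f + δ) + δ := add_le_add_left h1 _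
      _ ≤ (δ + δ) + δ := add_le_add_left (add_le_add_left h3 _) _
      _ = 3 * δ := by ring
  -- the two parts
  have h5 : ∀ x, ∑' y, (lev r p a x).indicator (r x) y * ms (r y) (lev r p (A * a) x)ᶜ ≤
      2 / A + ap r (ap r f) x := by
    intro x
    have e1 : ∀ y, (lev r p a x).indicator (r x) y * ms (r y) (lev r p (A * a) x)ᶜ ≤
        (lev r p a x).indicator (r x) y * ms (r y) ((lev r p (A * a) x)ᶜ ∩ Eᶜ) +
          r x y * ap r f y := by
      intro y
      have e2 : ms (r y) (lev r p (A * a) x)ᶜ ≤
          ms (r y) ((lev r p (A * a) x)ᶜ ∩ Eᶜ) + ap r f y := by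
        unfold ms ap ev
        rw [← ENNReal.tsum_add]
        refine ENNReal.tsum_le_tsum fun z => ?_
        by_cases h : z ∈ (lev r p (A * a) x)ᶜ
        · rw [Set.indicator_of_mem h]
          by_cases h' : z ∈ E
          · rw [hf, Set.indicator_of_mem h']
            simp
          · rw [Set.indicator_of_mem (show z ∈ (lev r p (A * a) x)ᶜ ∩ Eᶜ from ⟨h, h'⟩)]
            exact le_self_add
        · rw [Set.indicator_of_notMem h]; exact zero_le
      calc (lev r p a x).indicator (r x) y * ms (r y) (lev r p (A * a) x)ᶜ ≤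
          (lev r p a x).indicator (r x) y *
            (ms (r y) ((lev r p (A * a) x)ᶜ ∩ Eᶜ) + ap r f y) := mul_le_mul_right e2 _
        _ = (lev r p a x).indicator (r x) y * ms (r y) ((lev r p (A * a) x)ᶜ ∩ Eᶜ) +
            (lev r p a x).indicator (r x) y * ap r f y := mul_add _ _ _
        _ ≤ _ := by
            apply add_le_add_right
            exact mul_le_mul_left (Set.indicator_le_self _ _ _) _
    calc _ ≤ ∑' y, ((lev r p a x).indicator (r x) y * ms (r y) ((lev r p (A * a) x)ᶜ ∩ Eᶜ) +
          r x y * ap r f y) := ENNReal.tsum_le_tsum e1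
      _ = ∑' y, (lev r p a x).indicator (r x) y * ms (r y) ((lev r p (A * a) x)ᶜ ∩ Eᶜ) +
          ∑' y, r x y * ap r f y := ENNReal.tsum_add
      _ ≤ 2 / A + ap r (ap r f) x := by
          apply add_le_add _ le_rfl
          unfold ms
          simp_rw [← ENNReal.tsum_mul_left]
          rw [ENNReal.tsum_comm]
          have e3 : ∀ z, ∑' y, (lev r p a x).indicator (r x) y *
              ((lev r p (A * a) x)ᶜ ∩ Eᶜ).indicator (r y) z ≤ 2 / A * r x z := by
            intro z
            by_cases h : z ∈ (lev r p (A * a) x)ᶜ ∩ Eᶜ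
            · have g1 : A * a * p z ≤ r x z := not_lt.1 h.1
              have g2 : ∑' y, p y * r y z ≤ 2 * p z := by
                have := h.2
                rw [hE] at this
                exact not_lt.1 this
              calc ∑' y, (lev r p a x).indicator (r x) y *
                    ((lev r p (A * a) x)ᶜ ∩ Eᶜ).indicator (r y) z
                  ≤ ∑' y, a * (p y * r y z) := by
                    refine ENNReal.tsum_le_tsum fun y => ?_
                    rw [Set.indicator_of_mem h, ← mul_assoc]
                    apply mul_le_mul_left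
                    by_cases h' : y ∈ lev r p a x
                    · rw [Set.indicator_of_mem h']
                      exact le_of_lt h'
                    · rw [Set.indicator_of_notMem h']; exact zero_le
                _ = a * ∑' y, p y * r y z := ENNReal.tsum_mul_left
                _ ≤ a * (2 * p z) := mul_le_mul_right g2 _
                _ = 2 / A * (A * a * p z) := by
                    have : 2 / A * (A * a * p z) = (2 / A * A) * (a * p z) := by ring
                    rw [this, ENNReal.div_mul_cancel hA0 hA1]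
                    ring
                _ ≤ 2 / A * r x z := mul_le_mul_right g1 _
            · calc _ = ∑' y : Ω, (0 : ℝ≥0∞) := by
                    refine tsum_congr fun y => ?_
                    rw [Set.indicator_of_notMem h, mul_zero]
                _ = 0 := tsum_zero
                _ ≤ _ := zero_le
          calc _ ≤ ∑' z, 2 / A * r x z := ENNReal.tsum_le_tsum e3
            _ = 2 / A * ∑' z, r x z := ENNReal.tsum_mul_left
            _ = 2 / A := by rw [hr x, mul_one]
  calc ∑' x, p x * ∑' y, (lev r p a x).indicator (r x) y * ms (r y) (lev r p (A * a) x)ᶜ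
      ≤ ∑' x, p x * (2 / A + ap r (ap r f) x) :=
        ENNReal.tsum_le_tsum fun x => mul_le_mul_right (h5 x) _
    _ = ∑' x, (p x * (2 / A) + p x * ap r (ap r f) x) := by simp_rw [mul_add]
    _ = ∑' x, p x * (2 / A) + ∑' x, p x * ap r (ap r f) x := ENNReal.tsum_add
    _ = (∑' x, p x) * (2 / A) + ev p (ap r (ap r f)) := by rw [ENNReal.tsum_mul_right]; rfl
    _ ≤ 2 / A + 3 * δ := by
        rw [hp, one_mul]
        exact add_le_add_right h4 _

end Pool.NC
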