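import Mathlib
import Pool.Agent.Work.MP_052a41_nc.Defs
import Pool.Agent.Work.MP_052a41_nc.Tv

/-! Block A3: leaks of the level sets. -/

set_option autoImplicit false

open scoped ENNReal

namespace Pool.NC

theorem A3_ap {Ω : Type} (r : Ω → Ω → ℝ≥0∞) (S : Set Ω) (y : Ω) :
    ap r (S.indicator 1) y = ms (r y) S := (ms_eq_ev (r y) S).symm

theorem A3_ind_le {Ω : Type} (S : Set Ω) (x : Ω) : S.indicator (1 : Ω → ℝ≥0∞) x ≤ 1 := by
  by_cases hx : x ∈ S <;> simp [hx]

theorem A3_diff {Ω : Type} (p : Ω → ℝ≥0∞) {S S' : Set Ω} (h : S ⊆ S') :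
    ms p (S' \ S) + ms p S = ms p S' := by
  unfold ms
  rw [← ENNReal.tsum_add]
  congr 1
  ext x
  by_cases hx : x ∈ S
  · have hx' : x ∈ S' := h hx
    simp [hx, hx']
  · by_cases hx' : x ∈ S' <;> simp [hx, hx']

/-- the row inequality -/
theorem A3_row {Ω : Type} {r : Ω → Ω → ℝ≥0∞} {ε : ℝ≥0∞} (hr : Idem r ε) (x : Ω)
    {S S' : Set Ω} (h : S ⊆ S') :
    outm r (r x) S + ms (r x) S ≤
      (∑' y, S.indicator (r x) y * ms (r y) S'ᶜ) + 2 * ε + ms (r x) S' := by
  have hN := hr.ni x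
  have h1 := (hN (S'.indicator 1) (A3_ind_le S')).1
  have h2 := (hN (S.indicator 1) (A3_ind_le S)).2
  rw [← ms_eq_ev] at h1 h2
  have h3 : outm r (r x) S ≤ (∑' y, S.indicator (r x) y * ms (r y) S'ᶜ) +
      ∑' y, r x y * ms (r y) (S' \ S) := by
    unfold outm
    rw [← ENNReal.tsum_add]
    refine ENNReal.tsum_le_tsum fun y => ?_
    have hsub : Sᶜ ⊆ S'ᶜ ∪ (S' \ S) := by
      intro z hz
      by_cases hz' : z ∈ S'
      · exact Or.inr ⟨hz', hz⟩
      · exact Or.inl hz'
    calc S.indicator (r x) y * ms (r y) Sᶜ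
        ≤ S.indicator (r x) y * (ms (r y) S'ᶜ + ms (r y) (S' \ S)) :=
          mul_le_mul_right ((ms_mono (r y) hsub).trans (ms_union_le (r y) _ _)) _
      _ = S.indicator (r x) y * ms (r y) S'ᶜ + S.indicator (r x) y * ms (r y) (S' \ S) :=
          mul_add _ _ _
      _ ≤ S.indicator (r x) y * ms (r y) S'ᶜ + r x y * ms (r y) (S' \ S) := by
          gcongr
          exact Set.indicator_le_self' (fun _ _ => zero_le) y
  have h4 : (∑' y, r x y * ms (r y) (S' \ S)) + ev (r x) (ap r (S.indicator 1)) =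
      ev (r x) (ap r (S'.indicator 1)) := by
    unfold ev
    rw [← ENNReal.tsum_add]
    congr 1
    ext y
    rw [← mul_add, A3_ap, A3_ap, A3_diff (r y) h]
  calc outm r (r x) S + ms (r x) S
      ≤ ((∑' y, S.indicator (r x) y * ms (r y) S'ᶜ) + ∑' y, r x y * ms (r y) (S' \ S)) +
          (ev (r x) (ap r (S.indicator 1)) + ε) := add_le_add h3 h2
    _ = (∑' y, S.indicator (r x) y * ms (r y) S'ᶜ) + ε +
          ((∑' y, r x y * ms (r y) (S' \ S)) + ev (r x) (ap r (S.indicator 1))) := by ring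
    _ = (∑' y, S.indicator (r x) y * ms (r y) S'ᶜ) + ε + ev (r x) (ap r (S'.indicator 1)) := by
          rw [h4]
    _ ≤ (∑' y, S.indicator (r x) y * ms (r y) S'ᶜ) + ε + (ms (r x) S' + ε) := by gcongr
    _ = _ := by ring

theorem A3 (h2 : St_A2) : St_A3 := by
  intro Ω r p δ ε a A hr hp hni hA hA' ha
  have h := h2 Ω r p δ a A hr.prb hp hni (zero_lt_one.trans_le hA).ne' hA' ha
  have hle : a ≤ A * a := by
    calc a = 1 * a := (one_mul a).symm
      _ ≤ A * a := mul_le_mul_left hA a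
  have hsub : ∀ x, lev r p a x ⊆ lev r p (A * a) x := by
    intro x t ht
    exact lt_of_lt_of_le (show r x t < a * p t from ht) (mul_le_mul_left hle (p t))
  have hrow := fun x => A3_row hr x (hsub x)
  calc (∑' x, p x * outm r (r x) (lev r p a x)) + phi r p a
      = ∑' x, p x * (outm r (r x) (lev r p a x) + ms (r x) (lev r p a x)) := by
        unfold phi
        rw [← ENNReal.tsum_add]
        congr 1
        ext x
        rw [mul_add]
    _ ≤ ∑' x, p x * ((∑' y, (lev r p a x).indicator (r x) y * ms (r y) (lev r p (A * a) x)ᶜ) +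
          2 * ε + ms (r x) (lev r p (A * a) x)) :=
        ENNReal.tsum_le_tsum fun x => mul_le_mul_right (hrow x) _
    _ = (∑' x, p x * ∑' y, (lev r p a x).indicator (r x) y * ms (r y) (lev r p (A * a) x)ᶜ) +
          (∑' x, p x) * (2 * ε) + phi r p (A * a) := by
        unfold phi
        rw [← ENNReal.tsum_mul_right, ← ENNReal.tsum_add, ← ENNReal.tsum_add]
        congr 1
        ext x
        rw [mul_add, mul_add]
    _ ≤ (2 / A + 3 * δ) + 1 * (2 * ε) + phi r p (A * a) := by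
        rw [show ∑' x, p x = 1 from hp]
        gcongr
    _ = 2 / A + 3 * δ + 2 * ε + phi r p (A * a) := by rw [one_mul]

end Pool.NC
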