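import Mathlib
import Pool.Agent.Work.MP_052a41_nc.Defs
import Pool.Agent.Work.MP_052a41_nc.Tv

/-! Block A3': what enters a set is at most what leaves it, up to `δ`. -/

set_option autoImplicit false

open scoped ENNReal

namespace Pool.NC

/-- mass of `S` after one step, split at the first point -/
theorem A3p_split {Ω : Type} (r : Ω → Ω → ℝ≥0∞) (p : Ω → ℝ≥0∞) (S : Set Ω) :
    ev p (ap r (S.indicator 1)) = inm r p S + ∑' y, S.indicator p y * ms (r y) S := by
  unfold inm
  rw [← ENNReal.tsum_add]
  unfold ev
  congr 1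
  ext y
  have h : ap r (S.indicator 1) y = ms (r y) S := (ms_eq_ev (r y) S).symm
  rw [h]
  by_cases hy : y ∈ S <;> simp [hy]

/-- mass of `S`, split at the second point -/
theorem A3p_split' {Ω : Type} (r : Ω → Ω → ℝ≥0∞) (p : Ω → ℝ≥0∞) (S : Set Ω)
    (hr : ∀ x, Prb (r x)) :
    ms p S = (∑' y, S.indicator p y * ms (r y) S) + outm r p S := by
  unfold outm
  rw [← ENNReal.tsum_add]
  unfold ms
  congr 1
  ext y
  rw [← mul_add]
  have h : (∑' x, S.indicator (r y) x) + (∑' x, Sᶜ.indicator (r y) x) = 1 := by
    have := ms_add_compl (r y) S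
    unfold ms at this
    rw [this]
    exact hr y
  rw [h, mul_one]

theorem A3p : St_A3' := by
  intro Ω r p δ S hr hp hni
  have h1 := (hni (S.indicator 1) (fun x => by by_cases hx : x ∈ S <;> simp [hx])).1
  rw [A3p_split, ← ms_eq_ev, A3p_split' r p S hr] at h1
  have hfin : (∑' y, S.indicator p y * ms (r y) S) ≠ ∞ := by
    refine ne_top_of_le_ne_top ENNReal.one_ne_top ?_
    calc (∑' y, S.indicator p y * ms (r y) S) ≤ ∑' y, p y := by
          refine ENNReal.tsum_le_tsum fun y => ?_
          calc S.indicator p y * ms (r y) S ≤ p y * 1 := by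
                refine mul_le_mul' ?_ (ms_le_one (hr y) S)
                exact Set.indicator_le_self' (fun _ _ => zero_le) y
            _ = p y := mul_one _
      _ = 1 := hp
  rw [add_comm (inm r p S), add_assoc] at h1
  exact (ENNReal.add_le_add_iff_left hfin).1 h1

end Pool.NC
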