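import Mathlib
import Pool.Agent.Work.MP_052a41_nc.Defs
import Pool.Agent.Work.MP_052a41_nc.Tv

/-! Block A4 (MP_052a41_nc): conditioning on a set with small leaks. -/

set_option autoImplicit false

open scoped ENNReal

namespace Pool.NC

theorem A4_ev_cond {Ω : Type} (p g : Ω → ℝ≥0∞) (S : Set Ω) :
    ev (cond p S) g = (ev (S.indicator p) g) / ms p S := by
  unfold ev cond
  rw [ENNReal.div_eq_inv_mul, ← ENNReal.tsum_mul_left]
  congr 1
  ext x
  rw [ENNReal.div_eq_inv_mul, mul_assoc]

theorem A4_ev_ind {Ω : Type} (p f : Ω → ℝ≥0∞) (S : Set Ω) :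
    ev (S.indicator p) f = ev p (S.indicator f) := by
  unfold ev
  congr 1
  ext x
  by_cases h : x ∈ S <;> simp [h]

theorem A4_ap_le {Ω : Type} (r : Ω → Ω → ℝ≥0∞) (f : Ω → ℝ≥0∞) (hf : ∀ x, f x ≤ 1) (S : Set Ω)
    (y : Ω) : ap r f y ≤ ap r (S.indicator f) y + ms (r y) Sᶜ := by
  unfold ap ev ms
  rw [← ENNReal.tsum_add]
  refine ENNReal.tsum_le_tsum fun x => ?_
  by_cases h : x ∈ S
  · simp [h]
  · simp only [h, not_false_eq_true, Set.indicator_of_notMem, mul_zero, zero_add,
      Set.mem_compl_iff, Set.indicator_of_mem]
    calc r y x * f x ≤ r y x * 1 := by gcongr; exact hf x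
      _ = r y x := mul_one _

theorem A4_ap_ind_le {Ω : Type} (r : Ω → Ω → ℝ≥0∞) (f : Ω → ℝ≥0∞) (hf : ∀ x, f x ≤ 1) (S : Set Ω)
    (y : Ω) : ap r (S.indicator f) y ≤ ap r f y ∧ ap r (S.indicator f) y ≤ ms (r y) S := by
  constructor
  · refine ENNReal.tsum_le_tsum fun x => ?_
    by_cases h : x ∈ S <;> simp [h]
  · refine ENNReal.tsum_le_tsum fun x => ?_
    by_cases h : x ∈ S
    · simp only [h, Set.indicator_of_mem]
      calc r y x * f x ≤ r y x * 1 := by gcongr; exact hf x
        _ = r y x := mul_one _
    · simp [h]

theorem A4 : St_A4 := by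
  intro Ω r p δ S hr hp hni hS
  have hStop : ms p S ≠ ∞ := ((ms_le_one hp S).trans_lt ENNReal.one_lt_top).ne
  constructor
  · show ∑' x, S.indicator p x / ms p S = 1
    have : ∑' x, S.indicator p x / ms p S = (∑' x, S.indicator p x) / ms p S := by
      rw [ENNReal.div_eq_inv_mul, ← ENNReal.tsum_mul_left]
      congr 1
      ext x
      rw [ENNReal.div_eq_inv_mul]
    rw [this]
    exact ENNReal.div_self hS hStop
  · intro f hf
    have hfS : ∀ x, S.indicator f x ≤ 1 := by
      intro x
      by_cases h : x ∈ S
      · simp only [h, Set.indicator_of_mem]; exact hf x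
      · simp [h]
    obtain ⟨h1, h2⟩ := hni (S.indicator f) hfS
    rw [A4_ev_cond, A4_ev_cond, ← ENNReal.add_div, ← ENNReal.add_div]
    constructor
    · refine ENNReal.div_le_div_right ?_ _
      calc ev (S.indicator p) (ap r f)
          ≤ ev p (ap r (S.indicator f)) + outm r p S := by
            unfold outm
            unfold ev
            rw [← ENNReal.tsum_add]
            refine ENNReal.tsum_le_tsum fun y => ?_
            by_cases h : y ∈ S
            · simp only [h, Set.indicator_of_mem]
              rw [← mul_add]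
              exact mul_le_mul_right (A4_ap_le r f hf S y) _
            · simp [h]
        _ ≤ ev p (S.indicator f) + δ + outm r p S := by gcongr
        _ = ev (S.indicator p) f + (δ + outm r p S) := by rw [A4_ev_ind, add_assoc]
        _ ≤ ev (S.indicator p) f + (δ + outm r p S + inm r p S) :=
            add_le_add le_rfl le_self_add
    · refine ENNReal.div_le_div_right ?_ _
      calc ev (S.indicator p) f = ev p (S.indicator f) := A4_ev_ind _ _ _
        _ ≤ ev p (ap r (S.indicator f)) + δ := h2
        _ ≤ ev (S.indicator p) (ap r f) + inm r p S + δ := by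
            gcongr
            unfold inm
            unfold ev
            rw [← ENNReal.tsum_add]
            refine ENNReal.tsum_le_tsum fun y => ?_
            by_cases h : y ∈ S
            · simp only [h, Set.indicator_of_mem]
              refine le_add_right ?_
              exact mul_le_mul_right (A4_ap_ind_le r f hf S y).1 _
            · simp only [h, not_false_eq_true, Set.indicator_of_notMem, zero_mul, zero_add,
                Set.mem_compl_iff, Set.indicator_of_mem]
              exact mul_le_mul_right (A4_ap_ind_le r f hf S y).2 _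
        _ = ev (S.indicator p) (ap r f) + (δ + inm r p S) := by rw [add_assoc, add_comm (inm r p S)]
        _ ≤ ev (S.indicator p) (ap r f) + (δ + outm r p S + inm r p S) :=
            add_le_add le_rfl (add_le_add le_self_add le_rfl)

end Pool.NC
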