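import Pool.Agent.Work.MP_052a41_nc.Defs

/-! A5: product inequality (helper15). -/

set_option autoImplicit false

open scoped ENNReal

namespace Pool.NC

theorem A5_ms_mono {Ω : Type} (p : Ω → ℝ≥0∞) {S T : Set Ω} (h : S ⊆ T) : ms p S ≤ ms p T :=
  ENNReal.tsum_le_tsum fun _ => Set.indicator_le_indicator_of_subset h (fun _ => zero_le) _

theorem A5_ms_union {Ω : Type} (p : Ω → ℝ≥0∞) (S T : Set Ω) : ms p (S ∪ T) ≤ ms p S + ms p T := by
  unfold ms
  rw [← ENNReal.tsum_add]
  refine ENNReal.tsum_le_tsum fun x => ?_
  by_cases h1 : x ∈ S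
  · rw [Set.indicator_of_mem (show x ∈ S ∪ T from Or.inl h1), Set.indicator_of_mem h1]
    exact le_self_add
  · by_cases h2 : x ∈ T
    · rw [Set.indicator_of_mem (show x ∈ S ∪ T from Or.inr h2), Set.indicator_of_mem h2]
      exact le_add_self
    · rw [Set.indicator_of_notMem (show x ∉ S ∪ T from fun h => h.elim h1 h2)]
      exact zero_le

theorem A5_ms_le {Ω : Type} (p : Ω → ℝ≥0∞) (hp : Prb p) (S : Set Ω) : ms p S ≤ 1 := by
  rw [← (show ∑' x, p x = 1 from hp)]
  exact ENNReal.tsum_le_tsum fun x => Set.indicator_le_self _ _ _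

theorem A5_ms_ev {Ω : Type} (p : Ω → ℝ≥0∞) (S : Set Ω) :
    ms p S = ev p (S.indicator fun _ => 1) := by
  unfold ms ev
  refine tsum_congr fun x => ?_
  by_cases h : x ∈ S
  · rw [Set.indicator_of_mem h, Set.indicator_of_mem h, mul_one]
  · rw [Set.indicator_of_notMem h, Set.indicator_of_notMem h, mul_zero]

theorem A5 (h1 : St_A1) : St_A5 := by
  intro Ω r p δ ε a A hI hp hn hA hAt hat
  have hA0 : A ≠ 0 := (lt_of_lt_of_le zero_lt_one hA).ne'
  -- the function `G`
  set G : Ω → ℝ≥0∞ := fun y => ms (r y) (lev r p (a / A) y) with hG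
  have hG1 : ∀ y, G y ≤ 1 := fun y => A5_ms_le _ (hI.prb y) _
  have hphi : phi r p (a / A) = ev p G := rfl
  have step1 : phi r p (a / A) ≤ ev p (ap r G) + δ := by
    rw [hphi]
    exact (hn G hG1).2
  -- pointwise
  have key : ∀ x y, G y ≤ ms (r y) (lev r p (1 / A) x) + ms (r y) (lev r (r x) (1 / A) y) +
      ms (r y) ((lev r p a x) ∩ {z | r y z < a * r x z}) := by
    intro x y
    have hsub : lev r p (a / A) y ⊆ (lev r p (1 / A) x ∪ lev r (r x) (1 / A) y) ∪
        ((lev r p a x) ∩ {z | r y z < a * r x z}) := by
      intro z hz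
      have hz' : r y z < a / A * p z := hz
      by_cases c1 : z ∈ lev r p (1 / A) x
      · exact Or.inl (Or.inl c1)
      by_cases c2 : z ∈ lev r (r x) (1 / A) y
      · exact Or.inl (Or.inr c2)
      right
      have c1' : 1 / A * p z ≤ r x z := not_lt.1 c1
      have c2' : 1 / A * r x z ≤ r y z := not_lt.1 c2
      refine ⟨?_, ?_⟩
      · show r x z < a * p z
        have e1 : r x z = A * (1 / A * r x z) := by
          rw [← mul_assoc, mul_one_div, ENNReal.div_self hA0 hAt, one_mul]
        have e2 : a * p z = A * (a / A * p z) := by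
          rw [← mul_assoc, ENNReal.mul_div_cancel hA0 hAt]
        rw [e1, e2]
        exact (ENNReal.mul_lt_mul_iff_right hA0 hAt).2 (lt_of_le_of_lt c2' hz')
      · show r y z < a * r x z
        refine lt_of_lt_of_le hz' ?_
        calc a / A * p z = a * (1 / A * p z) := by
              rw [div_eq_mul_inv, one_div, mul_assoc]
          _ ≤ a * r x z := by gcongr
    exact (A5_ms_mono _ hsub).trans ((A5_ms_union _ _ _).trans
      (add_le_add (A5_ms_union _ _ _) le_rfl))
  -- the last term
  have key2 : ∀ x, ∑' y, r x y * ms (r y) ((lev r p a x) ∩ {z | r y z < a * r x z}) ≤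
      ms (r x) (lev r p a x) * phi r (cond (r x) (lev r p a x)) a +
        inm r (r x) (lev r p a x) := by
    intro x
    set S := lev r p a x with hS
    have hu1 : ms (r x) S ≤ 1 := A5_ms_le _ (hI.prb x) _
    have hut : ms (r x) S ≠ ∞ := ne_top_of_le_ne_top ENNReal.one_ne_top hu1
    have hcz : ∀ z, S.indicator (r x) z ≤ cond (r x) S z := by
      intro z
      unfold cond
      by_cases h0 : ms (r x) S = 0
      · have : S.indicator (r x) z = 0 := by
          have h := h0
          unfold ms at h
          exact (ENNReal.tsum_eq_zero.1 h) z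
        rw [this]
        exact zero_le
      · rw [ENNReal.le_div_iff_mul_le (Or.inl h0) (Or.inl hut)]
        calc S.indicator (r x) z * ms (r x) S ≤ S.indicator (r x) z * 1 := by gcongr
          _ = _ := mul_one _
    have hcy : ∀ y, S.indicator (r x) y = ms (r x) S * cond (r x) S y := by
      intro y
      unfold cond
      by_cases h0 : ms (r x) S = 0
      · have : S.indicator (r x) y = 0 := by
          have h := h0
          unfold ms at h
          exact (ENNReal.tsum_eq_zero.1 h) y
        rw [this, h0, zero_mul]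
      · exact (ENNReal.mul_div_cancel h0 hut).symm
    unfold phi inm
    rw [← ENNReal.tsum_mul_left, ← ENNReal.tsum_add]
    refine ENNReal.tsum_le_tsum fun y => ?_
    by_cases hy : y ∈ S
    · have e1 : r x y = ms (r x) S * cond (r x) S y := by
        rw [← hcy y, Set.indicator_of_mem hy]
      refine le_trans ?_ le_self_add
      rw [← mul_assoc, ← e1]
      gcongr
      refine A5_ms_mono _ ?_
      rintro z ⟨hz1, hz2⟩
      show r y z < a * cond (r x) S z
      have hz3 : r y z < a * r x z := hz2
      refine lt_of_lt_of_le hz3 ?_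
      gcongr
      have := hcz z
      rw [Set.indicator_of_mem hz1] at this
      exact this
    · refine le_trans ?_ le_add_self
      rw [Set.indicator_of_mem (show y ∈ Sᶜ from hy)]
      gcongr
      exact A5_ms_mono _ Set.inter_subset_left
  have hX : ∀ x, ap r G x ≤ (ms (r x) (lev r p (1 / A) x) + ε) + 1 / A +
      (ms (r x) (lev r p a x) * phi r (cond (r x) (lev r p a x)) a +
        inm r (r x) (lev r p a x)) := by
    intro x
    calc ap r G x ≤ ∑' y, (r x y * ms (r y) (lev r p (1 / A) x) +
          r x y * ms (r y) (lev r (r x) (1 / A) y) +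
          r x y * ms (r y) ((lev r p a x) ∩ {z | r y z < a * r x z})) := by
          unfold ap ev
          refine ENNReal.tsum_le_tsum fun y => ?_
          rw [← mul_add, ← mul_add]
          gcongr
          exact key x y
      _ = (∑' y, r x y * ms (r y) (lev r p (1 / A) x)) +
          (∑' y, r x y * ms (r y) (lev r (r x) (1 / A) y)) +
          ∑' y, r x y * ms (r y) ((lev r p a x) ∩ {z | r y z < a * r x z}) := by
          rw [ENNReal.tsum_add, ENNReal.tsum_add]
      _ ≤ _ := by
          refine add_le_add (add_le_add ?_ ?_) (key2 x)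
          · have h2 : ∑' y, r x y * ms (r y) (lev r p (1 / A) x) =
                ev (r x) (ap r ((lev r p (1 / A) x).indicator fun _ => 1)) := by
              unfold ap
              rw [ev]
              refine tsum_congr fun y => ?_
              rw [A5_ms_ev]
            rw [h2, A5_ms_ev]
            refine (hI.ni x _ fun z => ?_).1
            exact Set.indicator_le_self' (fun _ _ => zero_le) _ |>.trans le_rfl
          · exact (h1 Ω r (r x) hI.prb (hI.prb x)).1 (1 / A)
  have hsum : ev p (ap r G) ≤ (phi r p (1 / A) + ε) + 1 / A +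
      ((∑' x, p x * (ms (r x) (lev r p a x) * phi r (cond (r x) (lev r p a x)) a)) +
        ∑' x, p x * inm r (r x) (lev r p a x)) := by
    calc ev p (ap r G) ≤ ∑' x, p x * ((ms (r x) (lev r p (1 / A) x) + ε) + 1 / A +
          (ms (r x) (lev r p a x) * phi r (cond (r x) (lev r p a x)) a +
            inm r (r x) (lev r p a x))) := by
          unfold ev
          refine ENNReal.tsum_le_tsum fun x => ?_
          gcongr
          exact hX x
      _ = ∑' x, ((p x * ms (r x) (lev r p (1 / A) x) + p x * ε) + p x * (1 / A) +
          (p x * (ms (r x) (lev r p a x) * phi r (cond (r x) (lev r p a x)) a) +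
            p x * inm r (r x) (lev r p a x))) := by
          refine tsum_congr fun x => ?_
          ring
      _ = _ := by
          rw [ENNReal.tsum_add, ENNReal.tsum_add, ENNReal.tsum_add, ENNReal.tsum_add,
            ENNReal.tsum_mul_right, ENNReal.tsum_mul_right, show ∑' x, p x = 1 from hp, one_mul,
            one_mul]
          rfl
  have hA1 := (h1 Ω r p hI.prb hp).1 (1 / A)
  calc phi r p (a / A) ≤ ev p (ap r G) + δ := step1
    _ ≤ (1 / A + ε) + 1 / A +
      ((∑' x, p x * (ms (r x) (lev r p a x) * phi r (cond (r x) (lev r p a x)) a)) +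
        ∑' x, p x * inm r (r x) (lev r p a x)) + δ := by
        refine add_le_add (hsum.trans ?_) le_rfl
        gcongr
    _ = _ := by
        have h2 : 2 / A = 1 / A + 1 / A := by
          rw [← ENNReal.add_div]
          norm_num
        rw [h2]
        ring

end Pool.NC
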