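import Pool.Agent.Work.MP_052a41_nc.Defs

/-! A6: jump of `phi` at a threshold without mass (helper15). -/

set_option autoImplicit false

open scoped ENNReal

namespace Pool.NC

theorem A6 (h1 : St_A1) (h3 : St_A3) (h3' : St_A3') (h4 : St_A4) (h5 : St_A5) : St_A6 := by
  intro Ω r p κ σ δ' A w ε a hκ hσ hσ1 hδ hδ1 hA hw hε hat hI hp hn hph hκp hlt
  by_contra hcon
  have hno : ∀ q, Prb q → NI r (ENNReal.ofReal δ') q → phi r q a ≤ ENNReal.ofReal (1 - σ) := by
    intro q hq1 hq2
    by_contra h
    exact hcon ⟨q, hq1, hq2, not_le.1 h⟩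
  have hA0 : 0 < A := by linarith
  have hAE1 : (1 : ℝ≥0∞) ≤ ENNReal.ofReal A := by
    rw [← ENNReal.ofReal_one]
    exact ENNReal.ofReal_le_ofReal hA
  have hAt : ENNReal.ofReal A ≠ ∞ := ENNReal.ofReal_ne_top
  have hAE0 : ENNReal.ofReal A ≠ 0 := (lt_of_lt_of_le zero_lt_one hAE1).ne'
  have h2A : (2 : ℝ≥0∞) / ENNReal.ofReal A = ENNReal.ofReal (2 / A) := by
    rw [ENNReal.ofReal_div_of_pos hA0]
    norm_num
  have hm := (h1 Ω r p hI.prb hp).2
  set Pm := phi r p (a / ENNReal.ofReal A) with hPm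
  set P0 := phi r p a with hP0
  have hm0 : Pm ≤ P0 := by
    refine hm.2 _ _ ?_
    calc a / ENNReal.ofReal A ≤ a / 1 := ENNReal.div_le_div_left hAE1 a
      _ = a := div_one a
  have hPmt : Pm ≠ ∞ := ne_top_of_le_ne_top ENNReal.one_ne_top (hm.1 _)
  have hP0t : P0 ≠ ∞ := ne_top_of_le_ne_top ENNReal.one_ne_top (hm.1 _)
  have h0p : P0 ≤ Pm + ENNReal.ofReal w := by
    refine le_trans (hm.2 _ _ ?_) hph
    calc a = 1 * a := (one_mul a).symm
      _ ≤ ENNReal.ofReal A * a := by gcongr
  set S : Ω → Set Ω := fun x => lev r p a x with hS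
  set L1 := ∑' x, p x * outm r (r x) (S x) with hL1
  set L2 := ∑' x, p x * inm r (r x) (S x) with hL2
  -- the leaks
  have hL1b : L1 ≤ ENNReal.ofReal (2 / A + 5 * ε + w) := by
    have h := h3 Ω r p (ENNReal.ofReal ε) (ENNReal.ofReal ε) a (ENNReal.ofReal A) hI hp hn hAE1 hAt
      hat
    have h' : L1 + P0 ≤ ENNReal.ofReal (2 / A + 5 * ε + w) + P0 := by
      calc L1 + P0 ≤ 2 / ENNReal.ofReal A + 3 * ENNReal.ofReal ε + 2 * ENNReal.ofReal ε +
            phi r p (ENNReal.ofReal A * a) := h
        _ ≤ 2 / ENNReal.ofReal A + 3 * ENNReal.ofReal ε + 2 * ENNReal.ofReal ε +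
            (P0 + ENNReal.ofReal w) := by
            gcongr
            exact hph.trans (add_le_add hm0 le_rfl)
        _ = ENNReal.ofReal (2 / A + 5 * ε + w) + P0 := by
            rw [h2A, ENNReal.ofReal_add (by positivity) hw, ENNReal.ofReal_add (by positivity)
              (by positivity), ENNReal.ofReal_mul (by norm_num)]
            rw [show ENNReal.ofReal 5 = 5 by norm_num]
            ring
    exact (ENNReal.add_le_add_iff_right hP0t).1 h'
  have hL2b : L2 ≤ ENNReal.ofReal (2 / A + 6 * ε + w) := by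
    calc L2 ≤ ∑' x, (p x * outm r (r x) (S x) + p x * ENNReal.ofReal ε) := by
          refine ENNReal.tsum_le_tsum fun x => ?_
          rw [← mul_add]
          gcongr
          exact h3' Ω r (r x) (ENNReal.ofReal ε) (S x) hI.prb (hI.prb x) (hI.ni x)
      _ = L1 + ENNReal.ofReal ε := by
          rw [ENNReal.tsum_add, ENNReal.tsum_mul_right, show ∑' x, p x = 1 from hp, one_mul]
      _ ≤ ENNReal.ofReal (2 / A + 5 * ε + w) + ENNReal.ofReal ε := add_le_add hL1b le_rfl
      _ = _ := by
          rw [← ENNReal.ofReal_add (by positivity) hε]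
          congr 1
          ring
  -- the product term
  have hterm : ∀ x, ms (r x) (S x) * phi r (cond (r x) (S x)) a ≤
      ENNReal.ofReal (1 - σ) * ms (r x) (S x) +
        (ENNReal.ofReal ε + outm r (r x) (S x) + inm r (r x) (S x)) / ENNReal.ofReal δ' := by
    intro x
    by_cases hu : ms (r x) (S x) = 0
    · rw [hu, zero_mul]
      exact zero_le
    have hut : ms (r x) (S x) ≠ ∞ := by
      refine ne_top_of_le_ne_top ENNReal.one_ne_top ?_
      rw [← (show ∑' y, r x y = 1 from hI.prb x)]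
      exact ENNReal.tsum_le_tsum fun y => Set.indicator_le_self _ _ _
    obtain ⟨hc1, hc2⟩ := h4 Ω r (r x) (ENNReal.ofReal ε) (S x) hI.prb (hI.prb x) (hI.ni x) hu
    by_cases hle : (ENNReal.ofReal ε + outm r (r x) (S x) + inm r (r x) (S x)) / ms (r x) (S x) ≤
        ENNReal.ofReal δ'
    · have hNI : NI r (ENNReal.ofReal δ') (cond (r x) (S x)) := fun f hf =>
        ⟨(hc2 f hf).1.trans (by gcongr), (hc2 f hf).2.trans (by gcongr)⟩
      refine le_trans ?_ le_self_add
      rw [mul_comm]
      gcongr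
      exact hno _ hc1 hNI
    · refine le_trans ?_ le_add_self
      have h6 : ms (r x) (S x) * phi r (cond (r x) (S x)) a ≤ ms (r x) (S x) * 1 := by
        gcongr
        exact (h1 Ω r _ hI.prb hc1).2.1 a
      refine h6.trans ?_
      rw [mul_one]
      have h7 := (not_le.1 hle).le
      rw [ENNReal.le_div_iff_mul_le (Or.inl hu) (Or.inl hut)] at h7
      rw [ENNReal.le_div_iff_mul_le (Or.inl (by
        rw [Ne, ENNReal.ofReal_eq_zero]
        linarith)) (Or.inl ENNReal.ofReal_ne_top), mul_comm]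
      exact h7
  set T := ∑' x, p x * (ms (r x) (S x) * phi r (cond (r x) (S x)) a) with hT
  have hTb : T ≤ ENNReal.ofReal (1 - σ) * P0 +
      (ENNReal.ofReal ε + L1 + L2) / ENNReal.ofReal δ' := by
    calc T ≤ ∑' x, (ENNReal.ofReal (1 - σ) * (p x * ms (r x) (S x)) +
          (p x * ENNReal.ofReal ε + p x * outm r (r x) (S x) + p x * inm r (r x) (S x)) *
            (ENNReal.ofReal δ')⁻¹) := by
          refine ENNReal.tsum_le_tsum fun x => ?_
          calc p x * (ms (r x) (S x) * phi r (cond (r x) (S x)) a) ≤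
              p x * (ENNReal.ofReal (1 - σ) * ms (r x) (S x) +
              (ENNReal.ofReal ε + outm r (r x) (S x) + inm r (r x) (S x)) /
                ENNReal.ofReal δ') := by
                gcongr
                exact hterm x
            _ = _ := by
                rw [div_eq_mul_inv]
                ring
      _ = _ := by
          rw [ENNReal.tsum_add, ENNReal.tsum_mul_left, ENNReal.tsum_mul_right, ENNReal.tsum_add,
            ENNReal.tsum_add, ENNReal.tsum_mul_right, show ∑' x, p x = 1 from hp, one_mul,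
            div_eq_mul_inv]
          rfl
  have h5' := h5 Ω r p (ENNReal.ofReal ε) (ENNReal.ofReal ε) a (ENNReal.ofReal A) hI hp hn hAE1 hAt
    hat
  -- everything in reals
  have hσ0 : 0 ≤ 1 - σ := by linarith
  have hsum : Pm ≤ ENNReal.ofReal ((1 - σ) * (Pm.toReal + w) +
      (ε + (2 / A + 5 * ε + w) + (2 / A + 6 * ε + w)) / δ' + (2 / A + 6 * ε + w) + 2 / A + ε +
        ε) := by
    have hPmR : Pm = ENNReal.ofReal Pm.toReal := (ENNReal.ofReal_toReal hPmt).symm
    have hPm0 : 0 ≤ Pm.toReal := ENNReal.toReal_nonneg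
    calc Pm ≤ T + L2 + 2 / ENNReal.ofReal A + ENNReal.ofReal ε + ENNReal.ofReal ε := h5'
      _ ≤ (ENNReal.ofReal (1 - σ) * (Pm + ENNReal.ofReal w) +
          (ENNReal.ofReal ε + ENNReal.ofReal (2 / A + 5 * ε + w) +
            ENNReal.ofReal (2 / A + 6 * ε + w)) / ENNReal.ofReal δ') +
          ENNReal.ofReal (2 / A + 6 * ε + w) + ENNReal.ofReal (2 / A) + ENNReal.ofReal ε +
          ENNReal.ofReal ε := by
          rw [h2A]
          have hTb' : T ≤ ENNReal.ofReal (1 - σ) * (Pm + ENNReal.ofReal w) +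
              (ENNReal.ofReal ε + ENNReal.ofReal (2 / A + 5 * ε + w) +
                ENNReal.ofReal (2 / A + 6 * ε + w)) / ENNReal.ofReal δ' := by
            refine hTb.trans ?_
            gcongr
          gcongr
      _ = _ := by
          rw [← ENNReal.ofReal_add hε (by positivity), ← ENNReal.ofReal_add (by positivity)
            (by positivity), ← ENNReal.ofReal_div_of_pos hδ]
          conv_lhs => rw [hPmR]
          rw [← ENNReal.ofReal_add hPm0 hw, ← ENNReal.ofReal_mul hσ0,
            ← ENNReal.ofReal_add (by positivity) (by positivity),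
            ← ENNReal.ofReal_add (by positivity) (by positivity),
            ← ENNReal.ofReal_add (by positivity) (by positivity),
            ← ENNReal.ofReal_add (by positivity) hε,
            ← ENNReal.ofReal_add (by positivity) hε]
  have hPm0 : 0 ≤ Pm.toReal := ENNReal.toReal_nonneg
  have hreal : Pm.toReal ≤ (1 - σ) * (Pm.toReal + w) +
      (ε + (2 / A + 5 * ε + w) + (2 / A + 6 * ε + w)) / δ' + (2 / A + 6 * ε + w) + 2 / A + ε +
        ε := by
    have h6 := ENNReal.toReal_mono ENNReal.ofReal_ne_top hsum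
    rwa [ENNReal.toReal_ofReal (by positivity)] at h6
  have hκR : κ ≤ Pm.toReal := by
    have h6 := ENNReal.toReal_mono hPmt hκp
    rwa [ENNReal.toReal_ofReal hκ.le] at h6
  set Q := Pm.toReal with hQ
  set B := 2 / A with hB
  have hB0 : 0 ≤ B := by positivity
  have h8A : 8 / A = 4 * B := by
    rw [hB]
    ring
  rw [h8A] at hlt
  -- multiply by `δ'`
  have hmul : σ * Q * δ' ≤ (1 - σ) * w * δ' + (ε + (B + 5 * ε + w) + (B + 6 * ε + w)) +
      ((B + 6 * ε + w) + B + ε + ε) * δ' := by
    have h7 : (ε + (B + 5 * ε + w) + (B + 6 * ε + w)) / δ' * δ' =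
        ε + (B + 5 * ε + w) + (B + 6 * ε + w) := div_mul_cancel₀ _ hδ.ne'
    have h8 := mul_le_mul_of_nonneg_right hreal hδ.le
    nlinarith
  have h9 : (1 - σ) * w * δ' ≤ w := by
    have : (1 - σ) * w ≤ w := by nlinarith
    have h10 : 0 ≤ (1 - σ) * w := by positivity
    nlinarith
  have h11 : ((B + 6 * ε + w) + B + ε + ε) * δ' ≤ (B + 6 * ε + w) + B + ε + ε := by
    have : 0 ≤ (B + 6 * ε + w) + B + ε + ε := by positivity
    nlinarith
  have h12 : σ * κ * δ' ≤ σ * Q * δ' := by gcongr
  linarith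

end Pool.NC
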