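import Pool.Agent.Work.MP_052a41_nc.Defs

/-! Block A7 (helper63): from `κ` to `1 - σ`. -/

set_option autoImplicit false

open scoped ENNReal

namespace Pool.NC

theorem A7 (h1 : St_A1) (h6 : St_A6) : St_A7 := by
  classical
  intro κ σ δ' hκ hκ1 hσ hσ1 hδ hδ1
  obtain ⟨s, hs⟩ : ∃ s : ℝ, s = σ * κ * δ' := ⟨_, rfl⟩
  have hs0 : 0 < s := by rw [hs]; positivity
  have hs1 : s ≤ 1 := by
    rw [hs]
    have h2 : σ * κ ≤ 1 := mul_le_one₀ hσ1 hκ.le hκ1
    exact mul_le_one₀ h2 hδ.le hδ1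
  obtain ⟨J, hJ⟩ := exists_nat_gt (16 / s)
  have hJ0 : (0 : ℝ) < J := lt_trans (by positivity) hJ
  have hJn : J ≠ 0 := by
    rintro rfl
    simp at hJ0
  obtain ⟨A, hA⟩ : ∃ A : ℝ, A = 32 / s := ⟨_, rfl⟩
  have hA1 : 1 ≤ A := by
    rw [hA, le_div_iff₀ hs0]; linarith
  have hA0 : 0 < A := by linarith
  obtain ⟨B, hB⟩ : ∃ B : ℝ≥0∞, B = ENNReal.ofReal A := ⟨_, rfl⟩
  have hB1 : 1 ≤ B := by
    rw [hB, ← ENNReal.ofReal_one]
    exact ENNReal.ofReal_le_ofReal hA1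
  have hB0 : B ≠ 0 := (lt_of_lt_of_le zero_lt_one hB1).ne'
  have hBt : B ≠ ∞ := by rw [hB]; exact ENNReal.ofReal_ne_top
  refine ⟨A ^ (2 * J), one_le_pow₀ hA1, s / 100, by positivity, ?_⟩
  intro Ω r p a hI hp hni ha ha0 hκa
  have hr := hI.prb
  have hΛ : ENNReal.ofReal (A ^ (2 * J)) = B ^ (2 * J) := by
    rw [hB, ENNReal.ofReal_pow hA0.le]
  rw [hΛ]
  -- the values at the thresholds
  have hmono : ∀ u v : ℝ≥0∞, u ≤ v → phi r p u ≤ phi r p v := (h1 Ω r p hr hp).2.2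
  have hle1 : ∀ u, phi r p u ≤ 1 := (h1 Ω r p hr hp).2.1
  have hex : ∃ j < J, phi r p (a * B ^ (2 * (j + 1))) ≤
      phi r p (a * B ^ (2 * j)) + ENNReal.ofReal (1 / J) := by
    by_contra hcon
    push Not at hcon
    have hind : ∀ n ≤ J, ENNReal.ofReal κ + n * ENNReal.ofReal (1 / J) ≤
        phi r p (a * B ^ (2 * n)) := by
      intro n
      induction n with
      | zero =>
        intro _
        simpa using hκa
      | succ n ih =>
        intro hn
        have e1 := ih (by omega)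
        have e2 := hcon n (by omega)
        refine le_trans ?_ e2.le
        rw [Nat.cast_succ, add_mul, one_mul, ← add_assoc]
        exact add_le_add_left e1 _
    have e1 := (hind J le_rfl).trans (hle1 _)
    have e2 : (J : ℝ≥0∞) * ENNReal.ofReal (1 / J) = 1 := by
      rw [← ENNReal.ofReal_natCast, ← ENNReal.ofReal_mul hJ0.le, mul_one_div_cancel hJ0.ne',
        ENNReal.ofReal_one]
    rw [e2] at e1
    have e3 : ENNReal.ofReal κ + 1 ≤ 0 + 1 := by rw [zero_add]; exact e1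
    have e4 := (ENNReal.add_le_add_iff_right ENNReal.one_ne_top).1 e3
    have e5 : 0 < ENNReal.ofReal κ := ENNReal.ofReal_pos.2 hκ
    exact absurd e4 (not_le.2 e5)
  obtain ⟨j, hj, hw⟩ := hex
  have ea : a * B ^ (2 * j + 1) / B = a * B ^ (2 * j) := by
    rw [pow_succ, ← mul_assoc, ENNReal.mul_div_cancel_right hB0 hBt]
  have eb : B * (a * B ^ (2 * j + 1)) = a * B ^ (2 * (j + 1)) := by ring
  obtain ⟨q, hq, hqn, hqφ⟩ := h6 Ω r p κ σ δ' A (1 / J) (s / 100) (a * B ^ (2 * j + 1))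
    hκ hσ hσ1 hδ hδ1 hA1 (by positivity) (by positivity)
    (ENNReal.mul_ne_top ha (ENNReal.pow_ne_top hBt)) hI hp hni
    (by rw [← hB, ea, eb]; exact hw)
    (by
      rw [← hB, ea]
      refine hκa.trans (hmono _ _ ?_)
      calc a = a * 1 := (mul_one a).symm
        _ ≤ a * B ^ (2 * j) := mul_le_mul_right (one_le_pow₀ hB1) _)
    (by
      rw [← hs]
      have g1 : 8 / A = s / 4 := by rw [hA]; field_simp; norm_num
      have g2 : 4 * (1 / (J : ℝ)) ≤ s / 4 := by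
        have : 16 < J * s := (div_lt_iff₀ hs0).1 hJ
        rw [mul_one_div, div_le_div_iff₀ hJ0 (by norm_num)]
        linarith
      rw [g1]
      linarith)
  refine ⟨q, hq, hqn, lt_of_lt_of_le hqφ ?_⟩
  apply (h1 Ω r q hr hq).2.2
  rw [mul_comm]
  exact mul_le_mul_left (pow_le_pow_right₀ hB1 (by omega)) _

end Pool.NC
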