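import Mathlib
import Pool.Agent.Work.MP_052a41_nc.Defs
import Pool.Agent.Work.MP_052a41_nc.Tv

/-! Block A8a (MP_052a41_nc): finite thresholds, almost minimal threshold. -/

set_option autoImplicit false

open scoped ENNReal

namespace Pool.NC

theorem A8a_tsum_iSup {Ω : Type} (g : Ω → ℕ → ℝ≥0∞) (hg : ∀ x, Monotone (g x)) :
    ∑' x, ⨆ n, g x n = ⨆ n, ∑' x, g x n := by
  rw [ENNReal.tsum_eq_iSup_sum]
  have h1 : ∀ s : Finset Ω, ∑ a ∈ s, ⨆ n, g a n = ⨆ n, ∑ a ∈ s, g a n := fun s =>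
    ENNReal.finsetSum_iSup_of_monotone fun a => hg a
  simp_rw [h1]
  rw [iSup_comm]
  congr 1
  ext n
  rw [ENNReal.tsum_eq_iSup_sum]

/-- the limit of the quantile functions -/
theorem A8a_lim {Ω : Type} (r : Ω → Ω → ℝ≥0∞) (x : Ω) (hr : ∀ x, Prb (r x)) :
    ∑' y, r x y * ms (r y) {t | r x t ≠ 0} ≤ ⨆ n : ℕ, phi r (r x) (n : ℝ≥0∞) := by
  unfold phi
  have hmono : ∀ (y : Ω), Monotone fun n : ℕ => ms (r y) (lev r (r x) (n : ℝ≥0∞) y) := by
    intro y m n hmn
    refine ms_mono _ ?_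
    intro t ht
    simp only [lev, Set.mem_ofPred_eq] at ht ⊢
    refine ht.trans_le ?_
    gcongr
  have hsup : ∀ y, ms (r y) {t | r x t ≠ 0} ≤ ⨆ n : ℕ, ms (r y) (lev r (r x) (n : ℝ≥0∞) y) := by
    intro y
    unfold ms
    rw [← A8a_tsum_iSup]
    · refine ENNReal.tsum_le_tsum fun t => ?_
      by_cases h : r x t = 0
      · simp [h]
      · have hlt : ∃ n : ℕ, r y t < n * r x t := by
          obtain ⟨n, hn⟩ := ENNReal.exists_nat_mul_gt h (ne_top_of_prb (hr y) t)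
          exact ⟨n, hn⟩
        obtain ⟨n, hn⟩ := hlt
        refine le_iSup_of_le n ?_
        have h1 : t ∈ lev r (r x) (n : ℝ≥0∞) y := hn
        have h2 : t ∈ {t | r x t ≠ 0} := h
        simp [h1, h2]
    · intro t m n hmn
      refine Set.indicator_le_indicator_of_subset ?_ (fun _ => zero_le) t
      intro t ht
      simp only [lev, Set.mem_ofPred_eq] at ht ⊢
      refine ht.trans_le ?_
      gcongr
  rw [← A8a_tsum_iSup]
  · refine ENNReal.tsum_le_tsum fun y => ?_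
    rw [← ENNReal.mul_iSup]
    exact mul_le_mul_right (hsup y) _
  · intro y m n hmn
    exact mul_le_mul_right (hmono y hmn) _

theorem A8a (h1 : St_A1) : St_A8a := by
  intro Ω r κ ε hne hκ hε hsum hid
  obtain ⟨x₀⟩ := hne
  -- mass of the support after two steps
  have hmass : ENNReal.ofReal κ < ∑' y, r x₀ y * ms (r y) {t | r x₀ t ≠ 0} := by
    have h := (hid.ni x₀ ({t | r x₀ t ≠ 0}.indicator 1) (fun t => by
      by_cases ht : r x₀ t = 0 <;> simp [ht])).2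
    have e1 : ev (r x₀) ({t | r x₀ t ≠ 0}.indicator 1) = 1 := by
      rw [← (show ∑' t, r x₀ t = 1 from hid.prb x₀)]
      unfold ev
      congr 1
      ext t
      by_cases ht : r x₀ t = 0 <;> simp [ht]
    have e2 : ev (r x₀) (ap r ({t | r x₀ t ≠ 0}.indicator 1))
        = ∑' y, r x₀ y * ms (r y) {t | r x₀ t ≠ 0} := by
      unfold ev
      congr 1
      ext y
      unfold ap
      rw [ms_eq_ev]
    rw [e1, e2] at h
    by_contra hcon
    rw [not_lt] at hcon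
    have h3 : (1 : ℝ≥0∞) ≤ ENNReal.ofReal κ + ENNReal.ofReal ε := h.trans (by gcongr)
    rw [← ENNReal.ofReal_add hκ.le hε.le] at h3
    have : ENNReal.ofReal (κ + ε) < 1 := by
      rw [← ENNReal.ofReal_one]
      exact (ENNReal.ofReal_lt_ofReal_iff one_pos).2 hsum
    exact absurd h3 (not_le.2 this)
  obtain ⟨n, hn⟩ := lt_iSup_iff.1 (hmass.trans_le (A8a_lim r x₀ hid.prb))
  -- halving
  have hex : ∃ k : ℕ, ∀ x, phi r (r x) ((n : ℝ≥0∞) / 2 ^ k) < ENNReal.ofReal κ := by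
    have hpos : ENNReal.ofReal κ ≠ 0 := by simpa using hκ
    obtain ⟨k, hk⟩ : ∃ k : ℕ, (n : ℝ≥0∞) < ENNReal.ofReal κ * 2 ^ k := by
      obtain ⟨m, hm⟩ := ENNReal.exists_nat_mul_gt hpos (ENNReal.natCast_ne_top n)
      refine ⟨m, hm.trans_le ?_⟩
      rw [mul_comm]
      gcongr
      have : (m : ℝ≥0∞) ≤ ((2 ^ m : ℕ) : ℝ≥0∞) := by
        exact_mod_cast Nat.lt_two_pow_self.le
      simpa using this
    refine ⟨k, fun x => ?_⟩
    refine ((h1 Ω r (r x) hid.prb (hid.prb x)).1 _).trans_lt ?_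
    rw [ENNReal.div_lt_iff (Or.inl (by positivity)) (Or.inl (by finiteness))]
    exact hk
  classical
  let k := Nat.find hex
  have hk : ∀ x, phi r (r x) ((n : ℝ≥0∞) / 2 ^ k) < ENNReal.ofReal κ := Nat.find_spec hex
  have hk0 : k ≠ 0 := by
    intro h0
    have := hk x₀
    rw [h0] at this
    simp only [pow_zero, div_one] at this
    exact absurd this (not_lt.2 hn.le)
  obtain ⟨j, hj⟩ := Nat.exists_eq_succ_of_ne_zero hk0
  have hj' : ¬ ∀ x, phi r (r x) ((n : ℝ≥0∞) / 2 ^ j) < ENNReal.ofReal κ :=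
    Nat.find_min hex (show j < k by omega)
  push Not at hj'
  obtain ⟨x, hx⟩ := hj'
  have hn0 : n ≠ 0 := by
    rintro rfl
    have := (h1 Ω r (r x₀) hid.prb (hid.prb x₀)).1 ((0 : ℕ) : ℝ≥0∞)
    have h4 := hn.trans_le this
    simp at h4
  refine ⟨(n : ℝ≥0∞) / 2 ^ j, ?_, ?_, ⟨x, hx⟩, ?_⟩
  · simp [ENNReal.div_eq_zero_iff, hn0]
  · exact ENNReal.div_ne_top (ENNReal.natCast_ne_top n) (by positivity)
  · intro y
    have : (n : ℝ≥0∞) / 2 ^ j / 2 = (n : ℝ≥0∞) / 2 ^ k := by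
      rw [hj, Nat.succ_eq_add_one, pow_succ, ENNReal.div_eq_inv_mul, ENNReal.div_eq_inv_mul,
        ENNReal.div_eq_inv_mul, ENNReal.mul_inv (Or.inr (by finiteness)) (Or.inr (by positivity))]
      ring
    rw [this]
    exact hk y

end Pool.NC
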