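import Pool.Agent.Work.MP_052a41_nc.Tv

/-! Block A8b (helper68). -/

set_option autoImplicit false

open scoped ENNReal

namespace Pool.NC

variable {Ω : Type}

theorem A8b_ni {r : Ω → Ω → ℝ≥0∞} {δ : ℝ≥0∞} {p : Ω → ℝ≥0∞} (h : NI r δ p) (S : Set Ω) :
    ∑' y, p y * ms (r y) S ≤ ms p S + δ ∧ ms p S ≤ (∑' y, p y * ms (r y) S) + δ := by
  have h1 := h (S.indicator 1) (fun x => by by_cases hx : x ∈ S <;> simp [hx])
  have e : ev p (ap r (S.indicator 1)) = ∑' y, p y * ms (r y) S := by
    unfold ap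
    rw [ev]
    congr 1
    ext y
    rw [ms_eq_ev]
  rw [← ms_eq_ev, e] at h1
  exact h1

/-- average of `F x + c` -/
theorem A8b_avg {q F : Ω → ℝ≥0∞} (hq : Prb q) (c : ℝ≥0∞) :
    ∑' x, q x * (F x + c) = (∑' x, q x * F x) + c := by
  simp only [mul_add]
  rw [ENNReal.tsum_add, ENNReal.tsum_mul_right, hq, one_mul]

theorem A8b_compl {r : Ω → Ω → ℝ≥0∞} {p : Ω → ℝ≥0∞} (hr : ∀ x, Prb (r x)) (hp : Prb p)
    (S : Ω → Set Ω) : (∑' x, p x * ms (r x) (S x)) + ∑' x, p x * ms (r x) (S x)ᶜ = 1 := by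
  rw [← ENNReal.tsum_add]
  calc ∑' x, (p x * ms (r x) (S x) + p x * ms (r x) (S x)ᶜ) = ∑' x, p x := by
        congr 1
        ext x
        rw [← mul_add, ms_add_compl, hr x, mul_one]
    _ = 1 := hp

theorem A8b : St_A8b := by
  intro Ω r q a s ε Λ hs hs1 hε hεs hΛ ha0 ha1 hI hq hqn hphi hall
  have hr := hI.prb
  set S : ℝ≥0∞ := ENNReal.ofReal s with hS
  set E : ℝ≥0∞ := ENNReal.ofReal ε with hE
  set L : ℝ≥0∞ := ENNReal.ofReal Λ with hL
  have hES : E ≤ S := ENNReal.ofReal_le_ofReal hεs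
  have hS0 : S ≠ 0 := by simp [hS, hs]
  have hSt : S ≠ ∞ := ENNReal.ofReal_ne_top
  have hLt : L ≠ ∞ := ENNReal.ofReal_ne_top
  have hqt : ∀ x, q x ≠ ∞ := ne_top_of_prb hq
  have hrt : ∀ x y, r x y ≠ ∞ := fun x => ne_top_of_prb (hr x)
  have h1S : ENNReal.ofReal (1 - s) + S = 1 := by
    rw [hS, ← ENNReal.ofReal_add (by linarith) hs.le]
    simp
  -- first bad event
  have b0 : ∑' x, q x * ms (r x) (lev r q (L * a) x)ᶜ ≤ S := by
    have h1 := A8b_compl hr hq (fun x => lev r q (L * a) x)
    have h2 : ENNReal.ofReal (1 - s) + ∑' x, q x * ms (r x) (lev r q (L * a) x)ᶜ ≤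
        ENNReal.ofReal (1 - s) + S := by
      rw [h1S, ← h1]
      gcongr
      exact hphi
    exact (ENNReal.add_le_add_iff_left ENNReal.ofReal_ne_top).1 h2
  have b1 : ∑' x, q x * ∑' y, r x y * ms (r y) (lev r q (L * a) y)ᶜ ≤ 2 * S := by
    have h1 := (hqn (fun y => ms (r y) (lev r q (L * a) y)ᶜ) (fun y => ms_le_one (hr y) _)).1
    calc _ ≤ S + S := h1.trans (by gcongr; exact b0)
      _ = 2 * S := by ring
  have b2 : ∑' x, q x * ∑' y, r x y * ms (r y) (lev r (r x) (a / 2) y) ≤ S := by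
    calc _ ≤ ∑' x, q x * S := ENNReal.tsum_le_tsum fun x => mul_le_mul_right (hall x) _
      _ = S := by rw [ENNReal.tsum_mul_right, hq, one_mul]
  -- `phi r q (2 L)` is at least `1 - 4 s`
  have b3 : ∑' x, q x * ms (r x) (lev r q (2 * L) x)ᶜ ≤ 4 * S := by
    have hx : ∀ x, ms (r x) (lev r q (2 * L) x)ᶜ ≤
        ((∑' y, r x y * ms (r y) (lev r q (L * a) y)ᶜ) +
          ∑' y, r x y * ms (r y) (lev r (r x) (a / 2) y)) + E := by
      intro x
      refine (A8b_ni (hI.ni x) _).2.trans ?_
      gcongr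
      rw [← ENNReal.tsum_add]
      refine ENNReal.tsum_le_tsum fun y => ?_
      rw [← mul_add]
      gcongr
      refine (ms_mono _ ?_).trans (ms_union_le _ _ _)
      intro z hz
      by_contra hcon
      simp only [lev, Set.mem_union, Set.mem_compl_iff, Set.mem_ofPred_eq, not_or,
        not_lt] at hz hcon
      obtain ⟨h1, h2⟩ := hcon
      rw [not_le] at h1
      have h3 : a / 2 * r x z < L * a * q z := h2.trans_lt h1
      have h4 : a / 2 * (2 * L * q z) ≤ a / 2 * r x z := mul_le_mul_right hz _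
      have h5 : a / 2 * (2 * L * q z) = L * a * q z := by
        rw [ENNReal.div_eq_inv_mul]
        calc (2 : ℝ≥0∞)⁻¹ * a * (2 * L * q z) = ((2 : ℝ≥0∞)⁻¹ * 2) * (L * a * q z) := by ring
          _ = _ := by
            rw [ENNReal.inv_mul_cancel (by norm_num) (by norm_num), one_mul]
      rw [h5] at h4
      exact absurd h3 (not_lt.2 h4)
    calc _ ≤ ∑' x, q x * (((∑' y, r x y * ms (r y) (lev r q (L * a) y)ᶜ) +
          ∑' y, r x y * ms (r y) (lev r (r x) (a / 2) y)) + E) :=
          ENNReal.tsum_le_tsum fun x => mul_le_mul_right (hx x) _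
      _ = (∑' x, q x * ((∑' y, r x y * ms (r y) (lev r q (L * a) y)ᶜ) +
          ∑' y, r x y * ms (r y) (lev r (r x) (a / 2) y))) + E := A8b_avg hq E
      _ ≤ (2 * S + S) + S := by
          gcongr
          simp only [mul_add]
          rw [ENNReal.tsum_add]
          gcongr
      _ = 4 * S := by ring
  have b4 : ∑' x, q x * ∑' y, r x y * ms (r y) (lev r q (2 * L) y)ᶜ ≤ 5 * S := by
    have h1 := (hqn (fun y => ms (r y) (lev r q (2 * L) y)ᶜ) (fun y => ms_le_one (hr y) _)).1
    calc _ ≤ 4 * S + S := h1.trans (by gcongr; exact b3)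
      _ = 5 * S := by ring
  have b5 : ∑' x, q x * ∑' y, r x y * ms (r y) (lev r q S x) ≤ 2 * S := by
    calc _ ≤ ∑' x, q x * (ms (r x) (lev r q S x) + E) :=
          ENNReal.tsum_le_tsum fun x => mul_le_mul_right (A8b_ni (hI.ni x) _).1 _
      _ = (∑' x, q x * ms (r x) (lev r q S x)) + E := A8b_avg hq E
      _ ≤ S + S := by
          gcongr
          calc _ ≤ ∑' x, q x * S := by
                refine ENNReal.tsum_le_tsum fun x => mul_le_mul_right ?_ _
                unfold ms lev
                calc _ ≤ ∑' z, S * q z := by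
                      refine ENNReal.tsum_le_tsum fun z => ?_
                      by_cases hz : r x z < S * q z
                      · simp only [Set.indicator, Set.mem_ofPred_eq, hz, if_true]
                        exact hz.le
                      · simp [Set.indicator, hz]
                  _ = S := by rw [ENNReal.tsum_mul_left, hq, mul_one]
            _ = S := by rw [ENNReal.tsum_mul_right, hq, one_mul]
      _ = 2 * S := by ring
  have hM : ENNReal.ofReal (2 * Λ / s) = 2 * L / S := by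
    rw [ENNReal.ofReal_div_of_pos hs, ENNReal.ofReal_mul (by norm_num)]
    simp [hL, hS]
  have b6 : ∑' x, q x * ∑' y, r x y * ms (r y) (lev r (r x) (2 * L / S) y)ᶜ ≤ 7 * S := by
    calc _ ≤ ∑' x, q x * ((∑' y, r x y * ms (r y) (lev r q (2 * L) y)ᶜ) +
          ∑' y, r x y * ms (r y) (lev r q S x)) := by
          refine ENNReal.tsum_le_tsum fun x => mul_le_mul_right ?_ _
          rw [← ENNReal.tsum_add]
          refine ENNReal.tsum_le_tsum fun y => ?_
          rw [← mul_add]
          gcongr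
          refine (ms_mono _ ?_).trans (ms_union_le _ _ _)
          intro z hz
          by_contra hcon
          simp only [lev, Set.mem_union, Set.mem_compl_iff, Set.mem_ofPred_eq, not_or,
            not_lt] at hz hcon
          obtain ⟨h1, h2⟩ := hcon
          rw [not_le] at h1
          have h3 : 2 * L / S * (S * q z) ≤ r y z := (mul_le_mul_right h2 _).trans hz
          have h4 : 2 * L / S * (S * q z) = 2 * L * q z := by
            rw [← mul_assoc, ENNReal.div_mul_cancel hS0 hSt]
          rw [h4] at h3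
          exact absurd h1 (not_lt.2 h3)
      _ ≤ 5 * S + 2 * S := by
          simp only [mul_add]
          rw [ENNReal.tsum_add]
          gcongr
      _ = 7 * S := by ring
  -- a good row
  have b7 : ∃ x, ∑' y, r x y * ms (r y) (lev r (r x) (2 * L / S) y)ᶜ ≤ 10 * S := by
    by_contra hcon
    push Not at hcon
    have h1 : 10 * S ≤ 7 * S := by
      calc 10 * S = ∑' x, q x * (10 * S) := by rw [ENNReal.tsum_mul_right, hq, one_mul]
        _ ≤ _ := ENNReal.tsum_le_tsum fun x => mul_le_mul_right (hcon x).le _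
        _ ≤ 7 * S := b6
    have h2 : (10 : ℝ≥0∞) ≤ 7 := (ENNReal.mul_le_mul_iff_left hS0 hSt).1 h1
    norm_num at h2
  obtain ⟨x, hx⟩ := b7
  refine ⟨x, ?_⟩
  rw [hM]
  have h1 := A8b_compl hr (hr x) (fun y => lev r (r x) (2 * L / S) y)
  have h2 : ENNReal.ofReal (1 - 10 * s) + 10 * S = 1 := by
    have e : 10 * S = ENNReal.ofReal (10 * s) := by
      rw [ENNReal.ofReal_mul (by norm_num)]; simp [hS]
    rw [e, ← ENNReal.ofReal_add (by linarith) (by linarith)]
    simp
  have h3 : ENNReal.ofReal (1 - 10 * s) + 10 * S ≤ phi r (r x) (2 * L / S) + 10 * S := by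
    rw [h2, ← h1]
    unfold phi
    gcongr
  exact (ENNReal.add_le_add_iff_right (ENNReal.mul_ne_top (by norm_num) hSt)).1 h3

end Pool.NC
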