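import Mathlib
import Pool.Agent.Work.MP_052a41_nc.Defs
import Pool.Agent.Work.MP_052a41_nc.Tv

/-! Block A9 (MP_052a41_nc): bounded density and near invariance give concentrated rows. -/

set_option autoImplicit false

open scoped ENNReal

namespace Pool.NC

namespace A9_

variable {Ω : Type}

/-- the two step law -/
noncomputable def rho (r : Ω → Ω → ℝ≥0∞) (x t : Ω) : ℝ≥0∞ := ∑' y, r x y * r y t

theorem ev_rho (r : Ω → Ω → ℝ≥0∞) (x : Ω) (f : Ω → ℝ≥0∞) :
    ev (rho r x) f = ev (r x) (ap r f) := by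
  unfold ev rho ap ev
  have h1 : ∀ t, (∑' y, r x y * r y t) * f t = ∑' y, r x y * (r y t * f t) := by
    intro t
    rw [← ENNReal.tsum_mul_right]
    refine tsum_congr fun y => ?_
    rw [mul_assoc]
  simp_rw [h1]
  rw [ENNReal.tsum_comm]
  refine tsum_congr fun y => ?_
  rw [ENNReal.tsum_mul_left]

theorem ev_one {p : Ω → ℝ≥0∞} (hp : Prb p) : ev p (fun _ => 1) = 1 := by
  unfold ev
  simp only [mul_one]
  exact hp

theorem prb_rho {r : Ω → Ω → ℝ≥0∞} (hr : ∀ x, Prb (r x)) (x : Ω) : Prb (rho r x) := by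
  have h := ev_rho r x (fun _ => 1)
  have h2 : ap r (fun _ => 1) = fun _ => (1 : ℝ≥0∞) := funext fun y => ev_one (hr y)
  rw [h2, ev_one (hr x)] at h
  unfold Prb
  rw [← h]
  unfold ev
  simp only [mul_one]

/-- real functions -/
noncomputable def HR (v b : ℝ) : ℝ := v ^ 2 / (v + b)

noncomputable def DR (v m b : ℝ) : ℝ := b ^ 2 * (v - m) ^ 2 / ((v + b) * (m + b) ^ 2)

theorem HR_nonneg {v b : ℝ} (hv : 0 ≤ v) (hb : 0 ≤ b) : 0 ≤ HR v b := by
  unfold HR; positivity

theorem DR_nonneg {v m b : ℝ} (hv : 0 ≤ v) (_hm : 0 ≤ m) (hb : 0 ≤ b) : 0 ≤ DR v m b := by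
  unfold DR; positivity

theorem HR_le {v b : ℝ} (hv : 0 ≤ v) (hb : 0 ≤ b) : HR v b ≤ v := by
  unfold HR
  rcases (add_nonneg hv hb).eq_or_lt with h | h
  · rw [← h, div_zero]; exact hv
  · rw [div_le_iff₀ h]; nlinarith

theorem HR_zero_zero : HR 0 0 = 0 := by unfold HR; norm_num

theorem HR_mono {v m b : ℝ} (hv : 0 ≤ v) (hb : 0 ≤ b) (h : v ≤ m) : HR v b ≤ HR m b := by
  have hm : 0 ≤ m := hv.trans h
  rcases (add_nonneg hv hb).eq_or_lt with h1 | h1
  · have : v = 0 := by linarith
    have e : HR v b = 0 := by unfold HR; rw [this]; norm_num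
    rw [e]; exact HR_nonneg hm hb
  · unfold HR
    have h2 : 0 < m + b := by linarith
    rw [div_le_div_iff₀ h1 h2]
    have h3 : v ^ 2 * m ≤ m ^ 2 * v := by
      have : v * m * v ≤ v * m * m := mul_le_mul_of_nonneg_left h (mul_nonneg hv hm)
      nlinarith
    have h4 : v ^ 2 * b ≤ m ^ 2 * b := by
      have : v ^ 2 ≤ m ^ 2 := by nlinarith
      exact mul_le_mul_of_nonneg_right this hb
    nlinarith

theorem HR_lip {v m b : ℝ} (hm : 0 ≤ m) (hb : 0 ≤ b) (h : m ≤ v) : HR v b ≤ HR m b + (v - m) := by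
  have hv : 0 ≤ v := hm.trans h
  rcases (add_nonneg hm hb).eq_or_lt with h1 | h1
  · have hm0 : m = 0 := by linarith
    have := HR_le hv hb
    have h2 := HR_nonneg hm hb
    linarith
  · have h2 : 0 < v + b := by linarith
    have e1 : v - HR v b = b * v / (v + b) := by
      unfold HR; field_simp; ring
    have e2 : m - HR m b = b * m / (m + b) := by
      unfold HR; field_simp; ring
    have h3 : b * m / (m + b) ≤ b * v / (v + b) := by
      rw [div_le_div_iff₀ h1 h2]
      have : b * b * m ≤ b * b * v := mul_le_mul_of_nonneg_left h (mul_nonneg hb hb)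
      nlinarith
    linarith

theorem HR_b0 (v : ℝ) : HR v 0 = v := by
  unfold HR
  rw [add_zero]
  by_cases h : v = 0
  · rw [h]; norm_num
  · field_simp

theorem DR_b0 (v m : ℝ) : DR v m 0 = 0 := by
  unfold DR
  simp

theorem HR_tangent {m b : ℝ} (hm : 0 ≤ m) (hb : 0 ≤ b) :
    ∃ s' : ℝ, 0 ≤ s' ∧ ∀ v : ℝ, 0 ≤ v → HR m b + s' * v + DR v m b ≤ HR v b + s' * m := by
  rcases hb.eq_or_lt with h0 | h0
  · refine ⟨1, by norm_num, ?_⟩
    intro v _
    rw [← h0, HR_b0, HR_b0, DR_b0]
    linarith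
  · have h1 : 0 < m + b := by linarith
    refine ⟨1 - b ^ 2 / (m + b) ^ 2, ?_, ?_⟩
    · have : b ^ 2 / (m + b) ^ 2 ≤ 1 := by
        rw [div_le_one (by positivity)]
        nlinarith
      linarith
    · intro v hv
      have h2 : 0 < v + b := by linarith
      refine le_of_eq ?_
      unfold HR DR
      field_simp
      ring

theorem DR_bound {s Λ v m p : ℝ} (hs : 0 < s) (hΛ : 1 ≤ Λ) (hv : 0 ≤ v) (hm : 0 ≤ m)
    (hp : 0 ≤ p) (hvb : v ≤ 2 * Λ * p) (hmb : m ≤ 2 * Λ * p) :
    |v - m| ≤ s * p + 4 * Λ / s * DR v m (2 * Λ * p) := by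
  rcases hp.eq_or_lt with h | h
  · rw [← h] at hvb hmb ⊢
    have hv0 : v = 0 := by linarith
    have hm0 : m = 0 := by linarith
    rw [hv0, hm0]
    unfold DR
    norm_num
  · set b := 2 * Λ * p with hb
    have hbpos : 0 < b := by positivity
    have h1 : (v - m) ^ 2 / (8 * b) ≤ DR v m b := by
      unfold DR
      rw [div_le_div_iff₀ (by positivity) (by positivity)]
      have h2 : (v + b) * (m + b) ^ 2 ≤ (2 * b) * (2 * b) ^ 2 := by
        refine mul_le_mul (by linarith) ?_ (by positivity) (by positivity)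
        nlinarith
      have h3 := mul_le_mul_of_nonneg_left h2 (sq_nonneg (v - m))
      calc (v - m) ^ 2 * ((v + b) * (m + b) ^ 2) ≤ (v - m) ^ 2 * ((2 * b) * (2 * b) ^ 2) := h3
        _ = b ^ 2 * (v - m) ^ 2 * (8 * b) := by ring
    have h2 : 4 * Λ / s * ((v - m) ^ 2 / (8 * b)) ≤ 4 * Λ / s * DR v m b :=
      mul_le_mul_of_nonneg_left h1 (by positivity)
    have h3 : 4 * Λ / s * ((v - m) ^ 2 / (8 * b)) = (v - m) ^ 2 / (4 * (s * p)) := by
      rw [hb]
      field_simp
      ring
    have h4 : |v - m| ≤ s * p + (v - m) ^ 2 / (4 * (s * p)) := by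
      have hsp : 0 < s * p := by positivity
      have h5 : (|v - m| - 2 * (s * p)) ^ 2 ≥ 0 := sq_nonneg _
      have h6 : (v - m) ^ 2 = |v - m| ^ 2 := (sq_abs _).symm
      have h7 : |v - m| - s * p ≤ (v - m) ^ 2 / (4 * (s * p)) := by
        rw [le_div_iff₀ (by positivity), h6]
        nlinarith
      linarith
    linarith

/-- the pointwise estimate -/
theorem pointwise {s Λ : ℝ} (hs : 0 < s) (hΛ : 1 ≤ Λ) {v m p : ℝ≥0∞} (hv : v ≠ ∞) (hm : m ≠ ∞)
    (hp : p ≠ ∞) :
    (v - m) + (m - v) ≤ ENNReal.ofReal s * p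
      + ENNReal.ofReal (4 * Λ / s) * ENNReal.ofReal (DR v.toReal m.toReal (2 * Λ * p.toReal))
      + (if ENNReal.ofReal (2 * Λ) * p < v then v else 0)
      + (if ENNReal.ofReal (2 * Λ) * p < m then m else 0) := by
  by_cases h1 : ENNReal.ofReal (2 * Λ) * p < v
  · rw [if_pos h1]
    by_cases h2 : ENNReal.ofReal (2 * Λ) * p < m
    · rw [if_pos h2]
      calc (v - m) + (m - v) ≤ v + m := add_le_add tsub_le_self tsub_le_self
        _ ≤ _ := by
          rw [add_assoc]
          exact le_add_self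
    · rw [if_neg h2, add_zero]
      have h3 : m ≤ v := (not_lt.1 h2).trans h1.le
      rw [tsub_eq_zero_of_le h3, add_zero]
      exact tsub_le_self.trans le_add_self
  · by_cases h2 : ENNReal.ofReal (2 * Λ) * p < m
    · rw [if_pos h2]
      have h3 : v ≤ m := (not_lt.1 h1).trans h2.le
      rw [tsub_eq_zero_of_le h3, zero_add]
      exact tsub_le_self.trans le_add_self
    · rw [if_neg h1, if_neg h2, add_zero, add_zero]
      have e1 : ENNReal.ofReal (2 * Λ) * p = ENNReal.ofReal (2 * Λ * p.toReal) := by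
        rw [ENNReal.ofReal_mul (q := p.toReal) (show (0 : ℝ) ≤ 2 * Λ by linarith),
          ENNReal.ofReal_toReal hp]
      rw [not_lt, e1] at h1 h2
      have hpr : 0 ≤ p.toReal := ENNReal.toReal_nonneg
      have hvb : v.toReal ≤ 2 * Λ * p.toReal := by
        refine ENNReal.toReal_le_of_le_ofReal (by positivity) h1
      have hmb : m.toReal ≤ 2 * Λ * p.toReal := by
        refine ENNReal.toReal_le_of_le_ofReal (by positivity) h2
      have key := DR_bound hs hΛ (ENNReal.toReal_nonneg (a := v)) (ENNReal.toReal_nonneg (a := m))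
        hpr hvb hmb
      have hD := DR_nonneg (ENNReal.toReal_nonneg (a := v)) (ENNReal.toReal_nonneg (a := m))
        (show 0 ≤ 2 * Λ * p.toReal by positivity)
      have e2 : (v - m) + (m - v) = ENNReal.ofReal |v.toReal - m.toReal| := by
        rcases le_total v m with h | h
        · rw [tsub_eq_zero_of_le h, zero_add]
          have h' : v.toReal ≤ m.toReal := ENNReal.toReal_mono hm h
          rw [abs_of_nonpos (by linarith), neg_sub, ENNReal.ofReal_sub _ ENNReal.toReal_nonneg,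
            ENNReal.ofReal_toReal hm, ENNReal.ofReal_toReal hv]
        · rw [tsub_eq_zero_of_le h, add_zero]
          have h' : m.toReal ≤ v.toReal := ENNReal.toReal_mono hv h
          rw [abs_of_nonneg (by linarith), ENNReal.ofReal_sub _ ENNReal.toReal_nonneg,
            ENNReal.ofReal_toReal hm, ENNReal.ofReal_toReal hv]
      rw [e2]
      have e3 : ENNReal.ofReal s * p = ENNReal.ofReal (s * p.toReal) := by
        rw [ENNReal.ofReal_mul hs.le, ENNReal.ofReal_toReal hp]
      rw [e3, ← ENNReal.ofReal_mul (by positivity), ← ENNReal.ofReal_add (by positivity)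
        (by positivity)]
      exact ENNReal.ofReal_le_ofReal key

section
variable {r : Ω → Ω → ℝ≥0∞} {p : Ω → ℝ≥0∞} {Λ : ℝ}

/-- `b t = 2 Λ p t` as a real number -/
noncomputable def bb (Λ : ℝ) (p : Ω → ℝ≥0∞) (t : Ω) : ℝ := 2 * Λ * (p t).toReal

theorem bb_nonneg (hΛ : 1 ≤ Λ) (t : Ω) : 0 ≤ bb Λ p t := by
  unfold bb
  have : 0 ≤ (p t).toReal := ENNReal.toReal_nonneg
  positivity

/-- the functional of a row -/
noncomputable def FF (Λ : ℝ) (p q : Ω → ℝ≥0∞) : ℝ≥0∞ :=
  ∑' t, ENNReal.ofReal (HR (q t).toReal (bb Λ p t))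

theorem FF_le_one (hΛ : 1 ≤ Λ) {q : Ω → ℝ≥0∞} (hq : Prb q) : FF Λ p q ≤ 1 := by
  rw [← (show ∑' x, q x = 1 from hq)]
  refine ENNReal.tsum_le_tsum fun t => ?_
  calc ENNReal.ofReal (HR (q t).toReal (bb Λ p t)) ≤ ENNReal.ofReal (q t).toReal :=
        ENNReal.ofReal_le_ofReal (HR_le ENNReal.toReal_nonneg (bb_nonneg hΛ t))
    _ = q t := ENNReal.ofReal_toReal (ne_top_of_prb hq t)

theorem FF_lip (hΛ : 1 ≤ Λ) {q q' : Ω → ℝ≥0∞} (hq : Prb q) (hq' : Prb q') :
    FF Λ p q ≤ FF Λ p q' + ∑' t, (q t - q' t) := by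
  unfold FF
  rw [← ENNReal.tsum_add]
  refine ENNReal.tsum_le_tsum fun t => ?_
  have hb := bb_nonneg (p := p) hΛ t
  rcases le_total (q t) (q' t) with h | h
  · have h' : (q t).toReal ≤ (q' t).toReal := ENNReal.toReal_mono (ne_top_of_prb hq' t) h
    exact (ENNReal.ofReal_le_ofReal (HR_mono ENNReal.toReal_nonneg hb h')).trans le_self_add
  · have h' : (q' t).toReal ≤ (q t).toReal := ENNReal.toReal_mono (ne_top_of_prb hq t) h
    have h1 := HR_lip (v := (q t).toReal) (m := (q' t).toReal) ENNReal.toReal_nonneg hb h'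
    calc ENNReal.ofReal (HR (q t).toReal (bb Λ p t))
        ≤ ENNReal.ofReal (HR (q' t).toReal (bb Λ p t) + ((q t).toReal - (q' t).toReal)) :=
          ENNReal.ofReal_le_ofReal h1
      _ = ENNReal.ofReal (HR (q' t).toReal (bb Λ p t)) + (q t - q' t) := by
          rw [ENNReal.ofReal_add (HR_nonneg ENNReal.toReal_nonneg hb) (by linarith),
            ENNReal.ofReal_sub _ ENNReal.toReal_nonneg,
            ENNReal.ofReal_toReal (ne_top_of_prb hq t),
            ENNReal.ofReal_toReal (ne_top_of_prb hq' t)]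

/-- the defect -/
noncomputable def DD (Λ : ℝ) (p q q' : Ω → ℝ≥0∞) : ℝ≥0∞ :=
  ∑' t, ENNReal.ofReal (DR (q t).toReal (q' t).toReal (bb Λ p t))

theorem FF_gain (hr : ∀ x, Prb (r x)) (hΛ : 1 ≤ Λ) (x : Ω) :
    FF Λ p (rho r x) + ∑' y, r x y * DD Λ p (r y) (rho r x) ≤ ∑' y, r x y * FF Λ p (r y) := by
  have hrho := prb_rho hr x
  unfold FF DD
  simp_rw [← ENNReal.tsum_mul_left]
  rw [ENNReal.tsum_comm (f := fun y t => r x y * ENNReal.ofReal (DR (r y t).toReal
      (rho r x t).toReal (bb Λ p t))),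
    ENNReal.tsum_comm (f := fun y t => r x y * ENNReal.ofReal (HR (r y t).toReal (bb Λ p t))),
    ← ENNReal.tsum_add]
  refine ENNReal.tsum_le_tsum fun t => ?_
  have hb := bb_nonneg (p := p) hΛ t
  have hm : rho r x t ≠ ∞ := ne_top_of_prb hrho t
  obtain ⟨s', hs', H⟩ := HR_tangent (m := (rho r x t).toReal) (b := bb Λ p t)
    ENNReal.toReal_nonneg hb
  have hH : 0 ≤ HR (rho r x t).toReal (bb Λ p t) := HR_nonneg ENNReal.toReal_nonneg hb
  have hfin : ENNReal.ofReal s' * rho r x t ≠ ∞ := ENNReal.mul_ne_top ENNReal.ofReal_ne_top hm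
  rw [← ENNReal.add_le_add_iff_right hfin]
  have e1 : ∑' y, r x y * (ENNReal.ofReal (HR (rho r x t).toReal (bb Λ p t))
        + ENNReal.ofReal s' * r y t
        + ENNReal.ofReal (DR (r y t).toReal (rho r x t).toReal (bb Λ p t)))
      = ENNReal.ofReal (HR (rho r x t).toReal (bb Λ p t))
        + ∑' y, r x y * ENNReal.ofReal (DR (r y t).toReal (rho r x t).toReal (bb Λ p t))
        + ENNReal.ofReal s' * rho r x t := by
    simp_rw [mul_add]
    rw [ENNReal.tsum_add, ENNReal.tsum_add, ENNReal.tsum_mul_right, (show ∑' y, r x y = 1 from hr x),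
      one_mul]
    have e2 : ∑' y, r x y * (ENNReal.ofReal s' * r y t) = ENNReal.ofReal s' * rho r x t := by
      unfold rho
      rw [← ENNReal.tsum_mul_left]
      refine tsum_congr fun y => ?_
      ring
    rw [e2]
    ring
  have e3 : ∑' y, r x y * (ENNReal.ofReal (HR (r y t).toReal (bb Λ p t))
        + ENNReal.ofReal s' * rho r x t)
      = ∑' y, r x y * ENNReal.ofReal (HR (r y t).toReal (bb Λ p t))
        + ENNReal.ofReal s' * rho r x t := by
    simp_rw [mul_add]
    rw [ENNReal.tsum_add, ENNReal.tsum_mul_right, (show ∑' y, r x y = 1 from hr x), one_mul]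
  rw [← e1, ← e3]
  refine ENNReal.tsum_le_tsum fun y => ?_
  refine mul_le_mul_right ?_ _
  have hv : r y t ≠ ∞ := ne_top_of_prb (hr y) t
  have h1 := H (r y t).toReal ENNReal.toReal_nonneg
  have hD : 0 ≤ DR (r y t).toReal (rho r x t).toReal (bb Λ p t) :=
    DR_nonneg ENNReal.toReal_nonneg ENNReal.toReal_nonneg hb
  have hv0 : 0 ≤ (r y t).toReal := ENNReal.toReal_nonneg
  have hm0 : 0 ≤ (rho r x t).toReal := ENNReal.toReal_nonneg
  have e4 : ENNReal.ofReal s' * r y t = ENNReal.ofReal (s' * (r y t).toReal) := by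
    rw [ENNReal.ofReal_mul hs', ENNReal.ofReal_toReal hv]
  have e5 : ENNReal.ofReal s' * rho r x t = ENNReal.ofReal (s' * (rho r x t).toReal) := by
    rw [ENNReal.ofReal_mul hs', ENNReal.ofReal_toReal hm]
  rw [e4, e5, ← ENNReal.ofReal_add hH (mul_nonneg hs' hv0),
    ← ENNReal.ofReal_add (add_nonneg hH (mul_nonneg hs' hv0)) hD,
    ← ENNReal.ofReal_add (HR_nonneg hv0 hb) (mul_nonneg hs' hm0)]
  exact ENNReal.ofReal_le_ofReal h1

/-- the sum of the defects is small -/
theorem DD_sum {ε : ℝ≥0∞} (hI : Idem r ε) (hp : Prb p) (hNI : NI r ε p) (hΛ : 1 ≤ Λ) :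
    ∑' x, p x * ∑' y, r x y * DD Λ p (r y) (rho r x) ≤ 2 * ε := by
  have hr := hI.prb
  have h1 : ∀ x, FF Λ p (r x) ≤ FF Λ p (rho r x) + ε := by
    intro x
    refine (FF_lip hΛ (hr x) (prb_rho hr x)).trans ?_
    gcongr
    refine sub_sum_le ?_ ?_
    · rw [(show ∑' t, rho r x t = 1 from prb_rho hr x)]; exact ENNReal.one_ne_top
    · intro f hf
      rw [ev_rho]
      exact (hI.ni x f hf).2
  have h2 := (hNI (fun y => FF Λ p (r y)) (fun y => FF_le_one hΛ (hr y))).1
  have h3 : ev p (fun y => FF Λ p (r y)) ≤ ∑' x, p x * FF Λ p (rho r x) + ε := by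
    calc ev p (fun y => FF Λ p (r y)) ≤ ∑' x, p x * (FF Λ p (rho r x) + ε) :=
          ENNReal.tsum_le_tsum fun x => mul_le_mul_right (h1 x) _
      _ = ∑' x, p x * FF Λ p (rho r x) + ε := by
          simp_rw [mul_add]
          rw [ENNReal.tsum_add, ENNReal.tsum_mul_right, (show ∑' x, p x = 1 from hp), one_mul]
  have h4 : ∑' x, p x * FF Λ p (rho r x) + ∑' x, p x * ∑' y, r x y * DD Λ p (r y) (rho r x)
      ≤ ev p (ap r fun y => FF Λ p (r y)) := by
    rw [← ENNReal.tsum_add]
    unfold ev ap ev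
    refine ENNReal.tsum_le_tsum fun x => ?_
    rw [← mul_add]
    exact mul_le_mul_right (FF_gain hr hΛ x) _
  have h5 : ∑' x, p x * FF Λ p (rho r x) ≠ ∞ := by
    have : ∑' x, p x * FF Λ p (rho r x) ≤ 1 :=
      ev_le (f := fun x => FF Λ p (rho r x)) hp (fun x => FF_le_one hΛ (prb_rho hr x))
    exact (this.trans_lt ENNReal.one_lt_top).ne
  rw [← ENNReal.add_le_add_iff_left h5]
  calc ∑' x, p x * FF Λ p (rho r x) + ∑' x, p x * ∑' y, r x y * DD Λ p (r y) (rho r x)
      ≤ ev p (ap r fun y => FF Λ p (r y)) := h4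
    _ ≤ ev p (fun y => FF Λ p (r y)) + ε := h2
    _ ≤ (∑' x, p x * FF Λ p (rho r x) + ε) + ε := by gcongr
    _ = ∑' x, p x * FF Λ p (rho r x) + 2 * ε := by ring

/-- mass of the rows where the density is large -/
theorem compl_sum {s : ℝ} (hs : 0 < s) (hs1 : s ≤ 1) (hr : ∀ x, Prb (r x)) (hp : Prb p)
    (h : ENNReal.ofReal (1 - s) ≤ phi r p (ENNReal.ofReal Λ)) :
    ∑' x, p x * ms (r x) (lev r p (ENNReal.ofReal Λ) x)ᶜ ≤ ENNReal.ofReal s := by
  have h1 : phi r p (ENNReal.ofReal Λ) + ∑' x, p x * ms (r x) (lev r p (ENNReal.ofReal Λ) x)ᶜ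
      = 1 := by
    unfold phi
    rw [← ENNReal.tsum_add]
    rw [← (show ∑' x, p x = 1 from hp)]
    refine tsum_congr fun x => ?_
    rw [← mul_add, ms_add_compl, (show ∑' y, r x y = 1 from hr x), mul_one]
  have h2 : ENNReal.ofReal (1 - s) + ENNReal.ofReal s = 1 := by
    rw [← ENNReal.ofReal_add (by linarith) hs.le]
    simp
  have h3 : ENNReal.ofReal (1 - s) ≠ ∞ := ENNReal.ofReal_ne_top
  rw [← ENNReal.add_le_add_iff_left h3, h2, ← h1]
  gcongr

end

end A9_

open A9_ in
theorem A9 : St_A9 := by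
  intro s Λ hs hs1 hΛ
  refine ⟨s ^ 2 / (8 * Λ), by positivity, ?_⟩
  intro Ω r p hI hp hNI hphi
  set ε : ℝ≥0∞ := ENNReal.ofReal (s ^ 2 / (8 * Λ)) with hε
  have hr := hI.prb
  have hcs := compl_sum hs hs1 hr hp hphi
  -- the sets
  set B : Ω → Set Ω := fun x => (lev r p (ENNReal.ofReal Λ) x)ᶜ with hB
  set V : Ω → Set Ω := fun y => {t | ENNReal.ofReal (2 * Λ) * p t < r y t} with hV
  set M : Ω → Set Ω := fun x => {t | ENNReal.ofReal (2 * Λ) * p t < rho r x t} with hM
  have hΛ2 : ENNReal.ofReal (2 * Λ) = 2 * ENNReal.ofReal Λ := by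
    rw [ENNReal.ofReal_mul (by norm_num)]
    norm_num
  have hVB : ∀ y, V y ⊆ B y := by
    intro y t ht
    simp only [hV, Set.mem_ofPred_eq] at ht
    simp only [hB, Set.mem_compl_iff, lev, Set.mem_ofPred_eq, not_lt]
    refine le_trans ?_ ht.le
    rw [hΛ2, two_mul, add_mul]
    exact le_self_add
  -- TV
  have hTV : ∑' x, p x * ∑' y, r x y * ms (r y) (V y) ≤ ENNReal.ofReal s + ε := by
    have h1 := (hNI (fun y => ms (r y) (V y)) (fun y => ms_le_one (hr y) _)).1
    refine h1.trans ?_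
    gcongr
    refine le_trans ?_ hcs
    exact ENNReal.tsum_le_tsum fun x => mul_le_mul_right (ms_mono _ (hVB x)) _
  -- TM
  have hTM : ∑' x, p x * ms (rho r x) (M x) ≤ ENNReal.ofReal s + 3 * ε := by
    have h1 : ∀ x, ms (rho r x) (M x) ≤ ms (r x) (B x) + 3 * ε := by
      intro x
      have h2 : M x ⊆ B x ∪ (M x ∩ (B x)ᶜ) := by
        intro t ht
        by_cases hb : t ∈ B x
        · exact Or.inl hb
        · exact Or.inr ⟨ht, hb⟩
      have hcmp : ∀ S : Set Ω, ms (rho r x) S ≤ ms (r x) S + ε := by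
        intro S
        classical
        rw [ms_eq_ev, ms_eq_ev, ev_rho]
        exact (hI.ni x _ (fun y => by by_cases hy : y ∈ S <;> simp [hy])).1
      have h3 : ms (rho r x) (M x ∩ (B x)ᶜ) ≤ 2 * ε := by
        set S := M x ∩ (B x)ᶜ with hS
        have h4 : 2 * ms (r x) S ≤ ms (rho r x) S := by
          unfold ms
          rw [← ENNReal.tsum_mul_left]
          refine ENNReal.tsum_le_tsum fun t => ?_
          by_cases ht : t ∈ S
          · simp only [ht, Set.indicator_of_mem]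
            have h5 : r x t < ENNReal.ofReal Λ * p t := by
              have := ht.2
              simp only [hB, compl_compl, lev, Set.mem_ofPred_eq] at this
              exact this
            have h6 : ENNReal.ofReal (2 * Λ) * p t < rho r x t := ht.1
            calc 2 * r x t ≤ 2 * (ENNReal.ofReal Λ * p t) := mul_le_mul_right h5.le _
              _ = ENNReal.ofReal (2 * Λ) * p t := by rw [hΛ2]; ring
              _ ≤ rho r x t := h6.le
          · simp [ht]
        have h7 := hcmp S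
        have h8 : ms (rho r x) S ≠ ∞ :=
          ((ms_le_one (prb_rho hr x) S).trans_lt ENNReal.one_lt_top).ne
        rw [← ENNReal.add_le_add_iff_left h8]
        calc ms (rho r x) S + ms (rho r x) S ≤ (ms (r x) S + ε) + (ms (r x) S + ε) :=
              add_le_add h7 h7
          _ = 2 * ms (r x) S + 2 * ε := by ring
          _ ≤ ms (rho r x) S + 2 * ε := by gcongr
      calc ms (rho r x) (M x) ≤ ms (rho r x) (B x ∪ (M x ∩ (B x)ᶜ)) := ms_mono _ h2
        _ ≤ ms (rho r x) (B x) + ms (rho r x) (M x ∩ (B x)ᶜ) := ms_union_le _ _ _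
        _ ≤ (ms (r x) (B x) + ε) + 2 * ε := add_le_add (hcmp _) h3
        _ = ms (r x) (B x) + 3 * ε := by ring
    calc ∑' x, p x * ms (rho r x) (M x) ≤ ∑' x, p x * (ms (r x) (B x) + 3 * ε) :=
          ENNReal.tsum_le_tsum fun x => mul_le_mul_right (h1 x) _
      _ = ∑' x, p x * ms (r x) (B x) + 3 * ε := by
          simp_rw [mul_add]
          rw [ENNReal.tsum_add, ENNReal.tsum_mul_right, (show ∑' x, p x = 1 from hp), one_mul]
      _ ≤ ENNReal.ofReal s + 3 * ε := by gcongr
  have hDD := DD_sum hI hp hNI hΛ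
  -- one pair
  have hpair : ∀ x y, tv (r y) (rho r x) ≤ ENNReal.ofReal s
      + ENNReal.ofReal (4 * Λ / s) * DD Λ p (r y) (rho r x) + ms (r y) (V y)
      + ms (rho r x) (M x) := by
    intro x y
    have e1 : ENNReal.ofReal s = ∑' t, ENNReal.ofReal s * p t := by
      rw [ENNReal.tsum_mul_left, (show ∑' x, p x = 1 from hp), mul_one]
    rw [e1]
    unfold tv DD ms
    rw [← ENNReal.tsum_mul_left, ← ENNReal.tsum_add, ← ENNReal.tsum_add, ← ENNReal.tsum_add]
    refine ENNReal.tsum_le_tsum fun t => ?_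
    have h1 := pointwise hs hΛ (ne_top_of_prb (hr y) t) (ne_top_of_prb (prb_rho hr x) t)
      (ne_top_of_prb hp t)
    refine h1.trans (le_of_eq ?_)
    have e2 : (V y).indicator (r y) t
        = if ENNReal.ofReal (2 * Λ) * p t < r y t then r y t else 0 := by
      by_cases h : ENNReal.ofReal (2 * Λ) * p t < r y t
      · rw [if_pos h, Set.indicator_of_mem]; exact h
      · rw [if_neg h, Set.indicator_of_notMem]; exact h
    have e3 : (M x).indicator (rho r x) t
        = if ENNReal.ofReal (2 * Λ) * p t < rho r x t then rho r x t else 0 := by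
      by_cases h : ENNReal.ofReal (2 * Λ) * p t < rho r x t
      · rw [if_pos h, Set.indicator_of_mem]; exact h
      · rw [if_neg h, Set.indicator_of_notMem]; exact h
    rw [e2, e3]
    rfl
  -- one row
  have hrow : ∀ x, spr r x ≤ ENNReal.ofReal s
      + ENNReal.ofReal (4 * Λ / s) * (∑' y, r x y * DD Λ p (r y) (rho r x))
      + (∑' y, r x y * ms (r y) (V y)) + ms (rho r x) (M x) + 2 * ε := by
    intro x
    have h1 : tv (rho r x) (r x) ≤ 2 * ε := by
      unfold tv
      rw [ENNReal.tsum_add, two_mul]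
      refine add_le_add ?_ ?_
      · refine sub_sum_le ?_ ?_
        · rw [(show ∑' t, r x t = 1 from hr x)]; exact ENNReal.one_ne_top
        · intro f hf
          rw [ev_rho]
          exact (hI.ni x f hf).1
      · refine sub_sum_le ?_ ?_
        · rw [(show ∑' t, rho r x t = 1 from prb_rho hr x)]; exact ENNReal.one_ne_top
        · intro f hf
          rw [ev_rho]
          exact (hI.ni x f hf).2
    unfold spr
    calc ∑' y, r x y * tv (r y) (r x)
        ≤ ∑' y, r x y * ((ENNReal.ofReal s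
            + ENNReal.ofReal (4 * Λ / s) * DD Λ p (r y) (rho r x) + ms (r y) (V y)
            + ms (rho r x) (M x)) + 2 * ε) := by
          refine ENNReal.tsum_le_tsum fun y => mul_le_mul_right ?_ _
          exact (tv_triangle _ (rho r x) _).trans (add_le_add (hpair x y) h1)
      _ = _ := by
          simp_rw [mul_add]
          rw [ENNReal.tsum_add, ENNReal.tsum_add, ENNReal.tsum_add, ENNReal.tsum_add,
            ENNReal.tsum_mul_right, ENNReal.tsum_mul_right, ENNReal.tsum_mul_right,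
            (show ∑' y, r x y = 1 from hr x), one_mul, one_mul, one_mul]
          have e1 : ∑' y, r x y * (ENNReal.ofReal (4 * Λ / s) * DD Λ p (r y) (rho r x))
              = ENNReal.ofReal (4 * Λ / s) * ∑' y, r x y * DD Λ p (r y) (rho r x) := by
            rw [← ENNReal.tsum_mul_left]
            refine tsum_congr fun y => ?_
            ring
          rw [e1]
  have htot : ∑' x, p x * spr r x ≤ ENNReal.ofReal s
      + ENNReal.ofReal (4 * Λ / s) * (2 * ε)
      + (ENNReal.ofReal s + ε) + (ENNReal.ofReal s + 3 * ε) + 2 * ε := by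
    calc ∑' x, p x * spr r x
        ≤ ∑' x, p x * (ENNReal.ofReal s
      + ENNReal.ofReal (4 * Λ / s) * (∑' y, r x y * DD Λ p (r y) (rho r x))
      + (∑' y, r x y * ms (r y) (V y)) + ms (rho r x) (M x) + 2 * ε) :=
          ENNReal.tsum_le_tsum fun x => mul_le_mul_right (hrow x) _
      _ = ENNReal.ofReal s
      + ENNReal.ofReal (4 * Λ / s) * (∑' x, p x * ∑' y, r x y * DD Λ p (r y) (rho r x))
      + (∑' x, p x * ∑' y, r x y * ms (r y) (V y)) + (∑' x, p x * ms (rho r x) (M x)) + 2 * ε := by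
          simp_rw [mul_add]
          rw [ENNReal.tsum_add, ENNReal.tsum_add, ENNReal.tsum_add, ENNReal.tsum_add,
            ENNReal.tsum_mul_right, ENNReal.tsum_mul_right, (show ∑' x, p x = 1 from hp),
            one_mul, one_mul]
          have e1 : ∑' x, p x * (ENNReal.ofReal (4 * Λ / s)
                * ∑' y, r x y * DD Λ p (r y) (rho r x))
              = ENNReal.ofReal (4 * Λ / s) * ∑' x, p x * ∑' y, r x y * DD Λ p (r y) (rho r x) := by
            rw [← ENNReal.tsum_mul_left]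
            refine tsum_congr fun y => ?_
            ring
          rw [e1]
      _ ≤ _ := by gcongr
  refine htot.trans ?_
  have hε0 : 0 ≤ s ^ 2 / (8 * Λ) := by positivity
  have e2 : (2 : ℝ≥0∞) * ε = ENNReal.ofReal (2 * (s ^ 2 / (8 * Λ))) := by
    rw [ENNReal.ofReal_mul (by norm_num), hε]; norm_num
  have e3 : (3 : ℝ≥0∞) * ε = ENNReal.ofReal (3 * (s ^ 2 / (8 * Λ))) := by
    rw [ENNReal.ofReal_mul (by norm_num), hε]; norm_num
  rw [e2, e3, hε, ← ENNReal.ofReal_mul (by positivity), ← ENNReal.ofReal_add (by positivity)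
    (by positivity), ← ENNReal.ofReal_add (by positivity) (by positivity),
    ← ENNReal.ofReal_add (by positivity) (by positivity),
    ← ENNReal.ofReal_add (by positivity) (by positivity),
    ← ENNReal.ofReal_add (by positivity) (by positivity),
    ← ENNReal.ofReal_add (by positivity) (by positivity)]
  refine ENNReal.ofReal_le_ofReal ?_
  have h1 : 4 * Λ / s * (2 * (s ^ 2 / (8 * Λ))) = s := by
    field_simp
    ring
  have h2 : s ^ 2 / (8 * Λ) ≤ s / 8 := by
    rw [div_le_div_iff₀ (by positivity) (by norm_num)]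
    nlinarith
  rw [h1]
  linarith

end Pool.NC
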