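import Mathlib
import Pool.Agent.Work.MP_052a41_nc.Defs

/-! Near-contractive projections on `C(K)`: definitions and statements of the blocks for the measure part
(B) and the topological part (C) (MP_052a41_an). -/

set_option autoImplicit false

open scoped ENNReal
open MeasureTheory

namespace Pool.NC

/-- the functionals `F ↦ P F s` and `F ↦ P F t` have distance at most `a` -/
def Near {K : Type} [TopologicalSpace K] [CompactSpace K] (P : C(K, ℝ) →L[ℝ] C(K, ℝ)) (a : ℝ)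
    (s t : K) : Prop := ∀ F : C(K, ℝ), ‖F‖ ≤ 1 → |P F s - P F t| ≤ a

/-- the functionals `F ↦ P F s` and `F ↦ - P F t` have distance at most `a` -/
def Anti {K : Type} [TopologicalSpace K] [CompactSpace K] (P : C(K, ℝ) →L[ℝ] C(K, ℝ)) (a : ℝ)
    (s t : K) : Prop := ∀ F : C(K, ℝ), ‖F‖ ≤ 1 → |P F s + P F t| ≤ a

/-- `E` is a set of points whose functionals are (up to sign) concentrated around themselves, and
`E` almost norms the range of `P`. -/
structure Clust {K : Type} [TopologicalSpace K] [CompactSpace K] (P : C(K, ℝ) →L[ℝ] C(K, ℝ))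
    (E : Set K) (α β : ℝ) : Prop where
  norming : ∀ f : C(K, ℝ), P f = f → ∀ M : ℝ, 0 ≤ M → (∀ t ∈ E, |f t| ≤ M) → ‖f‖ ≤ 2 * M
  cl : ∀ t ∈ E, ∀ F : C(K, ℝ), ∀ c : ℝ, ‖F‖ ≤ 1 → |c| ≤ 1 →
    (∀ u ∈ E, Near P α u t → F u = c) → (∀ u ∈ E, Anti P α u t → F u = -c) → |P F t - c| ≤ β
  big : ∀ t ∈ E, ∃ F : C(K, ℝ), ‖F‖ ≤ 1 ∧ 1 - β ≤ P F t

/-- a closed equivalence relation `N` with a closed opposite relation `A` -/
structure SymRel {T : Type} [TopologicalSpace T] (N A : T → T → Prop) : Prop where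
  nref : ∀ t, N t t
  nsymm : ∀ s t, N s t → N t s
  asymm : ∀ s t, A s t → A t s
  nn : ∀ s t u, N s t → N t u → N s u
  na : ∀ s t u, N s t → A t u → A s u
  aa : ∀ s t u, A s t → A t u → N s u
  nclosed : IsClosed {p : T × T | N p.1 p.2}
  aclosed : IsClosed {p : T × T | A p.1 p.2}

/-- the continuous functions with `g s = g t` if `N s t`, and `g s = - g t` if `A s t` -/
def WNA {T : Type} [TopologicalSpace T] (N A : T → T → Prop) : Submodule ℝ C(T, ℝ) where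
  carrier := {g | (∀ s t, N s t → g s = g t) ∧ (∀ s t, A s t → g s = - g t)}
  add_mem' := by
    rintro f g ⟨hf, hf'⟩ ⟨hg, hg'⟩
    refine ⟨fun s t h => ?_, fun s t h => ?_⟩
    · simp [hf s t h, hg s t h]
    · simp [hf' s t h, hg' s t h]; ring
  zero_mem' := by
    refine ⟨fun s t h => ?_, fun s t h => ?_⟩ <;> simp
  smul_mem' := by
    rintro c f ⟨hf, hf'⟩
    refine ⟨fun s t h => ?_, fun s t h => ?_⟩
    · simp [hf s t h]
    · simp [hf' s t h]

/-- the relation `Near` at distance `1/2` on a subset -/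
def NR {K : Type} [TopologicalSpace K] [CompactSpace K] (P : C(K, ℝ) →L[ℝ] C(K, ℝ)) (T : Set K)
    (s t : T) : Prop := Near P (1 / 2) (s : K) (t : K)

/-- the relation `Anti` at distance `1/2` on a subset -/
def AR {K : Type} [TopologicalSpace K] [CompactSpace K] (P : C(K, ℝ) →L[ℝ] C(K, ℝ)) (T : Set K)
    (s t : T) : Prop := Anti P (1 / 2) (s : K) (t : K)

/-- the range of `P` -/
abbrev Rg {K : Type} [TopologicalSpace K] [CompactSpace K] (P : C(K, ℝ) →L[ℝ] C(K, ℝ)) :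
    Submodule ℝ C(K, ℝ) := LinearMap.range (P : C(K, ℝ) →ₗ[ℝ] C(K, ℝ))

/-! ### measure part -/

/-- B0: Riesz representation of a bounded functional by a difference of two finite measures of total
mass equal to the norm. -/
def St_B0 : Prop := ∀ (K : Type) [MetricSpace K] [CompactSpace K] [MeasurableSpace K] [BorelSpace K]
    (μ : C(K, ℝ) →L[ℝ] ℝ), ∃ mp mm : Measure K, IsFiniteMeasure mp ∧ IsFiniteMeasure mm ∧
    (mp Set.univ).toReal + (mm Set.univ).toReal = ‖μ‖ ∧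
    ∀ f : C(K, ℝ), μ f = (∫ t, f t ∂mp) - ∫ t, f t ∂mm

/-- B1: the functionals seen through a countable Borel partition. -/
def St_B1 : Prop := ∀ (K : Type) [MetricSpace K] [CompactSpace K] [MeasurableSpace K] [BorelSpace K]
    (A : ℕ → Set K), (∀ k, MeasurableSet (A k)) → Pairwise (Function.onFun Disjoint A) →
    (⋃ k, A k) = Set.univ →
    ∃ (D : (C(K, ℝ) →L[ℝ] ℝ) →ₗ[ℝ] (ℕ → ℝ)) (V : (C(K, ℝ) →L[ℝ] ℝ) → ℕ → ℝ),
      (∀ μ k, |D μ k| ≤ V μ k) ∧ (∀ μ, HasSum (V μ) ‖μ‖) ∧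
      ∀ (μ : C(K, ℝ) →L[ℝ] ℝ) (f : C(K, ℝ)) (c : ℕ → ℝ) (ω : ℝ) (G : Set ℕ), 0 ≤ ω →
        (∀ k ∈ G, ∀ t ∈ A k, |f t - c k| ≤ ω) →
        |μ f - ∑' k, G.indicator (fun k => c k * D μ k) k| ≤
          ω * (∑' k, G.indicator (V μ) k) + ‖f‖ * ∑' k, Gᶜ.indicator (V μ) k

/-- B2: countable Borel partition into pieces of small diameter in the dual norm. -/
def St_B2 : Prop := ∀ (K : Type) [MetricSpace K] [CompactSpace K] [MeasurableSpace K] [BorelSpace K]
    (P : C(K, ℝ) →L[ℝ] C(K, ℝ)) (τ : ℝ), Nonempty K → 0 < τ → P ∘L P = P →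
    TopologicalSpace.SeparableSpace (StrongDual ℝ (Rg P)) →
    ∃ (s : ℕ → K) (A : ℕ → Set K), (∀ k, MeasurableSet (A k)) ∧
      Pairwise (Function.onFun Disjoint A) ∧ (⋃ k, A k) = Set.univ ∧
      ∀ k, ∀ t ∈ A k, Near P τ t (s k)

/-- B3: clusters of a projection of norm close to one with separable dual. -/
def St_B3 : Prop := ∃ η : ℝ, 0 < η ∧ ∀ (K : Type) [MetricSpace K] [CompactSpace K]
    (P : C(K, ℝ) →L[ℝ] C(K, ℝ)), P ∘L P = P → ‖P‖ ≤ 1 + η →
    TopologicalSpace.SeparableSpace (StrongDual ℝ (Rg P)) →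
    ∃ E : Set K, Clust P E (1 / 200) (1 / 200)

/-! ### topological part -/

/-- C1: passage to the closure. -/
def St_C1 : Prop := ∀ (K : Type) [MetricSpace K] [CompactSpace K] (P : C(K, ℝ) →L[ℝ] C(K, ℝ))
    (E : Set K) (α β : ℝ), 0 ≤ β → Clust P E α β → ∀ t ∈ closure E, ∀ F : C(K, ℝ), ‖F‖ ≤ 1 →
    (∀ u, Near P α u t → F u = 0) → (∀ u, Anti P α u t → F u = 0) → |P F t| ≤ β

/-- C2: the functionals on the closure are small or almost of norm one. -/
def St_C2 : Prop := ∀ (K : Type) [MetricSpace K] [CompactSpace K] (P : C(K, ℝ) →L[ℝ] C(K, ℝ))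
    (E : Set K), P ∘L P = P → ‖P‖ ≤ 1 + 1 / 200 → Clust P E (1 / 200) (1 / 200) →
    ∀ t ∈ closure E, (∀ F : C(K, ℝ), ‖F‖ ≤ 1 → |P F t| ≤ 1 / 50) ∨
      ∃ F : C(K, ℝ), ‖F‖ ≤ 1 ∧ 1 - 1 / 50 ≤ P F t

/-- C3: gap for the distances on the closure. -/
def St_C3 : Prop := ∀ (K : Type) [MetricSpace K] [CompactSpace K] (P : C(K, ℝ) →L[ℝ] C(K, ℝ))
    (E : Set K), P ∘L P = P → ‖P‖ ≤ 1 + 1 / 200 → Clust P E (1 / 200) (1 / 200) →
    ∀ s ∈ closure E, ∀ t ∈ closure E, (Near P (1 / 2) s t → Near P (1 / 25) s t) ∧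
      (Anti P (1 / 2) s t → Anti P (1 / 25) s t)

/-- C4 (Dugundji): linear extension of norm one. -/
def St_C4 : Prop := ∀ (K : Type) [MetricSpace K] [CompactSpace K] (T : Set K) [CompactSpace T],
    T.Nonempty → ∃ e : C(T, ℝ) →ₗ[ℝ] C(K, ℝ), (∀ g, ∀ t : T, e g t = g t) ∧ ∀ g, ‖e g‖ ≤ ‖g‖

/-- C6: functions with small oscillation on the classes are close to `WNA`. -/
def St_C6 : Prop := ∀ (T : Type) [TopologicalSpace T] [CompactSpace T] [T2Space T]
    (N A : T → T → Prop), SymRel N A → ∀ (f : C(T, ℝ)) (ω δ : ℝ), 0 ≤ ω → ω < δ →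
    (∀ s t, N s t → |f s - f t| ≤ ω) → (∀ s t, A s t → |f s + f t| ≤ ω) →
    ∃ g ∈ WNA N A, ∀ t, |f t - g t| ≤ δ

/-- C7: the range of `P` is isomorphic to `WNA` on the closure of `E`. -/
def St_C7 : Prop := ∀ (K : Type) [MetricSpace K] [CompactSpace K] (P : C(K, ℝ) →L[ℝ] C(K, ℝ))
    (E : Set K), P ∘L P = P → ‖P‖ ≤ 1 + 1 / 200 → Clust P E (1 / 200) (1 / 200) →
    SymRel (NR P (closure E)) (AR P (closure E)) ∧
    Nonempty (Rg P ≃L[ℝ] WNA (NR P (closure E)) (AR P (closure E)))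

/-- C8: countably many classes. -/
def St_C8 : Prop := ∀ (K : Type) [MetricSpace K] [CompactSpace K] (P : C(K, ℝ) →L[ℝ] C(K, ℝ))
    (T : Set K), T.Nonempty → P ∘L P = P →
    TopologicalSpace.SeparableSpace (StrongDual ℝ (Rg P)) →
    ∀ τ : ℝ, 0 < τ → ∃ u : ℕ → T, ∀ t : T, ∃ n, Near P τ (t : K) (u n : K)

/-- C9: a space of continuous functions with countably many classes of points has no infinite
dimensional reflexive subspace. -/
def St_C9 : Prop := ∀ (T : Type) [TopologicalSpace T] [CompactSpace T] (W Y : Submodule ℝ C(T, ℝ))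
    (u : ℕ → T), (∀ t, (∀ g ∈ W, g t = 0) ∨ ∃ n, ∀ g ∈ W, |g t| = |g (u n)|) → Y ≤ W →
    ¬ FiniteDimensional ℝ Y → ¬ Function.Surjective (NormedSpace.inclusionInDoubleDual ℝ Y)

/-- C10: reflexivity is an isomorphic property. -/
def St_C10 : Prop := ∀ (E F : Type) [NormedAddCommGroup E] [NormedSpace ℝ E]
    [NormedAddCommGroup F] [NormedSpace ℝ F], (E ≃L[ℝ] F) →
    Function.Surjective (NormedSpace.inclusionInDoubleDual ℝ E) →
    Function.Surjective (NormedSpace.inclusionInDoubleDual ℝ F)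

/-- C11: `WNA` with countably many classes is a space `C₀(L)`, `L` countable locally compact. -/
def St_C11 : Prop := ∀ (T : Type) [TopologicalSpace T] [CompactSpace T] [T2Space T]
    (N A : T → T → Prop), SymRel N A → (∃ u : ℕ → T, ∀ t, ∃ n, N t (u n)) →
    ∃ (L : Type) (_ : TopologicalSpace L), LocallyCompactSpace L ∧ T2Space L ∧ Countable L ∧
      Nonempty (WNA N A ≃ₗᵢ[ℝ] ZeroAtInftyContinuousMap L ℝ)

/-- C12: `C₀(L)` with `L` countable is isomorphic to `C(L')` with `L'` countable compact. -/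
def St_C12 : Prop := ∀ (L : Type) [TopologicalSpace L], LocallyCompactSpace L → T2Space L →
    Countable L → ∃ (L' : Type) (_ : TopologicalSpace L') (_ : CompactSpace L'), T2Space L' ∧
      Countable L' ∧ Nonempty (ZeroAtInftyContinuousMap L ℝ ≃L[ℝ] C(L', ℝ))

/-- the final theorem -/
def St_Final : Prop := ∃ c : ℝ, 1 < c ∧ ∀ (K : Type) [MetricSpace K] [CompactSpace K]
    (P : C(K, ℝ) →L[ℝ] C(K, ℝ)), P ∘L P = P → ‖P‖ ≤ c →
    TopologicalSpace.SeparableSpace (StrongDual ℝ (Rg P)) →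
    (∃ (L : Type) (_ : TopologicalSpace L) (_ : CompactSpace L), T2Space L ∧ Countable L ∧
      Nonempty (Rg P ≃L[ℝ] C(L, ℝ))) ∧
    ∀ Y : Submodule ℝ C(K, ℝ), Y ≤ Rg P → ¬ FiniteDimensional ℝ Y →
      ¬ Function.Surjective (NormedSpace.inclusionInDoubleDual ℝ Y)

end Pool.NC
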