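import Mathlib
import Pool.Agent.Work.MP_052a41_nc.DefsBC

/-! Block B0 (MP_052a41_an): Riesz representation by a difference of two finite measures, written by
helper4. -/

set_option autoImplicit false

open scoped ENNReal
open MeasureTheory

namespace Pool.NC

/-- positive functionals on `C(K)` are given by finite measures -/
theorem B0_pos (K : Type) [MetricSpace K] [CompactSpace K] [MeasurableSpace K] [BorelSpace K]
    (Λ : C(K, ℝ) →ₗ[ℝ] ℝ) (hΛ : ∀ f : C(K, ℝ), (∀ t, 0 ≤ f t) → 0 ≤ Λ f) :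
    ∃ m : Measure K, IsFiniteMeasure m ∧ ∀ f : C(K, ℝ), Λ f = ∫ t, f t ∂m := by
  let Λ' : CompactlySupportedContinuousMap K ℝ →ₚ[ℝ] ℝ := PositiveLinearMap.mk₀
    { toFun := fun f => Λ f.toContinuousMap
      map_add' := fun f g => by rw [← map_add]; rfl
      map_smul' := fun c f => by rw [RingHom.id_apply, ← map_smul]; rfl }
    (fun f hf => hΛ _ fun t => hf t)
  refine ⟨RealRMK.rieszMeasure Λ', inferInstance, fun f => ?_⟩
  have := RealRMK.integral_rieszMeasure Λ' (CompactlySupportedContinuousMap.continuousMapEquiv f)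
  exact this.symm

theorem B0 : St_B0 := by
  intro K _ _ _ _ μ
  rcases isEmpty_or_nonempty K with hK | hK
  · have hμ : μ = 0 := by
      ext f
      have : f = 0 := by ext t; exact hK.elim t
      rw [this]; simp
    refine ⟨0, 0, inferInstance, inferInstance, ?_, fun f => ?_⟩
    · simp [hμ]
    · simp [hμ]
  · obtain ⟨k0⟩ := hK
    have hμ0 : 0 ≤ ‖μ‖ := ContinuousLinearMap.opNorm_nonneg μ
    let ι : (C(K, ℝ) × ℝ) →ₗ[ℝ] (C(K, ℝ) × C(K, ℝ)) :=
      { toFun := fun x => (x.1 + x.2 • (1 : C(K, ℝ)), - x.1 + x.2 • (1 : C(K, ℝ)))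
        map_add' := fun x y => by
          ext t <;> simp <;> ring
        map_smul' := fun c x => by
          ext t <;> simp }
    let Φ0 : (C(K, ℝ) × C(K, ℝ)) →ₗ[ℝ] ℝ :=
      { toFun := fun x => μ ((1 / 2 : ℝ) • (x.1 - x.2)) + ‖μ‖ * ((x.1 k0 + x.2 k0) / 2)
        map_add' := fun x y => by
          have : (1 / 2 : ℝ) • ((x + y).1 - (x + y).2) =
            (1 / 2 : ℝ) • (x.1 - x.2) + (1 / 2 : ℝ) • (y.1 - y.2) := by
            ext t; simp; ring
          rw [this, map_add]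
          simp
          ring
        map_smul' := fun c x => by
          have : (1 / 2 : ℝ) • ((c • x).1 - (c • x).2) =
            c • ((1 / 2 : ℝ) • (x.1 - x.2)) := by
            ext t; simp; ring
          rw [this, map_smul]
          simp
          ring }
    have hΦι : ∀ x : C(K, ℝ) × ℝ, Φ0 (ι x) = μ x.1 + ‖μ‖ * x.2 := by
      intro x
      change μ ((1 / 2 : ℝ) • ((x.1 + x.2 • (1 : C(K, ℝ))) - (- x.1 + x.2 • (1 : C(K, ℝ))))) +
        ‖μ‖ * (((x.1 + x.2 • (1 : C(K, ℝ))) k0 + (- x.1 + x.2 • (1 : C(K, ℝ))) k0) / 2) = _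
      have h1 : (1 / 2 : ℝ) • ((x.1 + x.2 • (1 : C(K, ℝ))) - (- x.1 + x.2 • (1 : C(K, ℝ)))) =
          x.1 := by
        ext t; simp; ring
      rw [h1]
      congr 2
      simp
      ring
    have hnorm : ∀ x : C(K, ℝ) × ℝ, ‖x.1‖ + |x.2| ≤ ‖ι x‖ := by
      intro x
      have hpt : ∀ t : K, |x.1 t| + |x.2| ≤ ‖ι x‖ := by
        intro t
        have h1 : |x.1 t + x.2| ≤ ‖ι x‖ := by
          have h2 := (x.1 + x.2 • (1 : C(K, ℝ))).norm_coe_le_norm t
          have h3 : ‖x.1 + x.2 • (1 : C(K, ℝ))‖ ≤ ‖ι x‖ := norm_fst_le (ι x)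
          have h4 : (x.1 + x.2 • (1 : C(K, ℝ))) t = x.1 t + x.2 := by simp
          rw [h4, Real.norm_eq_abs] at h2
          exact h2.trans h3
        have h1' : |- x.1 t + x.2| ≤ ‖ι x‖ := by
          have h2 := (- x.1 + x.2 • (1 : C(K, ℝ))).norm_coe_le_norm t
          have h3 : ‖- x.1 + x.2 • (1 : C(K, ℝ))‖ ≤ ‖ι x‖ := norm_snd_le (ι x)
          have h4 : (- x.1 + x.2 • (1 : C(K, ℝ))) t = - x.1 t + x.2 := by simp
          rw [h4, Real.norm_eq_abs] at h2
          exact h2.trans h3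
        rcases abs_cases (x.1 t) with ⟨ha, _⟩ | ⟨ha, _⟩ <;>
        rcases abs_cases (x.2) with ⟨hb, _⟩ | ⟨hb, _⟩ <;>
        rcases abs_le.mp h1 with ⟨c1, c2⟩ <;>
        rcases abs_le.mp h1' with ⟨d1, d2⟩ <;>
        rw [ha, hb] <;> linarith
      have h0 : 0 ≤ ‖ι x‖ - |x.2| := by
        have := hpt k0
        have h2 := abs_nonneg (x.1 k0)
        linarith
      have : ‖x.1‖ ≤ ‖ι x‖ - |x.2| := by
        rw [ContinuousMap.norm_le _ h0]
        intro t
        rw [Real.norm_eq_abs]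
        have := hpt t
        linarith
      linarith
    let S : Subspace ℝ (C(K, ℝ) × C(K, ℝ)) := LinearMap.range ι
    have hbd : ∀ x : S, ‖Φ0.domRestrict S x‖ ≤ ‖μ‖ * ‖x‖ := by
      rintro ⟨x, y, rfl⟩
      change ‖Φ0 (ι y)‖ ≤ ‖μ‖ * ‖ι y‖
      rw [hΦι, Real.norm_eq_abs]
      calc |μ y.1 + ‖μ‖ * y.2| ≤ |μ y.1| + |‖μ‖ * y.2| := abs_add_le _ _
        _ ≤ ‖μ‖ * ‖y.1‖ + ‖μ‖ * |y.2| := by
          rw [abs_mul, abs_of_nonneg hμ0]
          have := μ.le_opNorm y.1
          rw [Real.norm_eq_abs] at this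
          linarith
        _ = ‖μ‖ * (‖y.1‖ + |y.2|) := by ring
        _ ≤ ‖μ‖ * ‖ι y‖ := mul_le_mul_of_nonneg_left (hnorm y) hμ0
    obtain ⟨Φ, hΦ, hΦn⟩ := exists_extension_norm_eq S
      ((Φ0.domRestrict S).mkContinuous ‖μ‖ hbd)
    have hΦn' : ‖Φ‖ ≤ ‖μ‖ := by
      rw [hΦn]
      exact LinearMap.mkContinuous_norm_le _ hμ0 hbd
    have hΦι' : ∀ x : C(K, ℝ) × ℝ, Φ (ι x) = μ x.1 + ‖μ‖ * x.2 := by
      intro x
      have := hΦ ⟨ι x, ⟨x, rfl⟩⟩
      rw [← hΦι x]
      exact this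
    have hone : Φ ((1 : C(K, ℝ)), (1 : C(K, ℝ))) = ‖μ‖ := by
      have h1 := hΦι' (0, 1)
      have h2 : ι (0, 1) = ((1 : C(K, ℝ)), (1 : C(K, ℝ))) := by
        ext t <;> simp [ι]
      rw [h2] at h1
      rw [h1]; simp
    have hpos : ∀ g h : C(K, ℝ), (∀ t, 0 ≤ g t) → (∀ t, 0 ≤ h t) → 0 ≤ Φ (g, h) := by
      intro g h hg hh
      let N : ℝ := ‖(g, h)‖
      have hN : 0 ≤ N := norm_nonneg _
      have hle : ‖((N • (1 : C(K, ℝ)) - g, N • (1 : C(K, ℝ)) - h) : C(K, ℝ) × C(K, ℝ))‖ ≤ N := by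
        rw [Prod.norm_def]
        refine max_le ?_ ?_
        · rw [ContinuousMap.norm_le _ hN]
          intro t
          have h1 : (N • (1 : C(K, ℝ)) - g) t = N - g t := by simp
          change ‖(N • (1 : C(K, ℝ)) - g) t‖ ≤ N
          rw [h1, Real.norm_eq_abs, abs_le]
          have h2 : |g t| ≤ N := (g.norm_coe_le_norm t).trans (norm_fst_le (g, h))
          have h3 := hg t
          have h4 := le_abs_self (g t)
          constructor <;> linarith
        · rw [ContinuousMap.norm_le _ hN]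
          intro t
          have h1 : (N • (1 : C(K, ℝ)) - h) t = N - h t := by simp
          change ‖(N • (1 : C(K, ℝ)) - h) t‖ ≤ N
          rw [h1, Real.norm_eq_abs, abs_le]
          have h2 : |h t| ≤ N := (h.norm_coe_le_norm t).trans (norm_snd_le (g, h))
          have h3 := hh t
          have h4 := le_abs_self (h t)
          constructor <;> linarith
      have heq : ((N • (1 : C(K, ℝ)) - g, N • (1 : C(K, ℝ)) - h) : C(K, ℝ) × C(K, ℝ)) =
          N • ((1 : C(K, ℝ)), (1 : C(K, ℝ))) - (g, h) := rfl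
      have h5 := Φ.le_opNorm (N • (1 : C(K, ℝ)) - g, N • (1 : C(K, ℝ)) - h)
      rw [heq, map_sub, map_smul, hone, Real.norm_eq_abs, smul_eq_mul] at h5
      have h6 := le_abs_self (N * ‖μ‖ - Φ (g, h))
      rw [← heq] at h5
      have h7 : ‖Φ‖ * ‖((N • (1 : C(K, ℝ)) - g, N • (1 : C(K, ℝ)) - h) : C(K, ℝ) × C(K, ℝ))‖
          ≤ ‖μ‖ * N := mul_le_mul hΦn' hle (norm_nonneg _) hμ0
      linarith
    obtain ⟨mp, hmp, hmp'⟩ := B0_pos K
      { toFun := fun g => Φ (g, 0)
        map_add' := fun g h => by rw [← map_add]; simp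
        map_smul' := fun c g => by rw [RingHom.id_apply, ← map_smul]; simp }
      (fun g hg => hpos g 0 hg fun t => le_refl _)
    obtain ⟨mm, hmm, hmm'⟩ := B0_pos K
      { toFun := fun g => Φ (0, g)
        map_add' := fun g h => by rw [← map_add]; simp
        map_smul' := fun c g => by rw [RingHom.id_apply, ← map_smul]; simp }
      (fun g hg => hpos 0 g (fun t => le_refl _) hg)
    have hp1 : ∀ f : C(K, ℝ), Φ (f, 0) = ∫ t, f t ∂mp := hmp'
    have hm1 : ∀ f : C(K, ℝ), Φ (0, f) = ∫ t, f t ∂mm := hmm'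
    refine ⟨mp, mm, hmp, hmm, ?_, fun f => ?_⟩
    · have h1 := hp1 1
      have h2 := hm1 1
      simp only [ContinuousMap.one_apply, integral_const, smul_eq_mul, mul_one] at h1 h2
      have h3 : Φ ((1 : C(K, ℝ)), (1 : C(K, ℝ))) = Φ (1, 0) + Φ (0, 1) := by
        rw [← map_add]; simp
      rw [hone, h1, h2] at h3
      exact h3.symm
    · have h1 := hΦι' (f, 0)
      have h2 : ι (f, 0) = (f, 0) - (0, f) := by
        ext t <;> simp [ι]
      rw [h2, map_sub, hp1, hm1] at h1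
      rw [h1]; simp

end Pool.NC
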