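import Pool.Agent.Work.MP_052a41_nc.DefsBC

/-! Block B1 (helper68). -/

set_option autoImplicit false
set_option linter.unusedSectionVars false
set_option linter.deprecated false

open scoped ENNReal NNReal BoundedContinuousFunction
open MeasureTheory

namespace Pool.NC

section

variable {K : Type} [MetricSpace K] [CompactSpace K] [MeasurableSpace K] [BorelSpace K]

theorem B1_int (f : C(K, ℝ)) (m : Measure K) [IsFiniteMeasure m] : Integrable (fun t => f t) m := by
  have := (BoundedContinuousFunction.mkOfCompact f).integrable m
  exact this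

theorem B1_key (p m p' m' : Measure K) [IsFiniteMeasure p] [IsFiniteMeasure m]
    [IsFiniteMeasure p'] [IsFiniteMeasure m']
    (h : ∀ f : C(K, ℝ), (∫ t, f t ∂p) - ∫ t, f t ∂m = (∫ t, f t ∂p') - ∫ t, f t ∂m') (S : Set K) :
    p.real S - m.real S = p'.real S - m'.real S := by
  have e : p + m' = p' + m := by
    apply ext_of_forall_integral_eq_of_IsFiniteMeasure
    intro f
    have h1 := h f.toContinuousMap
    have e1 : ∀ q : Measure K, ∫ t, f.toContinuousMap t ∂q = ∫ t, f t ∂q := fun q => rfl
    rw [e1, e1, e1, e1] at h1
    have i1 : ∀ q : Measure K, IsFiniteMeasure q → Integrable (fun t => f t) q :=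
      fun q hq => f.integrable q
    rw [integral_add_measure (i1 _ inferInstance) (i1 _ inferInstance),
      integral_add_measure (i1 _ inferInstance) (i1 _ inferInstance)]
    linarith
  have h2 : (p + m').real S = (p' + m).real S := by rw [e]
  rw [measureReal_add_apply, measureReal_add_apply] at h2
  linarith

end

theorem B1 (h0 : St_B0) : St_B1 := by
  intro K _ _ _ _ A hA hdis hun
  choose p m hp hm htot hrep using h0 K
  have hadd : ∀ (μ ν : C(K, ℝ) →L[ℝ] ℝ) (S : Set K), (p (μ + ν)).real S - (m (μ + ν)).real S =
      ((p μ).real S - (m μ).real S) + ((p ν).real S - (m ν).real S) := by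
    intro μ ν S
    have := hp μ; have := hp ν; have := hm μ; have := hm ν
    have := hp (μ + ν); have := hm (μ + ν)
    have := B1_key (p (μ + ν)) (m (μ + ν)) (p μ + p ν) (m μ + m ν) (by
      intro f
      rw [← hrep, integral_add_measure (B1_int f _) (B1_int f _),
        integral_add_measure (B1_int f _) (B1_int f _)]
      simp only [ContinuousLinearMap.add_apply]
      rw [hrep μ, hrep ν]
      ring) S
    rw [this, measureReal_add_apply, measureReal_add_apply]
    ring
  have hsmul : ∀ (c : ℝ) (μ : C(K, ℝ) →L[ℝ] ℝ) (S : Set K),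
      (p (c • μ)).real S - (m (c • μ)).real S = c * ((p μ).real S - (m μ).real S) := by
    intro c μ S
    have := hp μ; have := hm μ
    have := hp (c • μ); have := hm (c • μ)
    rcases le_total 0 c with hc | hc
    · have := B1_key (p (c • μ)) (m (c • μ)) (c.toNNReal • p μ) (c.toNNReal • m μ) (by
        intro f
        rw [← hrep, integral_smul_nnreal_measure, integral_smul_nnreal_measure]
        simp only [ContinuousLinearMap.smul_apply, smul_eq_mul, NNReal.smul_def,
          Real.coe_toNNReal _ hc]
        rw [hrep μ]
        ring) S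
      rw [this, measureReal_nnreal_smul_apply, measureReal_nnreal_smul_apply,
        Real.coe_toNNReal _ hc]
      ring
    · have hc' : 0 ≤ -c := by linarith
      have := B1_key (p (c • μ)) (m (c • μ)) ((-c).toNNReal • m μ) ((-c).toNNReal • p μ) (by
        intro f
        rw [← hrep, integral_smul_nnreal_measure, integral_smul_nnreal_measure]
        simp only [ContinuousLinearMap.smul_apply, smul_eq_mul, NNReal.smul_def,
          Real.coe_toNNReal _ hc']
        rw [hrep μ]
        ring) S
      rw [this, measureReal_nnreal_smul_apply, measureReal_nnreal_smul_apply,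
        Real.coe_toNNReal _ hc']
      ring
  let D : (C(K, ℝ) →L[ℝ] ℝ) →ₗ[ℝ] (ℕ → ℝ) :=
    { toFun := fun μ k => (p μ).real (A k) - (m μ).real (A k)
      map_add' := fun μ ν => by ext k; exact hadd μ ν (A k)
      map_smul' := fun c μ => by ext k; exact hsmul c μ (A k) }
  have hD : ∀ μ k, D μ k = (p μ).real (A k) - (m μ).real (A k) := fun μ k => rfl
  refine ⟨D, fun μ k => (p μ).real (A k) + (m μ).real (A k), ?_, ?_, ?_⟩
  · intro μ k
    rw [hD, abs_le]
    have h1 : 0 ≤ (p μ).real (A k) := measureReal_nonneg
    have h2 : 0 ≤ (m μ).real (A k) := measureReal_nonneg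
    constructor <;> linarith
  · intro μ
    have := hp μ; have := hm μ
    rw [← htot μ]
    have h1 : ∀ q : Measure K, IsFiniteMeasure q → HasSum (fun k => q.real (A k))
        (q Set.univ).toReal := by
      intro q hq
      have hne : ∑' k, q (A k) ≠ ∞ := by
        rw [← measure_iUnion hdis hA]
        exact measure_ne_top q _
      rw [← hun, measure_iUnion hdis hA, ENNReal.tsum_toReal_eq (fun k => measure_ne_top q _)]
      exact ENNReal.hasSum_toReal hne
    exact (h1 _ (hp μ)).add (h1 _ (hm μ))
  · intro μ f c ω G hω hG
    have := hp μ; have := hm μ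
    set V : ℕ → ℝ := fun k => (p μ).real (A k) + (m μ).real (A k) with hV
    have hV0 : ∀ k, 0 ≤ V k := fun k => add_nonneg measureReal_nonneg measureReal_nonneg
    have hsp : ∀ q : Measure K, IsFiniteMeasure q →
        HasSum (fun k => ∫ t in A k, f t ∂q) (∫ t, f t ∂q) := by
      intro q hq
      have := hasSum_integral_iUnion (μ := q) (f := fun t => f t) hA hdis
        ((B1_int f q).integrableOn)
      rwa [hun, Measure.restrict_univ] at this
    have hVs : Summable V := by
      have h1 : ∀ q : Measure K, IsFiniteMeasure q → Summable (fun k => q.real (A k)) := by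
        intro q hq
        exact ENNReal.summable_toReal (by
          rw [← measure_iUnion hdis hA]
          exact measure_ne_top q _)
      exact (h1 _ (hp μ)).add (h1 _ (hm μ))
    set a : ℕ → ℝ := fun k => (∫ t in A k, f t ∂(p μ)) - ∫ t in A k, f t ∂(m μ) with ha
    have hsa : HasSum a (μ f) := by
      rw [hrep μ f]
      exact (hsp _ (hp μ)).sub (hsp _ (hm μ))
    set b : ℕ → ℝ := G.indicator (fun k => c k * D μ k) with hb
    have hbd : ∀ (q : Measure K), IsFiniteMeasure q → ∀ (k : ℕ) (e C : ℝ),
        (∀ t ∈ A k, |f t - e| ≤ C) →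
        |(∫ t in A k, f t ∂q) - e * q.real (A k)| ≤ C * q.real (A k) := by
      intro q hq k e C hC
      have h1 : (∫ t in A k, f t ∂q) - e * q.real (A k) = ∫ t in A k, (f t - e) ∂q := by
        rw [integral_sub ((B1_int f q).integrableOn) (integrable_const e)]
        simp [mul_comm]
      rw [h1]
      exact norm_setIntegral_le_of_norm_le_const (f := fun t => f t - e) (measure_lt_top q _) hC
    have hfn : ∀ t, |f t| ≤ ‖f‖ := fun t => f.norm_coe_le_norm t
    have hab : ∀ k, |a k - b k| ≤ ω * G.indicator V k + ‖f‖ * Gᶜ.indicator V k := by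
      intro k
      by_cases hk : k ∈ G
      · have h1 := hbd _ (hp μ) k (c k) ω (hG k hk)
        have h2 := hbd _ (hm μ) k (c k) ω (hG k hk)
        have e1 : G.indicator V k = V k := Set.indicator_of_mem hk _
        have e2 : Gᶜ.indicator V k = 0 := Set.indicator_of_notMem (by simpa using hk) _
        have e3 : b k = c k * D μ k := Set.indicator_of_mem hk _
        rw [e1, e2, e3, hD, mul_zero, add_zero]
        simp only [ha, hV]
        rw [abs_le] at h1 h2 ⊢
        constructor <;> linarith [h1.1, h1.2, h2.1, h2.2]
      · have h1 := hbd _ (hp μ) k 0 ‖f‖ (fun t _ => by rw [sub_zero]; exact hfn t)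
        have h2 := hbd _ (hm μ) k 0 ‖f‖ (fun t _ => by rw [sub_zero]; exact hfn t)
        have e1 : G.indicator V k = 0 := Set.indicator_of_notMem hk _
        have e2 : Gᶜ.indicator V k = V k := Set.indicator_of_mem (by simpa using hk) _
        have e3 : b k = 0 := Set.indicator_of_notMem hk _
        rw [e1, e2, e3, mul_zero, zero_add, sub_zero]
        simp only [ha, hV]
        rw [abs_le] at h1 h2 ⊢
        constructor <;> linarith [h1.1, h1.2, h2.1, h2.2]
    have hs1 : Summable (fun k => ω * G.indicator V k) := (hVs.indicator G).mul_left _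
    have hs2 : Summable (fun k => ‖f‖ * Gᶜ.indicator V k) := (hVs.indicator Gᶜ).mul_left _
    have hs3 := hs1.add hs2
    have hs4 : Summable (fun k => |a k - b k|) :=
      Summable.of_nonneg_of_le (fun k => abs_nonneg _) hab hs3
    have hs5 : Summable (fun k => a k - b k) := hs4.of_abs
    have hs6 : Summable b := by
      have := hsa.summable.sub hs5
      simpa using this
    have e1 : μ f - ∑' k, b k = ∑' k, (a k - b k) := by
      rw [← hsa.tsum_eq, hsa.summable.tsum_sub hs6]
    rw [e1]
    calc |∑' k, (a k - b k)| ≤ ∑' k, |a k - b k| := by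
          have := norm_tsum_le_tsum_norm (f := fun k => a k - b k) (by simpa using hs4)
          simpa using this
      _ ≤ ∑' k, (ω * G.indicator V k + ‖f‖ * Gᶜ.indicator V k) := hs4.tsum_le_tsum hab hs3
      _ = _ := by rw [hs1.tsum_add hs2, tsum_mul_left, tsum_mul_left]

end Pool.NC
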