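import Mathlib
import Pool.Agent.Work.MP_052a41_nc.DefsBC

/-! Block B2 (MP_052a41_an): countable Borel partition into pieces of small diameter in the dual
norm, written by helper4. -/

set_option autoImplicit false

open scoped ENNReal
open MeasureTheory

namespace Pool.NC

theorem B2_gen {E : Type} [NormedAddCommGroup E] [NormedSpace ℝ E]
    (hsep : TopologicalSpace.SeparableSpace (StrongDual ℝ E)) {T : Type} [Nonempty T]
    (l : T → StrongDual ℝ E) {τ : ℝ} (hτ : 0 < τ) :
    ∃ u : ℕ → T, ∀ t, ∃ n, ∀ g : E, |l t g - l (u n) g| ≤ τ * ‖g‖ := by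
  have := hsep
  have : SecondCountableTopology (StrongDual ℝ E) :=
    UniformSpace.secondCountable_of_separable _
  have : Nonempty (Set.range l) := (Set.range_nonempty l).to_subtype
  let D := TopologicalSpace.denseSeq (Set.range l)
  have hD : DenseRange D := TopologicalSpace.denseRange_denseSeq _
  choose u hu using fun k => (D k).2
  refine ⟨u, fun t => ?_⟩
  obtain ⟨n, hn⟩ := hD.exists_dist_lt (⟨l t, ⟨t, rfl⟩⟩ : Set.range l) hτ
  refine ⟨n, fun g => ?_⟩
  have h1 : dist (l t) (D n : StrongDual ℝ E) < τ := hn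
  rw [← hu n, dist_eq_norm] at h1
  have h2 := (l t - l (u n)).le_opNorm g
  rw [Real.norm_eq_abs] at h2
  exact h2.trans (mul_le_mul_of_nonneg_right h1.le (norm_nonneg _))

/-- countably many evaluations are dense among the evaluations at points of `T`, on the range of
a bounded operator whose range has separable dual -/
theorem B2_cover {K : Type} [TopologicalSpace K] [CompactSpace K]
    (P : C(K, ℝ) →L[ℝ] C(K, ℝ)) (T : Set K) (hT : T.Nonempty)
    (hsep : TopologicalSpace.SeparableSpace (StrongDual ℝ (Rg P))) {τ : ℝ} (hτ : 0 < τ) :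
    ∃ u : ℕ → T, ∀ t : T, ∃ n, Near P τ (t : K) (u n : K) := by
  have : Nonempty T := hT.to_subtype
  have hP0 : 0 ≤ ‖P‖ := ContinuousLinearMap.opNorm_nonneg P
  obtain ⟨u, hu⟩ := @B2_gen (Rg P) _ _ hsep T _
    (fun t => LinearMap.mkContinuous
      { toFun := fun g => (g : C(K, ℝ)) t
        map_add' := fun f g => rfl
        map_smul' := fun c f => rfl } 1
      (fun g => by rw [one_mul]; exact (g : C(K, ℝ)).norm_coe_le_norm t))
    (τ / (‖P‖ + 1)) (by positivity)
  refine ⟨u, fun t => ?_⟩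
  obtain ⟨n, hn⟩ := hu t
  refine ⟨n, fun F hF => ?_⟩
  have hP : ‖P F‖ ≤ ‖P‖ + 1 := by
    calc ‖P F‖ ≤ ‖P‖ * ‖F‖ := P.le_opNorm F
      _ ≤ ‖P‖ * 1 := mul_le_mul_of_nonneg_left hF hP0
      _ ≤ ‖P‖ + 1 := by linarith
  have h1 : |P F t - P F (u n)| ≤ τ / (‖P‖ + 1) * ‖P F‖ := hn ⟨P F, ⟨F, rfl⟩⟩
  calc |P F t - P F (u n)| ≤ _ := h1
    _ ≤ τ / (‖P‖ + 1) * (‖P‖ + 1) := mul_le_mul_of_nonneg_left hP (by positivity)
    _ = τ := by field_simp

theorem B2 : St_B2 := by
  intro K _ _ _ _ P τ hK hτ _ hsep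
  obtain ⟨u, hu⟩ := B2_cover P Set.univ Set.univ_nonempty hsep hτ
  let s : ℕ → K := fun k => (u k : K)
  let B : ℕ → Set K := fun k => {t | Near P τ t (s k)}
  have hBc : ∀ k, IsClosed (B k) := by
    intro k
    have : B k = ⋂ (F : C(K, ℝ)) (_ : ‖F‖ ≤ 1), {t | |P F t - P F (s k)| ≤ τ} := by
      ext t
      simp only [B, Near, Set.mem_iInter, Set.mem_ofPred_eq]
    rw [this]
    refine isClosed_iInter fun F => isClosed_iInter fun _ => ?_
    exact isClosed_le (((P F).continuous.sub continuous_const).abs) continuous_const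
  refine ⟨s, disjointed B, fun k => ?_, disjoint_disjointed B, ?_, fun k t ht => ?_⟩
  · exact MeasurableSet.disjointed (fun i => (hBc i).measurableSet) k
  · rw [iUnion_disjointed]
    refine Set.eq_univ_of_forall fun t => ?_
    obtain ⟨n, hn⟩ := hu ⟨t, Set.mem_univ t⟩
    exact Set.mem_iUnion.mpr ⟨n, hn⟩
  · exact disjointed_subset B k ht

end Pool.NC
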