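import Pool.Agent.Work.MP_052a41_nc.DefsBC

/-!
# Near-contractive projections on `C(K)` (MP_052a41_an), block B3: clusters of a projection of norm
close to one with separable dual
-/

set_option autoImplicit false
set_option linter.unusedSectionVars false

open scoped ENNReal
open MeasureTheory

namespace Pool.NC

namespace B3_

variable {K : Type} [MetricSpace K] [CompactSpace K]

/-- the functional `F ↦ P F t` -/
noncomputable def evp (P : C(K, ℝ) →L[ℝ] C(K, ℝ)) (t : K) : C(K, ℝ) →L[ℝ] ℝ :=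
  (ContinuousMap.evalCLM ℝ t).comp P

theorem evp_apply (P : C(K, ℝ) →L[ℝ] C(K, ℝ)) (t : K) (F : C(K, ℝ)) : evp P t F = P F t := rfl

theorem abs_le_norm (F : C(K, ℝ)) (t : K) : |F t| ≤ ‖F‖ := by
  have := F.norm_coe_le_norm t
  rwa [Real.norm_eq_abs] at this

theorem evp_norm {P : C(K, ℝ) →L[ℝ] C(K, ℝ)} {N : ℝ} (hN : ‖P‖ ≤ N) (t : K) :
    ‖evp P t‖ ≤ N := by
  refine ContinuousLinearMap.opNorm_le_bound _ ((norm_nonneg P).trans hN) fun F => ?_
  rw [evp_apply, Real.norm_eq_abs]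
  exact (abs_le_norm _ _).trans ((P.le_opNorm F).trans (by gcongr))

theorem evp_inv {P : C(K, ℝ) →L[ℝ] C(K, ℝ)} (hP : P ∘L P = P) (t : K) (F : C(K, ℝ)) :
    evp P t (P F) = evp P t F := by
  rw [evp_apply, evp_apply]
  have h := congrArg (fun Q : C(K, ℝ) →L[ℝ] C(K, ℝ) => Q F) hP
  have h' : P (P F) = P F := h
  rw [h']

theorem near_scale {P : C(K, ℝ) →L[ℝ] C(K, ℝ)} {a : ℝ} {s t : K} (h : Near P a s t)
    (F : C(K, ℝ)) : |P F s - P F t| ≤ a * ‖F‖ := by
  by_cases hF : F = 0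
  · subst hF
    simp
  · have hn : 0 < ‖F‖ := norm_pos_iff.2 hF
    have h1 := h (‖F‖⁻¹ • F) (by
      rw [norm_smul, norm_inv, norm_norm, inv_mul_cancel₀ hn.ne'])
    have h2 : P (‖F‖⁻¹ • F) s - P (‖F‖⁻¹ • F) t = ‖F‖⁻¹ * (P F s - P F t) := by
      rw [map_smul]
      simp only [ContinuousMap.smul_apply, smul_eq_mul]
      ring
    rw [h2, abs_mul, abs_of_pos (inv_pos.2 hn)] at h1
    rw [inv_mul_le_iff₀ hn] at h1
    linarith

theorem near_norm {P : C(K, ℝ) →L[ℝ] C(K, ℝ)} {a : ℝ} {s t : K} (ha : 0 ≤ a)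
    (h : Near P a s t) : ‖evp P s - evp P t‖ ≤ a := by
  refine ContinuousLinearMap.opNorm_le_bound _ ha fun F => ?_
  rw [sub_apply, evp_apply, evp_apply, Real.norm_eq_abs]
  exact near_scale h F

end B3_

namespace B3_

/-! ### abstract part -/

section

variable {E : Type} [NormedAddCommGroup E] [NormedSpace ℝ E]

theorem norm_pm {e : ℝ} (he : |e| = 1) (x : E) : ‖e • x‖ = ‖x‖ := by
  rw [norm_smul, Real.norm_eq_abs, he, one_mul]

/-- a linear map into `ℓ¹` of norm at most one -/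
structure DD (D : E →ₗ[ℝ] (ℕ → ℝ)) (V : E → ℕ → ℝ) : Prop where
  dv : ∀ μ k, |D μ k| ≤ V μ k
  hv : ∀ μ, HasSum (V μ) ‖μ‖

variable {D : E →ₗ[ℝ] (ℕ → ℝ)} {V : E → ℕ → ℝ}

theorem DD.vnn (h : DD D V) (μ : E) (k : ℕ) : 0 ≤ V μ k :=
  (abs_nonneg _).trans (h.dv μ k)

theorem DD.dsum (h : DD D V) (μ : E) : Summable fun k => |D μ k| :=
  Summable.of_nonneg_of_le (fun _ => abs_nonneg _) (h.dv μ) (h.hv μ).summable

theorem DD.dle (h : DD D V) (μ : E) : ∑' k, |D μ k| ≤ ‖μ‖ := by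
  rw [← (h.hv μ).tsum_eq]
  exact (h.dsum μ).tsum_le_tsum (h.dv μ) (h.hv μ).summable

theorem DD.dle1 (h : DD D V) (μ : E) (k : ℕ) : |D μ k| ≤ ‖μ‖ :=
  ((h.dsum μ).le_tsum k fun _ _ => abs_nonneg _).trans (h.dle μ)

/-- the coordinates of `D` are continuous -/
noncomputable def DD.dk (h : DD D V) (k : ℕ) : E →L[ℝ] ℝ :=
  LinearMap.mkContinuous ((LinearMap.proj (R := ℝ) (φ := fun _ : ℕ => ℝ) k).comp D) 1
    (fun μ => by
      rw [one_mul, Real.norm_eq_abs]
      exact h.dle1 μ k)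

theorem DD.dk_apply (h : DD D V) (k : ℕ) (μ : E) : h.dk k μ = D μ k := rfl

variable {N τ : ℝ} {m : ℕ → E}

theorem DD.ssum [CompleteSpace E] (h : DD D V) (hm : ∀ k, ‖m k‖ ≤ N) (μ : E) :
    Summable fun k => D μ k • m k := by
  refine Summable.of_norm_bounded (g := fun k => |D μ k| * N) ((h.dsum μ).mul_right N) ?_
  intro k
  rw [norm_smul, Real.norm_eq_abs]
  exact mul_le_mul_of_nonneg_left (hm k) (abs_nonneg _)

theorem DD.nle [CompleteSpace E] (h : DD D V) (hm : ∀ k, ‖m k‖ ≤ N) (μ : E)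
    (hμ : ‖μ - ∑' k, D μ k • m k‖ ≤ τ * ‖μ‖) : ‖μ‖ ≤ N * (∑' k, |D μ k|) + τ * ‖μ‖ := by
  have h1 : ‖∑' k, D μ k • m k‖ ≤ N * ∑' k, |D μ k| := by
    rw [mul_comm, ← tsum_mul_right]
    refine tsum_of_norm_bounded ((h.dsum μ).mul_right N).hasSum ?_
    intro k
    rw [norm_smul, Real.norm_eq_abs]
    exact mul_le_mul_of_nonneg_left (hm k) (abs_nonneg _)
  have h2 : μ = (∑' k, D μ k • m k) + (μ - ∑' k, D μ k • m k) := by abel
  calc ‖μ‖ = ‖(∑' k, D μ k • m k) + (μ - ∑' k, D μ k • m k)‖ := by rw [← h2]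
    _ ≤ ‖∑' k, D μ k • m k‖ + ‖μ - ∑' k, D μ k • m k‖ := norm_add_le _ _
    _ ≤ N * (∑' k, |D μ k|) + τ * ‖μ‖ := add_le_add h1 hμ

theorem DD.mat [CompleteSpace E] (h : DD D V) (hm : ∀ k, ‖m k‖ ≤ N) (μ : E)
    (hμ : ‖μ - ∑' k, D μ k • m k‖ ≤ τ * ‖μ‖) :
    ∑' l, |(∑' k, D μ k * D (m k) l) - D μ l| ≤ τ * ‖μ‖ := by
  have h1 : ∀ l, |(∑' k, D μ k * D (m k) l) - D μ l| = |D (μ - ∑' k, D μ k • m k) l| := by
    intro l
    have h2 := (h.dk l).map_tsum (h.ssum hm μ)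
    have h3 : D (∑' k, D μ k • m k) l = ∑' k, D μ k * D (m k) l := by
      rw [← h.dk_apply, h2]
      refine tsum_congr fun k => ?_
      rw [map_smul, h.dk_apply, smul_eq_mul]
    rw [map_sub, Pi.sub_apply, h3, abs_sub_comm]
  simp only [h1]
  exact (h.dle _).trans hμ

end

/-! ### the data given by the blocks B1 and B2 -/

variable {K : Type} [MetricSpace K] [CompactSpace K]

/-- the data given by the blocks B1 and B2 -/
structure Dat (P : C(K, ℝ) →L[ℝ] C(K, ℝ)) (N τ : ℝ) (s : ℕ → K) (A : ℕ → Set K)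
    (D : (C(K, ℝ) →L[ℝ] ℝ) →ₗ[ℝ] (ℕ → ℝ)) (V : (C(K, ℝ) →L[ℝ] ℝ) → ℕ → ℝ) : Prop where
  idem : P ∘L P = P
  norm : ‖P‖ ≤ N
  tau : 0 ≤ τ
  cover : (⋃ k, A k) = Set.univ
  near : ∀ k, ∀ t ∈ A k, Near P τ t (s k)
  dd : DD D V
  prop : ∀ (μ : C(K, ℝ) →L[ℝ] ℝ) (f : C(K, ℝ)) (c : ℕ → ℝ) (ω : ℝ) (G : Set ℕ), 0 ≤ ω →
        (∀ k ∈ G, ∀ t ∈ A k, |f t - c k| ≤ ω) →
        |μ f - ∑' k, G.indicator (fun k => c k * D μ k) k| ≤
          ω * (∑' k, G.indicator (V μ) k) + ‖f‖ * ∑' k, Gᶜ.indicator (V μ) k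

section

variable {P : C(K, ℝ) →L[ℝ] C(K, ℝ)} {N τ : ℝ} {s : ℕ → K} {A : ℕ → Set K}
    {D : (C(K, ℝ) →L[ℝ] ℝ) →ₗ[ℝ] (ℕ → ℝ)} {V : (C(K, ℝ) →L[ℝ] ℝ) → ℕ → ℝ}

theorem Dat.nn (h : Dat P N τ s A D V) : 0 ≤ N := (norm_nonneg P).trans h.norm

theorem Dat.univ (h : Dat P N τ s A D V) (μ : C(K, ℝ) →L[ℝ] ℝ) (f : C(K, ℝ)) (c : ℕ → ℝ)
    (ω : ℝ) (hω : 0 ≤ ω) (hf : ∀ k, ∀ t ∈ A k, |f t - c k| ≤ ω) :
    |μ f - ∑' k, c k * D μ k| ≤ ω * ‖μ‖ := by
  have h5 := h.prop μ f c ω Set.univ hω (fun k _ t ht => hf k t ht)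
  simp only [Set.indicator_univ, Set.compl_univ, Set.indicator_empty, tsum_zero, mul_zero,
    add_zero, (h.dd.hv μ).tsum_eq] at h5
  exact h5

theorem Dat.apx (h : Dat P N τ s A D V) (μ : C(K, ℝ) →L[ℝ] ℝ) (hμ : ∀ F, μ (P F) = μ F) :
    ‖μ - ∑' k, D μ k • evp P (s k)‖ ≤ τ * ‖μ‖ := by
  have hs := h.dd.ssum (m := fun k => evp P (s k)) (fun k => evp_norm h.norm (s k)) μ
  refine ContinuousLinearMap.opNorm_le_bound _ (mul_nonneg h.tau (norm_nonneg μ)) fun F => ?_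
  have h1 : (∑' k, D μ k • evp P (s k)) F = ∑' k, P F (s k) * D μ k := by
    have h2 := (ContinuousLinearMap.apply ℝ ℝ F).map_tsum hs
    have h3 : (∑' k, D μ k • evp P (s k)) F
        = (ContinuousLinearMap.apply ℝ ℝ F) (∑' k, D μ k • evp P (s k)) := rfl
    rw [h3, h2]
    refine tsum_congr fun k => ?_
    have h4 : (ContinuousLinearMap.apply ℝ ℝ F) (D μ k • evp P (s k))
        = D μ k * P F (s k) := rfl
    rw [h4, mul_comm]
  have h5 := h.univ μ (P F) (fun k => P F (s k)) (τ * ‖F‖)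
    (mul_nonneg h.tau (norm_nonneg F)) (fun k t ht => near_scale (h.near k t ht) F)
  rw [hμ] at h5
  rw [sub_apply, h1, Real.norm_eq_abs]
  refine h5.trans (le_of_eq ?_)
  ring

theorem Dat.empty (h : Dat P N τ s A D V) (μ : C(K, ℝ) →L[ℝ] ℝ) {k : ℕ} (hk : A k = ∅) :
    D μ k = 0 := by
  have h1 := h.prop μ 0 (fun _ => 1) 0 {k} le_rfl (by
    intro j hj t ht
    rw [Set.mem_singleton_iff] at hj
    rw [hj, hk] at ht
    exact absurd ht (Set.notMem_empty t))
  have h2 : ∑' j, ({k} : Set ℕ).indicator (fun j => 1 * D μ j) j = D μ k := by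
    rw [tsum_eq_single k]
    · simp
    · intro j hj
      simp [hj]
  rw [h2] at h1
  simpa using h1

/-- a functional whose values on the unit ball are at most `b` has norm at most `b` -/
theorem norm_le_of (μ : C(K, ℝ) →L[ℝ] ℝ) (b : ℝ) (hb : 0 ≤ b)
    (h : ∀ F : C(K, ℝ), ‖F‖ ≤ 1 → μ F ≤ b) : ‖μ‖ ≤ b := by
  refine ContinuousLinearMap.opNorm_le_bound _ hb fun F => ?_
  rw [Real.norm_eq_abs]
  by_cases hF : F = 0
  · subst hF
    simp
  · have hn : 0 < ‖F‖ := norm_pos_iff.2 hF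
    have hF1 : ‖‖F‖⁻¹ • F‖ ≤ 1 := by
      rw [norm_smul, norm_inv, norm_norm, inv_mul_cancel₀ hn.ne']
    have hF2 : ‖-(‖F‖⁻¹ • F)‖ ≤ 1 := by rwa [norm_neg]
    have h1 := h _ hF1
    have h2 := h _ hF2
    rw [map_smul, smul_eq_mul, inv_mul_le_iff₀ hn] at h1
    rw [map_neg, map_smul, smul_eq_mul, neg_le, ← neg_le_neg_iff, neg_neg] at h2
    have h3 : -(‖F‖⁻¹ * μ F) = ‖F‖⁻¹ * (-μ F) := by ring
    rw [abs_le]
    constructor
    · have h4 : ‖F‖⁻¹ * (-μ F) ≤ b := by linarith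
      rw [inv_mul_le_iff₀ hn] at h4
      linarith
    · linarith

theorem sg_mul (x : ℝ) : sg x * x = |x| := by
  unfold sg
  split_ifs with h
  · rw [one_mul, abs_of_nonneg h]
  · rw [abs_of_neg (not_le.1 h)]
    ring

theorem sg_cases (x : ℝ) : sg x = 1 ∨ sg x = -1 := by
  unfold sg
  split_ifs
  · exact Or.inl rfl
  · exact Or.inr rfl

/-- the conclusion of block A14 for the matrix `D μ_i k` -/
structure JJ (R : ℕ → ℕ → ℝ) (τ : ℝ) (J : Set ℕ) : Prop where
  out : ∀ i, ∑' j, Jᶜ.indicator (fun j => |R i j|) j ≤ τ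
  big : ∀ i ∈ J, 1 - τ ≤ ∑' k, |R i k|
  conc : ∀ i ∈ J, ∑' j, |R i j| * ∑' k, |sg (R i j) * R j k - R i k| ≤ τ

theorem Dat.norming (h : Dat P N τ s A D V) {κ : ℝ} {J : Set ℕ}
    (hJ : JJ (fun i k => D (evp P (s i)) k) κ J) (hN : N ≤ 1 + 1 / 100000)
    (hτ : τ ≤ 1 / 100000) (hκ : κ ≤ 1 / 10000000) (f : C(K, ℝ)) (hf : P f = f) (M : ℝ)
    (hM0 : 0 ≤ M) (hM : ∀ t : K, (∃ k ∈ J, t ∈ A k) → |f t| ≤ M) : ‖f‖ ≤ 2 * M := by
  classical
  have hf0 : 0 ≤ ‖f‖ := norm_nonneg f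
  have hN0 := h.nn
  have hτ0 := h.tau
  have key : ∀ x : K, |f x| ≤ τ * ‖f‖ + τ * ‖f‖ * N + ((M + τ * ‖f‖) * N + ‖f‖ * κ) := by
    intro x
    obtain ⟨i, hi⟩ : ∃ i, x ∈ A i := by
      have : x ∈ ⋃ k, A k := by
        rw [h.cover]
        exact Set.mem_univ x
      simpa using this
    have h1 : |f x - f (s i)| ≤ τ * ‖f‖ := by
      have := near_scale (h.near i x hi) f
      rwa [hf] at this
    have h2 : |f (s i) - ∑' k, f (s k) * D (evp P (s i)) k| ≤ τ * ‖f‖ * N := by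
      have h3 := h.univ (evp P (s i)) f (fun k => f (s k)) (τ * ‖f‖) (by positivity)
        (fun k t ht => by
          have := near_scale (h.near k t ht) f
          rwa [hf] at this)
      rw [evp_apply, hf] at h3
      refine h3.trans ?_
      gcongr
      exact evp_norm h.norm _
    have hs := h.dd.dsum (evp P (s i))
    have hs' : Summable fun k => Jᶜ.indicator (fun k => |D (evp P (s i)) k|) k :=
      hs.indicator _
    have h3 : |∑' k, f (s k) * D (evp P (s i)) k| ≤ (M + τ * ‖f‖) * N + ‖f‖ * κ := by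
      have h4 : ‖∑' k, f (s k) * D (evp P (s i)) k‖
          ≤ (M + τ * ‖f‖) * (∑' k, |D (evp P (s i)) k|)
            + ‖f‖ * ∑' k, Jᶜ.indicator (fun k => |D (evp P (s i)) k|) k := by
        refine tsum_of_norm_bounded ((hs.hasSum.mul_left (M + τ * ‖f‖)).add
          (hs'.hasSum.mul_left ‖f‖)) ?_
        intro k
        rw [Real.norm_eq_abs, abs_mul]
        by_cases hk : k ∈ J
        · have hk' : k ∉ Jᶜ := fun hh => hh hk
          rw [Set.indicator_of_notMem hk', mul_zero, add_zero]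
          rcases Set.eq_empty_or_nonempty (A k) with hA | ⟨t, ht⟩
          · rw [h.empty _ hA]
            simp
          · have h5 : |f t - f (s k)| ≤ τ * ‖f‖ := by
              have := near_scale (h.near k t ht) f
              rwa [hf] at this
            have h6 := hM t ⟨k, hk, ht⟩
            have h7 : |f (s k)| ≤ M + τ * ‖f‖ := by
              rw [abs_le] at h5 h6 ⊢
              constructor <;> linarith [h5.1, h5.2, h6.1, h6.2]
            exact mul_le_mul_of_nonneg_right h7 (abs_nonneg _)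
        · have hk' : k ∈ Jᶜ := hk
          rw [Set.indicator_of_mem hk']
          have h7 := abs_le_norm f (s k)
          have h8 : 0 ≤ (M + τ * ‖f‖) * |D (evp P (s i)) k| := by positivity
          have h9 := mul_le_mul_of_nonneg_right h7 (abs_nonneg (D (evp P (s i)) k))
          linarith
      rw [Real.norm_eq_abs] at h4
      refine h4.trans ?_
      have h5 : ∑' k, |D (evp P (s i)) k| ≤ N := (h.dd.dle _).trans (evp_norm h.norm _)
      have h6 := hJ.out i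
      have h7 : (M + τ * ‖f‖) * (∑' k, |D (evp P (s i)) k|) ≤ (M + τ * ‖f‖) * N :=
        mul_le_mul_of_nonneg_left h5 (by positivity)
      have h8 : ‖f‖ * (∑' k, Jᶜ.indicator (fun k => |D (evp P (s i)) k|) k) ≤ ‖f‖ * κ :=
        mul_le_mul_of_nonneg_left h6 hf0
      exact add_le_add h7 h8
    rw [abs_le] at h1 h2 h3 ⊢
    constructor <;> linarith [h1.1, h1.2, h2.1, h2.2, h3.1, h3.2]
  have hκ0 : 0 ≤ κ := by
    refine le_trans ?_ (hJ.out 0)
    exact tsum_nonneg fun k => Set.indicator_nonneg (fun _ _ => abs_nonneg _) _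
  have hB : 0 ≤ τ * ‖f‖ + τ * ‖f‖ * N + ((M + τ * ‖f‖) * N + ‖f‖ * κ) := by positivity
  have h1 : ‖f‖ ≤ τ * ‖f‖ + τ * ‖f‖ * N + ((M + τ * ‖f‖) * N + ‖f‖ * κ) := by
    rw [ContinuousMap.norm_le _ hB]
    intro x
    rw [Real.norm_eq_abs]
    exact key x
  have e1 : τ * ‖f‖ ≤ 1 / 100000 * ‖f‖ := mul_le_mul_of_nonneg_right hτ hf0
  have e2 : τ * ‖f‖ * N ≤ 2 / 100000 * ‖f‖ := by
    have : τ * ‖f‖ * N ≤ (1 / 100000 * ‖f‖) * 2 := by
      refine mul_le_mul e1 (by linarith) hN0 (by positivity)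
    linarith
  have e3 : M * N ≤ M * (1 + 1 / 100000) := mul_le_mul_of_nonneg_left hN hM0
  have e4 : ‖f‖ * κ ≤ ‖f‖ * (1 / 10000000) := mul_le_mul_of_nonneg_left hκ hf0
  nlinarith

theorem Dat.big (h : Dat P N τ s A D V) {κ : ℝ} {J : Set ℕ}
    (hJ : JJ (fun i k => D (evp P (s i)) k) κ J)
    (hτ : τ ≤ 1 / 100000) (hκ : κ ≤ 1 / 10000000) (t : K) (i : ℕ) (hi : i ∈ J)
    (ht : t ∈ A i) : ∃ F : C(K, ℝ), ‖F‖ ≤ 1 ∧ 1 - 1 / 200 ≤ P F t := by
  by_contra hcon
  push Not at hcon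
  have h1 : ‖evp P t‖ ≤ 1 - 1 / 200 :=
    norm_le_of _ _ (by norm_num) fun F hF => (hcon F hF).le
  have h2 : ‖evp P (s i) - evp P t‖ ≤ τ :=
    (norm_sub_rev (evp P (s i)) (evp P t)).trans_le (near_norm h.tau (h.near i t ht))
  have h3 : 1 - κ ≤ ‖evp P (s i)‖ := (hJ.big i hi).trans (h.dd.dle _)
  have h4 : ‖evp P (s i)‖ ≤ ‖evp P (s i) - evp P t‖ + ‖evp P t‖ := by
    have := norm_add_le (evp P (s i) - evp P t) (evp P t)
    rwa [sub_add_cancel] at this
  linarith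

/-- `μ_u` and `± μ_t` are close if the rows are -/
theorem Dat.close (h : Dat P N τ s A D V) {ρ : ℝ} (hN : N ≤ 1 + 1 / 100000)
    (hτ : τ ≤ 1 / 100000) (hρ : ρ ≤ 1 / 1000) {t u : K} {i k : ℕ} (ht : t ∈ A i)
    (hu : u ∈ A k) (e : ℝ) (he : e = 1 ∨ e = -1)
    (hk : ∑' l, |e * D (evp P (s k)) l - D (evp P (s i)) l| ≤ ρ) :
    ‖e • evp P u - evp P t‖ ≤ 1 / 200 := by
  have hN0 := h.nn
  have hτ0 := h.tau
  have he1 : |e| = 1 := by
    rcases he with rfl | rfl <;> simp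
  have h1 : ‖evp P u - evp P (s k)‖ ≤ τ := near_norm h.tau (h.near k u hu)
  have h2 : ‖evp P (s i) - evp P t‖ ≤ τ :=
    (norm_sub_rev (evp P (s i)) (evp P t)).trans_le (near_norm h.tau (h.near i t ht))
  obtain ⟨μ, hμ⟩ : ∃ μ, μ = e • evp P (s k) - evp P (s i) := ⟨_, rfl⟩
  have h3 : ‖μ‖ ≤ 2 * N := by
    rw [hμ]
    refine (norm_sub_le (e • evp P (s k)) (evp P (s i))).trans ?_
    rw [norm_pm he1 (evp P (s k))]
    have h4 := evp_norm h.norm (s k)
    have h5 := evp_norm h.norm (s i)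
    linarith
  have hinv : ∀ F, μ (P F) = μ F := by
    intro F
    rw [hμ, sub_apply, sub_apply, smul_apply, smul_apply,
      evp_inv h.idem, evp_inv h.idem]
  have h4 := h.dd.nle (m := fun k => evp P (s k)) (fun k => evp_norm h.norm (s k)) μ
    (h.apx μ hinv)
  have h5 : ∑' l, |D μ l| ≤ ρ := by
    have h6 : ∀ l, |D μ l| = |e * D (evp P (s k)) l - D (evp P (s i)) l| := by
      intro l
      rw [hμ, map_sub, map_smul, Pi.sub_apply, Pi.smul_apply, smul_eq_mul]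
    simp only [h6]
    exact hk
  have h6 : ‖μ‖ ≤ 1 / 500 := by
    have h7 : N * ∑' l, |D μ l| ≤ (1 + 1 / 100000) * (1 / 1000) :=
      mul_le_mul hN (h5.trans hρ) (tsum_nonneg fun _ => abs_nonneg _) (by norm_num)
    have h8 : τ * ‖μ‖ ≤ 1 / 100000 * 3 :=
      mul_le_mul hτ (by linarith) (norm_nonneg μ) (by norm_num)
    linarith
  have h7 : e • evp P u - evp P t = e • (evp P u - evp P (s k)) + μ + (evp P (s i) - evp P t) := by
    rw [hμ, smul_sub]
    abel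
  rw [h7]
  refine (norm_add_le (e • (evp P u - evp P (s k)) + μ) (evp P (s i) - evp P t)).trans ?_
  have h8 := norm_add_le (e • (evp P u - evp P (s k))) μ
  rw [norm_pm he1 (evp P u - evp P (s k))] at h8
  linarith

theorem Dat.cl (h : Dat P N τ s A D V) {κ : ℝ} {J : Set ℕ}
    (hJ : JJ (fun i k => D (evp P (s i)) k) κ J) (hN : N ≤ 1 + 1 / 100000)
    (hτ : τ ≤ 1 / 100000) (hκ : κ ≤ 1 / 10000000) (t : K) (i : ℕ) (hi : i ∈ J)
    (ht : t ∈ A i) (F : C(K, ℝ)) (c : ℝ) (hF : ‖F‖ ≤ 1) (hc : |c| ≤ 1)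
    (h1 : ∀ u : K, (∃ k ∈ J, u ∈ A k) → Near P (1 / 200) u t → F u = c)
    (h2 : ∀ u : K, (∃ k ∈ J, u ∈ A k) → Anti P (1 / 200) u t → F u = -c) :
    |P F t - c| ≤ 1 / 200 := by
  classical
  have hN0 := h.nn
  have hτ0 := h.tau
  obtain ⟨R, hR⟩ : ∃ R : ℕ → ℕ → ℝ, R = fun i k => D (evp P (s i)) k := ⟨_, rfl⟩
  rw [← hR] at hJ
  have hRs : ∀ i, Summable fun k => |R i k| := fun i => by rw [hR]; exact h.dd.dsum _
  have hRn : ∀ i, ∑' k, |R i k| ≤ N := fun i => by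
    rw [hR]
    exact (h.dd.dle _).trans (evp_norm h.norm _)
  obtain ⟨W, hW⟩ : ∃ W : ℕ → ℝ, W = fun k => ∑' l, |sg (R i k) * R k l - R i l| := ⟨_, rfl⟩
  have hW0 : ∀ k, 0 ≤ W k := fun k => by
    rw [hW]
    exact tsum_nonneg fun _ => abs_nonneg _
  have hW2 : ∀ k, W k ≤ 2 * N := by
    intro k
    have e1 : ∀ l, |sg (R i k) * R k l - R i l| ≤ |R k l| + |R i l| := by
      intro l
      refine (abs_sub _ _).trans ?_
      have : |sg (R i k) * R k l| = |R k l| := by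
        rw [abs_mul]
        rcases sg_cases (R i k) with hh | hh <;> rw [hh] <;> simp
      rw [this]
    have e2 : Summable fun l => |sg (R i k) * R k l - R i l| :=
      Summable.of_nonneg_of_le (fun _ => abs_nonneg _) e1 ((hRs k).add (hRs i))
    rw [hW]
    refine (e2.tsum_le_tsum e1 ((hRs k).add (hRs i))).trans ?_
    rw [(hRs k).tsum_add (hRs i)]
    linarith [hRn k, hRn i]
  have hWs : Summable fun k => |R i k| * W k :=
    Summable.of_nonneg_of_le (fun k => mul_nonneg (abs_nonneg _) (hW0 k))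
      (fun k => mul_le_mul_of_nonneg_left (hW2 k) (abs_nonneg _)) ((hRs i).mul_right (2 * N))
  have hWc : ∑' k, |R i k| * W k ≤ κ := by
    rw [hW]
    exact hJ.conc i hi
  obtain ⟨G, hG⟩ : ∃ G : Set ℕ, G = {k | k ∈ J ∧ W k ≤ 1 / 1000} := ⟨_, rfl⟩
  have hGF : ∀ k ∈ G, ∀ u ∈ A k, |F u - sg (R i k) * c| ≤ 0 := by
    intro k hk u hu
    rw [hG] at hk
    have hcl := h.close hN hτ (ρ := 1 / 1000) le_rfl ht hu (sg (R i k))
      (sg_cases _) (by
        have := hk.2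
        rw [hW] at this
        simp only [hR] at this ⊢
        exact this)
    have hap : ∀ F' : C(K, ℝ), ‖F'‖ ≤ 1 → |sg (R i k) * P F' u - P F' t| ≤ 1 / 200 := by
      intro F' hF'
      have e1 : (sg (R i k) • evp P u - evp P t) F' = sg (R i k) * P F' u - P F' t := rfl
      rw [← e1, ← Real.norm_eq_abs]
      refine (ContinuousLinearMap.le_opNorm _ _).trans ?_
      have e2 : ‖sg (R i k) • evp P u - evp P t‖ * ‖F'‖ ≤ 1 / 200 * 1 :=
        mul_le_mul hcl hF' (norm_nonneg _) (by norm_num)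
      linarith
    have hFu : F u = sg (R i k) * c := by
      rcases sg_cases (R i k) with hh | hh
      · rw [hh] at hap ⊢
        rw [one_mul]
        refine h1 u ⟨k, hk.1, hu⟩ fun F' hF' => ?_
        have := hap F' hF'
        rwa [one_mul] at this
      · rw [hh] at hap ⊢
        have e3 : (-1 : ℝ) * c = -c := by ring
        rw [e3]
        refine h2 u ⟨k, hk.1, hu⟩ fun F' hF' => ?_
        have := hap F' hF'
        rw [← abs_neg] at this
        refine le_trans (le_of_eq ?_) this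
        congr 1
        ring
    rw [hFu, sub_self, abs_zero]
  have hprop := h.prop (evp P (s i)) F (fun k => sg (R i k) * c) 0 G le_rfl hGF
  obtain ⟨g, hg⟩ : ∃ g : ℝ, g = ∑' k, G.indicator (fun k => |R i k|) k := ⟨_, rfl⟩
  have e1 : ∑' k, G.indicator (fun k => sg (R i k) * c * D (evp P (s i)) k) k = c * g := by
    rw [hg, ← tsum_mul_left]
    refine tsum_congr fun k => ?_
    by_cases hk : k ∈ G
    · rw [Set.indicator_of_mem hk, Set.indicator_of_mem hk]
      have e2 : D (evp P (s i)) k = R i k := by rw [hR]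
      rw [e2, ← sg_mul (R i k)]
      ring
    · rw [Set.indicator_of_notMem hk, Set.indicator_of_notMem hk, mul_zero]
  have hVs := (h.dd.hv (evp P (s i))).summable
  have e2 : (∑' k, G.indicator (V (evp P (s i))) k) + ∑' k, Gᶜ.indicator (V (evp P (s i))) k
      = ‖evp P (s i)‖ := by
    rw [← (hVs.indicator G).tsum_add (hVs.indicator Gᶜ), ← (h.dd.hv (evp P (s i))).tsum_eq]
    refine tsum_congr fun k => ?_
    exact Set.indicator_self_add_compl_apply G _ k
  have e3 : g ≤ ∑' k, G.indicator (V (evp P (s i))) k := by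
    rw [hg]
    refine ((hRs i).indicator G).tsum_le_tsum (fun k => ?_) (hVs.indicator G)
    refine Set.indicator_le_indicator ?_
    have := h.dd.dv (evp P (s i)) k
    rw [hR]
    exact this
  have e4 : (∑' k, G.indicator (fun k => |R i k|) k) + ∑' k, Gᶜ.indicator (fun k => |R i k|) k
      = ∑' k, |R i k| := by
    rw [← ((hRs i).indicator G).tsum_add ((hRs i).indicator Gᶜ)]
    refine tsum_congr fun k => ?_
    exact Set.indicator_self_add_compl_apply G _ k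
  have e5 : ∑' k, Gᶜ.indicator (fun k => |R i k|) k ≤ κ + 1000 * κ := by
    have e6 : ∀ k, Gᶜ.indicator (fun k => |R i k|) k
        ≤ Jᶜ.indicator (fun k => |R i k|) k + 1000 * (|R i k| * W k) := by
      intro k
      have hnn : 0 ≤ |R i k| * W k := mul_nonneg (abs_nonneg _) (hW0 k)
      by_cases hk : k ∈ G
      · have hk' : k ∉ Gᶜ := fun hh => hh hk
        rw [Set.indicator_of_notMem hk']
        have : 0 ≤ Jᶜ.indicator (fun k => |R i k|) k :=
          Set.indicator_nonneg (fun _ _ => abs_nonneg _) _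
        linarith
      · have hk' : k ∈ Gᶜ := hk
        rw [Set.indicator_of_mem hk']
        by_cases hkJ : k ∈ J
        · have hkJ' : k ∉ Jᶜ := fun hh => hh hkJ
          rw [Set.indicator_of_notMem hkJ', zero_add]
          have hWk : 1 / 1000 < W k := by
            by_contra hcon
            refine hk ?_
            rw [hG]
            exact ⟨hkJ, not_lt.1 hcon⟩
          have := mul_le_mul_of_nonneg_left hWk.le (abs_nonneg (R i k))
          linarith
        · have hkJ' : k ∈ Jᶜ := hkJ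
          rw [Set.indicator_of_mem hkJ']
          linarith
    refine (((hRs i).indicator Gᶜ).tsum_le_tsum e6
      (((hRs i).indicator Jᶜ).add (hWs.mul_left 1000))).trans ?_
    rw [((hRs i).indicator Jᶜ).tsum_add (hWs.mul_left 1000), tsum_mul_left]
    have := hJ.out i
    linarith
  have e6 := hJ.big i hi
  have e7 := evp_norm h.norm (s i)
  rw [e1, zero_mul, zero_add, evp_apply] at hprop
  have e8 : 0 ≤ ∑' k, Gᶜ.indicator (V (evp P (s i))) k :=
    tsum_nonneg fun k => Set.indicator_nonneg (fun _ _ => h.dd.vnn _ _) _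
  have e9 : ‖F‖ * ∑' k, Gᶜ.indicator (V (evp P (s i))) k ≤ N - g := by
    have : ‖F‖ * ∑' k, Gᶜ.indicator (V (evp P (s i))) k
        ≤ 1 * ∑' k, Gᶜ.indicator (V (evp P (s i))) k := mul_le_mul_of_nonneg_right hF e8
    linarith
  have e10 : g ≤ N := by
    have := hRn i
    have : 0 ≤ ∑' k, Gᶜ.indicator (fun k => |R i k|) k :=
      tsum_nonneg fun k => Set.indicator_nonneg (fun _ _ => abs_nonneg _) _
    linarith
  have e11 : 1 - κ - (κ + 1000 * κ) ≤ g := by linarith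
  have e12 : |P F t - P F (s i)| ≤ τ := by
    have := near_scale (h.near i t ht) F
    have e13 : τ * ‖F‖ ≤ τ * 1 := mul_le_mul_of_nonneg_left hF hτ0
    linarith
  have e13 : |c * g - c| ≤ 1 / 1000 := by
    have e14 : c * g - c = c * (g - 1) := by ring
    rw [e14, abs_mul]
    have e15 : |g - 1| ≤ 1 / 1000 := by
      rw [abs_le]
      constructor <;> linarith
    have : |c| * |g - 1| ≤ 1 * (1 / 1000) :=
      mul_le_mul hc e15 (abs_nonneg _) (by norm_num)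
    linarith
  have e14 := hprop.trans e9
  rw [abs_le] at e12 e13 e14 ⊢
  constructor <;> linarith [e12.1, e12.2, e13.1, e13.2, e14.1, e14.2]

end

end B3_

open B3_ in
theorem B3 (h14 : St_A14) (h1 : St_B1) (h2 : St_B2) : St_B3 := by
  classical
  obtain ⟨η', hη', hA⟩ := h14 (1 / 10000000) (by norm_num)
  obtain ⟨η, hη0, hη1, hη2⟩ : ∃ η : ℝ, 0 < η ∧ η ≤ η' / 4 ∧ η ≤ 1 / 100000 :=
    ⟨min (η' / 4) (1 / 100000), lt_min (by linarith) (by norm_num), min_le_left _ _,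
      min_le_right _ _⟩
  refine ⟨η, hη0, ?_⟩
  intro K _ _ P hP hPn hsep
  rcases isEmpty_or_nonempty K with hK | hK
  · refine ⟨∅, ?_, ?_, ?_⟩
    · intro f _ M hM _
      have : ‖f‖ ≤ 0 := by
        rw [ContinuousMap.norm_le _ le_rfl]
        intro x
        exact (hK.false x).elim
      linarith
    · intro t ht
      exact absurd ht (Set.notMem_empty t)
    · intro t ht
      exact absurd ht (Set.notMem_empty t)
  · let _ : MeasurableSpace K := borel K
    have _ : BorelSpace K := ⟨rfl⟩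
    obtain ⟨s, A, hAm, hAd, hAc, hAn⟩ := h2 K P η hK hη0 hP hsep
    obtain ⟨D, V, hDV, hV, hprop⟩ := h1 K A hAm hAd hAc
    have h : Dat P (1 + η) η s A D V := ⟨hP, hPn, hη0.le, hAc, hAn, ⟨hDV, hV⟩, hprop⟩
    have hN : 1 + η ≤ 1 + 1 / 100000 := by linarith
    obtain ⟨J, hJ1, hJ2⟩ := hA (fun i k => D (evp P (s i)) k) (fun i => h.dd.dsum _)
      (fun i => by
        refine ((h.dd.dle _).trans (evp_norm h.norm _)).trans ?_
        linarith)
      (fun i => by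
        have e1 := h.dd.mat (m := fun k => evp P (s k)) (fun k => evp_norm h.norm (s k))
          (evp P (s i)) (h.apx _ (evp_inv hP (s i)))
        refine e1.trans ?_
        have e2 := evp_norm h.norm (s i)
        have e3 : η * ‖evp P (s i)‖ ≤ η * (1 + η) := mul_le_mul_of_nonneg_left e2 hη0.le
        nlinarith)
    have hJ : JJ (fun i k => D (evp P (s i)) k) (1 / 10000000) J :=
      ⟨hJ1, fun i hi => (hJ2 i hi).1, fun i hi => (hJ2 i hi).2⟩
    refine ⟨{t | ∃ k ∈ J, t ∈ A k}, ?_, ?_, ?_⟩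
    · intro f hf M hM0 hM
      exact h.norming hJ hN hη2 le_rfl f hf M hM0 hM
    · rintro t ⟨i, hi, ht⟩ F c hF hc e1 e2
      exact h.cl hJ hN hη2 le_rfl t i hi ht F c hF hc e1 e2
    · rintro t ⟨i, hi, ht⟩
      exact h.big hJ hη2 le_rfl t i hi ht

end Pool.NC
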