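import Pool.Agent.Work.MP_052a41_nc.DefsBC

/-! Block C1 (helper63): passage to the closure. -/

set_option autoImplicit false

open scoped ENNReal

namespace Pool.NC

namespace C1

variable {K : Type} [TopologicalSpace K] [CompactSpace K]

theorem isClosed_near (P : C(K, ℝ) →L[ℝ] C(K, ℝ)) (α : ℝ) :
    IsClosed {p : K × K | Near P α p.1 p.2} := by
  have h : {p : K × K | Near P α p.1 p.2} =
      ⋂ F : C(K, ℝ), ⋂ _ : ‖F‖ ≤ 1, {p : K × K | |P F p.1 - P F p.2| ≤ α} := by
    ext p
    simp only [Set.mem_ofPred_eq, Set.mem_iInter, Near]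
  rw [h]
  refine isClosed_iInter fun F => isClosed_iInter fun _ => isClosed_le ?_ continuous_const
  exact (((P F).continuous.comp continuous_fst).sub ((P F).continuous.comp continuous_snd)).abs

theorem isClosed_anti (P : C(K, ℝ) →L[ℝ] C(K, ℝ)) (α : ℝ) :
    IsClosed {p : K × K | Anti P α p.1 p.2} := by
  have h : {p : K × K | Anti P α p.1 p.2} =
      ⋂ F : C(K, ℝ), ⋂ _ : ‖F‖ ≤ 1, {p : K × K | |P F p.1 + P F p.2| ≤ α} := by
    ext p
    simp only [Set.mem_ofPred_eq, Set.mem_iInter, Anti]
  rw [h]
  refine isClosed_iInter fun F => isClosed_iInter fun _ => isClosed_le ?_ continuous_const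
  exact (((P F).continuous.comp continuous_fst).add ((P F).continuous.comp continuous_snd)).abs

/-- truncation at height `d` -/
def trunc (d : ℝ) (F : C(K, ℝ)) : C(K, ℝ) :=
  ⟨fun u => max (-d) (min d (F u)), continuous_const.max (continuous_const.min F.continuous)⟩

omit [CompactSpace K] in
theorem trunc_apply (d : ℝ) (F : C(K, ℝ)) (u : K) : trunc d F u = max (-d) (min d (F u)) := rfl

omit [CompactSpace K] in
theorem abs_trunc {d : ℝ} (hd : 0 ≤ d) (F : C(K, ℝ)) (u : K) : |trunc d F u| ≤ d := by
  rw [trunc_apply, abs_le]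
  exact ⟨le_max_left _ _, max_le (by linarith) (min_le_left _ _)⟩

omit [CompactSpace K] in
theorem abs_sub_trunc {d : ℝ} (hd : 0 ≤ d) (F : C(K, ℝ)) (u : K) :
    |F u - trunc d F u| ≤ |F u| := by
  rw [trunc_apply]
  rcases le_total (F u) (-d) with h | h
  · rw [min_eq_right (by linarith), max_eq_left h, abs_of_nonpos (by linarith),
      abs_of_nonpos (by linarith)]
    linarith
  · rcases le_total (F u) d with h' | h'
    · rw [min_eq_right h', max_eq_right h, sub_self, abs_zero]
      exact abs_nonneg _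
    · rw [min_eq_left h', max_eq_right (by linarith), abs_of_nonneg (by linarith),
        abs_of_nonneg (by linarith)]
      linarith

omit [CompactSpace K] in
theorem trunc_eq {d : ℝ} (F : C(K, ℝ)) (u : K) (h : |F u| ≤ d) : trunc d F u = F u := by
  have := abs_le.1 h
  rw [trunc_apply, min_eq_right this.2, max_eq_right this.1]

end C1

open C1 in
theorem C1 : St_C1 := by
  intro K _ _ P E α β hβ hC t ht F hF hN hA
  have key : ∀ d : ℝ, 0 < d → |P F t| ≤ β + ‖P‖ * d := by
    intro d hd
    obtain ⟨Z, hZ⟩ : ∃ Z : Set (K × K), Z = {p : K × K | d ≤ |F p.1|} ∩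
      ({p : K × K | Near P α p.1 p.2} ∪ {p : K × K | Anti P α p.1 p.2}) := ⟨_, rfl⟩
    have hZc : IsClosed Z := by
      rw [hZ]
      exact (isClosed_le continuous_const (F.continuous.comp continuous_fst).abs).inter
        ((isClosed_near P α).union (isClosed_anti P α))
    have hS : IsClosed (Prod.snd '' Z) := isClosedMap_snd_of_compactSpace Z hZc
    have htS : t ∉ Prod.snd '' Z := by
      rintro ⟨⟨u, s⟩, hus, rfl⟩
      rw [hZ] at hus
      obtain ⟨h1, h2⟩ := hus
      have h1' : d ≤ |F u| := h1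
      rcases h2 with h2 | h2
      · rw [hN u h2, abs_zero] at h1'; linarith
      · rw [hA u h2, abs_zero] at h1'; linarith
    obtain ⟨G, hG⟩ : ∃ G : C(K, ℝ), G = F - trunc d F := ⟨_, rfl⟩
    have hGu : ∀ u, G u = F u - trunc d F u := fun u => by rw [hG]; rfl
    have hFu : ∀ u, |F u| ≤ 1 := fun u => (F.norm_coe_le_norm u).trans hF
    have hG1 : ‖G‖ ≤ 1 := by
      rw [ContinuousMap.norm_le _ zero_le_one]
      intro u
      rw [hGu, Real.norm_eq_abs]
      exact (abs_sub_trunc hd.le F u).trans (hFu u)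
    have hcl : ∀ s ∈ E ∩ (Prod.snd '' Z)ᶜ, |P G s| ≤ β := by
      rintro s ⟨hsE, hsZ⟩
      have hz : ∀ u, (Near P α u s ∨ Anti P α u s) → G u = 0 := by
        intro u hu
        rw [hGu, trunc_eq, sub_self]
        by_contra hcon
        apply hsZ
        refine ⟨(u, s), ?_, rfl⟩
        rw [hZ]
        refine ⟨(not_le.1 hcon).le, ?_⟩
        rcases hu with hu | hu
        · exact Or.inl hu
        · exact Or.inr hu
      have := hC.cl s hsE G 0 hG1 (by simp) (fun u _ h => hz u (Or.inl h))
        (fun u _ h => by rw [hz u (Or.inr h), neg_zero])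
      rwa [sub_zero] at this
    have htc : t ∈ closure (E ∩ (Prod.snd '' Z)ᶜ) := by
      rw [mem_closure_iff] at ht ⊢
      intro o ho hto
      obtain ⟨s, hs⟩ := ht (o ∩ (Prod.snd '' Z)ᶜ) (ho.inter hS.isOpen_compl) ⟨hto, htS⟩
      exact ⟨s, hs.1.1, hs.2, hs.1.2⟩
    have h1 : |P G t| ≤ β := by
      have hcl' : IsClosed {s : K | |P G s| ≤ β} :=
        isClosed_le (P G).continuous.abs continuous_const
      exact (closure_minimal hcl hcl') htc
    have h2 : |P (trunc d F) t| ≤ ‖P‖ * d := by
      calc |P (trunc d F) t| ≤ ‖P (trunc d F)‖ := (P (trunc d F)).norm_coe_le_norm t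
        _ ≤ ‖P‖ * ‖trunc d F‖ := P.le_opNorm _
        _ ≤ ‖P‖ * d := by
            have hP : 0 ≤ ‖P‖ := norm_nonneg P
            refine mul_le_mul_of_nonneg_left ?_ hP
            rw [ContinuousMap.norm_le _ hd.le]
            intro u
            exact abs_trunc hd.le F u
    have h3 : P F t = P G t + P (trunc d F) t := by
      have : F = G + trunc d F := by rw [hG]; abel
      calc P F t = P (G + trunc d F) t := by rw [← this]
        _ = P G t + P (trunc d F) t := by rw [map_add]; rfl
    rw [h3]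
    exact (abs_add_le _ _).trans (add_le_add h1 h2)
  by_contra hcon
  push Not at hcon
  have hpos : 0 < |P F t| - β := by linarith
  have h := key ((|P F t| - β) / (2 * (‖P‖ + 1))) (by have := norm_nonneg P; positivity)
  have h4 : ‖P‖ * ((|P F t| - β) / (2 * (‖P‖ + 1))) ≤ (|P F t| - β) / 2 := by
    have h5 := norm_nonneg P
    rw [mul_div_assoc', div_le_div_iff₀ (by positivity) (by norm_num)]
    nlinarith
  linarith

end Pool.NC
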