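import Pool.Agent.Work.MP_052a41_nc.DefsBC

/-! Block C10 of MP_052a41_an: reflexivity is an isomorphic property. -/

set_option autoImplicit false

namespace Pool.NC

theorem C10 : St_C10 := by
  intro E F _ _ _ _ e hE Φ
  let pre : (E →L[ℝ] ℝ) →L[ℝ] (F →L[ℝ] ℝ) :=
    (ContinuousLinearMap.compL ℝ F E ℝ).flip (e.symm : F →L[ℝ] E)
  have hpre : ∀ g : E →L[ℝ] ℝ, pre g = g.comp (e.symm : F →L[ℝ] E) := fun g => rfl
  let Ψ : StrongDual ℝ (StrongDual ℝ E) := ContinuousLinearMap.comp Φ pre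
  obtain ⟨x, hx⟩ := hE Ψ
  refine ⟨e x, ?_⟩
  ext h
  have h1 : NormedSpace.inclusionInDoubleDual ℝ E x (h.comp (e : E →L[ℝ] F)) =
      Ψ (h.comp (e : E →L[ℝ] F)) := by rw [hx]
  have h2 : Ψ (h.comp (e : E →L[ℝ] F)) = Φ h := by
    show Φ (pre (h.comp (e : E →L[ℝ] F))) = Φ h
    rw [hpre]
    congr 1
    ext y
    simp
  rw [h2] at h1
  rw [← h1]
  simp

end Pool.NC
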