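import Mathlib
import Pool.Agent.Work.MP_052a41_nc.DefsBC

/-! Block C11: `WNA` with countably many classes is a space `C₀(L)`, `L` countable locally compact. -/

set_option autoImplicit false
set_option linter.unusedSectionVars false

open Filter Topology

namespace Pool.NC

namespace C11_

variable {T : Type} [TopologicalSpace T] [CompactSpace T] (W : Submodule ℝ C(T, ℝ))

/-- evaluation functionals -/
def Ph (t : T) : W → ℝ := fun g => (g : C(T, ℝ)) t

lemma continuous_Ph : Continuous (Ph W) := by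
  apply continuous_pi
  intro g
  exact (g : C(T, ℝ)).continuous

/-- the evaluations and their negatives -/
def Ms : Set (W → ℝ) := Set.range (Ph W) ∪ Set.range fun t => -Ph W t

lemma isCompact_Ms : IsCompact (Ms W) :=
  (isCompact_range (continuous_Ph W)).union (isCompact_range (continuous_Ph W).neg)

lemma Ph_mem (t : T) : Ph W t ∈ Ms W := Or.inl ⟨t, rfl⟩

variable {W}

lemma neg_mem {m : W → ℝ} (h : m ∈ Ms W) : -m ∈ Ms W := by
  rcases h with ⟨t, rfl⟩ | ⟨t, rfl⟩
  · exact Or.inr ⟨t, rfl⟩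
  · left
    exact ⟨t, (neg_neg _).symm⟩

lemma Ms_add {m : W → ℝ} (h : m ∈ Ms W) (g g' : W) : m (g + g') = m g + m g' := by
  rcases h with ⟨t, rfl⟩ | ⟨t, rfl⟩
  · rfl
  · change -((g : C(T, ℝ)) t + (g' : C(T, ℝ)) t) = -(g : C(T, ℝ)) t + -(g' : C(T, ℝ)) t
    ring

lemma Ms_smul {m : W → ℝ} (h : m ∈ Ms W) (c : ℝ) (g : W) : m (c • g) = c * m g := by
  rcases h with ⟨t, rfl⟩ | ⟨t, rfl⟩
  · rfl
  · change -(c * (g : C(T, ℝ)) t) = c * -(g : C(T, ℝ)) t
    ring

lemma Ms_zero {m : W → ℝ} (h : m ∈ Ms W) : m 0 = 0 := by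
  have := Ms_smul h 0 0
  rw [zero_smul, zero_mul] at this
  exact this

lemma Ms_abs {m : W → ℝ} (h : m ∈ Ms W) (g : W) : |m g| ≤ ‖g‖ := by
  rcases h with ⟨t, rfl⟩ | ⟨t, rfl⟩
  · exact (g : C(T, ℝ)).norm_coe_le_norm t
  · change |-(g : C(T, ℝ)) t| ≤ ‖g‖
    rw [abs_neg]
    exact (g : C(T, ℝ)).norm_coe_le_norm t

/-- a countable family of separating levels -/
lemma exists_levels (hc : (Ms W).Countable) : ∃ (g : ℕ → W) (c : ℕ → ℝ), (∀ n, 0 < c n) ∧
    (∀ n, ∀ m ∈ Ms W, m (g n) ≠ c n) ∧ ∀ m ∈ Ms W, m ≠ 0 → ∃ n, c n < |m (g n)| := by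
  classical
  have key : ∀ m ∈ Ms W, m ≠ 0 → ∃ (g : W) (c : ℝ), 0 < c ∧ (∀ m' ∈ Ms W, m' g ≠ c) ∧ c < |m g| := by
    intro m hm hm0
    obtain ⟨g, hg⟩ := Function.ne_iff.1 hm0
    have hpos : 0 < |m g| := abs_pos.2 hg
    have hcount : ((fun m' : W → ℝ => m' g) '' Ms W).Countable := hc.image _
    obtain ⟨c, hc1, hc2, hc3⟩ := (hcount.dense_compl ℝ).exists_between hpos
    refine ⟨g, c, hc2, ?_, hc3⟩
    intro m' hm' he
    exact hc1 ⟨m', hm', he⟩
  by_cases hne : {m | m ∈ Ms W ∧ m ≠ 0}.Nonempty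
  · have hcc : {m | m ∈ Ms W ∧ m ≠ 0}.Countable := hc.mono fun m hm => hm.1
    obtain ⟨f, hf⟩ := hcc.exists_eq_range hne
    have hf' : ∀ n, f n ∈ Ms W ∧ f n ≠ 0 := fun n => by
      have : f n ∈ {m | m ∈ Ms W ∧ m ≠ 0} := by rw [hf]; exact ⟨n, rfl⟩
      exact this
    choose g c h1 h2 h3 using fun n => key (f n) (hf' n).1 (hf' n).2
    refine ⟨g, c, h1, h2, ?_⟩
    intro m hm hm0
    have : m ∈ Set.range f := by rw [← hf]; exact ⟨hm, hm0⟩
    obtain ⟨n, rfl⟩ := this
    exact ⟨n, h3 n⟩
  · refine ⟨fun _ => 0, fun _ => 1, fun _ => one_pos, ?_, ?_⟩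
    · intro n m hm
      rw [Ms_zero hm]; norm_num
    · intro m hm hm0
      exact absurd ⟨m, hm, hm0⟩ hne

/-- the open half -/
def Lo (g : ℕ → W) (c : ℕ → ℝ) : Set (W → ℝ) :=
  {m | ∃ n, c n < m (g n) ∧ ∀ k ∈ Finset.range n, |m (g k)| < c k}

lemma isOpen_Lo (g : ℕ → W) (c : ℕ → ℝ) : IsOpen (Lo g c) := by
  have : Lo g c = ⋃ n, ({m : W → ℝ | c n < m (g n)} ∩
      ⋂ k ∈ Finset.range n, {m : W → ℝ | |m (g k)| < c k}) := by
    ext m
    simp only [Lo, Set.mem_ofPred_eq, Set.mem_iUnion, Set.mem_inter_iff, Set.mem_iInter]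
  rw [this]
  apply isOpen_iUnion
  intro n
  apply IsOpen.inter
  · exact isOpen_lt continuous_const (continuous_apply _)
  · apply isOpen_biInter_finset
    intro k _
    exact isOpen_lt (continuous_apply _).abs continuous_const

lemma Lo_not_both {g : ℕ → W} {c : ℕ → ℝ} (hc : ∀ n, 0 < c n) {m : W → ℝ}
    (h1 : m ∈ Lo g c) (h2 : -m ∈ Lo g c) : False := by
  obtain ⟨n, hn1, hn2⟩ := h1
  obtain ⟨n', hn1', hn2'⟩ := h2
  have e1 : (-m) (g n') = -m (g n') := rfl
  rw [e1] at hn1'
  rcases lt_trichotomy n n' with h | h | h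
  · have := hn2' n (Finset.mem_range.2 h)
    rw [Pi.neg_apply, abs_neg] at this
    linarith [le_abs_self (m (g n))]
  · subst h
    linarith [hc n]
  · have := hn2 n' (Finset.mem_range.2 h)
    linarith [neg_abs_le (m (g n')), hc n']

lemma Lo_ne_zero {g : ℕ → W} {c : ℕ → ℝ} (hc : ∀ n, 0 < c n) {m : W → ℝ}
    (h1 : m ∈ Lo g c) : m ≠ 0 := by
  rintro rfl
  obtain ⟨n, hn, -⟩ := h1
  have := hc n
  simp only [Pi.zero_apply] at hn
  linarith

lemma Lo_cover {g : ℕ → W} {c : ℕ → ℝ} (h2 : ∀ n, ∀ m ∈ Ms W, m (g n) ≠ c n)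
    (h3 : ∀ m ∈ Ms W, m ≠ 0 → ∃ n, c n < |m (g n)|) {m : W → ℝ} (hm : m ∈ Ms W) (hm0 : m ≠ 0) :
    m ∈ Lo g c ∨ -m ∈ Lo g c := by
  classical
  have hex := h3 m hm hm0
  set n := Nat.find hex with hn
  have hn1 : c n < |m (g n)| := Nat.find_spec hex
  have hn2 : ∀ k ∈ Finset.range n, |m (g k)| < c k := by
    intro k hk
    have h4 := Nat.find_min hex (Finset.mem_range.1 hk)
    push Not at h4
    apply lt_of_le_of_ne h4
    intro h5
    rcases abs_choice (m (g k)) with h6 | h6
    · exact h2 k m hm (by rw [← h6, h5])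
    · apply h2 k (-m) (neg_mem hm)
      rw [Pi.neg_apply, ← h6, h5]
  rcases abs_choice (m (g n)) with h6 | h6
  · left
    exact ⟨n, by rw [← h6]; exact hn1, hn2⟩
  · right
    refine ⟨n, by rw [Pi.neg_apply, ← h6]; exact hn1, ?_⟩
    intro k hk
    rw [Pi.neg_apply, abs_neg]
    exact hn2 k hk

/-- the negation on `Ms` -/
def ng (m : Ms W) : Ms W := ⟨-m.1, neg_mem m.2⟩

lemma continuous_ng : Continuous (ng : Ms W → Ms W) :=
  Continuous.subtype_mk continuous_subtype_val.neg _

lemma ng_ng (m : Ms W) : ng (ng m) = m := Subtype.ext (neg_neg _)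

/-- the half, as a set of elements of `Ms` -/
def LS (g : ℕ → W) (c : ℕ → ℝ) : Set (Ms W) := {m | m.1 ∈ Lo g c}

lemma isOpen_LS (g : ℕ → W) (c : ℕ → ℝ) : IsOpen (LS g c) :=
  (isOpen_Lo g c).preimage continuous_subtype_val

end C11_

open C11_ in
theorem C11 : St_C11 := by
  classical
  intro T _ _ _ N A hNA hu
  obtain ⟨u, hu⟩ := hu
  set W := WNA N A with hW
  -- the set is countable
  have hPh : ∀ s t, N s t → Ph W s = Ph W t := by
    intro s t hst
    funext g
    exact g.2.1 s t hst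
  have hPhA : ∀ s t, A s t → Ph W s = -Ph W t := by
    intro s t hst
    funext g
    exact g.2.2 s t hst
  have hcount : (Ms W).Countable := by
    apply Set.Countable.union
    · apply (Set.countable_range fun n => Ph W (u n)).mono
      rintro _ ⟨t, rfl⟩
      obtain ⟨n, hn⟩ := hu t
      exact ⟨n, (hPh _ _ hn).symm⟩
    · apply (Set.countable_range fun n => -Ph W (u n)).mono
      rintro _ ⟨t, rfl⟩
      obtain ⟨n, hn⟩ := hu t
      exact ⟨n, by simp only [hPh _ _ hn]⟩
  obtain ⟨g, c, hc1, hc2, hc3⟩ := exists_levels hcount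
  have : CompactSpace (Ms W) := isCompact_iff_compactSpace.1 (isCompact_Ms W)
  have : Countable (Ms W) := hcount.to_subtype
  have hopen := isOpen_LS g c
  have hopen' : IsOpen (ng ⁻¹' (LS g c)) := hopen.preimage continuous_ng
  have hLL : ∀ m : Ms W, m ∈ LS g c → ng m ∈ LS g c → False := fun m h1 h2 => Lo_not_both hc1 h1 h2
  have hcov : ∀ m : Ms W, m.1 ≠ 0 → m ∈ LS g c ∨ ng m ∈ LS g c := fun m h =>
    Lo_cover hc2 hc3 m.2 h
  have hne0 : ∀ m : Ms W, m ∈ LS g c → m.1 ≠ 0 := fun m h => Lo_ne_zero hc1 h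
  -- continuity of evaluations
  have hev : ∀ f : W, Continuous fun l : LS g c => l.1.1 f := fun f =>
    (continuous_apply f).comp (continuous_subtype_val.comp continuous_subtype_val)
  have hev' : ∀ f : W, Continuous fun m : Ms W => m.1 f := fun f =>
    (continuous_apply f).comp continuous_subtype_val
  -- vanishing at infinity
  have hzero : ∀ f : W, Tendsto (fun l : LS g c => l.1.1 f) (cocompact (LS g c)) (𝓝 0) := by
    intro f
    rw [Metric.tendsto_nhds]
    intro ε hε
    rw [Filter.Eventually, mem_cocompact]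
    refine ⟨{l : LS g c | ε ≤ |l.1.1 f|}, ?_, ?_⟩
    · rw [Subtype.isCompact_iff]
      apply IsClosed.isCompact
      rw [← isOpen_compl_iff]
      have heq : (Subtype.val '' {l : LS g c | ε ≤ |l.1.1 f|})ᶜ
          = {m : Ms W | |m.1 f| < ε} ∪ ng ⁻¹' (LS g c) := by
        ext m
        rw [Set.mem_compl_iff, Set.mem_union, Set.mem_ofPred_eq, Set.mem_preimage]
        constructor
        · intro h
          by_cases h1 : |m.1 f| < ε
          · exact Or.inl h1
          · right
            have h0 : m.1 ≠ 0 := by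
              intro h0
              rw [h0] at h1
              simp at h1
              linarith
            rcases hcov m h0 with h2 | h2
            · exact absurd ⟨⟨m, h2⟩, not_lt.1 h1, rfl⟩ h
            · exact h2
        · rintro h ⟨l, hl, rfl⟩
          rcases h with h | h
          · exact absurd hl (not_le.2 h)
          · exact hLL l.1 l.2 h
      rw [heq]
      exact (isOpen_lt (hev' f).abs continuous_const).union hopen'
    · intro l hl
      rw [Set.mem_compl_iff, Set.mem_ofPred_eq, not_le] at hl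
      rw [Set.mem_ofPred_eq, Real.dist_eq, sub_zero]
      exact hl
  -- the linear map
  let ρ : W →ₗ[ℝ] ZeroAtInftyContinuousMap (LS g c) ℝ :=
    { toFun := fun f => ⟨⟨fun l => l.1.1 f, hev f⟩, hzero f⟩
      map_add' := fun f f' => by
        ext l
        exact Ms_add l.1.2 f f'
      map_smul' := fun a f => by
        ext l
        exact Ms_smul l.1.2 a f }
  have hρ : ∀ (f : W) (l : LS g c), ρ f l = l.1.1 f := fun f l => rfl
  have hnorm : ∀ f : W, ‖ρ f‖ = ‖f‖ := by
    intro f
    have hle : ∀ l, |ρ f l| ≤ ‖ρ f‖ := fun l => by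
      rw [← ZeroAtInftyContinuousMap.norm_toBCF_eq_norm]
      exact (ρ f).toBCF.norm_coe_le_norm l
    apply le_antisymm
    · rw [← ZeroAtInftyContinuousMap.norm_toBCF_eq_norm]
      refine (BoundedContinuousFunction.norm_le (norm_nonneg _)).2 ?_
      intro l
      exact Ms_abs l.1.2 f
    · change ‖(f : C(T, ℝ))‖ ≤ ‖ρ f‖
      refine (ContinuousMap.norm_le _ (norm_nonneg _)).2 ?_
      intro t
      by_cases h0 : Ph W t = 0
      · have : (f : C(T, ℝ)) t = 0 := congrFun h0 f
        rw [this, norm_zero]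
        exact norm_nonneg _
      · rcases hcov ⟨Ph W t, Ph_mem W t⟩ h0 with h | h
        · exact hle ⟨_, h⟩
        · have := hle ⟨_, h⟩
          rw [hρ] at this
          change |-(f : C(T, ℝ)) t| ≤ ‖ρ f‖ at this
          rw [abs_neg] at this
          exact this
  let ρi : W →ₗᵢ[ℝ] ZeroAtInftyContinuousMap (LS g c) ℝ := ⟨ρ, hnorm⟩
  have hsurj : Function.Surjective ρi := by
    intro f
    -- the odd extension
    set F : Ms W → ℝ := fun m => if h : m ∈ LS g c then f ⟨m, h⟩ else
      if h : ng m ∈ LS g c then -f ⟨ng m, h⟩ else 0 with hF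
    have hF1 : ∀ m (h : m ∈ LS g c), F m = f ⟨m, h⟩ := fun m h => by rw [hF]; simp only [dif_pos h]
    have hF2 : ∀ m (h : ng m ∈ LS g c), F m = -f ⟨ng m, h⟩ := fun m h => by
      rw [hF]
      simp only
      rw [dif_neg (fun h' => hLL m h' h), dif_pos h]
    have hF3 : ∀ m, m ∉ LS g c → ng m ∉ LS g c → F m = 0 := fun m h h' => by
      rw [hF]
      simp only
      rw [dif_neg h, dif_neg h']
    have hodd : ∀ m, F (ng m) = -F m := by
      intro m
      by_cases h : m ∈ LS g c
      · have h' : ng (ng m) ∈ LS g c := by rw [ng_ng]; exact h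
        rw [hF1 m h, hF2 (ng m) h']
        congr 2
        exact Subtype.ext (ng_ng m)
      · by_cases h' : ng m ∈ LS g c
        · rw [hF1 _ h', hF2 m h', neg_neg]
        · rw [hF3 m h h', hF3 (ng m) h' (by rw [ng_ng]; exact h), neg_zero]
    have hcont : Continuous F := by
      rw [continuous_iff_continuousAt]
      have c1 : ∀ m ∈ LS g c, ContinuousAt F m := by
        intro m hm
        have h1 : ContinuousOn F (LS g c) := by
          rw [continuousOn_iff_continuous_domRestrict]
          have : (LS g c).domRestrict F = f := by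
            funext l
            exact hF1 l.1 l.2
          rw [this]
          exact f.continuous
        exact h1.continuousAt (hopen.mem_nhds hm)
      intro m
      by_cases h : m ∈ LS g c
      · exact c1 m h
      · by_cases h' : ng m ∈ LS g c
        · have h2 : F = fun m => -F (ng m) := by
            funext m; rw [hodd, neg_neg]
          rw [h2]
          exact ((c1 (ng m) h').comp continuous_ng.continuousAt).neg
        · -- the point `0`
          have hFm := hF3 m h h'
          rw [Metric.continuousAt_iff']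
          intro ε hε
          rw [hFm]
          have hz := f.zero_at_infty'
          rw [Metric.tendsto_nhds] at hz
          have hz' := hz ε hε
          rw [Filter.Eventually, mem_cocompact] at hz'
          obtain ⟨K, hK, hK'⟩ := hz'
          have hKc : IsClosed (Subtype.val '' K : Set (Ms W)) :=
            (Subtype.isCompact_iff.1 hK).isClosed
          have hKc' : IsClosed (ng ⁻¹' (Subtype.val '' K) : Set (Ms W)) :=
            hKc.preimage continuous_ng
          have hm1 : m ∈ (Subtype.val '' K : Set (Ms W))ᶜ := by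
            rintro ⟨l, -, rfl⟩
            exact h l.2
          have hm2 : m ∈ (ng ⁻¹' (Subtype.val '' K) : Set (Ms W))ᶜ := by
            rintro ⟨l, -, hl⟩
            apply h'
            rw [← hl]
            exact l.2
          filter_upwards [hKc.isOpen_compl.mem_nhds hm1, hKc'.isOpen_compl.mem_nhds hm2] with x hx1 hx2
          by_cases hx : x ∈ LS g c
          · rw [hF1 x hx]
            exact hK' (fun hk => hx1 ⟨_, hk, rfl⟩)
          · by_cases hx' : ng x ∈ LS g c
            · rw [hF2 x hx', Real.dist_eq, sub_zero, abs_neg]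
              have := hK' (show (⟨ng x, hx'⟩ : LS g c) ∈ Kᶜ from fun hk => hx2 ⟨_, hk, rfl⟩)
              rw [Set.mem_ofPred_eq, Real.dist_eq, sub_zero] at this
              exact this
            · rw [hF3 x hx hx', dist_self]
              exact hε
    -- the function on `T`
    have hphc : Continuous fun t : T => (⟨Ph W t, Ph_mem W t⟩ : Ms W) :=
      Continuous.subtype_mk (continuous_Ph W) _
    let G : C(T, ℝ) := ⟨fun t => F ⟨Ph W t, Ph_mem W t⟩, hcont.comp hphc⟩
    have hGW : G ∈ W := by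
      constructor
      · intro s t hst
        change F ⟨Ph W s, _⟩ = F ⟨Ph W t, _⟩
        congr 1
        exact Subtype.ext (hPh s t hst)
      · intro s t hst
        change F ⟨Ph W s, _⟩ = -F ⟨Ph W t, _⟩
        rw [← hodd]
        congr 1
        exact Subtype.ext (hPhA s t hst)
    refine ⟨⟨G, hGW⟩, ?_⟩
    ext l
    change l.1.1 ⟨G, hGW⟩ = f l
    have hl := hF1 l.1 l.2
    rw [show f l = f ⟨l.1, l.2⟩ from rfl, ← hl]
    obtain ⟨⟨m, hm⟩, hlm⟩ := l
    rcases hm with ⟨t, rfl⟩ | ⟨t, rfl⟩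
    · rfl
    · change -F ⟨Ph W t, Ph_mem W t⟩ = F ⟨-Ph W t, _⟩
      rw [← hodd]
      rfl
  exact ⟨LS g c, inferInstance, hopen.isOpenEmbedding_subtypeVal.locallyCompactSpace,
    inferInstance, inferInstance, ⟨LinearIsometryEquiv.ofSurjective ρi hsurj⟩⟩

end Pool.NC
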