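import Mathlib
import Pool.Agent.Work.MP_052a41_nc.DefsBC

/-! C12: `C₀(L)` with `L` countable locally compact is isomorphic to some `C(L')`, `L'` countable
compact.  `L` has an isolated point `p`; `L'` is the one point compactification of `L \ {p}`. -/

set_option autoImplicit false

open scoped ENNReal
open MeasureTheory Filter Topology

namespace Pool.NC

namespace C12H

/-- an isolated point -/
theorem exists_isolated (L : Type) [TopologicalSpace L] [LocallyCompactSpace L] [T2Space L]
    [Countable L] [Nonempty L] : ∃ p : L, IsOpen ({p} : Set L) := by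
  obtain ⟨p, q, hq⟩ := nonempty_interior_of_iUnion_of_closed (X := L)
    (f := fun x : L => ({x} : Set L)) (fun _ => isClosed_singleton)
    (by ext x; simp)
  refine ⟨p, ?_⟩
  have h1 : q = p := (interior_subset (s := ({p} : Set L)) hq)
  have h2 : interior ({p} : Set L) = {p} := by
    apply Set.Subset.antisymm interior_subset
    intro x hx
    rw [Set.mem_singleton_iff] at hx
    rw [hx, ← h1]
    rw [h1] at hq ⊢
    exact hq
  rw [← h2]
  exact isOpen_interior

variable {L : Type} [TopologicalSpace L] (p : L)

/-- the space without `p` -/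
abbrev M : Type := {x : L // x ≠ p}

theorem isClosed_ne (hp : IsOpen ({p} : Set L)) : IsClosed {x : L | x ≠ p} := by
  have : {x : L | x ≠ p} = ({p} : Set L)ᶜ := by ext x; simp
  rw [this]
  exact hp.isClosed_compl

theorem isOpen_ne' [T2Space L] : IsOpen {x : L | x ≠ p} := by
  have : {x : L | x ≠ p} = ({p} : Set L)ᶜ := by ext x; simp
  rw [this]
  exact isClosed_singleton.isOpen_compl

theorem closedEmb (hp : IsOpen ({p} : Set L)) :
    IsClosedEmbedding (Subtype.val : M p → L) :=
  (isClosed_ne p hp).isClosedEmbedding_subtypeVal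

open Classical in
/-- the forward map -/
noncomputable def fwd [T2Space L] (hp : IsOpen ({p} : Set L)) (f : ZeroAtInftyContinuousMap L ℝ) :
    C(OnePoint (M p), ℝ) :=
  OnePoint.continuousMapMk ⟨fun x : M p => f x.1 + f p, by
      exact ((map_continuous f).comp continuous_subtype_val).add continuous_const⟩ (f p) (by
    have h1 : Tendsto (fun x : M p => f x.1) (coclosedCompact (M p)) (𝓝 0) := by
      rw [coclosedCompact_eq_cocompact]
      exact (zero_at_infty f).comp (closedEmb p hp).tendsto_cocompact
    have h2 := h1.add (tendsto_const_nhds (x := f p))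
    rw [zero_add] at h2
    exact h2)

theorem fwd_coe [T2Space L] (hp : IsOpen ({p} : Set L)) (f : ZeroAtInftyContinuousMap L ℝ)
    (x : M p) : fwd p hp f (x : OnePoint (M p)) = f x.1 + f p := rfl

theorem fwd_inf [T2Space L] (hp : IsOpen ({p} : Set L)) (f : ZeroAtInftyContinuousMap L ℝ) :
    fwd p hp f (OnePoint.infty) = f p := rfl

open Classical in
/-- the function of the backward map -/
noncomputable def bfun (g : C(OnePoint (M p), ℝ)) (x : L) : ℝ :=
  if h : x = p then g OnePoint.infty
  else g ((⟨x, h⟩ : M p) : OnePoint (M p)) - g OnePoint.infty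

theorem bfun_p (g : C(OnePoint (M p), ℝ)) : bfun p g p = g OnePoint.infty := by
  simp [bfun]

theorem bfun_ne (g : C(OnePoint (M p), ℝ)) (x : M p) :
    bfun p g x.1 = g (x : OnePoint (M p)) - g OnePoint.infty := by
  have : ¬ x.1 = p := x.2
  simp [bfun, this]

theorem bfun_cont [T2Space L] (hp : IsOpen ({p} : Set L)) (g : C(OnePoint (M p), ℝ)) :
    Continuous (bfun p g) := by
  rw [continuous_iff_continuousAt]
  intro x
  by_cases hx : x = p
  · subst hx
    have : 𝓝 x = pure x := (isOpen_singleton_iff_nhds_eq_pure x).1 hp
    rw [ContinuousAt, this]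
    exact tendsto_pure_nhds _ _
  · have h1 : ContinuousOn (bfun p g) {x : L | x ≠ p} := by
      rw [continuousOn_iff_continuous_domRestrict]
      have h2 : ({x : L | x ≠ p}.domRestrict (bfun p g)) =
          fun x : M p => g (x : OnePoint (M p)) - g OnePoint.infty := by
        funext x
        exact bfun_ne p g x
      rw [h2]
      exact ((map_continuous g).comp OnePoint.continuous_coe).sub continuous_const
    exact h1.continuousAt ((isOpen_ne' p).mem_nhds hx)

theorem bfun_zero [T2Space L] (g : C(OnePoint (M p), ℝ)) :
    Tendsto (bfun p g) (cocompact L) (𝓝 0) := by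
  have h1 : Tendsto (fun x : M p => g (x : OnePoint (M p))) (cocompact (M p))
      (𝓝 (g OnePoint.infty)) := by
    rw [← coclosedCompact_eq_cocompact]
    exact ((OnePoint.continuous_iff (g : OnePoint (M p) → ℝ)).1 (map_continuous g)).1
  have h2 : Tendsto (fun x : M p => bfun p g x.1) (cocompact (M p)) (𝓝 0) := by
    have h3 := h1.sub (tendsto_const_nhds (x := g OnePoint.infty))
    rw [sub_self] at h3
    refine h3.congr (fun x => (bfun_ne p g x).symm)
  intro s hs
  have h4 := h2 hs
  rw [Filter.mem_map, mem_cocompact'] at h4
  obtain ⟨t, ht, hts⟩ := h4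
  rw [Filter.mem_map, mem_cocompact']
  refine ⟨Subtype.val '' t ∪ {p}, (ht.image continuous_subtype_val).union isCompact_singleton, ?_⟩
  intro x hx
  by_cases hxp : x = p
  · right; exact hxp
  · left
    exact ⟨⟨x, hxp⟩, hts hx, rfl⟩

/-- the backward map -/
noncomputable def bwd [T2Space L] (hp : IsOpen ({p} : Set L)) (g : C(OnePoint (M p), ℝ)) :
    ZeroAtInftyContinuousMap L ℝ where
  toFun := bfun p g
  continuous_toFun := bfun_cont p hp g
  zero_at_infty' := bfun_zero p g

theorem bwd_apply [T2Space L] (hp : IsOpen ({p} : Set L)) (g : C(OnePoint (M p), ℝ)) (x : L) :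
    bwd p hp g x = bfun p g x := rfl

theorem norm_apply_le (f : ZeroAtInftyContinuousMap L ℝ) (x : L) : ‖f x‖ ≤ ‖f‖ := by
  rw [← ZeroAtInftyContinuousMap.norm_toBCF_eq_norm]
  exact f.toBCF.norm_coe_le_norm x

/-- the forward map as a continuous linear map -/
noncomputable def fwdL [T2Space L] (hp : IsOpen ({p} : Set L)) :
    ZeroAtInftyContinuousMap L ℝ →L[ℝ] C(OnePoint (M p), ℝ) :=
  LinearMap.mkContinuous
    { toFun := fwd p hp
      map_add' := by
        intro f g
        ext x
        induction x using OnePoint.rec with
        | infty => rfl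
        | coe x =>
          rw [ContinuousMap.add_apply, fwd_coe, fwd_coe, fwd_coe,
            ZeroAtInftyContinuousMap.add_apply, ZeroAtInftyContinuousMap.add_apply]
          ring
      map_smul' := by
        intro c f
        ext x
        induction x using OnePoint.rec with
        | infty => rfl
        | coe x =>
          rw [RingHom.id_apply, ContinuousMap.smul_apply, fwd_coe, fwd_coe,
            ZeroAtInftyContinuousMap.smul_apply, ZeroAtInftyContinuousMap.smul_apply,
            smul_eq_mul, smul_eq_mul, smul_eq_mul]
          ring } 2 (by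
    intro f
    have h0 : 0 ≤ ‖f‖ := norm_nonneg f
    refine (ContinuousMap.norm_le _ (by positivity)).2 ?_
    intro x
    induction x using OnePoint.rec with
    | infty =>
      change ‖f p‖ ≤ 2 * ‖f‖
      have := norm_apply_le f p
      linarith
    | coe x =>
      change ‖f x.1 + f p‖ ≤ 2 * ‖f‖
      have h1 := norm_apply_le f p
      have h2 := norm_apply_le f x.1
      have h3 := norm_add_le (f x.1) (f p)
      linarith)

/-- the backward map as a continuous linear map -/
noncomputable def bwdL [T2Space L] (hp : IsOpen ({p} : Set L)) :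
    C(OnePoint (M p), ℝ) →L[ℝ] ZeroAtInftyContinuousMap L ℝ :=
  LinearMap.mkContinuous
    { toFun := bwd p hp
      map_add' := by
        intro f g
        ext x
        rw [ZeroAtInftyContinuousMap.add_apply, bwd_apply, bwd_apply, bwd_apply]
        by_cases hx : x = p
        · subst hx
          rw [bfun_p, bfun_p, bfun_p]; rfl
        · have h := fun k => bfun_ne p k ⟨x, hx⟩
          simp only at h
          rw [h, h, h, ContinuousMap.add_apply, ContinuousMap.add_apply]
          ring
      map_smul' := by
        intro c f
        ext x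
        rw [RingHom.id_apply, ZeroAtInftyContinuousMap.smul_apply, bwd_apply, bwd_apply]
        by_cases hx : x = p
        · subst hx
          rw [bfun_p, bfun_p]; rfl
        · have h := fun k => bfun_ne p k ⟨x, hx⟩
          simp only at h
          rw [h, h, ContinuousMap.smul_apply, ContinuousMap.smul_apply,
            smul_eq_mul, smul_eq_mul, smul_eq_mul]
          ring } 2 (by
    intro g
    have h0 : 0 ≤ ‖g‖ := norm_nonneg g
    change ‖bwd p hp g‖ ≤ 2 * ‖g‖
    rw [← ZeroAtInftyContinuousMap.norm_toBCF_eq_norm]
    refine (BoundedContinuousFunction.norm_le (by positivity)).2 ?_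
    intro x
    change ‖bfun p g x‖ ≤ 2 * ‖g‖
    by_cases hx : x = p
    · subst hx
      rw [bfun_p]
      have := g.norm_coe_le_norm OnePoint.infty
      linarith
    · have h := bfun_ne p g ⟨x, hx⟩
      simp only at h
      rw [h]
      have h1 := g.norm_coe_le_norm OnePoint.infty
      have h2 := g.norm_coe_le_norm (((⟨x, hx⟩ : M p)) : OnePoint (M p))
      have h3 := norm_sub_le (g (((⟨x, hx⟩ : M p)) : OnePoint (M p))) (g OnePoint.infty)
      linarith)

/-- the isomorphism -/
noncomputable def iso [T2Space L] (hp : IsOpen ({p} : Set L)) :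
    ZeroAtInftyContinuousMap L ℝ ≃L[ℝ] C(OnePoint (M p), ℝ) :=
  ContinuousLinearEquiv.equivOfInverse (fwdL p hp) (bwdL p hp) (by
    intro f
    change bwd p hp (fwd p hp f) = f
    ext x
    rw [bwd_apply]
    by_cases hx : x = p
    · subst hx
      rw [bfun_p, fwd_inf]
    · have h := bfun_ne p (fwd p hp f) ⟨x, hx⟩
      simp only at h
      rw [h, fwd_coe, fwd_inf]
      ring) (by
    intro g
    change fwd p hp (bwd p hp g) = g
    ext x
    induction x using OnePoint.rec with
    | infty => rw [fwd_inf, bwd_apply, bfun_p]
    | coe x =>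
      rw [fwd_coe, bwd_apply, bwd_apply, bfun_p, bfun_ne]
      ring)

end C12H

theorem C12 : St_C12 := by
  intro L _ hlc ht2 hc
  rcases isEmpty_or_nonempty L with hE | hN
  · refine ⟨L, inferInstance, inferInstance, ht2, hc, ⟨?_⟩⟩
    have s1 : Subsingleton (ZeroAtInftyContinuousMap L ℝ) :=
      ⟨fun f g => by ext x; exact hE.elim x⟩
    have s2 : Subsingleton C(L, ℝ) := ⟨fun f g => by ext x; exact hE.elim x⟩
    exact ContinuousLinearEquiv.equivOfInverse 0 0 (fun f => Subsingleton.elim _ _)
      (fun g => Subsingleton.elim _ _)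
  · obtain ⟨p, hp⟩ := C12H.exists_isolated L
    have : LocallyCompactSpace (C12H.M p) := (C12H.closedEmb p hp).locallyCompactSpace
    have : Countable (OnePoint (C12H.M p)) := by
      unfold OnePoint
      infer_instance
    exact ⟨OnePoint (C12H.M p), inferInstance, inferInstance, inferInstance, inferInstance,
      ⟨C12H.iso p hp⟩⟩

end Pool.NC
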