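import Pool.Agent.Work.MP_052a41_nc.C1

/-! Block C2 (helper63): the functionals on the closure are small or almost of norm one. -/

set_option autoImplicit false

open scoped ENNReal

namespace Pool.NC

namespace C2

variable {K : Type} [MetricSpace K] [CompactSpace K]

/-- scaling -/
theorem scale {P : C(K, ℝ) →L[ℝ] C(K, ℝ)} {t : K} {y : ℝ}
    (h : ∀ F : C(K, ℝ), ‖F‖ ≤ 1 → |P F t| ≤ y) {m : ℝ} (hm : 0 < m) (G : C(K, ℝ))
    (hG : ‖G‖ ≤ m) : |P G t| ≤ y * m := by
  have h1 : ‖m⁻¹ • G‖ ≤ 1 := by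
    rw [norm_smul, Real.norm_eq_abs, abs_of_pos (inv_pos.2 hm), inv_mul_le_iff₀ hm, mul_one]
    exact hG
  have h2 := h _ h1
  have h3 : P (m⁻¹ • G) t = m⁻¹ * P G t := by
    rw [map_smul]; rfl
  rw [h3, abs_mul, abs_of_pos (inv_pos.2 hm), inv_mul_le_iff₀ hm] at h2
  linarith

/-- the improvement of the bound -/
theorem step (h1 : St_C1) {P : C(K, ℝ) →L[ℝ] C(K, ℝ)} {E : Set K} (hP : P ∘L P = P)
    (hn : ‖P‖ ≤ 1 + 1 / 200) (hC : Clust P E (1 / 200) (1 / 200)) {t : K} (ht : t ∈ closure E)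
    {y : ℝ} (h : ∀ F : C(K, ℝ), ‖F‖ ≤ 1 → |P F t| ≤ y) (F : C(K, ℝ)) (hF : ‖F‖ ≤ 1) :
    |P F t| ≤ y * (|P F t| + 1 / 200) + 201 / 40000 := by
  obtain ⟨m, hm⟩ : ∃ m : ℝ, m = |P F t| + 1 / 200 := ⟨_, rfl⟩
  have hm0 : 0 < m := by rw [hm]; positivity
  obtain ⟨f, hf⟩ : ∃ f : C(K, ℝ), f = P F := ⟨_, rfl⟩
  obtain ⟨g, hg⟩ : ∃ g : C(K, ℝ), g = f - C1.trunc m f := ⟨_, rfl⟩
  have hgu : ∀ u, g u = f u - C1.trunc m f u := fun u => by rw [hg]; rfl
  have hPf : P f = f := by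
    rw [hf]
    have := congrArg (fun Q : C(K, ℝ) →L[ℝ] C(K, ℝ) => Q F) hP
    exact this
  have hfn : ‖f‖ ≤ 201 / 200 := by
    rw [hf]
    have hp0 : 0 ≤ ‖P‖ := norm_nonneg P
    calc ‖P F‖ ≤ ‖P‖ * ‖F‖ := P.le_opNorm F
      _ ≤ ‖P‖ * 1 := mul_le_mul_of_nonneg_left hF hp0
      _ ≤ 201 / 200 := by rw [mul_one]; linarith
  have hgn : ‖g‖ ≤ 201 / 200 := by
    rw [ContinuousMap.norm_le _ (by norm_num)]
    intro u
    rw [hgu, Real.norm_eq_abs]
    exact (C1.abs_sub_trunc hm0.le f u).trans ((f.norm_coe_le_norm u).trans hfn)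
  obtain ⟨G, hG⟩ : ∃ G : C(K, ℝ), G = (200 / 201 : ℝ) • g := ⟨_, rfl⟩
  have hG1 : ‖G‖ ≤ 1 := by
    rw [hG, norm_smul, Real.norm_eq_abs, abs_of_pos (by norm_num : (0 : ℝ) < 200 / 201)]
    linarith
  have hz : ∀ u, |f u| ≤ m → G u = 0 := by
    intro u hu
    have : g u = 0 := by rw [hgu, C1.trunc_eq _ _ hu, sub_self]
    rw [hG]
    change (200 / 201 : ℝ) * g u = 0
    rw [this, mul_zero]
  have hft : |f t| + 1 / 200 = m := by rw [hf, hm]
  have h2 : |P G t| ≤ 1 / 200 := by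
    refine h1 K P E (1 / 200) (1 / 200) (by norm_num) hC t ht G hG1 ?_ ?_
    · intro u hu
      apply hz
      have h3 := hu F hF
      rw [← hf] at h3
      have h4 : |f u| ≤ |f u - f t| + |f t| := by
        have := abs_add_le (f u - f t) (f t)
        rwa [sub_add_cancel] at this
      linarith
    · intro u hu
      apply hz
      have h3 := hu F hF
      rw [← hf] at h3
      have h4 : |f u| ≤ |f u + f t| + |f t| := by
        have := abs_add_le (f u + f t) (-f t)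
        rw [add_neg_cancel_right, abs_neg] at this
        exact this
      linarith
  have h3 : |P g t| ≤ 201 / 200 * (1 / 200) := by
    have e1 : P G t = 200 / 201 * P g t := by rw [hG, map_smul]; rfl
    rw [e1, abs_mul, abs_of_pos (by norm_num : (0 : ℝ) < 200 / 201)] at h2
    linarith
  have h4 : |P (C1.trunc m f) t| ≤ y * m := by
    apply scale h hm0
    rw [ContinuousMap.norm_le _ hm0.le]
    intro u
    exact C1.abs_trunc hm0.le f u
  have h5 : f t = P g t + P (C1.trunc m f) t := by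
    have : f = g + C1.trunc m f := by rw [hg]; abel
    calc f t = P f t := by rw [hPf]
      _ = P (g + C1.trunc m f) t := by rw [← this]
      _ = P g t + P (C1.trunc m f) t := by rw [map_add]; rfl
  have h6 : |f t| ≤ |P g t| + |P (C1.trunc m f) t| := by
    rw [h5]; exact abs_add_le _ _
  rw [← hf, hft]
  linarith

end C2

open C2 in
theorem C2 (h1 : St_C1) : St_C2 := by
  intro K _ _ P E hP hn hC t ht
  by_contra hcon
  rw [not_or] at hcon
  obtain ⟨hs, hb⟩ := hcon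
  apply hs
  push Not at hb
  have b0 : ∀ F : C(K, ℝ), ‖F‖ ≤ 1 → |P F t| ≤ 49 / 50 := by
    intro F hF
    rw [abs_le]
    constructor
    · have h2 := hb (-F) (by rwa [norm_neg])
      have h3 : P (-F) t = - P F t := by rw [map_neg]; rfl
      rw [h3] at h2
      linarith
    · have h2 := hb F hF
      linarith
  have b1 : ∀ F : C(K, ℝ), ‖F‖ ≤ 1 → |P F t| ≤ 1 / 2 := by
    intro F hF
    have h2 := step h1 hP hn hC ht b0 F hF
    linarith
  intro F hF
  have h2 := step h1 hP hn hC ht b1 F hF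
  linarith

end Pool.NC
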