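import Mathlib
import Pool.Agent.Work.MP_052a41_nc.DefsBC

/-! Block C3: gap for the distances on the closure. -/

set_option autoImplicit false

namespace Pool.NC

theorem C3_isClosed_near {K : Type} [MetricSpace K] [CompactSpace K]
    (P : C(K, ℝ) →L[ℝ] C(K, ℝ)) (a : ℝ) (t : K) : IsClosed {u | Near P a u t ∨ Anti P a u t} := by
  apply IsClosed.union
  · have : {u | Near P a u t} = ⋂ F : {F : C(K, ℝ) // ‖F‖ ≤ 1}, {u | |P F.1 u - P F.1 t| ≤ a} := by
      ext u; simp [Near]
    change IsClosed {u | Near P a u t}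
    rw [this]
    exact isClosed_iInter fun F => isClosed_le (by fun_prop) continuous_const
  · have : {u | Anti P a u t} = ⋂ F : {F : C(K, ℝ) // ‖F‖ ≤ 1}, {u | |P F.1 u + P F.1 t| ≤ a} := by
      ext u; simp [Anti]
    change IsClosed {u | Anti P a u t}
    rw [this]
    exact isClosed_iInter fun F => isClosed_le (by fun_prop) continuous_const

theorem C3_meet {K : Type} [MetricSpace K] [CompactSpace K] (h1 : St_C1)
    (P : C(K, ℝ) →L[ℝ] C(K, ℝ)) (E : Set K) (hE : Clust P E (1 / 200) (1 / 200))
    (s t : K) (hs : s ∈ closure E) (ht : t ∈ closure E) (F : C(K, ℝ)) (hF : ‖F‖ ≤ 1)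
    (hFs : 1 - 1 / 50 ≤ P F s) (h : Near P (1 / 2) s t ∨ Anti P (1 / 2) s t) :
    ∃ u, (Near P (1 / 200) u s ∨ Anti P (1 / 200) u s) ∧
      (Near P (1 / 200) u t ∨ Anti P (1 / 200) u t) := by
  by_contra hcon
  push Not at hcon
  have hdisj : Disjoint {u | Near P (1 / 200) u t ∨ Anti P (1 / 200) u t}
      {u | Near P (1 / 200) u s ∨ Anti P (1 / 200) u s} := by
    rw [Set.disjoint_left]
    intro u hut hus
    obtain ⟨h3, h4⟩ := hcon u hus
    rcases hut with h5 | h5
    · exact h3 h5
    · exact h4 h5
  obtain ⟨φ, hφ0, hφ1, hφ⟩ := exists_continuous_zero_one_of_isClosed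
    (C3_isClosed_near P (1 / 200) t) (C3_isClosed_near P (1 / 200) s) hdisj
  have hFp : ∀ x, |F x| ≤ 1 := fun x => by
    have := F.norm_coe_le_norm x
    rw [Real.norm_eq_abs] at this
    exact this.trans hF
  have hG : ‖F * φ‖ ≤ 1 := by
    rw [ContinuousMap.norm_le _ zero_le_one]
    intro x
    obtain ⟨h5, h6⟩ := hφ x
    rw [ContinuousMap.mul_apply, Real.norm_eq_abs, abs_mul, abs_of_nonneg h5]
    exact mul_le_one₀ (hFp x) h5 h6
  have hH : ‖F - F * φ‖ ≤ 1 := by
    rw [ContinuousMap.norm_le _ zero_le_one]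
    intro x
    obtain ⟨h5, h6⟩ := hφ x
    have : (F - F * φ) x = F x * (1 - φ x) := by
      simp; ring
    rw [this, Real.norm_eq_abs, abs_mul, abs_of_nonneg (by linarith : (0:ℝ) ≤ 1 - φ x)]
    exact mul_le_one₀ (hFp x) (by linarith) (by linarith)
  have k1 : |P (F - F * φ) s| ≤ 1 / 200 := by
    apply h1 K P E (1 / 200) (1 / 200) (by norm_num) hE s hs _ hH
    · intro u hu
      have : φ u = 1 := hφ1 (Or.inl hu)
      simp [this]
    · intro u hu
      have : φ u = 1 := hφ1 (Or.inr hu)
      simp [this]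
  have k2 : |P (F * φ) t| ≤ 1 / 200 := by
    apply h1 K P E (1 / 200) (1 / 200) (by norm_num) hE t ht _ hG
    · intro u hu
      have : φ u = 0 := hφ0 (Or.inl hu)
      simp [this]
    · intro u hu
      have : φ u = 0 := hφ0 (Or.inr hu)
      simp [this]
  have k3 : P (F - F * φ) s = P F s - P (F * φ) s := by
    rw [map_sub]; rfl
  rw [k3] at k1
  rw [abs_le] at k1 k2
  rcases h with h | h
  · have := h _ hG
    rw [abs_le] at this
    linarith [this.1, this.2, k1.1, k1.2, k2.1, k2.2]
  · have := h _ hG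
    rw [abs_le] at this
    linarith [this.1, this.2, k1.1, k1.2, k2.1, k2.2]

theorem C3 (h1 : St_C1) (h2 : St_C2) : St_C3 := by
  intro K _ _ P E hP hPn hE s hs t ht
  have hds := h2 K P E hP hPn hE s hs
  have hdt := h2 K P E hP hPn hE t ht
  -- a common statement
  have key : (Near P (1 / 2) s t ∨ Anti P (1 / 2) s t) →
      (Near P (1 / 25) s t ∧ Anti P (1 / 25) s t) ∨
      ((∃ F : C(K, ℝ), ‖F‖ ≤ 1 ∧ 1 - 1 / 50 ≤ P F s) ∧
        (Near P (1 / 25) s t ∨ Anti P (1 / 25) s t)) := by
    intro h
    rcases hds with hs1 | ⟨F, hF, hFs⟩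
    · rcases hdt with ht1 | ⟨F, hF, hFt⟩
      · left
        constructor
        · intro G hG
          have a1 := hs1 G hG
          have a2 := ht1 G hG
          rw [abs_le] at a1 a2 ⊢
          constructor <;> linarith [a1.1, a1.2, a2.1, a2.2]
        · intro G hG
          have a1 := hs1 G hG
          have a2 := ht1 G hG
          rw [abs_le] at a1 a2 ⊢
          constructor <;> linarith [a1.1, a1.2, a2.1, a2.2]
      · exfalso
        have a1 := hs1 F hF
        rw [abs_le] at a1
        rcases h with h | h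
        · have := h F hF
          rw [abs_le] at this
          linarith [this.1, this.2, a1.1, a1.2]
        · have := h F hF
          rw [abs_le] at this
          linarith [this.1, this.2, a1.1, a1.2]
    · right
      refine ⟨⟨F, hF, hFs⟩, ?_⟩
      obtain ⟨u, hus, hut⟩ := C3_meet h1 P E hE s t hs ht F hF hFs h
      rcases hus with hus | hus <;> rcases hut with hut | hut
      · left
        intro G hG
        have a1 := hus G hG
        have a2 := hut G hG
        rw [abs_le] at a1 a2 ⊢
        constructor <;> linarith [a1.1, a1.2, a2.1, a2.2]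
      · right
        intro G hG
        have a1 := hus G hG
        have a2 := hut G hG
        rw [abs_le] at a1 a2 ⊢
        constructor <;> linarith [a1.1, a1.2, a2.1, a2.2]
      · right
        intro G hG
        have a1 := hus G hG
        have a2 := hut G hG
        rw [abs_le] at a1 a2 ⊢
        constructor <;> linarith [a1.1, a1.2, a2.1, a2.2]
      · left
        intro G hG
        have a1 := hus G hG
        have a2 := hut G hG
        rw [abs_le] at a1 a2 ⊢
        constructor <;> linarith [a1.1, a1.2, a2.1, a2.2]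
  constructor
  · intro h
    rcases key (Or.inl h) with h3 | ⟨⟨F, hF, hFs⟩, h3 | h3⟩
    · exact h3.1
    · exact h3
    · exfalso
      have a1 := h F hF
      have a2 := h3 F hF
      rw [abs_le] at a1 a2
      linarith [a1.1, a1.2, a2.1, a2.2]
  · intro h
    rcases key (Or.inr h) with h3 | ⟨⟨F, hF, hFs⟩, h3 | h3⟩
    · exact h3.2
    · exfalso
      have a1 := h F hF
      have a2 := h3 F hF
      rw [abs_le] at a1 a2
      linarith [a1.1, a1.2, a2.1, a2.2]
    · exact h3

end Pool.NC
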