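import Mathlib
import Pool.Agent.Work.MP_052a41_nc.DefsBC

/-! C6: functions with small oscillation on the classes of a closed signed equivalence relation are
close to functions compatible with it (MP_052a41_nc). -/

set_option autoImplicit false

open Topology

namespace Pool.NC

/-- the image of a normal space under a closed continuous surjection is normal -/
theorem C6_normal {X Y : Type} [TopologicalSpace X] [TopologicalSpace Y] [NormalSpace X]
    (f : X → Y) (hc : Continuous f) (hcl : IsClosedMap f) (hs : Function.Surjective f) :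
    NormalSpace Y where
  normal s t hsc htc hd := by
    obtain ⟨u, v, hu, hv, hsu, htv, huv⟩ := normal_separation (hsc.preimage hc) (htc.preimage hc)
      (hd.preimage f)
    refine ⟨(f '' uᶜ)ᶜ, (f '' vᶜ)ᶜ, (hcl _ hu.isClosed_compl).isOpen_compl,
      (hcl _ hv.isClosed_compl).isOpen_compl, ?_, ?_, ?_⟩
    · rintro y hy ⟨x, hx, rfl⟩
      exact hx (hsu hy)
    · rintro y hy ⟨x, hx, rfl⟩
      exact hx (htv hy)
    · rw [Set.disjoint_left]
      intro y hy hy'
      obtain ⟨x, rfl⟩ := hs y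
      have h1 : x ∈ u := by
        by_contra h
        exact hy ⟨x, h, rfl⟩
      have h2 : x ∈ v := by
        by_contra h
        exact hy' ⟨x, h, rfl⟩
      exact Set.disjoint_left.1 huv h1 h2

/-- staircase -/
theorem C6_stair (δ : ℝ) (hδ : 0 < δ) (u : ℕ → ℝ) (y : ℝ) (hu0 : ∀ k, 0 ≤ u k)
    (hu1 : ∀ k, u k ≤ 1) (h0 : ∀ k : ℕ, y ≤ k * δ → u k = 0)
    (h1 : ∀ k : ℕ, (k + 1) * δ ≤ y → u k = 1) (m : ℕ) (hy : 0 ≤ y) (hym : y ≤ m * δ) :
    |δ * ∑ k ∈ Finset.range m, u k - y| ≤ δ := by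
  induction m with
  | zero =>
    have : y = 0 := by
      rw [Nat.cast_zero, zero_mul] at hym
      linarith
    rw [this, Finset.range_zero, Finset.sum_empty, mul_zero, sub_zero, abs_zero]
    exact hδ.le
  | succ m ih =>
    rw [Finset.sum_range_succ]
    rcases le_or_gt y (m * δ) with h | h
    · rw [h0 m h, add_zero]
      exact ih h
    · have h2 : ∑ k ∈ Finset.range m, u k = m := by
        rw [Finset.sum_congr rfl (g := fun _ => (1 : ℝ)) fun k hk => ?_]
        · simp
        · apply h1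
          rw [Finset.mem_range] at hk
          have h3 : (k : ℝ) + 1 ≤ m := by exact_mod_cast hk
          nlinarith
      rw [h2]
      have h3 := hu0 m
      have h4 := hu1 m
      push_cast at hym
      rw [abs_le]
      constructor <;> nlinarith

/-- the relation on the signed points -/
def C6rel {T : Type} (N A : T → T → Prop) (x y : T × Bool) : Prop :=
  (x.2 = y.2 ∧ N x.1 y.1) ∨ (x.2 ≠ y.2 ∧ A x.1 y.1)

theorem C6_equiv {T : Type} [TopologicalSpace T] {N A : T → T → Prop} (h : SymRel N A) :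
    Equivalence (C6rel N A) where
  refl x := Or.inl ⟨rfl, h.nref _⟩
  symm := by
    rintro ⟨s, e⟩ ⟨t, e'⟩ (⟨h1, h2⟩ | ⟨h1, h2⟩)
    · exact Or.inl ⟨h1.symm, h.nsymm _ _ h2⟩
    · exact Or.inr ⟨fun h3 => h1 h3.symm, h.asymm _ _ h2⟩
  trans := by
    rintro ⟨s, e⟩ ⟨t, e'⟩ ⟨u, e''⟩ (⟨h1, h2⟩ | ⟨h1, h2⟩) (⟨h3, h4⟩ | ⟨h3, h4⟩)
    · exact Or.inl ⟨h1.trans h3, h.nn _ _ _ h2 h4⟩
    · exact Or.inr ⟨fun h5 => h3 (h1.symm.trans h5), h.na _ _ _ h2 h4⟩
    · exact Or.inr ⟨fun h5 => h1 (h5.trans h3.symm),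
        h.asymm _ _ (h.na _ _ _ (h.nsymm _ _ h4) (h.asymm _ _ h2))⟩
    · refine Or.inl ⟨?_, h.aa _ _ _ h2 h4⟩
      change e = e''
      change e ≠ e' at h1
      change e' ≠ e'' at h3
      cases e <;> cases e' <;> cases e'' <;> simp_all

theorem C6_closed {T : Type} [TopologicalSpace T] {N A : T → T → Prop} (h : SymRel N A) :
    IsClosed {p : (T × Bool) × (T × Bool) | C6rel N A p.1 p.2} := by
  have e1 : Continuous fun p : (T × Bool) × (T × Bool) => (p.1.1, p.2.1) := by fun_prop
  have e2 : Continuous fun p : (T × Bool) × (T × Bool) => p.1.2 := by fun_prop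
  have e3 : Continuous fun p : (T × Bool) × (T × Bool) => p.2.2 := by fun_prop
  have h1 : IsClosed {p : (T × Bool) × (T × Bool) | p.1.2 = p.2.2 ∧ N p.1.1 p.2.1} :=
    (isClosed_eq e2 e3).inter (h.nclosed.preimage e1)
  have h2 : IsClosed {p : (T × Bool) × (T × Bool) | p.1.2 ≠ p.2.2 ∧ A p.1.1 p.2.1} := by
    have h3 : {p : (T × Bool) × (T × Bool) | p.1.2 ≠ p.2.2} = {p | p.1.2 = !p.2.2} := by
      ext ⟨⟨s, e⟩, ⟨t, e'⟩⟩
      cases e <;> cases e' <;> simp
    have h4 : IsClosed {p : (T × Bool) × (T × Bool) | p.1.2 ≠ p.2.2} := by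
      rw [h3]
      exact isClosed_eq e2 ((continuous_of_discreteTopology (f := fun b : Bool => !b)).comp e3)
    exact h4.inter (h.aclosed.preimage e1)
  exact h1.union h2

/-- a closed equivalence relation on a compact Hausdorff space has a closed quotient map -/
theorem C6_closedMap {X : Type} [TopologicalSpace X] [CompactSpace X] [T2Space X] (S : Setoid X)
    (h : IsClosed {p : X × X | S p.1 p.2}) : IsClosedMap (Quotient.mk S) := by
  intro F hF
  rw [← isQuotientMap_quotient_mk'.isClosed_preimage]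
  have h1 : Quotient.mk S ⁻¹' (Quotient.mk S '' F) =
      Prod.snd '' ({p : X × X | S p.1 p.2} ∩ Prod.fst ⁻¹' F) := by
    ext x
    constructor
    · rintro ⟨y, hy, hyx⟩
      exact ⟨(y, x), ⟨Quotient.exact hyx, hy⟩, rfl⟩
    · rintro ⟨⟨y, x'⟩, ⟨h1, h2⟩, rfl⟩
      exact ⟨y, h2, Quotient.sound h1⟩
  have h2 : IsClosed (Prod.snd '' ({p : X × X | S p.1 p.2} ∩ Prod.fst ⁻¹' F)) :=
    ((h.inter (hF.preimage continuous_fst)).isCompact.image continuous_snd).isClosed
  rw [← h1] at h2
  exact h2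

theorem C6 : St_C6 := by
  intro T _ _ _ N A hNA f ω δ hω hωδ hN hA
  have hδ : 0 < δ := lt_of_le_of_lt hω hωδ
  let S : Setoid (T × Bool) := ⟨C6rel N A, C6_equiv hNA⟩
  have hcl : IsClosedMap (Quotient.mk S) := C6_closedMap S (C6_closed hNA)
  have hcont : Continuous (Quotient.mk S) := continuous_quotient_mk'
  have hnorm : NormalSpace (Quotient S) := C6_normal _ hcont hcl Quotient.mk_surjective
  -- the signed function
  let F : T × Bool → ℝ := fun x => (if x.2 then f x.1 else -f x.1) + ‖f‖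
  have hFc : Continuous F := by
    have h1 : Continuous fun x : T × Bool => (if x.2 then (1 : ℝ) else -1) :=
      (continuous_of_discreteTopology (f := fun b : Bool => if b then (1 : ℝ) else -1)).comp
        continuous_snd
    have h2 : F = fun x => (if x.2 then (1 : ℝ) else -1) * f x.1 + ‖f‖ := by
      ext ⟨t, e⟩
      cases e <;> simp [F]
    rw [h2]
    exact (h1.mul (f.continuous.comp continuous_fst)).add continuous_const
  have hF0 : ∀ x, 0 ≤ F x := by
    rintro ⟨t, e⟩
    have h1 := f.norm_coe_le_norm t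
    rw [Real.norm_eq_abs, abs_le] at h1
    cases e
    · change 0 ≤ -f t + ‖f‖
      linarith
    · change 0 ≤ f t + ‖f‖
      linarith
  obtain ⟨m, hm⟩ : ∃ m : ℕ, 2 * ‖f‖ ≤ m * δ := by
    obtain ⟨m, hm⟩ := exists_nat_ge (2 * ‖f‖ / δ)
    exact ⟨m, by rwa [div_le_iff₀ hδ] at hm⟩
  have hFm : ∀ x, F x ≤ m * δ := by
    rintro ⟨t, e⟩
    have h1 := f.norm_coe_le_norm t
    rw [Real.norm_eq_abs, abs_le] at h1
    cases e
    · change -f t + ‖f‖ ≤ _
      linarith
    · change f t + ‖f‖ ≤ _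
      linarith
  have hosc : ∀ x y, C6rel N A x y → |F x - F y| ≤ ω := by
    rintro ⟨s, e⟩ ⟨t, e'⟩ (⟨h1, h2⟩ | ⟨h1, h2⟩)
    · change e = e' at h1
      subst h1
      cases e
      · change |(-f s + ‖f‖) - (-f t + ‖f‖)| ≤ ω
        rw [show (-f s + ‖f‖) - (-f t + ‖f‖) = -(f s - f t) by ring, abs_neg]
        exact hN s t h2
      · change |(f s + ‖f‖) - (f t + ‖f‖)| ≤ ω
        rw [show (f s + ‖f‖) - (f t + ‖f‖) = f s - f t by ring]
        exact hN s t h2
    · change e ≠ e' at h1
      cases e <;> cases e'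
      · exact absurd rfl h1
      · change |(-f s + ‖f‖) - (f t + ‖f‖)| ≤ ω
        rw [show (-f s + ‖f‖) - (f t + ‖f‖) = -(f s + f t) by ring, abs_neg]
        exact hA s t h2
      · change |(f s + ‖f‖) - (-f t + ‖f‖)| ≤ ω
        rw [show (f s + ‖f‖) - (-f t + ‖f‖) = f s + f t by ring]
        exact hA s t h2
      · exact absurd rfl h1
  -- Urysohn functions
  have hU : ∀ k : ℕ, ∃ w : C(Quotient S, ℝ),
      Set.EqOn w 0 (Quotient.mk S '' {x | F x ≤ k * δ}) ∧
      Set.EqOn w 1 (Quotient.mk S '' {x | (k + 1) * δ ≤ F x}) ∧ ∀ x, w x ∈ Set.Icc (0 : ℝ) 1 := by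
    intro k
    refine exists_continuous_zero_one_of_isClosed (hcl _ (isClosed_le hFc continuous_const))
      (hcl _ (isClosed_le continuous_const hFc)) ?_
    rw [Set.disjoint_left]
    rintro _ ⟨x, hx, rfl⟩ ⟨y, hy, hxy⟩
    have h1 : C6rel N A y x := Quotient.exact hxy
    have h2 := hosc y x h1
    have hx' : F x ≤ k * δ := hx
    have hy' : (k + 1) * δ ≤ F y := hy
    have h3 := le_abs_self (F y - F x)
    nlinarith
  choose w hw0 hw1 hw using hU
  let W : C(Quotient S, ℝ) := δ • ∑ k ∈ Finset.range m, w k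
  have hW : ∀ x : T × Bool, |W (Quotient.mk S x) - F x| ≤ δ := by
    intro x
    have h1 : W (Quotient.mk S x) = δ * ∑ k ∈ Finset.range m, w k (Quotient.mk S x) := by
      simp only [W, ContinuousMap.smul_apply, ContinuousMap.sum_apply, smul_eq_mul]
    rw [h1]
    refine C6_stair δ hδ (fun k => w k (Quotient.mk S x)) (F x) (fun k => (hw k _).1)
      (fun k => (hw k _).2) ?_ ?_ m (hF0 x) (hFm x)
    · intro k hk
      exact hw0 k ⟨x, hk, rfl⟩
    · intro k hk
      exact hw1 k ⟨x, hk, rfl⟩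
  let g : C(T, ℝ) :=
    ⟨fun t => (W (Quotient.mk S (t, true)) - W (Quotient.mk S (t, false))) / 2, by
      have h1 : Continuous fun t : T => Quotient.mk S (t, true) := hcont.comp (by fun_prop)
      have h2 : Continuous fun t : T => Quotient.mk S (t, false) := hcont.comp (by fun_prop)
      exact ((W.continuous.comp h1).sub (W.continuous.comp h2)).div_const 2⟩
  refine ⟨g, ⟨?_, ?_⟩, ?_⟩
  · intro s t hst
    have e1 : Quotient.mk S (s, true) = Quotient.mk S (t, true) :=
      Quotient.sound (Or.inl ⟨rfl, hst⟩)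
    have e2 : Quotient.mk S (s, false) = Quotient.mk S (t, false) :=
      Quotient.sound (Or.inl ⟨rfl, hst⟩)
    change (W (Quotient.mk S (s, true)) - W (Quotient.mk S (s, false))) / 2 =
      (W (Quotient.mk S (t, true)) - W (Quotient.mk S (t, false))) / 2
    rw [e1, e2]
  · intro s t hst
    have e1 : Quotient.mk S (s, true) = Quotient.mk S (t, false) :=
      Quotient.sound (Or.inr ⟨by simp, hst⟩)
    have e2 : Quotient.mk S (s, false) = Quotient.mk S (t, true) :=
      Quotient.sound (Or.inr ⟨by simp, hst⟩)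
    change (W (Quotient.mk S (s, true)) - W (Quotient.mk S (s, false))) / 2 =
      -((W (Quotient.mk S (t, true)) - W (Quotient.mk S (t, false))) / 2)
    rw [e1, e2]
    ring
  · intro t
    have h1 := hW (t, true)
    have h2 := hW (t, false)
    change |W (Quotient.mk S (t, true)) - (f t + ‖f‖)| ≤ δ at h1
    change |W (Quotient.mk S (t, false)) - (-f t + ‖f‖)| ≤ δ at h2
    change |f t - (W (Quotient.mk S (t, true)) - W (Quotient.mk S (t, false))) / 2| ≤ δ
    rw [abs_le] at h1 h2 ⊢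
    constructor <;> linarith

end Pool.NC
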