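import Pool.Agent.Work.MP_052a41_nc.DefsBC

set_option autoImplicit false

open scoped ENNReal Topology
open MeasureTheory

namespace Pool.NC

private lemma C7_iso (X Y : Type) [NormedAddCommGroup X] [NormedSpace ℝ X] [CompleteSpace X]
    [NormedAddCommGroup Y] [NormedSpace ℝ Y] (S : X →ₗ[ℝ] Y) (C c : ℝ) (hc : 0 < c)
    (h1 : ∀ x, ‖S x‖ ≤ C * ‖x‖) (h2 : ∀ x, ‖x‖ ≤ c * ‖S x‖)
    (h3 : ∀ y, ∃ x, ‖y - S x‖ ≤ ‖y‖ / 2) : Nonempty (Y ≃L[ℝ] X) := by
  have hinj : Function.Injective S := by
    rw [injective_iff_map_eq_zero]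
    intro x hx
    have := h2 x
    rw [hx, norm_zero, mul_zero] at this
    exact norm_le_zero_iff.1 this
  have hcl : IsClosed ((LinearMap.range S : Submodule ℝ Y) : Set Y) := by
    have ha : AntilipschitzWith (Real.toNNReal c) S :=
      AddMonoidHomClass.antilipschitz_of_bound S (by
        intro x
        rw [Real.coe_toNNReal c hc.le]
        exact h2 x)
    have hu : UniformContinuous S := by
      have := (LinearMap.mkContinuous S C h1).uniformContinuous
      exact this
    have := ha.isClosed_range hu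
    rwa [← LinearMap.coe_range] at this
  have hsur : Function.Surjective S := by
    by_contra hcon
    rw [Function.Surjective] at hcon
    push Not at hcon
    obtain ⟨y0, hy0⟩ := hcon
    obtain ⟨x0, hx0, hx⟩ := riesz_lemma (F := LinearMap.range S) hcl
      ⟨y0, fun ⟨x, hx⟩ => hy0 x hx⟩ (r := 3 / 4) (by norm_num)
    obtain ⟨x, hxx⟩ := h3 x0
    have h4 := hx (S x) ⟨x, rfl⟩
    have h5 : ‖x0‖ ≤ 0 := by linarith
    have h6 : x0 = 0 := norm_le_zero_iff.1 h5
    exact hx0 (by rw [h6]; exact zero_mem _)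
  let L : X ≃ₗ[ℝ] Y := LinearEquiv.ofBijective S ⟨hinj, hsur⟩
  exact ⟨(LinearEquiv.toContinuousLinearEquivOfBounds L C c h1 (by
    intro y
    have := h2 (L.symm y)
    have h4 : S (L.symm y) = y := L.apply_symm_apply y
    rwa [h4] at this)).symm⟩

theorem C7 (h3 : St_C3) (h4 : St_C4) (h6 : St_C6) : St_C7 := by
  intro K _ _ P E hPP hP hE
  have hsymm : SymRel (NR P (closure E)) (AR P (closure E)) := by
    have hN : ∀ {s t : closure E}, NR P (closure E) s t → Near P (1 / 25) (s : K) (t : K) :=
      fun {s t} h => (h3 K P E hPP hP hE s s.2 t t.2).1 h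
    have hA : ∀ {s t : closure E}, AR P (closure E) s t → Anti P (1 / 25) (s : K) (t : K) :=
      fun {s t} h => (h3 K P E hPP hP hE s s.2 t t.2).2 h
    refine ⟨?_, ?_, ?_, ?_, ?_, ?_, ?_, ?_⟩
    · intro t F _
      rw [sub_self, abs_zero]
      norm_num
    · intro s t h F hF
      rw [abs_sub_comm]
      exact h F hF
    · intro s t h F hF
      rw [add_comm]
      exact h F hF
    · intro s t u hst htu F hF
      have a := hN hst F hF
      have b := hN htu F hF
      rw [abs_le] at a b ⊢
      constructor <;> linarith [a.1, a.2, b.1, b.2]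
    · intro s t u hst htu F hF
      have a := hN hst F hF
      have b := hA htu F hF
      rw [abs_le] at a b ⊢
      constructor <;> linarith [a.1, a.2, b.1, b.2]
    · intro s t u hst htu F hF
      have a := hA hst F hF
      have b := hA htu F hF
      rw [abs_le] at a b ⊢
      constructor <;> linarith [a.1, a.2, b.1, b.2]
    · have : {p : closure E × closure E | NR P (closure E) p.1 p.2}
          = ⋂ F : {F : C(K, ℝ) // ‖F‖ ≤ 1}, {p : closure E × closure E |
            |P (F : C(K, ℝ)) (p.1 : K) - P (F : C(K, ℝ)) (p.2 : K)| ≤ 1 / 2} := by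
        ext p
        simp only [NR, Near, Set.mem_ofPred_eq, Set.mem_iInter, Subtype.forall]
      rw [this]
      refine isClosed_iInter fun F => ?_
      refine isClosed_le ?_ continuous_const
      exact (((map_continuous (P (F : C(K, ℝ)))).comp
        (continuous_subtype_val.comp continuous_fst)).sub
        ((map_continuous (P (F : C(K, ℝ)))).comp (continuous_subtype_val.comp continuous_snd))).abs
    · have : {p : closure E × closure E | AR P (closure E) p.1 p.2}
          = ⋂ F : {F : C(K, ℝ) // ‖F‖ ≤ 1}, {p : closure E × closure E |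
            |P (F : C(K, ℝ)) (p.1 : K) + P (F : C(K, ℝ)) (p.2 : K)| ≤ 1 / 2} := by
        ext p
        simp only [AR, Anti, Set.mem_ofPred_eq, Set.mem_iInter, Subtype.forall]
      rw [this]
      refine isClosed_iInter fun F => ?_
      refine isClosed_le ?_ continuous_const
      exact (((map_continuous (P (F : C(K, ℝ)))).comp
        (continuous_subtype_val.comp continuous_fst)).add
        ((map_continuous (P (F : C(K, ℝ)))).comp (continuous_subtype_val.comp continuous_snd))).abs
  refine ⟨hsymm, ?_⟩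
  have hcT : CompactSpace (closure E) := isCompact_iff_compactSpace.1 isClosed_closure.isCompact
  -- the extension operator
  obtain ⟨e, he, hen⟩ : ∃ e : C(closure E, ℝ) →ₗ[ℝ] C(K, ℝ),
      (∀ g, ∀ t : closure E, e g t = g t) ∧ ∀ g, ‖e g‖ ≤ ‖g‖ := by
    rcases (closure E).eq_empty_or_nonempty with h | h
    · refine ⟨0, ?_, ?_⟩
      · intro g t
        have h5 : (t : K) ∈ (∅ : Set K) := h.subset t.2
        exact absurd h5 (Set.notMem_empty _)
      · intro g
        rw [LinearMap.zero_apply, norm_zero]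
        exact norm_nonneg g
    · exact h4 K (closure E) h
  obtain ⟨W, hW⟩ : ∃ W, W = WNA (NR P (closure E)) (AR P (closure E)) := ⟨_, rfl⟩
  rw [← hW]
  -- near isometry on the unit ball
  have key1 : ∀ g ∈ W, ‖g‖ ≤ 1 → ∀ t : closure E, |P (e g) t - g t| ≤ 1 / 200 := by
    intro g hg hg1 t
    have hg' := hg
    rw [hW] at hg'
    obtain ⟨gN, gA⟩ := hg'
    have hcl : IsClosed {t : closure E | |P (e g) t - g t| ≤ 1 / 200} := by
      refine isClosed_le ?_ continuous_const
      exact (((map_continuous (P (e g))).comp continuous_subtype_val).sub (map_continuous g)).abs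
    have hsub : (Subtype.val ⁻¹' E : Set (closure E)) ⊆
        {t : closure E | |P (e g) t - g t| ≤ 1 / 200} := by
      intro s hs
      refine hE.cl s hs (e g) (g s) ((hen g).trans hg1) ?_ ?_ ?_
      · exact (ContinuousMap.norm_coe_le_norm g s).trans hg1
      · intro u hu hus
        have h5 := he g ⟨u, subset_closure hu⟩
        rw [h5]
        refine gN _ _ ?_
        intro F hF
        exact (hus F hF).trans (by norm_num)
      · intro u hu hus
        have h5 := he g ⟨u, subset_closure hu⟩
        rw [h5]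
        refine gA _ _ ?_
        intro F hF
        exact (hus F hF).trans (by norm_num)
    have ht : t ∈ closure (Subtype.val ⁻¹' E : Set (closure E)) := by
      rw [closure_subtype, Subtype.image_preimage_coe,
        Set.inter_eq_right.2 (subset_closure (s := E))]
      exact t.2
    exact closure_minimal hsub hcl ht
  have key : ∀ g ∈ W, ∀ t : closure E, |P (e g) t - g t| ≤ ‖g‖ / 200 := by
    intro g hg t
    by_cases hg0 : g = 0
    · rw [hg0, map_zero, map_zero]
      simp
    have hpos : 0 < ‖g‖ := norm_pos_iff.2 hg0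
    have h5 := key1 (‖g‖⁻¹ • g) (W.smul_mem _ hg) (by
      rw [norm_smul, norm_inv, norm_norm, inv_mul_cancel₀ hpos.ne']) t
    rw [map_smul, map_smul, ContinuousMap.smul_apply, ContinuousMap.smul_apply, smul_eq_mul,
      smul_eq_mul, ← mul_sub, abs_mul, abs_inv, abs_norm, inv_mul_le_iff₀ hpos] at h5
    linarith
  have hcomp : CompleteSpace W := by
    have hclosed : IsClosed (W : Set C(closure E, ℝ)) := by
      have : (W : Set C(closure E, ℝ)) =
          (⋂ p : {p : closure E × closure E // NR P (closure E) p.1 p.2},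
            {g : C(closure E, ℝ) | g p.1.1 = g p.1.2}) ∩
          (⋂ p : {p : closure E × closure E // AR P (closure E) p.1 p.2},
            {g : C(closure E, ℝ) | g p.1.1 = - g p.1.2}) := by
        ext g
        rw [hW]
        simp only [Set.mem_inter_iff, Set.mem_iInter, Set.mem_ofPred_eq]
        constructor
        · rintro ⟨h5, h6⟩
          exact ⟨fun p => h5 _ _ p.2, fun p => h6 _ _ p.2⟩
        · rintro ⟨h5, h6⟩
          exact ⟨fun s t hst => h5 ⟨(s, t), hst⟩, fun s t hst => h6 ⟨(s, t), hst⟩⟩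
      rw [this]
      refine IsClosed.inter (isClosed_iInter fun p => ?_) (isClosed_iInter fun p => ?_)
      · exact isClosed_eq (continuous_eval_const _)
          (continuous_eval_const _)
      · exact isClosed_eq (continuous_eval_const _)
          (continuous_eval_const _).neg
    exact hclosed.completeSpace_coe
  have hfix : ∀ f : Rg P, P (f : C(K, ℝ)) = f := by
    rintro ⟨f, h, rfl⟩
    exact DFunLike.congr_fun hPP h
  let S : W →ₗ[ℝ] Rg P := ((P : C(K, ℝ) →ₗ[ℝ] C(K, ℝ)).rangeRestrict).comp (e.comp W.subtype)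
  have hS : ∀ g : W, ((S g : Rg P) : C(K, ℝ)) = P (e g) := fun g => rfl
  refine C7_iso W (Rg P) S (1 + 1 / 200) 2 (by norm_num) ?_ ?_ ?_
  · intro g
    rw [Submodule.coe_norm, hS, Submodule.coe_norm]
    refine (P.le_opNorm _).trans ?_
    exact mul_le_mul hP (hen _) (norm_nonneg _) (by norm_num)
  · intro g
    have h5 : ‖(g : C(closure E, ℝ))‖ ≤ ‖P (e g)‖ + ‖(g : C(closure E, ℝ))‖ / 200 := by
      rw [ContinuousMap.norm_le _ (by positivity)]
      intro t
      have h6 := key g g.2 t
      have h7 : |P (e g) t| ≤ ‖P (e g)‖ := ContinuousMap.norm_coe_le_norm (P (e g)) (t : K)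
      rw [Real.norm_eq_abs]
      rw [abs_le] at h6 h7 ⊢
      constructor <;> linarith [h6.1, h6.2, h7.1, h7.2]
    rw [Submodule.coe_norm, Submodule.coe_norm, hS]
    linarith [norm_nonneg (P (e g))]
  · intro f
    obtain ⟨f0, hf0'⟩ : ∃ f0 : C(K, ℝ), f0 = (f : C(K, ℝ)) := ⟨_, rfl⟩
    have hfx : P f0 = f0 := by
      rw [hf0']
      exact hfix f
    by_cases hf0 : f0 = 0
    · refine ⟨0, ?_⟩
      have h5 : f = 0 := Subtype.ext (hf0'.symm.trans hf0)
      rw [h5, map_zero, sub_self]
      simp
    have hpos : 0 < ‖f0‖ := norm_pos_iff.2 hf0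
    have hscale : ‖(‖f0‖⁻¹ • f0)‖ ≤ 1 := by
      rw [norm_smul, norm_inv, norm_norm, inv_mul_cancel₀ hpos.ne']
    have hPs : P (‖f0‖⁻¹ • f0) = ‖f0‖⁻¹ • f0 := by
      rw [map_smul, hfx]
    have osc1 : ∀ s t : closure E, NR P (closure E) s t →
        |f0 s - f0 t| ≤ ‖f0‖ / 25 := by
      intro s t hst
      have h5 := (h3 K P E hPP hP hE s s.2 t t.2).1 hst _ hscale
      rw [hPs, ContinuousMap.smul_apply, ContinuousMap.smul_apply, smul_eq_mul, smul_eq_mul,
        ← mul_sub, abs_mul, abs_inv, abs_norm, inv_mul_le_iff₀ hpos] at h5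
      linarith
    have osc2 : ∀ s t : closure E, AR P (closure E) s t →
        |f0 s + f0 t| ≤ ‖f0‖ / 25 := by
      intro s t hst
      have h5 := (h3 K P E hPP hP hE s s.2 t t.2).2 hst _ hscale
      rw [hPs, ContinuousMap.smul_apply, ContinuousMap.smul_apply, smul_eq_mul, smul_eq_mul,
        ← mul_add, abs_mul, abs_inv, abs_norm, inv_mul_le_iff₀ hpos] at h5
      linarith
    obtain ⟨g, hgW, hg⟩ := h6 (closure E) (NR P (closure E)) (AR P (closure E)) hsymm
      (f0.comp ⟨Subtype.val, continuous_subtype_val⟩) (‖f0‖ / 25) (‖f0‖ / 20)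
      (by positivity) (by linarith) osc1 osc2
    have hg' : ∀ t : closure E, |f0 t - g t| ≤ ‖f0‖ / 20 := hg
    rw [← hW] at hgW
    refine ⟨⟨g, hgW⟩, ?_⟩
    have hgn : ‖g‖ ≤ ‖f0‖ + ‖f0‖ / 20 := by
      rw [ContinuousMap.norm_le _ (by positivity)]
      intro t
      have h5 := hg' t
      have h7 : |f0 t| ≤ ‖f0‖ := ContinuousMap.norm_coe_le_norm f0 (t : K)
      rw [Real.norm_eq_abs]
      rw [abs_le] at h5 h7 ⊢
      constructor <;> linarith [h5.1, h5.2, h7.1, h7.2]
    have hPg : P (P (e g)) = P (e g) := DFunLike.congr_fun hPP (e g)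
    have hnorm := hE.norming (f0 - P (e g)) (by rw [map_sub, hfx, hPg]) (‖f0‖ / 4)
      (by positivity) (by
        intro t ht
        have h5 := hg' ⟨t, subset_closure ht⟩
        have h7 := key g hgW ⟨t, subset_closure ht⟩
        simp only at h5 h7
        rw [ContinuousMap.sub_apply]
        rw [abs_le] at h5 h7 ⊢
        constructor <;> linarith [h5.1, h5.2, h7.1, h7.2])
    change ‖((f - S ⟨g, hgW⟩ : Rg P) : C(K, ℝ))‖ ≤ ‖(f : C(K, ℝ))‖ / 2
    rw [Submodule.coe_sub, hS, ← hf0']
    linarith

end Pool.NC
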