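import Pool.Agent.Work.MP_052a41_nc.DefsBC

/-! Block C8 of MP_052a41_an: countably many classes. -/

set_option autoImplicit false

namespace Pool.NC

theorem C8_net (V : Type) [NormedAddCommGroup V] [NormedSpace ℝ V]
    (h : TopologicalSpace.SeparableSpace (StrongDual ℝ V)) (T : Type) (hT : Nonempty T)
    (l : T → StrongDual ℝ V) (δ : ℝ) (hδ : 0 < δ) :
    ∃ u : ℕ → T, ∀ t : T, ∃ n, ∀ f : V, |l t f - l (u n) f| ≤ δ * ‖f‖ := by
  have h0 : SecondCountableTopology (StrongDual ℝ V) :=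
    UniformSpace.secondCountable_of_separable _
  have h1 : Nonempty (Set.range l) := ⟨⟨l hT.some, Set.mem_range_self _⟩⟩
  obtain ⟨v, hv⟩ := TopologicalSpace.exists_dense_seq (Set.range l)
  choose u hu using fun n => (v n).2
  refine ⟨u, fun t => ?_⟩
  obtain ⟨w, hw, ⟨n, hn⟩⟩ := Metric.dense_iff.1 hv ⟨l t, Set.mem_range_self t⟩ _ hδ
  refine ⟨n, fun f => ?_⟩
  subst hn
  have h2 : ‖l t - l (u n)‖ ≤ δ := by
    have h3 := Metric.mem_ball.1 hw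
    rw [Subtype.dist_eq, dist_comm, dist_eq_norm] at h3
    rw [hu n]
    exact h3.le
  have h4 := (l t - l (u n)).le_opNorm f
  rw [sub_apply, Real.norm_eq_abs] at h4
  exact h4.trans (mul_le_mul_of_nonneg_right h2 (norm_nonneg f))

theorem C8 : St_C8 := by
  intro K _ _ P T hT _ hsep τ hτ
  have hpos : 0 < τ / (‖P‖ + 1) := div_pos hτ (by positivity)
  obtain ⟨u, hu⟩ := C8_net (Rg P) hsep T hT.to_subtype
    (fun t : T => ContinuousLinearMap.comp (ContinuousMap.evalCLM ℝ (t : K)) (Rg P).subtypeL)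
    (τ / (‖P‖ + 1)) hpos
  refine ⟨u, fun t => ?_⟩
  obtain ⟨n, hn⟩ := hu t
  refine ⟨n, fun F hF => ?_⟩
  have h1 := hn ⟨P F, ⟨F, rfl⟩⟩
  have h2 : |P F (t : K) - P F (u n : K)| ≤ τ / (‖P‖ + 1) * ‖P F‖ := h1
  have h3 : ‖P F‖ ≤ ‖P‖ + 1 := by
    calc ‖P F‖ ≤ ‖P‖ * ‖F‖ := P.le_opNorm F
      _ ≤ ‖P‖ * 1 := mul_le_mul_of_nonneg_left hF P.opNorm_nonneg
      _ ≤ ‖P‖ + 1 := by linarith
  calc |P F (t : K) - P F (u n : K)| ≤ τ / (‖P‖ + 1) * ‖P F‖ := h2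
    _ ≤ τ / (‖P‖ + 1) * (‖P‖ + 1) := mul_le_mul_of_nonneg_left h3 hpos.le
    _ = τ := div_mul_cancel₀ _ (by positivity)

end Pool.NC
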