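import Pool.Agent.Work.MP_052a41_nc.DefsBC

set_option autoImplicit false

open scoped ENNReal Topology
open MeasureTheory

namespace Pool.NC

/-- an infinite dimensional space with a countable family of functionals of norm at most one, such
that every vector attains its norm at one of them, is not reflexive -/
private lemma C9_aux (E : Type) [NormedAddCommGroup E] [NormedSpace ℝ E]
    (δ : ℕ → StrongDual ℝ E) (h1 : ∀ n g, |δ n g| ≤ ‖g‖) (h2 : ∀ g, ∃ n, ‖g‖ ≤ |δ n g|)
    (hfin : ¬ FiniteDimensional ℝ E)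
    (hsur : Function.Surjective (NormedSpace.inclusionInDoubleDual ℝ E)) : False := by
  have hfac : ∀ n : ℕ, (0 : ℝ) < (1 / 2) ^ n := fun n => by positivity
  -- the ball
  let B : Set E := {g | ∀ n, (1 + (1 / 2 : ℝ) ^ n) * |δ n g| ≤ 1}
  have hBnorm : ∀ g ∈ B, ‖g‖ ≤ 1 := by
    intro g hg
    obtain ⟨n, hn⟩ := h2 g
    have h3 := hg n
    have h4 := abs_nonneg (δ n g)
    nlinarith [hfac n]
  have : LocallyConvexSpace ℝ (WeakDual ℝ (StrongDual ℝ E)) :=
    (WeakDual.withSeminorms ℝ (StrongDual ℝ E)).toLocallyConvexSpace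
  let B' : Set (WeakDual ℝ (StrongDual ℝ E)) := {x | ∀ n, (1 + (1 / 2 : ℝ) ^ n) * |x (δ n)| ≤ 1}
  let ι : E → WeakDual ℝ (StrongDual ℝ E) :=
    fun g => StrongDual.toWeakDual (NormedSpace.inclusionInDoubleDual ℝ E g)
  have hι : ∀ (g : E) (l : StrongDual ℝ E), ι g l = l g := fun g l => rfl
  have hιsur : ∀ x : WeakDual ℝ (StrongDual ℝ E), ∃ g : E, ι g = x := by
    intro x
    obtain ⟨g, hg⟩ := hsur (WeakDual.toStrongDual x)
    refine ⟨g, ?_⟩
    change StrongDual.toWeakDual (NormedSpace.inclusionInDoubleDual ℝ E g) = x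
    rw [hg]
    rfl
  have hιinj : ∀ g h : E, ι g = ι h → g = h := by
    intro g h hgh
    obtain ⟨n, hn⟩ := h2 (g - h)
    have h3 := congrArg (fun x : WeakDual ℝ (StrongDual ℝ E) => x (δ n)) hgh
    have h4 : δ n g = δ n h := h3
    rw [map_sub, h4, sub_self, abs_zero] at hn
    exact sub_eq_zero.1 (norm_le_zero_iff.1 hn)
  have hBB' : ∀ g : E, ι g ∈ B' ↔ g ∈ B := fun g => Iff.rfl
  have hclosed : IsClosed B' := by
    have : B' = ⋂ n, {x : WeakDual ℝ (StrongDual ℝ E) | (1 + (1 / 2 : ℝ) ^ n) * |x (δ n)| ≤ 1} := by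
      ext x
      simp [B']
    rw [this]
    refine isClosed_iInter fun n => ?_
    exact isClosed_le (continuous_const.mul (WeakDual.eval_continuous (δ n)).abs)
      continuous_const
  have hcompact : IsCompact B' := by
    refine (WeakDual.isCompact_closedBall (𝕜 := ℝ) (E := StrongDual ℝ E) 0 1).of_isClosed_subset
      hclosed ?_
    intro x hx
    obtain ⟨g, rfl⟩ := hιsur x
    have h1 : ‖g‖ ≤ 1 := hBnorm g ((hBB' g).1 hx)
    rw [Set.mem_preimage, Metric.mem_closedBall, dist_zero_right]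
    change ‖NormedSpace.inclusionInDoubleDual ℝ E g‖ ≤ 1
    exact (NormedSpace.double_dual_bound ℝ E g).trans h1
  have hne : B'.Nonempty := by
    refine ⟨ι 0, (hBB' 0).2 fun n => ?_⟩
    rw [map_zero, abs_zero, mul_zero]
    exact zero_le_one
  obtain ⟨x, hx⟩ := hcompact.extremePoints_nonempty hne
  obtain ⟨y, rfl⟩ := hιsur x
  rw [mem_extremePoints] at hx
  have hyB : y ∈ B := (hBB' y).1 hx.1
  -- the norm of y is less than one
  have hy1 : ‖y‖ < 1 := by
    by_cases hy0 : y = 0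
    · rw [hy0, norm_zero]
      exact zero_lt_one
    have hpos : 0 < ‖y‖ := norm_pos_iff.2 hy0
    obtain ⟨n, hn⟩ := h2 y
    have h3 := hyB n
    nlinarith [hfac n]
  -- large indices
  obtain ⟨n1, hn1⟩ : ∃ n1 : ℕ, ∀ n, n1 ≤ n → (1 + (1 / 2 : ℝ) ^ n) * ‖y‖ ≤ (1 + ‖y‖) / 2 := by
    obtain ⟨n1, hn1⟩ := exists_pow_lt_of_lt_one (show (0 : ℝ) < (1 - ‖y‖) / 2 by linarith)
      (show (1 / 2 : ℝ) < 1 by norm_num)
    refine ⟨n1, fun n hn => ?_⟩
    have h2 : (1 / 2 : ℝ) ^ n ≤ (1 / 2 : ℝ) ^ n1 :=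
      pow_le_pow_of_le_one (by norm_num) (by norm_num) hn
    have h3 := norm_nonneg y
    have h4 : (1 / 2 : ℝ) ^ n * ‖y‖ ≤ (1 / 2 : ℝ) ^ n * 1 :=
      mul_le_mul_of_nonneg_left hy1.le (hfac n).le
    linarith
  -- a vector vanishing at the small indices
  obtain ⟨z, hz0, hz⟩ : ∃ z : E, z ≠ 0 ∧ ∀ n, n < n1 → δ n z = 0 := by
    by_contra hcon
    push Not at hcon
    apply hfin
    let L : E →ₗ[ℝ] (Fin n1 → ℝ) := LinearMap.pi fun n => (δ n).toLinearMap
    have hL : Function.Injective L := by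
      rw [injective_iff_map_eq_zero]
      intro g hg
      by_contra hg0
      obtain ⟨n, hn, hne⟩ := hcon g hg0
      exact hne (congrFun hg ⟨n, hn⟩)
    exact Module.Finite.of_injective L hL
  have hzpos : 0 < ‖z‖ := norm_pos_iff.2 hz0
  obtain ⟨s, hs⟩ : ∃ s : ℝ, s = (1 - ‖y‖) / (4 * ‖z‖) := ⟨_, rfl⟩
  have hspos : 0 < s := by
    rw [hs]
    apply div_pos <;> linarith
  have hsz : s * ‖z‖ = (1 - ‖y‖) / 4 := by
    rw [hs]
    field_simp
  have hmem : ∀ e : ℝ, |e| = s → y + e • z ∈ B := by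
    intro e he n
    rw [map_add, map_smul, smul_eq_mul]
    by_cases hn : n < n1
    · rw [hz n hn, mul_zero, add_zero]
      exact hyB n
    · push Not at hn
      have h3 := hn1 n hn
      have h4 : |δ n y + e * δ n z| ≤ ‖y‖ + s * ‖z‖ := by
        refine (abs_add_le _ _).trans (add_le_add (h1 n y) ?_)
        rw [abs_mul, he]
        exact mul_le_mul_of_nonneg_left (h1 n z) hspos.le
      have h5 : (1 / 2 : ℝ) ^ n ≤ 1 := pow_le_one₀ (by norm_num) (by norm_num)
      have h6 : (1 + (1 / 2 : ℝ) ^ n) * |δ n y + e * δ n z|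
          ≤ (1 + (1 / 2 : ℝ) ^ n) * (‖y‖ + s * ‖z‖) :=
        mul_le_mul_of_nonneg_left h4 (by linarith [hfac n])
      have h7 : (1 + (1 / 2 : ℝ) ^ n) * (s * ‖z‖) ≤ 2 * (s * ‖z‖) :=
        mul_le_mul_of_nonneg_right (by linarith) (by rw [hsz]; linarith)
      rw [mul_add] at h6
      rw [hsz] at h7
      rw [hsz] at h6
      linarith
  have h3 : ι (y + s • z) ∈ B' := (hBB' _).2 (hmem s (abs_of_pos hspos))
  have h4 : ι (y + (-s) • z) ∈ B' := (hBB' _).2 (hmem (-s) (by rw [abs_neg, abs_of_pos hspos]))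
  have hιadd : ∀ a b : ℝ, ∀ g h : E, a • ι g + b • ι h = ι (a • g + b • h) := by
    intro a b g h
    change a • StrongDual.toWeakDual (NormedSpace.inclusionInDoubleDual ℝ E g)
      + b • StrongDual.toWeakDual (NormedSpace.inclusionInDoubleDual ℝ E h)
      = StrongDual.toWeakDual (NormedSpace.inclusionInDoubleDual ℝ E (a • g + b • h))
    rw [map_add, map_add, map_smul, map_smul, map_smul, map_smul]
  have hseg : ι y ∈ openSegment ℝ (ι (y + s • z)) (ι (y + (-s) • z)) := by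
    refine ⟨1 / 2, 1 / 2, by norm_num, by norm_num, by norm_num, ?_⟩
    rw [hιadd]
    congr 1
    rw [smul_add, smul_add, neg_smul, smul_neg]
    have : (1 / 2 : ℝ) • y + (1 / 2 : ℝ) • y = y := by
      rw [← add_smul]
      norm_num
    calc (1 / 2 : ℝ) • y + (1 / 2 : ℝ) • s • z + ((1 / 2 : ℝ) • y + -((1 / 2 : ℝ) • s • z))
        = (1 / 2 : ℝ) • y + (1 / 2 : ℝ) • y := by abel
      _ = y := this
  have h5 := hx.2 _ h3 _ h4 hseg
  have h6 : y + s • z = y := hιinj _ _ h5.1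
  have h7 : s • z = 0 := by
    have := congrArg (fun w => w - y) h6
    simpa using this
  rcases smul_eq_zero.1 h7 with h | h
  · exact hspos.ne' h
  · exact hz0 h

theorem C9 : St_C9 := by
  intro T _ _ W Y u hu hYW hfin hsur
  have hb : ∀ (t : T) (g : Y), ‖(g : C(T, ℝ)) t‖ ≤ 1 * ‖g‖ := by
    intro t g
    rw [one_mul]
    exact ContinuousMap.norm_coe_le_norm (g : C(T, ℝ)) t
  let δ : ℕ → StrongDual ℝ Y := fun n => LinearMap.mkContinuous
    { toFun := fun g : Y => (g : C(T, ℝ)) (u n)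
      map_add' := fun _ _ => rfl
      map_smul' := fun _ _ => rfl } 1 (hb (u n))
  refine C9_aux Y δ ?_ ?_ hfin hsur
  · intro n g
    have := hb (u n) g
    rw [one_mul] at this
    exact this
  · intro y
    by_cases hy0 : y = 0
    · refine ⟨0, ?_⟩
      rw [hy0, norm_zero]
      exact abs_nonneg _
    have hpos : 0 < ‖y‖ := norm_pos_iff.2 hy0
    have hTne : Nonempty T := by
      by_contra hT
      rw [not_nonempty_iff] at hT
      apply hy0
      apply Subtype.ext
      ext t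
      exact hT.elim t
    obtain ⟨t, -, ht⟩ := isCompact_univ.exists_isMaxOn Set.univ_nonempty
      (f := fun t : T => |(y : C(T, ℝ)) t|)
      ((map_continuous (y : C(T, ℝ))).abs.continuousOn)
    have hle : ‖y‖ ≤ |(y : C(T, ℝ)) t| := by
      rw [Submodule.coe_norm, ContinuousMap.norm_le _ (abs_nonneg _)]
      intro s
      exact ht (Set.mem_univ s)
    rcases hu t with h | ⟨n, h⟩
    · rw [h _ (hYW y.2), abs_zero] at hle
      exact absurd hle (not_le.2 hpos)
    · refine ⟨n, ?_⟩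
      rw [h _ (hYW y.2)] at hle
      exact hle

end Pool.NC
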