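import Mathlib
import Pool.Agent.Work.MP_052a41_nc.DefsBC

/-! Final assembly (MP_052a41_nc). -/

set_option autoImplicit false

open scoped ENNReal

namespace Pool.NC

/-- a submodule `Y` of `C(K, ℝ)` below `X` is isomorphic to its image under an isomorphism of `X` with a
submodule `W` of `C(T, ℝ)` -/
theorem image_equiv {K T : Type} [TopologicalSpace K] [TopologicalSpace T] 
    (X : Submodule ℝ C(K, ℝ)) (W : Submodule ℝ C(T, ℝ)) (φ : X ≃L[ℝ] W) (Y : Submodule ℝ C(K, ℝ))
    (hY : Y ≤ X) : ∃ Z : Submodule ℝ C(T, ℝ), Z ≤ W ∧ Nonempty (Y ≃L[ℝ] Z) := by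
  classical
  let Z : Submodule ℝ C(T, ℝ) :=
    Submodule.map (W.subtype ∘ₗ (φ : X →ₗ[ℝ] W)) (Y.submoduleOf X)
  have hZW : Z ≤ W := by
    rintro _ ⟨y, _, rfl⟩
    exact (φ y).2
  have hfwd : ∀ y : Y, ((φ ⟨y.1, hY y.2⟩ : W) : C(T, ℝ)) ∈ Z := fun y =>
    ⟨⟨y.1, hY y.2⟩, y.2, rfl⟩
  have hback : ∀ z : Z, ((φ.symm ⟨z.1, hZW z.2⟩ : X) : C(K, ℝ)) ∈ Y := by
    rintro ⟨_, y, hy, rfl⟩
    have : φ.symm ⟨(W.subtype ∘ₗ (φ : X →ₗ[ℝ] W)) y, hZW ⟨y, hy, rfl⟩⟩ = y := by
      apply φ.injective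
      rw [φ.apply_symm_apply]
      rfl
    rw [this]
    exact hy
  refine ⟨Z, hZW, ⟨?_⟩⟩
  refine
    { toFun := fun y => ⟨(φ ⟨y.1, hY y.2⟩ : W), hfwd y⟩
      map_add' := fun a b => by
        apply Subtype.ext
        exact congrArg (fun w : W => (w : C(T, ℝ)))
          (map_add φ (⟨a.1, hY a.2⟩ : X) (⟨b.1, hY b.2⟩ : X))
      map_smul' := fun c a => by
        apply Subtype.ext
        exact congrArg (fun w : W => (w : C(T, ℝ))) (map_smul φ c (⟨a.1, hY a.2⟩ : X))
      invFun := fun z => ⟨(φ.symm ⟨z.1, hZW z.2⟩ : X), hback z⟩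
      left_inv := fun y => by
        apply Subtype.ext
        show ((φ.symm ⟨((φ ⟨y.1, hY y.2⟩ : W) : C(T, ℝ)), _⟩ : X) : C(K, ℝ)) = y.1
        have : φ.symm ⟨((φ ⟨y.1, hY y.2⟩ : W) : C(T, ℝ)), (φ ⟨y.1, hY y.2⟩).2⟩ =
            ⟨y.1, hY y.2⟩ := by
          rw [Subtype.coe_eta, φ.symm_apply_apply]
        rw [this]
      right_inv := fun z => by
        apply Subtype.ext
        show ((φ ⟨((φ.symm ⟨z.1, hZW z.2⟩ : X) : C(K, ℝ)), _⟩ : W) : C(T, ℝ)) = z.1
        have : φ ⟨((φ.symm ⟨z.1, hZW z.2⟩ : X) : C(K, ℝ)), (φ.symm ⟨z.1, hZW z.2⟩).2⟩ =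
            ⟨z.1, hZW z.2⟩ := by
          rw [Subtype.coe_eta, φ.apply_symm_apply]
        rw [this]
      continuous_toFun := by
        apply Continuous.subtype_mk
        exact continuous_subtype_val.comp (φ.continuous.comp (continuous_subtype_val.subtype_mk _))
      continuous_invFun := by
        apply Continuous.subtype_mk
        exact continuous_subtype_val.comp
          (φ.symm.continuous.comp (continuous_subtype_val.subtype_mk _)) }

theorem Final (hB3 : St_B3) (hC7 : St_C7) (hC8 : St_C8) (hC9 : St_C9) (hC10 : St_C10)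
    (hC11 : St_C11) (hC12 : St_C12) : St_Final := by
  obtain ⟨η, hη, HB⟩ := hB3
  refine ⟨1 + min η (1 / 200), by have : 0 < min η (1 / 200) := by positivity
                                  linarith, ?_⟩
  intro K _ _ P hP hPn hsep
  have h1 : ‖P‖ ≤ 1 + η := hPn.trans (by have := min_le_left η (1 / 200 : ℝ); linarith)
  have h2 : ‖P‖ ≤ 1 + 1 / 200 := hPn.trans (by have := min_le_right η (1 / 200 : ℝ); linarith)
  obtain ⟨E, hE⟩ := HB K P hP h1 hsep
  rcases Set.eq_empty_or_nonempty (closure E) with hemp | hne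
  · -- the range is zero
    have hE0 : E = ∅ := by simpa using hemp
    have hz : ∀ f ∈ Rg P, f = 0 := by
      rintro f ⟨g, rfl⟩
      have hPP : P (P g) = P g := by
        have := DFunLike.congr_fun hP g
        simpa using this
      have := hE.norming (P g) hPP 0 le_rfl (by simp [hE0])
      have h0 : ‖P g‖ = 0 := le_antisymm (by simpa using this) (norm_nonneg _)
      exact norm_eq_zero.1 h0
    refine ⟨⟨Empty, inferInstance, inferInstance, inferInstance, inferInstance, ⟨?_⟩⟩, ?_⟩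
    · haveI : Subsingleton (Rg P) :=
        ⟨fun a b => Subtype.ext ((hz a a.2).trans (hz b b.2).symm)⟩
      haveI : Subsingleton C(Empty, ℝ) := ⟨fun a b => by ext x; exact x.elim⟩
      exact
        { toFun := fun _ => 0
          map_add' := fun a b => Subsingleton.elim _ _
          map_smul' := fun a b => Subsingleton.elim _ _
          invFun := fun _ => 0
          left_inv := fun a => Subsingleton.elim _ _
          right_inv := fun a => Subsingleton.elim _ _
          continuous_toFun := continuous_const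
          continuous_invFun := continuous_const }
    · intro Y hY hfin
      exfalso
      apply hfin
      have : Y = ⊥ := by
        rw [eq_bot_iff]
        intro y hy
        exact hz y (hY hy)
      subst this
      infer_instance
  · have : CompactSpace (closure E) := isCompact_iff_compactSpace.1 isClosed_closure.isCompact
    obtain ⟨hS, ⟨φ⟩⟩ := hC7 K P E hP h2 hE
    obtain ⟨u, hu⟩ := hC8 K P (closure E) hne hP hsep (1 / 2) (by norm_num)
    obtain ⟨L, _, hL1, hL2, hL3, ⟨ψ⟩⟩ := hC11 (closure E) _ _ hS ⟨u, hu⟩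
    obtain ⟨L', _, _, hL4, hL5, ⟨χ⟩⟩ := hC12 L hL1 hL2 hL3
    refine ⟨⟨L', inferInstance, inferInstance, hL4, hL5,
      ⟨(φ.trans ψ.toContinuousLinearEquiv).trans χ⟩⟩, ?_⟩
    intro Y hY hfin hsurj
    obtain ⟨Z, hZW, ⟨e⟩⟩ := image_equiv (Rg P) (WNA (NR P (closure E)) (AR P (closure E))) φ Y hY
    refine hC9 (closure E) (WNA (NR P (closure E)) (AR P (closure E))) Z u ?_ hZW ?_
      (hC10 Y Z e hsurj)
    · intro t
      obtain ⟨n, hn⟩ := hu t
      exact Or.inr ⟨n, fun g hg => by rw [hg.1 t (u n) hn]⟩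
    · intro hfinZ
      exact hfin (e.toLinearEquiv.symm.finiteDimensional)

end Pool.NC
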