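import Mathlib
import Pool.Agent.Work.MP_052a41_nc.A1
import Pool.Agent.Work.MP_052a41_nc.A2
import Pool.Agent.Work.MP_052a41_nc.A3
import Pool.Agent.Work.MP_052a41_nc.A3p
import Pool.Agent.Work.MP_052a41_nc.A4
import Pool.Agent.Work.MP_052a41_nc.A5
import Pool.Agent.Work.MP_052a41_nc.A6
import Pool.Agent.Work.MP_052a41_nc.A7
import Pool.Agent.Work.MP_052a41_nc.A8a
import Pool.Agent.Work.MP_052a41_nc.A8b
import Pool.Agent.Work.MP_052a41_nc.A9
import Pool.Agent.Work.MP_052a41_nc.A10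
import Pool.Agent.Work.MP_052a41_nc.A11
import Pool.Agent.Work.MP_052a41_nc.A12
import Pool.Agent.Work.MP_052a41_nc.A13
import Pool.Agent.Work.MP_052a41_nc.A14
import Pool.Agent.Work.MP_052a41_nc.B0
import Pool.Agent.Work.MP_052a41_nc.B1
import Pool.Agent.Work.MP_052a41_nc.B2
import Pool.Agent.Work.MP_052a41_nc.B3
import Pool.Agent.Work.MP_052a41_nc.C1
import Pool.Agent.Work.MP_052a41_nc.C2
import Pool.Agent.Work.MP_052a41_nc.C3
import Pool.Agent.Work.MP_052a41_nc.C4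
import Pool.Agent.Work.MP_052a41_nc.C6
import Pool.Agent.Work.MP_052a41_nc.C7
import Pool.Agent.Work.MP_052a41_nc.C8
import Pool.Agent.Work.MP_052a41_nc.C9
import Pool.Agent.Work.MP_052a41_nc.C10
import Pool.Agent.Work.MP_052a41_nc.C11
import Pool.Agent.Work.MP_052a41_nc.C12
import Pool.Agent.Work.MP_052a41_nc.Final

/-! All blocks together (MP_052a41_nc). -/

set_option autoImplicit false

namespace Pool.NC

theorem allA10 : St_A10 :=
  A10 (A7 A1 (A6 A1 (A3 A2) A3p A4 (A5 A1))) (A8a A1) A8b A9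

theorem allA13 : St_A13 := A13 allA10 A11 A12 A3p

theorem allB3 : St_B3 := B3 (A14 allA13) (B1 B0) B2

theorem allC7 : St_C7 := C7 (C3 C1 (C2 C1)) C4 C6

theorem allFinal : St_Final := Final allB3 allC7 C8 C9 C10 C11 C12

/-- quantitative form for complemented subspaces -/
theorem main : ∃ c : ℝ, 1 < c ∧
    ∀ (K : Type) [MetricSpace K] [CompactSpace K] (X : Submodule ℝ C(K, ℝ))
      (P : C(K, ℝ) →L[ℝ] X), (∀ x : X, P x = x) →
      (∀ f : C(K, ℝ), ‖(P f : C(K, ℝ))‖ ≤ c * ‖f‖) →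
      TopologicalSpace.SeparableSpace (StrongDual ℝ X) →
      ∃ (L : Type) (_ : TopologicalSpace L) (_ : CompactSpace L), T2Space L ∧ Countable L ∧
        Nonempty (X ≃L[ℝ] C(L, ℝ)) := by
  obtain ⟨c, hc, H⟩ := allFinal
  refine ⟨c, hc, ?_⟩
  intro K _ _ X P hP hPc hsep
  have hrange : Rg (X.subtypeL ∘L P) = X := by
    apply le_antisymm
    · rintro _ ⟨f, rfl⟩
      exact (P f).2
    · intro x hx
      exact ⟨x, congrArg Subtype.val (hP ⟨x, hx⟩)⟩
  have hidem : (X.subtypeL ∘L P) ∘L (X.subtypeL ∘L P) = X.subtypeL ∘L P := by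
    ext f t
    have := hP (P f)
    exact congrArg (fun y : X => (y : C(K, ℝ)) t) this
  have hnorm : ‖X.subtypeL ∘L P‖ ≤ c := by
    exact ContinuousLinearMap.opNorm_le_bound _ (by linarith) hPc
  have h := H K (X.subtypeL ∘L P) hidem hnorm
  rw [hrange] at h
  exact (h hsep).1

end Pool.NC
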