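import Mathlib
import Pool.Agent.Work.MP_052a41_nc.DefsBC

/-! C4: linear extension of norm one from closed subsets of a compact metric space
(MP_052a41_nc). -/

set_option autoImplicit false

open Metric

namespace Pool.NC

section C4

variable {K : Type} [MetricSpace K] [CompactSpace K] {T : Set K}

/-- weights -/
noncomputable def C4w (a : ℕ → T) (n : ℕ) (x : K) : ℝ :=
  (1 / 2) ^ n * max 0 (2 * infDist x T - dist x (a n))

theorem C4w_nonneg (a : ℕ → T) (n : ℕ) (x : K) : 0 ≤ C4w a n x := by
  unfold C4w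
  positivity

theorem C4w_continuous (a : ℕ → T) (n : ℕ) : Continuous (C4w a n) := by
  unfold C4w
  have h := continuous_infDist_pt T
  fun_prop

theorem C4w_le (a : ℕ → T) (n : ℕ) (x : K) :
    C4w a n x ≤ 2 * diam (Set.univ : Set K) * (1 / 2) ^ n := by
  unfold C4w
  have h1 : infDist x T ≤ diam (Set.univ : Set K) :=
    (infDist_le_dist_of_mem (a 0).2).trans
      (dist_le_diam_of_mem isCompact_univ.isBounded (Set.mem_univ _) (Set.mem_univ _))
  have h2 : max 0 (2 * infDist x T - dist x (a n)) ≤ 2 * diam (Set.univ : Set K) := by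
    refine max_le (by positivity) ?_
    have := dist_nonneg (x := x) (y := (a n : K))
    linarith
  rw [mul_comm]
  exact mul_le_mul_of_nonneg_right h2 (by positivity)

theorem C4sum : Summable fun n : ℕ => 2 * diam (Set.univ : Set K) * (1 / 2 : ℝ) ^ n :=
  summable_geometric_two.mul_left _

theorem C4w_summable (a : ℕ → T) (x : K) : Summable fun n => C4w a n x :=
  Summable.of_nonneg_of_le (fun n => C4w_nonneg a n x) (fun n => C4w_le a n x) C4sum

theorem C4wg_le [CompactSpace T] (a : ℕ → T) (g : C(T, ℝ)) (n : ℕ) (x : K) :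
    ‖C4w a n x * g (a n)‖ ≤ ‖g‖ * (2 * diam (Set.univ : Set K) * (1 / 2) ^ n) := by
  rw [norm_mul, Real.norm_of_nonneg (C4w_nonneg a n x), mul_comm]
  exact mul_le_mul (g.norm_coe_le_norm _) (C4w_le a n x) (C4w_nonneg a n x) (norm_nonneg _)

theorem C4wg_summable [CompactSpace T] (a : ℕ → T) (g : C(T, ℝ)) (x : K) :
    Summable fun n => C4w a n x * g (a n) :=
  Summable.of_norm_bounded (C4sum.mul_left _) (fun n => C4wg_le a g n x)

/-- total weight -/
noncomputable def C4W (a : ℕ → T) (x : K) : ℝ := ∑' n, C4w a n x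

/-- weighted sum -/
noncomputable def C4N [CompactSpace T] (a : ℕ → T) (g : C(T, ℝ)) (x : K) : ℝ :=
  ∑' n, C4w a n x * g (a n)

theorem C4W_continuous (a : ℕ → T) : Continuous (C4W a) :=
  continuous_tsum (C4w_continuous a) C4sum fun n x => by
    rw [Real.norm_of_nonneg (C4w_nonneg a n x)]
    exact C4w_le a n x

theorem C4N_continuous [CompactSpace T] (a : ℕ → T) (g : C(T, ℝ)) : Continuous (C4N a g) :=
  continuous_tsum (fun n => (C4w_continuous a n).mul continuous_const) (C4sum.mul_left ‖g‖)
    fun n x => C4wg_le a g n x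

theorem C4W_pos (a : ℕ → T) (ha : DenseRange a) (hT : IsClosed T) (hne : T.Nonempty) {x : K}
    (hx : x ∉ T) : 0 < C4W a x := by
  have hd : 0 < infDist x T := (hT.notMem_iff_infDist_pos hne).1 hx
  obtain ⟨t, ht, htd⟩ := (infDist_lt_iff hne (x := x) (r := 2 * infDist x T)).1 (by linarith)
  have hopen : IsOpen {s : T | dist x (s : K) < 2 * infDist x T} :=
    isOpen_lt (by fun_prop) continuous_const
  obtain ⟨n, hn⟩ := ha.exists_mem_open hopen ⟨⟨t, ht⟩, htd⟩
  have hn' : dist x (a n : K) < 2 * infDist x T := hn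
  unfold C4W
  refine (C4w_summable a x).tsum_pos (fun m => C4w_nonneg a m x) n ?_
  unfold C4w
  have : 0 < max 0 (2 * infDist x T - dist x (a n)) := lt_max_of_lt_right (by linarith)
  positivity

theorem C4_avg [CompactSpace T] (a : ℕ → T) (ha : DenseRange a) (hT : IsClosed T)
    (hne : T.Nonempty) (g : C(T, ℝ)) {x : K} (hx : x ∉ T) (c r : ℝ)
    (h : ∀ n, 0 < C4w a n x → |g (a n) - c| ≤ r) : |C4N a g x / C4W a x - c| ≤ r := by
  have hW := C4W_pos a ha hT hne hx
  have h1 : C4N a g x - c * C4W a x = ∑' n, C4w a n x * (g (a n) - c) := by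
    unfold C4N C4W
    rw [← tsum_mul_left, ← (C4wg_summable a g x).tsum_sub ((C4w_summable a x).mul_left c)]
    refine tsum_congr fun n => ?_
    ring
  have h2 : |C4N a g x - c * C4W a x| ≤ r * C4W a x := by
    rw [h1]
    unfold C4W
    rw [← tsum_mul_left]
    have h3 : ∀ n, ‖C4w a n x * (g (a n) - c)‖ ≤ r * C4w a n x := by
      intro n
      rw [norm_mul, Real.norm_of_nonneg (C4w_nonneg a n x), mul_comm, Real.norm_eq_abs]
      rcases (C4w_nonneg a n x).lt_or_eq with h4 | h4
      · exact mul_le_mul_of_nonneg_right (h n h4) (C4w_nonneg a n x)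
      · rw [← h4, mul_zero, mul_zero]
    have h5 : Summable fun n => r * C4w a n x := (C4w_summable a x).mul_left r
    exact tsum_of_norm_bounded h5.hasSum h3
  have h3 : C4N a g x / C4W a x - c = (C4N a g x - c * C4W a x) / C4W a x := by
    field_simp
  rw [h3, abs_div, abs_of_pos hW, div_le_iff₀ hW]
  exact h2

open Classical in
/-- the extension -/
noncomputable def C4e [CompactSpace T] (a : ℕ → T) (g : C(T, ℝ)) (x : K) : ℝ :=
  if h : x ∈ T then g ⟨x, h⟩ else C4N a g x / C4W a x

theorem C4e_mem [CompactSpace T] (a : ℕ → T) (g : C(T, ℝ)) {x : K} (h : x ∈ T) :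
    C4e a g x = g ⟨x, h⟩ := dif_pos h

theorem C4e_notMem [CompactSpace T] (a : ℕ → T) (g : C(T, ℝ)) {x : K} (h : x ∉ T) :
    C4e a g x = C4N a g x / C4W a x := dif_neg h

theorem C4e_continuous [CompactSpace T] (a : ℕ → T) (ha : DenseRange a) (hT : IsClosed T)
    (hne : T.Nonempty) (g : C(T, ℝ)) : Continuous (C4e a g) := by
  rw [continuous_iff_continuousAt]
  intro x
  by_cases hx : x ∈ T
  · rw [Metric.continuousAt_iff]
    intro ε hε
    obtain ⟨δ, hδ, hg⟩ := Metric.continuous_iff.1 g.continuous ⟨x, hx⟩ (ε / 2) (by linarith)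
    refine ⟨δ / 3, by linarith, fun y hy => ?_⟩
    rw [C4e_mem a g hx, Real.dist_eq]
    by_cases hyT : y ∈ T
    · rw [C4e_mem a g hyT, ← Real.dist_eq]
      refine (hg ⟨y, hyT⟩ ?_).trans (by linarith)
      rw [Subtype.dist_eq]
      linarith
    · rw [C4e_notMem a g hyT]
      refine (C4_avg a ha hT hne g hyT _ (ε / 2) fun n hn => ?_).trans_lt (by linarith)
      have h1 : dist y (a n) < 2 * infDist y T := by
        by_contra hcon
        push Not at hcon
        unfold C4w at hn
        rw [max_eq_left (by linarith), mul_zero] at hn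
        exact lt_irrefl _ hn
      have h2 : infDist y T ≤ dist y x := infDist_le_dist_of_mem hx
      have h3 : dist (a n) (⟨x, hx⟩ : T) < δ := by
        rw [Subtype.dist_eq]
        have h4 := dist_triangle_left (a n : K) x y
        linarith
      have h4 := hg (a n) h3
      rw [Real.dist_eq] at h4
      exact h4.le
  · have h1 : ContinuousAt (fun y => C4N a g y / C4W a y) x :=
      (C4N_continuous a g).continuousAt.div (C4W_continuous a).continuousAt
        (C4W_pos a ha hT hne hx).ne'
    refine h1.congr ?_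
    filter_upwards [hT.isOpen_compl.mem_nhds hx] with y hy
    exact (C4e_notMem a g hy).symm

theorem C4e_bound [CompactSpace T] (a : ℕ → T) (ha : DenseRange a) (hT : IsClosed T)
    (hne : T.Nonempty) (g : C(T, ℝ)) (x : K) : ‖C4e a g x‖ ≤ ‖g‖ := by
  by_cases hx : x ∈ T
  · rw [C4e_mem a g hx]
    exact g.norm_coe_le_norm _
  · rw [C4e_notMem a g hx, Real.norm_eq_abs]
    have h1 := C4_avg a ha hT hne g hx 0 ‖g‖ fun n _ => by
      rw [sub_zero, ← Real.norm_eq_abs]
      exact g.norm_coe_le_norm _
    rwa [sub_zero] at h1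

end C4

theorem C4 : St_C4 := by
  intro K _ _ T _ hne
  have hT : IsClosed T := (isCompact_iff_compactSpace.2 inferInstance).isClosed
  have : Nonempty T := hne.to_subtype
  let a : ℕ → T := TopologicalSpace.denseSeq T
  have ha : DenseRange a := TopologicalSpace.denseRange_denseSeq T
  refine ⟨{ toFun := fun g => ⟨C4e a g, C4e_continuous a ha hT hne g⟩
            map_add' := ?_
            map_smul' := ?_ }, ?_, ?_⟩
  · intro g h
    ext x
    change C4e a (g + h) x = C4e a g x + C4e a h x
    by_cases hx : x ∈ T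
    · rw [C4e_mem a _ hx, C4e_mem a _ hx, C4e_mem a _ hx]
      rfl
    · rw [C4e_notMem a _ hx, C4e_notMem a _ hx, C4e_notMem a _ hx, ← add_div]
      congr 1
      unfold C4N
      rw [← (C4wg_summable a g x).tsum_add (C4wg_summable a h x)]
      refine tsum_congr fun n => ?_
      rw [ContinuousMap.add_apply]
      ring
  · intro c g
    ext x
    change C4e a (c • g) x = c * C4e a g x
    by_cases hx : x ∈ T
    · rw [C4e_mem a _ hx, C4e_mem a _ hx]
      rfl
    · rw [C4e_notMem a _ hx, C4e_notMem a _ hx, ← mul_div_assoc]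
      congr 1
      unfold C4N
      rw [← tsum_mul_left]
      refine tsum_congr fun n => ?_
      rw [ContinuousMap.smul_apply, smul_eq_mul]
      ring
  · intro g t
    exact C4e_mem a g t.2
  · intro g
    rw [ContinuousMap.norm_le _ (norm_nonneg _)]
    exact fun x => C4e_bound a ha hT hne g x

end Pool.NC
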